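import Pool.Agent.ANQ.Defs

/-!
# The solvable Iwasawa group of `SO₀(2, 2 + k)` and an `AN`-map from the one of `SL₃(ℝ)`
-/

namespace Pool.Agent.ANQ

open Matrix Filter Topology Pool.Agent.ANM51

set_option linter.unusedSectionVars false

/-- The index set `e₁, e₂, e₁', e₂'` and `z₁, …, z_k`. -/
abbrev ISO (k : ℕ) := (Fin 2 ⊕ Fin 2) ⊕ Fin k

/-- the partner of an index: `e_i ↔ e_i'`, `z ↔ z` -/
def barSO {k : ℕ} : ISO k → ISO k
  | .inl p => .inl p.swap
  | .inr z => .inr z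

/-- The matrix of the quadratic form `2 (x₁ x₁' + x₂ x₂') + ∑ z_l²` of signature
`(2, 2 + k)`. -/
def JSO (k : ℕ) : Matrix (ISO k) (ISO k) ℝ := fun p q => if q = barSO p then 1 else 0

/-- The flag order `e₁ < e₂ < {z₁, …, z_k} < e₂' < e₁'`. -/
def levSO {k : ℕ} : ISO k → ℕ
  | .inl (.inl i) => i
  | .inr _ => 2
  | .inl (.inr i) => 4 - i

theorem levSO_inl {k : ℕ} {p : Fin 2 ⊕ Fin 2} {r : ISO k} (h : levSO r = levSO (.inl p : ISO k)) :
    r = .inl p := by
  rcases r with (i | i) | z <;> rcases p with j | j <;> fin_cases j <;>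
    first
      | (fin_cases i <;> simp_all [levSO])
      | simp_all [levSO]

theorem levSO_inr {k : ℕ} {z : Fin k} {r : ISO k} (h : levSO r = levSO (.inr z : ISO k)) :
    ∃ y, r = .inr y := by
  rcases r with (i | i) | y
  · fin_cases i <;> simp_all [levSO]
  · fin_cases i <;> simp_all [levSO]
  · exact ⟨y, rfl⟩

theorem mul_diag_inl {k : ℕ} {g h : Matrix (ISO k) (ISO k) ℝ} (hg : IsTri levSO g)
    (hh : IsTri levSO h) (p : Fin 2 ⊕ Fin 2) :
    (g * h) (.inl p) (.inl p) = g (.inl p) (.inl p) * h (.inl p) (.inl p) := by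
  rw [Matrix.mul_apply, Finset.sum_eq_single (.inl p)]
  · intro r _ hr
    rcases lt_trichotomy (levSO r) (levSO (.inl p : ISO k)) with h1 | h1 | h1
    · rw [hg _ r h1, zero_mul]
    · exact absurd (levSO_inl h1) hr
    · rw [hh r _ h1, mul_zero]
  · intro hp; exact absurd (Finset.mem_univ _) hp

theorem mul_block_inr {k : ℕ} {g h : Matrix (ISO k) (ISO k) ℝ} (hg : IsTri levSO g)
    (hh : IsTri levSO h) (hz : ∀ a b : Fin k, g (.inr a) (.inr b) = if a = b then 1 else 0)
    (a b : Fin k) : (g * h) (.inr a) (.inr b) = h (.inr a) (.inr b) := by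
  rw [Matrix.mul_apply, Finset.sum_eq_single (.inr a), hz, if_pos rfl, one_mul]
  · intro r _ hr
    rcases lt_trichotomy (levSO r) (levSO (.inr a : ISO k)) with h1 | h1 | h1
    · rw [hg _ r h1, zero_mul]
    · obtain ⟨y, rfl⟩ := levSO_inr h1
      rw [hz, if_neg (fun h => hr (by rw [h])), zero_mul]
    · rw [hh r (.inr b) h1, mul_zero]
  · intro hp; exact absurd (Finset.mem_univ _) hp

/-- The group `A₂N₂` of `SO₀(2, 2 + k)`: the matrices preserving the form which are (together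
with the inverse) upper triangular for the flag, with positive diagonal entries and with identity
block at `z₁, …, z_k`. -/
def ANSO (k : ℕ) : Subgroup (Matrix (ISO k) (ISO k) ℝ)ˣ where
  carrier := {g | g ∈ TriGrp (ISO k) ℝ levSO ∧
    (g : Matrix (ISO k) (ISO k) ℝ)ᵀ * JSO k * (g : Matrix (ISO k) (ISO k) ℝ) = JSO k ∧
    (∀ p, 0 < (g : Matrix (ISO k) (ISO k) ℝ) (.inl p) (.inl p)) ∧
    ∀ a b : Fin k, (g : Matrix (ISO k) (ISO k) ℝ) (.inr a) (.inr b) = if a = b then 1 else 0}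
  mul_mem' := by
    rintro a b ⟨ha, ha1, ha2, ha3⟩ ⟨hb, hb1, hb2, hb3⟩
    refine ⟨mul_mem ha hb, ?_, fun p => ?_, fun y z => ?_⟩
    · rw [Units.val_mul, Matrix.transpose_mul]
      calc (b : Matrix (ISO k) (ISO k) ℝ)ᵀ * (a : Matrix (ISO k) (ISO k) ℝ)ᵀ * JSO k *
            (a.val * b.val)
          = (b : Matrix (ISO k) (ISO k) ℝ)ᵀ * ((a : Matrix (ISO k) (ISO k) ℝ)ᵀ * JSO k *
            a.val) * b.val := by simp only [mul_assoc]
        _ = JSO k := by rw [ha1, hb1]
    · rw [Units.val_mul, mul_diag_inl ha.1 hb.1]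
      exact mul_pos (ha2 p) (hb2 p)
    · rw [Units.val_mul, mul_block_inr ha.1 hb.1 ha3, hb3]
  one_mem' := by
    refine ⟨one_mem _, ?_, fun p => ?_, fun y z => ?_⟩
    · rw [Units.val_one, Matrix.transpose_one, one_mul, mul_one]
    · rw [Units.val_one, Matrix.one_apply_eq]
      exact one_pos
    · rw [Units.val_one, Matrix.one_apply]
      simp
  inv_mem' := by
    rintro a ⟨ha, ha1, ha2, ha3⟩
    refine ⟨inv_mem ha, ?_, fun p => ?_, fun y z => ?_⟩
    · have h1 : a.val * (a⁻¹).val = 1 := Units.mul_inv a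
      have h2 : ((a⁻¹).val)ᵀ * (a.val)ᵀ = 1 := by
        rw [← Matrix.transpose_mul, h1, Matrix.transpose_one]
      calc ((a⁻¹).val)ᵀ * JSO k * (a⁻¹).val
          = ((a⁻¹).val)ᵀ * ((a.val)ᵀ * JSO k * a.val) * (a⁻¹).val := by rw [ha1]
        _ = (((a⁻¹).val)ᵀ * (a.val)ᵀ) * JSO k * (a.val * (a⁻¹).val) := by
            simp only [mul_assoc]
        _ = JSO k := by rw [h1, h2, one_mul, mul_one]
    · have h1 := mul_diag_inl ha.1 ha.2 p
      rw [← Units.val_mul, mul_inv_cancel, Units.val_one, Matrix.one_apply_eq] at h1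
      have h2 := ha2 p
      by_contra hcon
      push Not at hcon
      have h3 : a.val (.inl p) (.inl p) * (a⁻¹).val (.inl p) (.inl p) ≤ 0 :=
        mul_nonpos_of_nonneg_of_nonpos h2.le hcon
      linarith
    · have h1 := mul_block_inr ha.1 ha.2 ha3 y z
      rw [← Units.val_mul, mul_inv_cancel, Units.val_one, Matrix.one_apply] at h1
      rw [← h1]
      simp

/-! ## The `AN`-map -/

section map

variable {k : ℕ} (u : Fin k → ℝ)

/-- The image of the upper triangular matrix with diagonal `a, b, c` and entries `x, y, z` at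
`(0,1), (1,2), (0,2)`. -/
noncomputable def soM (a b c x y z : ℝ) : Matrix (ISO k) (ISO k) ℝ
  | .inl (.inl 0), .inl (.inl 0) => b / c
  | .inl (.inl 0), .inl (.inl 1) => 0
  | .inl (.inl 0), .inr l => y / c * u l
  | .inl (.inl 0), .inl (.inr 1) => (z * b - x * y) / (a * c)
  | .inl (.inl 0), .inl (.inr 0) => -(y ^ 2 / (2 * (b * c)))
  | .inl (.inl 1), .inl (.inl 0) => 0
  | .inl (.inl 1), .inl (.inl 1) => a / b
  | .inl (.inl 1), .inr l => x / b * u l
  | .inl (.inl 1), .inl (.inr 1) => -(x ^ 2 / (2 * (a * b)))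
  | .inl (.inl 1), .inl (.inr 0) => -(z / b)
  | .inr _, .inl (.inl _) => 0
  | .inr m, .inr l => if m = l then 1 else 0
  | .inr m, .inl (.inr 1) => -(x / a * u m)
  | .inr m, .inl (.inr 0) => -(y / b * u m)
  | .inl (.inr _), .inl (.inl _) => 0
  | .inl (.inr _), .inr _ => 0
  | .inl (.inr 1), .inl (.inr 1) => b / a
  | .inl (.inr 1), .inl (.inr 0) => 0
  | .inl (.inr 0), .inl (.inr 1) => 0
  | .inl (.inr 0), .inl (.inr 0) => c / b

theorem sum_ISO (f : ISO k → ℝ) : ∑ r, f r = f (.inl (.inl 0)) + f (.inl (.inl 1)) +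
    (f (.inl (.inr 0)) + f (.inl (.inr 1))) + ∑ l : Fin k, f (.inr l) := by
  rw [Fintype.sum_sum_type, Fintype.sum_sum_type, Fin.sum_univ_two, Fin.sum_univ_two]

theorem soM_mul (hu : ∑ l, u l * u l = 1) {a b c x y z a' b' c' x' y' z' : ℝ}
    (ha : a ≠ 0) (hb : b ≠ 0) (hc : c ≠ 0) (ha' : a' ≠ 0) (hb' : b' ≠ 0) (hc' : c' ≠ 0) :
    soM u a b c x y z * soM u a' b' c' x' y' z' =
      soM u (a * a') (b * b') (c * c') (a * x' + x * b') (b * y' + y * c')
        (a * z' + x * y' + z * c') := by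
  have hs : ∀ s t : ℝ, ∑ l, (s * u l) * -(t * u l) = -(s * t) := by
    intro s t
    have h1 : ∀ l, (s * u l) * -(t * u l) = -(s * t) * (u l * u l) := fun l => by ring
    simp only [h1, ← Finset.mul_sum, hu, mul_one]
  have hd1 : ∀ (s : ℝ) (m : Fin k), ∑ l, (s * u l) * (if l = m then (1 : ℝ) else 0) = s * u m := by
    intro s m
    simp
  have hd2 : ∀ (s : ℝ) (m : Fin k), ∑ l, (if m = l then (1 : ℝ) else 0) * -(s * u l) =
      -(s * u m) := by
    intro s m
    simp
  have hd3 : ∀ m l : Fin k, ∑ x, (if m = x then (1 : ℝ) else 0) * (if x = l then 1 else 0) =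
      if m = l then 1 else 0 := by
    intro m l
    rw [Finset.sum_eq_single m]
    · rw [if_pos rfl, one_mul]
    · intro b _ hb
      rw [if_neg (Ne.symm hb), zero_mul]
    · intro h; exact absurd (Finset.mem_univ _) h
  ext p q
  rw [Matrix.mul_apply, sum_ISO]
  rcases p with (i | i) | m <;> rcases q with (j | j) | l <;>
    first
      | (fin_cases i <;> fin_cases j)
      | (fin_cases i)
      | (fin_cases j)
      | skip
  all_goals simp only [soM, zero_mul, mul_zero, add_zero,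
    zero_add, Finset.sum_const_zero, hs, hd1, hd2, hd3]
  all_goals first
    | rfl
    | (field_simp; done)
    | (field_simp; ring)

theorem soM_one : soM u 1 1 1 0 0 0 = 1 := by
  ext p q
  rw [Matrix.one_apply]
  rcases p with (i | i) | m <;> rcases q with (j | j) | l <;>
    first
      | (fin_cases i <;> fin_cases j)
      | (fin_cases i)
      | (fin_cases j)
      | skip
  all_goals simp [soM]

theorem soM_form (hu : ∑ l, u l * u l = 1) {a b c : ℝ} (x y z : ℝ)
    (ha : a ≠ 0) (hb : b ≠ 0) (hc : c ≠ 0) :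
    (soM u a b c x y z)ᵀ * JSO k * soM u a b c x y z = JSO k := by
  have hJ : ∀ p q, (JSO k * soM u a b c x y z) p q = soM u a b c x y z (barSO p) q := by
    intro p q
    rw [Matrix.mul_apply, Finset.sum_eq_single (barSO p)]
    · rw [JSO, if_pos rfl, one_mul]
    · intro r _ hr
      rw [JSO, if_neg hr, zero_mul]
    · intro h; exact absurd (Finset.mem_univ _) h
  have hs2 : ∀ s t : ℝ, ∑ l, (s * u l) * (t * u l) = s * t := by
    intro s t
    have h1 : ∀ l, (s * u l) * (t * u l) = (s * t) * (u l * u l) := fun l => by ring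
    simp only [h1, ← Finset.mul_sum, hu, mul_one]
  rw [mul_assoc]
  ext p q
  rw [Matrix.mul_apply, sum_ISO]
  simp only [hJ, Matrix.transpose_apply, JSO]
  rcases p with (i | i) | m <;> rcases q with (j | j) | l <;>
    first
      | (fin_cases i <;> fin_cases j)
      | (fin_cases i)
      | (fin_cases j)
      | skip
  all_goals simp [soM, barSO, hs2]
  all_goals first
    | rfl
    | (field_simp; done)
    | (field_simp; ring)

theorem soM_tri (a b c x y z : ℝ) : IsTri levSO (soM u a b c x y z) := by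
  intro p q hpq
  rcases p with (i | i) | m <;> rcases q with (j | j) | l <;>
    first
      | (fin_cases i <;> fin_cases j)
      | (fin_cases i)
      | (fin_cases j)
      | skip
  all_goals first
    | rfl
    | (exfalso; revert hpq; simp [levSO])

/-- the image of a matrix -/
noncomputable def soG (g : Matrix (Fin (2 + 1)) (Fin (2 + 1)) ℝ) : Matrix (ISO k) (ISO k) ℝ :=
  soM u (g 0 0) (g 1 1) (g 2 2) (g 0 1) (g 1 2) (g 0 2)

theorem soG_one : soG u (1 : Matrix (Fin (2 + 1)) (Fin (2 + 1)) ℝ) = 1 := by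
  have h := soM_one u
  rw [soG, ← h]
  congr 1

theorem ansl_diag (g : ANSL 2 ℝ) : (0 < g.1.val 0 0 ∧ 0 < g.1.val 1 1 ∧ 0 < g.1.val 2 2) ∧
    g.1.val 0 0 * g.1.val 1 1 * g.1.val 2 2 = 1 := by
  obtain ⟨-, c, hc, hc1⟩ := g.2
  have h0 := hc 0
  have h1 := hc 1
  have h2 := hc 2
  simp only [Algebra.algebraMap_self, RingHom.id_apply] at h0 h1 h2
  rw [Fin.prod_univ_three] at hc1
  rw [h0.2, h1.2, h2.2]
  exact ⟨⟨h0.1, h1.1, h2.1⟩, hc1⟩

theorem ansl_tri (g : ANSL 2 ℝ) : g.1.val 1 0 = 0 ∧ g.1.val 2 0 = 0 ∧ g.1.val 2 1 = 0 := by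
  have h := g.2.1.1
  exact ⟨h 1 0 (by decide), h 2 0 (by decide), h 2 1 (by decide)⟩

theorem soG_mul (hu : ∑ l, u l * u l = 1) (g h : ANSL 2 ℝ) :
    soG u (g * h).1.val = soG u g.1.val * soG u h.1.val := by
  obtain ⟨⟨g0, g1, g2⟩, -⟩ := ansl_diag g
  obtain ⟨⟨h0, h1, h2⟩, -⟩ := ansl_diag h
  obtain ⟨g10, g20, g21⟩ := ansl_tri g
  obtain ⟨h10, h20, h21⟩ := ansl_tri h
  rw [soG, soG, soG, soM_mul u hu g0.ne' g1.ne' g2.ne' h0.ne' h1.ne' h2.ne']
  have e : (g * h).1.val = g.1.val * h.1.val := rfl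
  rw [e]
  have e2 : ∀ p q, (g.1.val * h.1.val) p q =
      g.1.val p 0 * h.1.val 0 q + g.1.val p 1 * h.1.val 1 q + g.1.val p 2 * h.1.val 2 q := by
    intro p q
    rw [Matrix.mul_apply, Fin.sum_univ_three]
  simp only [e2, g10, g20, g21, h10, h20, h21, zero_mul, mul_zero, add_zero, zero_add]

/-- the image of an element, as a unit -/
noncomputable def soU (hu : ∑ l, u l * u l = 1) (g : ANSL 2 ℝ) : (Matrix (ISO k) (ISO k) ℝ)ˣ where
  val := soG u g.1.val
  inv := soG u (g⁻¹).1.val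
  val_inv := by
    rw [← soG_mul u hu, mul_inv_cancel]
    exact soG_one u
  inv_val := by
    rw [← soG_mul u hu, inv_mul_cancel]
    exact soG_one u

/-- The `AN`-map. -/
noncomputable def soHom (hu : ∑ l, u l * u l = 1) : ANSL 2 ℝ →* ANSO k where
  toFun g := ⟨soU u hu g, by
    obtain ⟨⟨g0, g1, g2⟩, -⟩ := ansl_diag g
    refine ⟨⟨soM_tri u _ _ _ _ _ _, soM_tri u _ _ _ _ _ _⟩,
      soM_form u hu _ _ _ g0.ne' g1.ne' g2.ne', fun p => ?_, fun a b => rfl⟩
    rcases p with i | i <;> fin_cases i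
    · exact div_pos g1 g2
    · exact div_pos g0 g1
    · exact div_pos g2 g1
    · exact div_pos g1 g0⟩
  map_one' := by
    apply Subtype.ext
    apply Units.ext
    exact soG_one u
  map_mul' g h := by
    apply Subtype.ext
    apply Units.ext
    exact soG_mul u hu g h

theorem soHom_injective (hu : ∑ l, u l * u l = 1) : Function.Injective (soHom u hu) := by
  have hne : ∃ l, u l ≠ 0 := by
    by_contra hcon
    push Not at hcon
    simp only [hcon, mul_zero, Finset.sum_const_zero] at hu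
    exact zero_ne_one hu
  obtain ⟨l, hl⟩ := hne
  intro g h hgh
  have h1 : soG u g.1.val = soG u h.1.val := congrArg (fun x : ANSO k => x.1.val) hgh
  obtain ⟨⟨g0, g1, g2⟩, gd⟩ := ansl_diag g
  obtain ⟨⟨h0, h1', h2⟩, hd⟩ := ansl_diag h
  obtain ⟨g10, g20, g21⟩ := ansl_tri g
  obtain ⟨h10, h20, h21⟩ := ansl_tri h
  have e1 : g.1.val 1 1 / g.1.val 2 2 = h.1.val 1 1 / h.1.val 2 2 :=
    congrFun (congrFun h1 (.inl (.inl 0))) (.inl (.inl 0))
  have e2 : g.1.val 0 0 / g.1.val 1 1 = h.1.val 0 0 / h.1.val 1 1 :=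
    congrFun (congrFun h1 (.inl (.inl 1))) (.inl (.inl 1))
  have e3 : g.1.val 0 1 / g.1.val 1 1 * u l = h.1.val 0 1 / h.1.val 1 1 * u l :=
    congrFun (congrFun h1 (.inl (.inl 1))) (.inr l)
  have e4 : g.1.val 1 2 / g.1.val 2 2 * u l = h.1.val 1 2 / h.1.val 2 2 * u l :=
    congrFun (congrFun h1 (.inl (.inl 0))) (.inr l)
  have e5 : -(g.1.val 0 2 / g.1.val 1 1) = -(h.1.val 0 2 / h.1.val 1 1) :=
    congrFun (congrFun h1 (.inl (.inl 1))) (.inl (.inr 0))
  have e3' := mul_right_cancel₀ hl e3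
  have e4' := mul_right_cancel₀ hl e4
  have e5' := neg_injective e5
  set s := h.1.val 0 0 / h.1.val 1 1 with hs
  set t := h.1.val 1 1 / h.1.val 2 2 with ht
  have hs0 : 0 < s := div_pos h0 h1'
  have ht0 : 0 < t := div_pos h1' h2
  have ga : g.1.val 0 0 = s * g.1.val 1 1 := by
    rw [← e2]; field_simp
  have gb : g.1.val 1 1 = t * g.1.val 2 2 := by
    rw [← e1]; field_simp
  have ha : h.1.val 0 0 = s * h.1.val 1 1 := by
    rw [hs]; field_simp
  have hb : h.1.val 1 1 = t * h.1.val 2 2 := by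
    rw [ht]; field_simp
  have key : g.1.val 2 2 = h.1.val 2 2 := by
    have e6 : s * t ^ 2 * g.1.val 2 2 ^ 3 = s * t ^ 2 * h.1.val 2 2 ^ 3 := by
      have k1 : s * t ^ 2 * g.1.val 2 2 ^ 3 = 1 := by
        rw [← gd, ga, gb]; ring
      have k2 : s * t ^ 2 * h.1.val 2 2 ^ 3 = 1 := by
        rw [← hd, ha, hb]; ring
      rw [k1, k2]
    have e7 := mul_left_cancel₀ (by positivity) e6
    exact (pow_left_inj₀ g2.le h2.le (by norm_num)).1 e7
  have k1 : g.1.val 1 1 = h.1.val 1 1 := by rw [gb, hb, key]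
  have k0 : g.1.val 0 0 = h.1.val 0 0 := by rw [ga, ha, k1]
  have k3 : g.1.val 0 1 = h.1.val 0 1 := by
    rw [k1] at e3'
    exact (div_left_inj' h1'.ne').1 e3'
  have k4 : g.1.val 1 2 = h.1.val 1 2 := by
    rw [key] at e4'
    exact (div_left_inj' h2.ne').1 e4'
  have k5 : g.1.val 0 2 = h.1.val 0 2 := by
    rw [k1] at e5'
    exact (div_left_inj' h1'.ne').1 e5'
  apply Subtype.ext
  apply Units.ext
  ext p q
  fin_cases p <;> fin_cases q
  · exact k0
  · exact k3
  · exact k5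
  · exact g10.trans h10.symm
  · exact k1
  · exact k4
  · exact g20.trans h20.symm
  · exact g21.trans h21.symm
  · exact key

theorem continuous_soG : Continuous fun g : ANSL 2 ℝ => soG u g.1.val := by
  have hval : Continuous fun g : ANSL 2 ℝ => g.1.val :=
    Units.continuous_val.comp continuous_subtype_val
  have he : ∀ p q, Continuous fun g : ANSL 2 ℝ => g.1.val p q := fun p q =>
    hval.matrix_elem p q
  have h0 : ∀ g : ANSL 2 ℝ, g.1.val 0 0 ≠ 0 := fun g => (ansl_diag g).1.1.ne'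
  have h1 : ∀ g : ANSL 2 ℝ, g.1.val 1 1 ≠ 0 := fun g => (ansl_diag g).1.2.1.ne'
  have h2 : ∀ g : ANSL 2 ℝ, g.1.val 2 2 ≠ 0 := fun g => (ansl_diag g).1.2.2.ne'
  have e00 := he 0 0
  have e11 := he 1 1
  have e22 := he 2 2
  have e01 := he 0 1
  have e12 := he 1 2
  have e02 := he 0 2
  have d1 : ∀ g : ANSL 2 ℝ, g.1.val 0 0 * g.1.val 2 2 ≠ 0 := fun g => mul_ne_zero (h0 g) (h2 g)
  have d2 : ∀ g : ANSL 2 ℝ, 2 * (g.1.val 1 1 * g.1.val 2 2) ≠ 0 :=
    fun g => mul_ne_zero two_ne_zero (mul_ne_zero (h1 g) (h2 g))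
  have d3 : ∀ g : ANSL 2 ℝ, 2 * (g.1.val 0 0 * g.1.val 1 1) ≠ 0 :=
    fun g => mul_ne_zero two_ne_zero (mul_ne_zero (h0 g) (h1 g))
  refine continuous_matrix fun p q => ?_
  rcases p with (i | i) | m <;> rcases q with (j | j) | l <;>
    first
      | (fin_cases i <;> fin_cases j)
      | (fin_cases i)
      | (fin_cases j)
      | skip
  all_goals simp only [soG, soM]
  all_goals first
    | exact continuous_const
    | fun_prop (disch := assumption)

theorem continuous_soHom (hu : ∑ l, u l * u l = 1) : Continuous (soHom u hu) := by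
  refine Continuous.subtype_mk ?_ _
  rw [Units.continuous_iff]
  exact ⟨continuous_soG u, (continuous_soG u).comp continuous_inv⟩

end map

/-- For `k ≥ 1` there is an `AN`-map from `A₁N₁` of `SL₃(ℝ)` to `A₂N₂` of `SO₀(2, 2 + k)`. -/
theorem exists_anmap_so {k : ℕ} (hk : 1 ≤ k) :
    ∃ φ : ANSL 2 ℝ →* ANSO k, Continuous φ ∧ Function.Injective φ := by
  have hu : ∑ l, (Pi.single (⟨0, hk⟩ : Fin k) (1 : ℝ) : Fin k → ℝ) l *
      (Pi.single (⟨0, hk⟩ : Fin k) (1 : ℝ) : Fin k → ℝ) l = 1 := by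
    rw [Finset.sum_eq_single (⟨0, hk⟩ : Fin k)]
    · rw [Pi.single_eq_same, mul_one]
    · intro b _ hb
      rw [Pi.single_eq_of_ne hb, mul_zero]
    · intro h; exact absurd (Finset.mem_univ _) h
  exact ⟨soHom _ hu, continuous_soHom _ hu, soHom_injective _ hu⟩

end Pool.Agent.ANQ
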