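import Pool.Agent.ANQ.Near
import Pool.Agent.ANM65.Comp

/-!
# From the Riemannian metrics to the length functions
-/

namespace Pool.Agent.ANQ

open Matrix Filter Topology Pool.Agent.ANM51 Pool.Agent.ANM65

set_option linter.unusedSectionVars false

section br

variable {I D : Type} [Fintype I] [DecidableEq I] [Nonempty I] [NormedDivisionRing D]
  [NormedAlgebra ℝ D]

theorem len_le_of_bd {g : (Matrix I I D)ˣ} {c : ℝ} (h : Bd (Real.exp c) g) :
    len g ≤ c + Real.log ((Fintype.card I : ℝ) * Fintype.card I) := by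
  have hcard : (0 : ℝ) < Fintype.card I := by exact_mod_cast Fintype.card_pos
  have h1 := len_le_of_entries (g := g) (Real.exp_pos c) (fun p q => (h p q).1)
    (fun p q => (h p q).2)
  rw [← mul_assoc, Real.log_mul (by positivity) (Real.exp_pos _).ne', Real.log_exp] at h1
  linarith

theorem bd_len (g : (Matrix I I D)ˣ) : Bd (Real.exp (len g)) g := by
  intro p q
  refine ⟨norm_le_exp_len g p q, ?_⟩
  have := norm_le_exp_len g⁻¹ p q
  rwa [len_inv] at this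

end br

/-- linear comparison of a distance with the length function -/
structure LinComp {I D : Type} [Fintype I] [DecidableEq I] [NormedDivisionRing D]
    (d : (Matrix I I D)ˣ → (Matrix I I D)ˣ → ℝ) : Prop where
  bd : ∀ g h, Bd (Real.exp (d g h)) (g⁻¹ * h)
  le : ∃ a b : ℝ, 0 < a ∧ ∀ (g h : (Matrix I I D)ˣ) (c : ℝ), 0 ≤ c → Bd (Real.exp c) (g⁻¹ * h) →
    d g h ≤ a * c + b

theorem dX_linComp {I D : Type} [Fintype I] [DecidableEq I] [NormedDivisionRing D]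
    [InnerProductSpace ℝ D] [SMulCommClass ℝ D D] [FiniteDimensional ℝ D] :
    LinComp (dX (D := D) (ι := I)) := by
  refine ⟨fun g h => bd_of_symLen (g⁻¹ * h), ?_⟩
  set s := Real.sqrt (Module.finrank ℝ (PiLp 2 (fun _ : I => D))) with hs
  refine ⟨s + 1, s * Real.log (1 + Fintype.card I * Fintype.card I), by positivity,
    fun g h c hc hb => ?_⟩
  have h1 := symLen_le_of_bd (Real.one_le_exp hc) hb
  refine h1.trans ?_
  rw [Real.log_mul (by positivity) (Real.exp_pos _).ne', Real.log_exp, ← hs]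
  nlinarith

theorem qie_of_metric {n : ℕ} {D₁ D₂ : Type} [NormedDivisionRing D₁] [NormedAlgebra ℝ D₁]
    [NormedDivisionRing D₂] [NormedAlgebra ℝ D₂] {I : Type} [Fintype I] [DecidableEq I] [Nonempty I]
    {B : IForm I} {F : FormData D₂}
    {d₁ : (Matrix (Fin (n + 1)) (Fin (n + 1)) D₁)ˣ → (Matrix (Fin (n + 1)) (Fin (n + 1)) D₁)ˣ → ℝ}
    {d₂ : (Matrix I I D₂)ˣ → (Matrix I I D₂)ˣ → ℝ} (h₁ : LinComp d₁) (h₂ : LinComp d₂)
    {f : ANSL n D₁ → (Matrix I I D₂)ˣ}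
    (hmem : ∀ x, ct F.σ (f x).val * JI B D₂ * (f x).val = JI B D₂) {K C : ℝ} (hK : 1 ≤ K)
    (h : ∀ x y : ANSL n D₁, d₁ x.1 y.1 / K - C ≤ d₂ (f x) (f y) ∧
      d₂ (f x) (f y) ≤ K * d₁ x.1 y.1 + C) : ∃ L C', QIE B F f L C' := by
  obtain ⟨a₁, b₁, ha₁, hle₁⟩ := h₁.le
  obtain ⟨a₂, b₂, ha₂, hle₂⟩ := h₂.le
  have hK0 : 0 < K := by linarith
  set c₁ : ℝ := Real.log ((Fintype.card (Fin (n + 1)) : ℝ) * Fintype.card (Fin (n + 1))) with hc₁
  set c₂ : ℝ := Real.log ((Fintype.card I : ℝ) * Fintype.card I) with hc₂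
  set L : ℝ := K * a₁ + K * a₂ with hL
  have hL0 : 0 < L := by positivity
  have e1 : ∀ x y : ANSL n D₁, len (x⁻¹ * y).1 ≤ d₁ x.1 y.1 + c₁ := fun x y =>
    len_le_of_bd (h₁.bd x.1 y.1)
  have e2 : ∀ x y : ANSL n D₁, d₁ x.1 y.1 ≤ a₁ * len (x⁻¹ * y).1 + b₁ := fun x y =>
    hle₁ x.1 y.1 _ (len_nonneg _) (bd_len _)
  have e3 : ∀ x y : ANSL n D₁, len ((f x)⁻¹ * f y) ≤ d₂ (f x) (f y) + c₂ := fun x y =>
    len_le_of_bd (h₂.bd _ _)
  have e4 : ∀ x y : ANSL n D₁, d₂ (f x) (f y) ≤ a₂ * len ((f x)⁻¹ * f y) + b₂ := fun x y =>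
    hle₂ _ _ _ (len_nonneg _) (bd_len _)
  refine ⟨L, (K * b₁ + C + c₂) ⊔ ((c₁ / K + C + b₂) / a₂), hL0, hmem, fun x y => ?_,
    fun x y => ?_⟩
  · have h1 := e3 x y
    have h2 := (h x y).2
    have h3 := mul_le_mul_of_nonneg_left (e2 x y) hK0.le
    have h4 := len_nonneg (x⁻¹ * y).1
    have h5 : K * a₁ * len (x⁻¹ * y).1 ≤ L * len (x⁻¹ * y).1 :=
      mul_le_mul_of_nonneg_right (by rw [hL]; nlinarith) h4
    have h6 := le_max_left (K * b₁ + C + c₂) ((c₁ / K + C + b₂) / a₂)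
    nlinarith
  · have h1 := e4 x y
    have h2 := (h x y).1
    have h3 : (len (x⁻¹ * y).1 - c₁) / K ≤ d₁ x.1 y.1 / K :=
      div_le_div_of_nonneg_right (by linarith [e1 x y]) hK0.le
    have h4 := len_nonneg (x⁻¹ * y).1
    have h5 : len (x⁻¹ * y).1 / L ≤ len (x⁻¹ * y).1 / (K * a₂) :=
      div_le_div_of_nonneg_left h4 (by positivity) (by rw [hL]; nlinarith)
    have h6 := le_max_right (K * b₁ + C + c₂) ((c₁ / K + C + b₂) / a₂)
    have h7 : len (x⁻¹ * y).1 / (K * a₂) - (c₁ / K + C + b₂) / a₂ =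
        ((len (x⁻¹ * y).1 - c₁) / K - C - b₂) / a₂ := by
      field_simp
      ring
    have h8 : ((len (x⁻¹ * y).1 - c₁) / K - C - b₂) / a₂ ≤ len ((f x)⁻¹ * f y) := by
      rw [div_le_iff₀ ha₂]
      linarith
    linarith

end Pool.Agent.ANQ
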