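import Pool.Agent.ANQ.Defs
import Pool.Agent.ANM65.OctRho

/-!
# The solvable Iwasawa group of `E₇(-25)` and an `AN`-map from the one of `SL₄(ℍ)`
-/

namespace Pool.Agent.ANQ

open Matrix Filter Topology Pool.Agent.ANM51 Pool.Agent.ANM65
open scoped Quaternion

set_option linter.unusedSectionVars false

/-- The space `H_3(𝕆) × ℝ` on which the affine transformations of `H_3(𝕆)` act linearly. -/
abbrev E7sp := JJ × ℝ

/-- **The group `A₂N₂` of `E₇(-25)`**, as a group of affine transformations `X ↦ L X + v` of the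
Jordan algebra `H_3(𝕆)`, i.e. of linear transformations `(X, t) ↦ (L X + t v, t)` of
`H_3(𝕆) × ℝ`: the group generated by the translations `X ↦ X + v`, `v ∈ H_3(𝕆)`, by
`X ↦ D X D` with `D` diagonal and positive, and by
`X ↦ (1 + z E_ij) X (1 + z E_ij)^*` with `i < j` and `z ∈ 𝕆`. -/
noncomputable def ANE7 : Subgroup (E7sp →L[ℝ] E7sp)ˣ :=
  Subgroup.closure
    ({g | ∃ v : JJ, ∀ (X : JJ) (t : ℝ), g.val (X, t) = (X + t • v, t)} ∪
      {g | ∃ a : Fin 3 → ℝ, (∀ i, 0 < a i) ∧ ∀ (X : JJ) (t : ℝ), g.val (X, t) = (DJ a X, t)} ∪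
      {g | ∃ (i j : Fin 3) (z : OO), i < j ∧ ∀ (X : JJ) (t : ℝ), g.val (X, t) = (TJ i j z X, t)})

/-- the element `(0, w)` of `H_3(𝕆) = H_3(ℍ) ⊕ ℍ³` -/
noncomputable def mkw (w : Fin 3 → ℍ[ℝ]) : JJ :=
  ⟨mkJ 0 w, mkJ_mem (Matrix.conjTranspose_zero) w⟩

theorem rhoJ_mkw (g g' : Matrix (Fin 3) (Fin 3) ℍ[ℝ]) (w : Fin 3 → ℍ[ℝ]) :
    rhoJ g g' (mkw w) = mkw (w ᵥ* g') := by
  apply Subtype.ext
  rw [rhoJ_apply]
  change mkJ (g * apart (mkJ 0 w) * gᴴ) (wpart (mkJ 0 w) ᵥ* g') = mkJ 0 (w ᵥ* g')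
  rw [apart_mkJ, wpart_mkJ, mul_zero, zero_mul]

theorem mkw_add (w w' : Fin 3 → ℍ[ℝ]) : mkw (w + w') = mkw w + mkw w' := by
  apply Subtype.ext
  change mkJ 0 (w + w') = mkJ 0 w + mkJ 0 w'
  rw [← mkJ_add, add_zero]

theorem mkw_zero : mkw 0 = 0 := by
  have h := mkw_add 0 0
  rw [add_zero] at h
  exact (left_eq_add.mp h)

/-- `(X, t) ↦ (ρ(H, H') X + t (0, w), t)` -/
noncomputable def E7L (H H' : Matrix (Fin 3) (Fin 3) ℍ[ℝ]) (w : Fin 3 → ℍ[ℝ]) :
    E7sp →ₗ[ℝ] E7sp where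
  toFun X := (rhoJ H H' X.1 + X.2 • mkw w, X.2)
  map_add' X Y := by
    apply Prod.ext
    · simp only [Prod.fst_add, Prod.snd_add, map_add, add_smul]
      abel
    · rfl
  map_smul' r X := by
    apply Prod.ext
    · simp only [Prod.smul_fst, Prod.smul_snd, map_smul, smul_eq_mul, mul_smul, smul_add,
        RingHom.id_apply]
    · rfl

theorem E7L_apply (H H' : Matrix (Fin 3) (Fin 3) ℍ[ℝ]) (w : Fin 3 → ℍ[ℝ]) (X : JJ) (t : ℝ) :
    E7L H H' w (X, t) = (rhoJ H H' X + t • mkw w, t) := rfl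

theorem E7L_mul (H H' K K' : Matrix (Fin 3) (Fin 3) ℍ[ℝ]) (w w' : Fin 3 → ℍ[ℝ]) :
    E7L H H' w * E7L K K' w' = E7L (H * K) (K' * H') (w + w' ᵥ* H') := by
  apply LinearMap.ext
  rintro ⟨X, t⟩
  rw [E7L_apply]
  change E7L H H' w (E7L K K' w' (X, t)) = _
  rw [E7L_apply, E7L_apply, map_add, map_smul, rhoJ_mkw, mkw_add, smul_add, rhoJ_mul]
  apply Prod.ext
  · change rhoJ H H' (rhoJ K K' X) + t • mkw (w' ᵥ* H') + t • mkw w =
      rhoJ H H' (rhoJ K K' X) + (t • mkw w + t • mkw (w' ᵥ* H'))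
    abel
  · rfl

theorem E7L_one : E7L 1 1 0 = 1 := by
  apply LinearMap.ext
  rintro ⟨X, t⟩
  rw [E7L_apply, rhoJ_one, mkw_zero, smul_zero, add_zero]
  rfl

/-! ## The blocks of a `4 × 4` matrix -/

/-- lower right `3 × 3` block -/
def sub3 (M : Matrix (Fin (3 + 1)) (Fin (3 + 1)) ℍ[ℝ]) : Matrix (Fin 3) (Fin 3) ℍ[ℝ] :=
  fun i j => M i.succ j.succ

/-- the first row without the corner -/
def row3 (M : Matrix (Fin (3 + 1)) (Fin (3 + 1)) ℍ[ℝ]) : Fin 3 → ℍ[ℝ] := fun j => M 0 j.succ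

theorem sub3_mul {M N : Matrix (Fin (3 + 1)) (Fin (3 + 1)) ℍ[ℝ]}
    (hM : ∀ i : Fin 3, M i.succ 0 = 0) : sub3 (M * N) = sub3 M * sub3 N := by
  ext1 i j
  rw [sub3, Matrix.mul_apply, Fin.sum_univ_succ, hM, zero_mul, zero_add, Matrix.mul_apply]
  rfl

theorem row3_mul (M N : Matrix (Fin (3 + 1)) (Fin (3 + 1)) ℍ[ℝ]) (j : Fin 3) :
    row3 (M * N) j = M 0 0 * row3 N j + (row3 M ᵥ* sub3 N) j := by
  rw [row3, Matrix.mul_apply, Fin.sum_univ_succ]
  rfl

theorem sub3_one : sub3 1 = 1 := by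
  ext1 i j
  rw [sub3, Matrix.one_apply, Matrix.one_apply]
  simp

theorem row3_one : row3 1 = 0 := by
  funext j
  rw [row3, Matrix.one_apply_ne]
  · rfl
  · exact (Fin.succ_ne_zero j).symm

/-! ## The representation -/

/-- the corner entry -/
noncomputable def cc3 (g : ANSL 3 ℍ[ℝ]) : ℝ := (g.1.val 0 0).re

theorem cc3_spec (g : ANSL 3 ℍ[ℝ]) : 0 < cc3 g ∧ g.1.val 0 0 = algebraMap ℝ ℍ[ℝ] (cc3 g) := by
  obtain ⟨-, c, hc, -⟩ := g.2
  have h := hc 0
  have h1 : cc3 g = c 0 := by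
    rw [cc3, h.2]
    rfl
  rw [h1]
  exact h

theorem g_col (g : ANSL 3 ℍ[ℝ]) (i : Fin 3) : g.1.val i.succ 0 = 0 :=
  g.2.1.1 i.succ 0 (by simp)

theorem cc3_mul (g h : ANSL 3 ℍ[ℝ]) : cc3 (g * h) = cc3 g * cc3 h := by
  have h1 : (g * h).1.val 0 0 = g.1.val 0 0 * h.1.val 0 0 :=
    IsTri.mul_diag Fin.val_injective g.2.1.1 h.2.1.1 0
  have h2 := (cc3_spec (g * h)).2
  rw [h1, (cc3_spec g).2, (cc3_spec h).2, ← map_mul] at h2
  exact ((algebraMap ℝ ℍ[ℝ]).injective h2).symm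

theorem cc3_one : cc3 1 = 1 := by
  rw [cc3]
  change ((1 : Matrix (Fin (3 + 1)) (Fin (3 + 1)) ℍ[ℝ]) 0 0).re = 1
  rw [Matrix.one_apply_eq]
  rfl

theorem sub3_mul' (g h : ANSL 3 ℍ[ℝ]) :
    sub3 (g * h).1.val = sub3 g.1.val * sub3 h.1.val := sub3_mul (g_col g)

theorem sub3_inv (g : ANSL 3 ℍ[ℝ]) : sub3 g.1.val * sub3 (g⁻¹).1.val = 1 := by
  rw [← sub3_mul', mul_inv_cancel]
  exact sub3_one

theorem row3_mul' (g h : ANSL 3 ℍ[ℝ]) :
    row3 (g * h).1.val = cc3 g • row3 h.1.val + row3 g.1.val ᵥ* sub3 h.1.val := by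
  funext j
  have h1 : row3 (g * h).1.val j = _ := row3_mul g.1.val h.1.val j
  rw [h1, (cc3_spec g).2, ← Algebra.smul_def]
  rfl

/-- the representation of `A₁N₁` -/
noncomputable def e7rep : ANSL 3 ℍ[ℝ] →* (E7sp →ₗ[ℝ] E7sp) where
  toFun g := E7L (cc3 g • sub3 g.1.val) (cc3 g • sub3 (g⁻¹).1.val)
    (row3 g.1.val ᵥ* sub3 (g⁻¹).1.val)
  map_one' := by
    have h1 : sub3 (1 : ANSL 3 ℍ[ℝ]).1.val = 1 := sub3_one
    have h2 : row3 (1 : ANSL 3 ℍ[ℝ]).1.val = 0 := row3_one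
    rw [inv_one, h1, h2, cc3_one, one_smul, Matrix.zero_vecMul]
    exact E7L_one
  map_mul' g h := by
    rw [E7L_mul]
    congr 1
    · rw [cc3_mul, sub3_mul', Matrix.smul_mul, Matrix.mul_smul, smul_smul]
    · rw [_root_.mul_inv_rev, cc3_mul, sub3_mul', Matrix.smul_mul, Matrix.mul_smul, smul_smul,
        mul_comm (cc3 g)]
    · rw [_root_.mul_inv_rev, sub3_mul', row3_mul', Matrix.add_vecMul, ← Matrix.vecMul_vecMul,
        ← Matrix.vecMul_vecMul, Matrix.vecMul_vecMul (row3 g.1.val), sub3_inv, Matrix.vecMul_one,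
        smul_vecMul', smul_vecMul', add_comm]
      congr 1
      rw [Matrix.vecMul_smul]

theorem e7rep_apply (g : ANSL 3 ℍ[ℝ]) : e7rep g = E7L (cc3 g • sub3 g.1.val)
    (cc3 g • sub3 (g⁻¹).1.val) (row3 g.1.val ᵥ* sub3 (g⁻¹).1.val) := rfl

/-- linear maps of the finite-dimensional space as continuous linear maps -/
noncomputable def toC : (E7sp →ₗ[ℝ] E7sp) →* (E7sp →L[ℝ] E7sp) :=
  (Module.End.toContinuousLinearMap (𝕜 := ℝ) E7sp).toMulEquiv.toMonoidHom

theorem toC_apply (L : E7sp →ₗ[ℝ] E7sp) (X : E7sp) : toC L X = L X := rfl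

/-- the homomorphism into the group of continuous linear automorphisms -/
noncomputable def e7U : ANSL 3 ℍ[ℝ] →* (E7sp →L[ℝ] E7sp)ˣ :=
  MonoidHom.toHomUnits (toC.comp e7rep)

theorem e7U_apply (g : ANSL 3 ℍ[ℝ]) (X : JJ) (t : ℝ) :
    (e7U g).val (X, t) = e7rep g (X, t) := rfl

/-! ## Membership -/

theorem e7U_ext {g h : (E7sp →L[ℝ] E7sp)ˣ} (H : ∀ (X : JJ) (t : ℝ), g.val (X, t) = h.val (X, t)) :
    g = h := by
  apply Units.ext
  apply ContinuousLinearMap.ext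
  rintro ⟨X, t⟩
  exact H X t

/-- `L ↦ L × id` -/
noncomputable def linE : Module.End ℝ JJ →* (E7sp →ₗ[ℝ] E7sp) where
  toFun L := L.prodMap LinearMap.id
  map_one' := rfl
  map_mul' _ _ := rfl

/-- Linear transformations as elements of the big group. -/
noncomputable def linU : (Module.End ℝ JJ)ˣ →* (E7sp →L[ℝ] E7sp)ˣ := Units.map (toC.comp linE)

theorem linU_apply (L : (Module.End ℝ JJ)ˣ) (X : JJ) (t : ℝ) :
    (linU L).val (X, t) = (L.val X, t) := rfl

/-- `(X, t) ↦ (X + t v, t)` -/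
noncomputable def trE (v : JJ) : E7sp →ₗ[ℝ] E7sp :=
  LinearMap.prod (LinearMap.fst ℝ JJ ℝ + (LinearMap.snd ℝ JJ ℝ).smulRight v)
    (LinearMap.snd ℝ JJ ℝ)

theorem trE_apply (v : JJ) (X : JJ) (t : ℝ) : trE v (X, t) = (X + t • v, t) := rfl

theorem trE_mul_neg (v : JJ) : trE v * trE (-v) = 1 := by
  apply LinearMap.ext
  rintro ⟨X, t⟩
  change trE v (trE (-v) (X, t)) = (X, t)
  rw [trE_apply, trE_apply, smul_neg, neg_add_cancel_right]

/-- Translations as elements of the big group. -/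
noncomputable def trU (v : JJ) : (E7sp →L[ℝ] E7sp)ˣ where
  val := toC (trE v)
  inv := toC (trE (-v))
  val_inv := by rw [← map_mul, trE_mul_neg, map_one]
  inv_val := by
    rw [← map_mul]
    have h := trE_mul_neg (-v)
    rw [neg_neg] at h
    rw [h, map_one]

theorem trU_apply (v : JJ) (X : JJ) (t : ℝ) : (trU v).val (X, t) = (X + t • v, t) := rfl

theorem trU_mem (v : JJ) : trU v ∈ ANE7 :=
  Subgroup.subset_closure (Or.inl (Or.inl ⟨v, trU_apply v⟩))

theorem linU_DU_mem (a : Fin 3 → ℝ) (ha : ∀ i, 0 < a i) : linU (DU a ha) ∈ ANE7 :=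
  Subgroup.subset_closure (Or.inl (Or.inr ⟨a, ha, fun X t => linU_apply _ X t⟩))

theorem linU_TU_mem {i j : Fin 3} (hij : i < j) (z : OO) :
    linU (TU (ne_of_lt hij) z) ∈ ANE7 :=
  Subgroup.subset_closure (Or.inr ⟨i, j, z, hij, fun X t => linU_apply _ X t⟩)

theorem alg_star (r : ℝ) : star (algebraMap ℝ ℍ[ℝ] r) = algebraMap ℝ ℍ[ℝ] r :=
  Quaternion.star_coe r

theorem mul_alg (q : ℍ[ℝ]) (r : ℝ) : q * algebraMap ℝ ℍ[ℝ] r = r • q := by
  rw [Algebra.smul_def, Algebra.commutes]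

theorem JJ_snd (X : JJ) (k l : Fin 3) : (X.1 (k, l)).snd = bmat (wpart X.1) k l := by
  nth_rewrite 1 [← mkJ_parts X.2]
  rfl

/-- diagonal positive quaternionic matrices act by `DJ`, up to a factor on the second part -/
theorem rhoJ_diag (a : Fin 3 → ℝ) (ha : ∀ i, 0 < a i) :
    rhoJ (Matrix.diagonal fun i => algebraMap ℝ ℍ[ℝ] (a i))
      (Matrix.diagonal fun i => algebraMap ℝ ℍ[ℝ] ((a 0 * a 1 * a 2) / a i)) = DJ a := by
  ext1 X
  apply Subtype.ext
  rw [rhoJ_apply]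
  change _ = dmap a X.1
  ext1 ⟨k, l⟩
  rw [mkJ_apply, dmap_apply]
  refine oo_ext ?_ ?_
  · rw [oo_fst, Matrix.diagonal_conjTranspose, Matrix.mul_diagonal, Matrix.diagonal_mul,
      oo_smul_fst, Pi.star_apply, alg_star, mul_alg, ← Algebra.smul_def, smul_smul,
      mul_comm (a l)]
    rfl
  · rw [oo_snd, oo_smul_snd, JJ_snd]
    have hw : ∀ i, (wpart X.1 ᵥ* Matrix.diagonal fun i => algebraMap ℝ ℍ[ℝ]
        ((a 0 * a 1 * a 2) / a i)) i = ((a 0 * a 1 * a 2) / a i) • wpart X.1 i := by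
      intro i
      rw [Matrix.vecMul_diagonal, mul_alg]
    have h0 := (ha 0).ne'
    have h1 := (ha 1).ne'
    have h2 := (ha 2).ne'
    have e0 : a 0 * a 1 * a 2 / a 0 = a 1 * a 2 := by field_simp
    have e1 : a 0 * a 1 * a 2 / a 1 = a 0 * a 2 := by field_simp
    have e2 : a 0 * a 1 * a 2 / a 2 = a 0 * a 1 := by field_simp
    generalize (wpart X.1 ᵥ* Matrix.diagonal fun i => algebraMap ℝ ℍ[ℝ]
        ((a 0 * a 1 * a 2) / a i)) = w' at hw ⊢
    have w0 := hw 0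
    have w1 := hw 1
    have w2 := hw 2
    rw [e0] at w0
    rw [e1] at w1
    rw [e2] at w2
    fin_cases k <;> fin_cases l <;>
      simp [bmat, w0, w1, w2, smul_neg, mul_comm (a 1) (a 0), mul_comm (a 2) (a 0),
        mul_comm (a 2) (a 1)]

/-- An upper triangular quaternionic matrix with positive diagonal acts by an element of the
group, if the second part is normalised by the determinant. -/
theorem linU_mem (H H' : Matrix (Fin 3) (Fin 3) ℍ[ℝ]) (a : Fin 3 → ℝ) (ha : ∀ i, 0 < a i)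
    (htri : ∀ i j : Fin 3, j < i → H i j = 0) (hdiag : ∀ i, H i i = algebraMap ℝ ℍ[ℝ] (a i))
    (hinv : H * H' = (a 0 * a 1 * a 2) • (1 : Matrix (Fin 3) (Fin 3) ℍ[ℝ]))
    (g : (E7sp →L[ℝ] E7sp)ˣ) (hg : ∀ (X : JJ) (t : ℝ), g.val (X, t) = (rhoJ H H' X, t)) :
    g ∈ ANE7 := by
  have l01 : (0 : Fin (2 + 1)) < 1 := by decide
  have l02 : (0 : Fin (2 + 1)) < 2 := by decide
  have l12 : (1 : Fin (2 + 1)) < 2 := by decide
  set x : ℍ[ℝ] := (a 0)⁻¹ • H 0 1 with hx
  set z : ℍ[ℝ] := (a 0)⁻¹ • H 0 2 with hz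
  set y : ℍ[ℝ] := (a 1)⁻¹ • H 1 2 with hy
  set nn : (Matrix (Fin (2 + 1)) (Fin (2 + 1)) ℍ[ℝ])ˣ :=
    rtU l12 y * rtU l02 z * rtU l01 x with hnn
  have hnval : nn.val = !![1, x, z; 0, 1, y; 0, 0, 1] := by
    change rtM (n := 2) 1 2 y * rtM (n := 2) 0 2 z * rtM (n := 2) 0 1 x = _
    have h3 : ∀ (M N : Matrix (Fin (2 + 1)) (Fin (2 + 1)) ℍ[ℝ]) (i j : Fin (2 + 1)),
        (M * N) i j = M i 0 * N 0 j + M i 1 * N 1 j + M i 2 * N 2 j := by
      intro M N i j
      rw [Matrix.mul_apply, Fin.sum_univ_three]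
    ext1 i j
    simp only [h3, rtM, Matrix.add_apply]
    fin_cases i <;> fin_cases j <;> simp [Matrix.one_apply]
  have hH : H = (Matrix.diagonal fun i => algebraMap ℝ ℍ[ℝ] (a i)) * nn.val := by
    rw [hnval]
    have h0 := (ha 0).ne'
    have h1 := (ha 1).ne'
    ext1 i j
    rw [Matrix.diagonal_mul, ← Algebra.smul_def]
    fin_cases i <;> fin_cases j
    · simp [hdiag, Algebra.algebraMap_eq_smul_one]
    · simp [hx, smul_smul, h0]
    · simp [hz, smul_smul, h0]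
    · simp [htri 1 0 (by decide)]
    · simp [hdiag, Algebra.algebraMap_eq_smul_one]
    · simp [hy, smul_smul, h1]
    · simp [htri 2 0 (by decide)]
    · simp [htri 2 1 (by decide)]
    · simp [hdiag, Algebra.algebraMap_eq_smul_one]
  have hH' : H' = (nn⁻¹).val *
      (Matrix.diagonal fun i => algebraMap ℝ ℍ[ℝ] ((a 0 * a 1 * a 2) / a i)) := by
    have e1 : ((nn⁻¹).val * (Matrix.diagonal fun i => algebraMap ℝ ℍ[ℝ] ((a i)⁻¹))) * H = 1 := by
      rw [hH, mul_assoc, ← mul_assoc (Matrix.diagonal _) (Matrix.diagonal _),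
        Matrix.diagonal_mul_diagonal]
      have e2 : (Matrix.diagonal fun i => algebraMap ℝ ℍ[ℝ] ((a i)⁻¹) *
          algebraMap ℝ ℍ[ℝ] (a i)) = (1 : Matrix (Fin 3) (Fin 3) ℍ[ℝ]) := by
        rw [← Matrix.diagonal_one]
        congr 1
        funext i
        rw [← map_mul, inv_mul_cancel₀ (ha i).ne', map_one]
      rw [e2, one_mul]
      exact Units.inv_mul nn
    calc H' = (((nn⁻¹).val * (Matrix.diagonal fun i => algebraMap ℝ ℍ[ℝ] ((a i)⁻¹))) * H) * H' := by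
          rw [e1, one_mul]
      _ = ((nn⁻¹).val * (Matrix.diagonal fun i => algebraMap ℝ ℍ[ℝ] ((a i)⁻¹))) *
          ((a 0 * a 1 * a 2) • (1 : Matrix (Fin 3) (Fin 3) ℍ[ℝ])) := by rw [mul_assoc _ H, hinv]
      _ = _ := by
          rw [Matrix.mul_smul, mul_one, ← Matrix.mul_smul]
          congr 1
          ext1 i j
          rw [Matrix.smul_apply]
          by_cases hij : i = j
          · subst hij
            rw [Matrix.diagonal_apply_eq, Matrix.diagonal_apply_eq, div_eq_mul_inv, map_mul,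
              Algebra.smul_def]
          · rw [Matrix.diagonal_apply_ne _ hij, Matrix.diagonal_apply_ne _ hij, smul_zero]
  have hrho : rhoJ H H' = DJ a * (rhoU nn).val := by
    rw [rhoU_val, ← rhoJ_diag a ha, ← rhoJ_mul, ← hH, ← hH']
  have hgg : g = linU (DU a ha) * (linU (TU (ne_of_lt l12) (oo y 0)) *
      linU (TU (ne_of_lt l02) (oo z 0)) * linU (TU (ne_of_lt l01) (oo x 0))) := by
    rw [← rhoU_rt l12, ← rhoU_rt l02, ← rhoU_rt l01, ← map_mul, ← map_mul, ← map_mul, ← map_mul,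
      ← map_mul, ← hnn]
    refine e7U_ext fun X t => ?_
    rw [hg, linU_apply, hrho]
    rfl
  rw [hgg]
  exact mul_mem (linU_DU_mem a ha)
    (mul_mem (mul_mem (linU_TU_mem l12 _) (linU_TU_mem l02 _)) (linU_TU_mem l01 _))

theorem e7U_mem (g : ANSL 3 ℍ[ℝ]) : e7U g ∈ ANE7 := by
  obtain ⟨-, c, hc, hc1⟩ := id g.2
  have hcc : cc3 g = c 0 := by
    rw [cc3, (hc 0).2]
    rfl
  rw [Fin.prod_univ_four] at hc1
  have hc0 := (hc 0).1
  set L : (E7sp →L[ℝ] E7sp)ˣ := (trU (mkw (row3 g.1.val ᵥ* sub3 (g⁻¹).1.val)))⁻¹ * e7U g with hL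
  have hLa : ∀ (X : JJ) (t : ℝ), L.val (X, t) =
      (rhoJ (cc3 g • sub3 g.1.val) (cc3 g • sub3 (g⁻¹).1.val) X, t) := by
    intro X t
    change (trU (mkw (row3 g.1.val ᵥ* sub3 (g⁻¹).1.val))).inv ((e7U g).val (X, t)) = _
    rw [e7U_apply, e7rep_apply, E7L_apply]
    change trE (-(mkw (row3 g.1.val ᵥ* sub3 (g⁻¹).1.val))) _ = _
    rw [trE_apply, smul_neg, add_neg_cancel_right]
  have hmem : L ∈ ANE7 := by
    refine linU_mem _ _ (fun i => c 0 * c i.succ) (fun i => mul_pos hc0 (hc _).1) ?_ ?_ ?_ L hLa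
    · intro i j hji
      rw [Matrix.smul_apply, sub3, g.2.1.1 i.succ j.succ (by
        simp only [Fin.val_succ]
        have : (j : ℕ) < i := hji
        omega), smul_zero]
    · intro i
      rw [Matrix.smul_apply, sub3, (hc i.succ).2, hcc, map_mul, Algebra.smul_def]
    · rw [Matrix.smul_mul, Matrix.mul_smul, sub3_inv, smul_smul, hcc]
      congr 1
      have h1 : c 1 = c (0 : Fin 3).succ := rfl
      have h2 : c 2 = c (1 : Fin 3).succ := rfl
      have h3 : c 3 = c (2 : Fin 3).succ := rfl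
      rw [h1, h2, h3] at hc1
      calc c 0 * c 0 = c 0 * c 0 * 1 := by ring
        _ = c 0 * c 0 * (c 0 * c (0 : Fin 3).succ * c (1 : Fin 3).succ * c (2 : Fin 3).succ) := by
          rw [hc1]
        _ = _ := by ring
  have h1 : e7U g = trU (mkw (row3 g.1.val ᵥ* sub3 (g⁻¹).1.val)) * L := by
    rw [hL, mul_inv_cancel_left]
  rw [h1]
  exact mul_mem (trU_mem _) hmem

/-! ## Continuity -/

theorem continuous_mkJ {X : Type} [TopologicalSpace X] {A : X → Matrix (Fin 3) (Fin 3) ℍ[ℝ]}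
    {w : X → Fin 3 → ℍ[ℝ]} (hA : Continuous A) (hw : Continuous w) :
    Continuous fun x => mkJ (A x) (w x) := by
  have hb : ∀ k l, Continuous fun x => bmat (w x) k l := by
    intro k l
    have h : ∀ i, Continuous fun x => w x i := fun i => (continuous_apply i).comp hw
    have h0 := h 0
    have h1 := h 1
    have h2 := h 2
    fin_cases k <;> fin_cases l
    · exact continuous_const
    · exact h2
    · exact h1.neg
    · exact h2.neg
    · exact continuous_const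
    · exact h0
    · exact h1
    · exact h0.neg
    · exact continuous_const
  refine (PiLp.continuous_toLp 2 (fun _ : Fin 3 × Fin 3 => OO)).comp (continuous_pi fun kl => ?_)
  exact (WithLp.prod_continuous_toLp 2 ℍ[ℝ] ℍ[ℝ]).comp
    ((hA.matrix_elem kl.1 kl.2).prodMk (hb kl.1 kl.2))

theorem continuous_e7rep (Y : E7sp) : Continuous fun g : ANSL 3 ℍ[ℝ] => e7rep g Y := by
  obtain ⟨X, t⟩ := Y
  have hval : Continuous fun g : ANSL 3 ℍ[ℝ] => g.1.val :=
    Units.continuous_val.comp continuous_subtype_val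
  have hs : Continuous fun g : ANSL 3 ℍ[ℝ] => sub3 g.1.val :=
    continuous_matrix fun i j => hval.matrix_elem _ _
  have hr : Continuous fun g : ANSL 3 ℍ[ℝ] => row3 g.1.val :=
    continuous_pi fun j => hval.matrix_elem _ _
  have hsi : Continuous fun g : ANSL 3 ℍ[ℝ] => sub3 (g⁻¹).1.val := hs.comp continuous_inv
  have hc : Continuous fun g : ANSL 3 ℍ[ℝ] => cc3 g :=
    Quaternion.continuous_re.comp (hval.matrix_elem 0 0)
  have h1 : Continuous fun g : ANSL 3 ℍ[ℝ] => cc3 g • sub3 g.1.val := hc.smul hs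
  have h2 : Continuous fun g : ANSL 3 ℍ[ℝ] => cc3 g • sub3 (g⁻¹).1.val := hc.smul hsi
  have h3 : Continuous fun g : ANSL 3 ℍ[ℝ] => mkw (row3 g.1.val ᵥ* sub3 (g⁻¹).1.val) :=
    Continuous.subtype_mk (continuous_mkJ continuous_const (hr.matrix_vecMul hsi)) _
  have h4 : Continuous fun g : ANSL 3 ℍ[ℝ] =>
      rhoJ (cc3 g • sub3 g.1.val) (cc3 g • sub3 (g⁻¹).1.val) X :=
    Continuous.subtype_mk (continuous_mkJ ((h1.matrix_mul continuous_const).matrix_mul
      h1.matrix_conjTranspose) (continuous_const.matrix_vecMul h2)) _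
  exact (h4.add (h3.const_smul t)).prodMk continuous_const

theorem continuous_e7U : Continuous e7U := by
  have h1 : Continuous fun g : ANSL 3 ℍ[ℝ] => (e7U g).val :=
    continuous_clm_apply.2 fun Y => continuous_e7rep Y
  rw [Units.continuous_iff]
  refine ⟨h1, ?_⟩
  have h2 : (fun g : ANSL 3 ℍ[ℝ] => ((e7U g)⁻¹).val) = fun g => (e7U g⁻¹).val := by
    funext g
    rw [map_inv]
  rw [h2]
  exact h1.comp continuous_inv

/-! ## Injectivity -/

theorem mkw_injective : Function.Injective mkw := by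
  intro w w' h
  have h1 := congrArg (fun X : JJ => wpart X.1) h
  simpa only [mkw, wpart_mkJ] using h1

theorem cc3_inv (g : ANSL 3 ℍ[ℝ]) : cc3 g * cc3 g⁻¹ = 1 := by
  rw [← cc3_mul, mul_inv_cancel, cc3_one]

/-- the product of the diagonal entries of the normalised lower block of the inverse -/
theorem diag_prod (g : ANSL 3 ℍ[ℝ]) :
    ((cc3 g • sub3 (g⁻¹).1.val) 0 0).re * ((cc3 g • sub3 (g⁻¹).1.val) 1 1).re *
      ((cc3 g • sub3 (g⁻¹).1.val) 2 2).re = cc3 g ^ 4 := by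
  obtain ⟨-, c, hc, hc1⟩ := (g⁻¹).2
  have hcc : cc3 g⁻¹ = c 0 := by
    rw [cc3, (hc 0).2]
    rfl
  rw [Fin.prod_univ_four] at hc1
  have h1 : c 1 = c (0 : Fin 3).succ := rfl
  have h2 : c 2 = c (1 : Fin 3).succ := rfl
  have h3 : c 3 = c (2 : Fin 3).succ := rfl
  rw [h1, h2, h3] at hc1
  have hd : ∀ i : Fin 3, ((cc3 g • sub3 (g⁻¹).1.val) i i).re = cc3 g * c i.succ := by
    intro i
    rw [Matrix.smul_apply, sub3, (hc i.succ).2]
    change cc3 g • (c i.succ) = _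
    rw [smul_eq_mul]
  rw [hd, hd, hd]
  have h4 := cc3_inv g
  rw [hcc] at h4
  calc cc3 g * c (0 : Fin 3).succ * (cc3 g * c (1 : Fin 3).succ) * (cc3 g * c (2 : Fin 3).succ)
      = (cc3 g * c 0) * (cc3 g * c (0 : Fin 3).succ * (cc3 g * c (1 : Fin 3).succ) *
          (cc3 g * c (2 : Fin 3).succ)) := by rw [h4, one_mul]
    _ = cc3 g ^ 4 * (c 0 * c (0 : Fin 3).succ * c (1 : Fin 3).succ * c (2 : Fin 3).succ) := by
        ring
    _ = cc3 g ^ 4 := by rw [hc1, mul_one]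

theorem e7U_injective : Function.Injective e7U := by
  intro g h hgh
  have h1 : ∀ (X : JJ) (t : ℝ), e7rep g (X, t) = e7rep h (X, t) := by
    intro X t
    rw [← e7U_apply, ← e7U_apply, hgh]
  have hw : row3 g.1.val ᵥ* sub3 (g⁻¹).1.val = row3 h.1.val ᵥ* sub3 (h⁻¹).1.val := by
    have h2 := congrArg Prod.fst (h1 0 1)
    rw [e7rep_apply, e7rep_apply, E7L_apply, E7L_apply] at h2
    simp only [map_zero, zero_add, one_smul] at h2
    exact mkw_injective h2
  have hH' : cc3 g • sub3 (g⁻¹).1.val = cc3 h • sub3 (h⁻¹).1.val := by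
    have h2 : ∀ w, w ᵥ* (cc3 g • sub3 (g⁻¹).1.val) = w ᵥ* (cc3 h • sub3 (h⁻¹).1.val) := by
      intro w
      have h3 := congrArg Prod.fst (h1 (mkw w) 0)
      rw [e7rep_apply, e7rep_apply, E7L_apply, E7L_apply, rhoJ_mkw, rhoJ_mkw] at h3
      simp only [zero_smul, add_zero] at h3
      exact mkw_injective h3
    ext1 i j
    have h3 := congrFun (h2 (Pi.single i 1)) j
    rwa [Matrix.single_one_vecMul, Matrix.single_one_vecMul] at h3
  have hc : cc3 g = cc3 h := by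
    have h2 := diag_prod g
    rw [hH', diag_prod h] at h2
    exact ((pow_left_inj₀ (cc3_spec h).1.le (cc3_spec g).1.le (by norm_num)).1 h2).symm
  have hs' : sub3 (g⁻¹).1.val = sub3 (h⁻¹).1.val := by
    rw [← hc] at hH'
    exact smul_right_injective _ (cc3_spec g).1.ne' hH'
  have hs : sub3 g.1.val = sub3 h.1.val := by
    have e1 : sub3 (g⁻¹).1.val * sub3 g.1.val = 1 := by
      have := sub3_inv g⁻¹
      rwa [inv_inv] at this
    calc sub3 g.1.val = sub3 h.1.val * sub3 (h⁻¹).1.val * sub3 g.1.val := by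
          rw [sub3_inv, one_mul]
      _ = sub3 h.1.val := by rw [mul_assoc, ← hs', e1, mul_one]
  have hr : row3 g.1.val = row3 h.1.val := by
    have e1 : sub3 (h⁻¹).1.val * sub3 h.1.val = 1 := by
      have := sub3_inv h⁻¹
      rwa [inv_inv] at this
    have e2 := congrArg (fun w => w ᵥ* sub3 h.1.val) hw
    simp only [Matrix.vecMul_vecMul] at e2
    rw [hs', e1, Matrix.vecMul_one, Matrix.vecMul_one] at e2
    exact e2
  apply Subtype.ext
  apply Units.ext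
  ext1 i j
  refine Fin.cases ?_ (fun i => ?_) i
  · refine Fin.cases ?_ (fun j => ?_) j
    · rw [(cc3_spec g).2, (cc3_spec h).2, hc]
    · exact congrFun hr j
  · refine Fin.cases ?_ (fun j => ?_) j
    · rw [g_col, g_col]
    · exact congrFun (congrFun hs i) j

/-- The `AN`-map from `A₁N₁` of `SL₄(ℍ)` to `A₂N₂` of `E₇(-25)`. -/
noncomputable def e7Hom : ANSL 3 ℍ[ℝ] →* ANE7 := e7U.codRestrict ANE7 e7U_mem

theorem continuous_e7Hom : Continuous e7Hom := Continuous.subtype_mk continuous_e7U _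

theorem e7Hom_injective : Function.Injective e7Hom := by
  intro g h hgh
  exact e7U_injective (congrArg Subtype.val hgh)

/-! ## Change of the division algebra -/

section base

variable {n : ℕ} {D D' : Type} [NormedDivisionRing D] [NormedAlgebra ℝ D]
  [NormedDivisionRing D'] [NormedAlgebra ℝ D']

/-- The homomorphism induced by an algebra homomorphism. -/
noncomputable def anslMap (ι : D →ₐ[ℝ] D') : ANSL n D →* ANSL n D' where
  toFun g := ⟨Units.map (ι.mapMatrix (m := Fin (n + 1))).toMonoidHom g.1, by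
    obtain ⟨⟨ht, ht'⟩, c, hc, hc1⟩ := g.2
    refine ⟨⟨fun p q hpq => ?_, fun p q hpq => ?_⟩, c, fun p => ⟨(hc p).1, ?_⟩, hc1⟩
    · change ι (g.1.val p q) = 0
      rw [ht p q hpq, map_zero]
    · change ι ((g.1⁻¹).val p q) = 0
      rw [ht' p q hpq, map_zero]
    · change ι (g.1.val p p) = _
      rw [(hc p).2, AlgHom.commutes]⟩
  map_one' := by
    apply Subtype.ext
    exact map_one _
  map_mul' g h := by
    apply Subtype.ext
    exact map_mul _ _ _

theorem anslMap_injective (ι : D →ₐ[ℝ] D') : Function.Injective (anslMap (n := n) ι) := by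
  intro g h hgh
  apply Subtype.ext
  apply Units.ext
  ext1 p q
  have h1 : ι (g.1.val p q) = ι (h.1.val p q) :=
    congrArg (fun x : ANSL n D' => x.1.val p q) hgh
  exact ι.toRingHom.injective h1

theorem continuous_anslMap (ι : D →ₐ[ℝ] D') (hι : Continuous ι) :
    Continuous (anslMap (n := n) ι) := by
  refine Continuous.subtype_mk ?_ _
  refine (Continuous.units_map _ ?_).comp continuous_subtype_val
  refine continuous_matrix fun p q => ?_
  exact hι.comp (continuous_id.matrix_elem p q)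

end base

/-- There are `AN`-maps from `A₁N₁` of `SL₄(ℝ)`, `SL₄(ℂ)` and `SL₄(ℍ)` to `A₂N₂` of
`E₇(-25)`. -/
theorem exists_anmap_e7 :
    (∃ φ : ANSL 3 ℝ →* ANE7, Continuous φ ∧ Function.Injective φ) ∧
    (∃ φ : ANSL 3 ℂ →* ANE7, Continuous φ ∧ Function.Injective φ) ∧
    (∃ φ : ANSL 3 ℍ[ℝ] →* ANE7, Continuous φ ∧ Function.Injective φ) := by
  refine ⟨⟨e7Hom.comp (anslMap (Algebra.ofId ℝ ℍ[ℝ])), ?_, ?_⟩,
    ⟨e7Hom.comp (anslMap Quaternion.ofComplex), ?_, ?_⟩, e7Hom, continuous_e7Hom,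
    e7Hom_injective⟩
  · exact continuous_e7Hom.comp (continuous_anslMap _ (continuous_algebraMap ℝ ℍ[ℝ]))
  · exact e7Hom_injective.comp (anslMap_injective _)
  · exact continuous_e7Hom.comp (continuous_anslMap _
      (LinearMap.continuous_of_finiteDimensional Quaternion.ofComplex.toLinearMap))
  · exact e7Hom_injective.comp (anslMap_injective _)

end Pool.Agent.ANQ
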