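import Pool.Agent.ANQ.Frame

/-!
# Comparison of the frames at two points
-/

namespace Pool.Agent.ANQ

open Matrix Filter Topology Pool.Agent.ANM51

set_option linter.unusedSectionVars false

section hall

variable {I K : Type} [Fintype I] [DecidableEq I] [DivisionRing K]

/-- A right invertible matrix over a division ring has a transversal of nonzero entries. -/
theorem hall_permK {k k' : Matrix I I K} (hk : k * k' = 1) :
    ∃ w : Equiv.Perm I, ∀ p, k p (w p) ≠ 0 := by
  classical
  let t : I → Finset I := fun p => Finset.univ.filter fun q => k p q ≠ 0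
  have hall : ∀ s : Finset I, s.card ≤ (s.biUnion t).card := by
    intro s
    let N := s.biUnion t
    let L : (s → K) →ₗ[K] (N → K) :=
      { toFun := fun c q => ∑ p : s, c p * k p.1 q.1
        map_add' := fun c d => by
          funext q
          simp only [Pi.add_apply, add_mul, Finset.sum_add_distrib]
        map_smul' := fun a c => by
          funext q
          simp only [Pi.smul_apply, smul_eq_mul, mul_assoc, ← Finset.mul_sum, RingHom.id_apply] }
    have hL : Function.Injective L := by
      refine (injective_iff_map_eq_zero _).2 fun c hc => ?_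
      let c' : I → K := fun p => if h : p ∈ s then c ⟨p, h⟩ else 0
      have h1 : ∀ q, ∑ p, c' p * k p q = 0 := by
        intro q
        have h2 : ∑ p, c' p * k p q = ∑ p : s, c p * k p.1 q := by
          rw [← Finset.sum_subset (Finset.subset_univ s), ← Finset.sum_attach]
          · refine Finset.sum_congr rfl fun p _ => ?_
            simp only [c', dif_pos p.2]
          · intro p _ hp
            simp only [c', dif_neg hp, zero_mul]
        rw [h2]
        by_cases hq : q ∈ N
        · exact congrFun hc ⟨q, hq⟩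
        · refine Finset.sum_eq_zero fun p _ => ?_
          have h3 : k p.1 q = 0 := by
            by_contra hne
            exact hq (Finset.mem_biUnion.2 ⟨p.1, p.2, by simp [t, hne]⟩)
          rw [h3, mul_zero]
      have h2 : ∀ r, c' r = 0 := by
        intro r
        have h3 : ∑ q, (∑ p, c' p * k p q) * k' q r = 0 := by
          simp only [h1, zero_mul, Finset.sum_const_zero]
        have h4 : ∑ q, (∑ p, c' p * k p q) * k' q r =
            ∑ p, c' p * (k * k') p r := by
          simp only [Finset.sum_mul, Matrix.mul_apply, Finset.mul_sum, mul_assoc]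
          rw [Finset.sum_comm]
        rw [h4, hk] at h3
        simpa [Matrix.one_apply] using h3
      funext p
      have h3 := h2 p.1
      simp only [c', dif_pos p.2] at h3
      exact h3
    have h5 := LinearMap.finrank_le_finrank_of_injective hL
    rwa [Module.finrank_fintype_fun_eq_card, Module.finrank_fintype_fun_eq_card,
      Fintype.card_coe, Fintype.card_coe] at h5
  obtain ⟨f, hf, hft⟩ := (Finset.all_card_le_biUnion_card_iff_exists_injective t).1 hall
  refine ⟨Equiv.ofBijective f (Finite.injective_iff_bijective.1 hf), fun p => ?_⟩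
  have := hft p
  simp only [t, Finset.mem_filter] at this
  exact this.2

end hall

section comp

variable {n : ℕ}

theorem ext_add_h29 (p q : Fin n → ℝ) : ext (p + q) = ext p + ext q := by
  funext i
  refine Fin.lastCases ?_ (fun i => ?_) i <;> simp [ext]

theorem ext_smul_h29 (c : ℝ) (p : Fin n → ℝ) : ext (c • p) = c • ext p := by
  funext i
  refine Fin.lastCases ?_ (fun i => ?_) i <;> simp [ext]

/-- the projection `t ↦ t - t_n` -/
noncomputable def coordE (n : ℕ) : (Fin (n + 1) → ℝ) →ₗ[ℝ] (Fin n → ℝ) :=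
  LinearMap.pi fun i => (LinearMap.proj (R := ℝ) (φ := fun _ : Fin (n + 1) => ℝ) i.castSucc) -
    LinearMap.proj (R := ℝ) (φ := fun _ : Fin (n + 1) => ℝ) (Fin.last n)

theorem coordE_apply (t : Fin (n + 1) → ℝ) (i : Fin n) :
    coordE n t i = t i.castSucc - t (Fin.last n) := rfl

theorem ext_coordE (t : Fin (n + 1) → ℝ) (i : Fin (n + 1)) :
    ext (coordE n t) i = t i - t (Fin.last n) := by
  refine Fin.lastCases ?_ (fun i => ?_) i
  · simp [ext]
  · simp [ext, coordE_apply]

theorem coordE_ext (w : Fin n → ℝ) : coordE n (ext w) = w := by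
  funext i
  simp [coordE_apply, ext]

theorem antitone_ext_coordE {t : Fin (n + 1) → ℝ} (ht : Antitone t) :
    Antitone (ext (coordE n t)) := by
  intro i j hij
  rw [ext_coordE, ext_coordE]
  linarith [ht hij]

/-- Linear functionals on `ℝⁿ` with zero sum, each bounded above on the cone, vanish. -/
theorem cone_zeroE {I : Type} [Fintype I] (ℓ : I → (Fin n → ℝ) →ₗ[ℝ] ℝ)
    (hsum : ∀ t, ∑ p, ℓ p t = 0) (c : I → ℝ)
    (hb : ∀ p (w : Fin n → ℝ), Antitone (ext w) → ℓ p w ≤ c p) (p : I) (w : Fin n → ℝ) :
    ℓ p w = 0 := by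
  have h := cone_zero (fun p => ℓ p ∘ₗ coordE n)
    (fun t => by simpa only [LinearMap.comp_apply] using hsum (coordE n t)) c
    (fun p t ht => by
      rw [LinearMap.comp_apply]
      exact hb p _ (antitone_ext_coordE ht)) p (ext w)
  rwa [LinearMap.comp_apply, coordE_ext] at h

/-- **Comparison.** If the difference `k` of the frames at two points is bounded on the cone, the
weights of the two frames agree up to a permutation. -/
theorem comp_perm {I K : Type} [Fintype I] [DecidableEq I] [DivisionRing K] {v : K → ℝ}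
    (hv : UNorm v) (wI : I → (Fin n → ℝ) →ₗ[ℝ] ℝ) (hsum : ∀ t, ∑ p, wI p t = 0)
    (T T' : (Fin n → ℝ) →ₗ[ℝ] (Fin n → ℝ)) {k k' : Matrix I I K} (hk : k * k' = 1) {C : ℝ}
    (hb : ∀ w : Fin n → ℝ, Antitone (ext w) → ∀ p q,
      v (k p q) ≤ C * Real.exp (wI p (T w) - wI q (T' w))) :
    ∃ π : Equiv.Perm I, ∀ p w, wI p (T w) = wI (π p) (T' w) := by
  obtain ⟨π, hπ⟩ := hall_permK hk
  have hpos : ∀ p, 0 < v (k p (π p)) := by
    intro p
    refine lt_of_le_of_ne (hv.nonneg _) fun h => hπ p ?_
    exact (hv.eq_zero _).1 h.symm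
  refine ⟨π, ?_⟩
  have hzero : ∀ p w, (wI (π p) ∘ₗ T' - wI p ∘ₗ T) w = 0 := by
    refine cone_zeroE (fun p => wI (π p) ∘ₗ T' - wI p ∘ₗ T) ?_
      (fun p => Real.log (C / v (k p (π p)))) ?_
    · intro t
      simp only [LinearMap.sub_apply, LinearMap.comp_apply, Finset.sum_sub_distrib]
      rw [hsum, sub_zero, Equiv.sum_comp π (fun p => wI p (T' t)), hsum]
    · intro p w hw
      have h1 := hb w hw p (π p)
      have h2 : Real.exp (wI (π p) (T' w) - wI p (T w)) ≤ C / v (k p (π p)) := by
        rw [le_div_iff₀ (hpos p)]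
        calc Real.exp (wI (π p) (T' w) - wI p (T w)) * v (k p (π p))
            ≤ Real.exp (wI (π p) (T' w) - wI p (T w)) *
              (C * Real.exp (wI p (T w) - wI (π p) (T' w))) :=
              mul_le_mul_of_nonneg_left h1 (Real.exp_pos _).le
          _ = C * (Real.exp (wI (π p) (T' w) - wI p (T w)) *
              Real.exp (wI p (T w) - wI (π p) (T' w))) := by ring
          _ = C := by
            rw [← Real.exp_add]
            simp
      have h3 := (Real.exp_pos _).trans_le h2
      simp only [LinearMap.sub_apply, LinearMap.comp_apply]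
      exact (Real.le_log_iff_exp_le h3).2 h2
  intro p w
  have := hzero p w
  simp only [LinearMap.sub_apply, LinearMap.comp_apply] at this
  linarith

end comp

section frame

variable {n : ℕ} {K : Type} [DivisionRing K] [Algebra ℝ K] {v : K → ℝ} {I : Type} [Fintype I]
  [DecidableEq I] [Nonempty I]

/-- weights: every coordinate occurs, every weight is `0` or plus or minus a coordinate, the sum is
`0`, partners have opposite weights -/
structure WtI (B : IForm I) (wI : I → (Fin n → ℝ) →ₗ[ℝ] ℝ) : Prop where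
  ex : ∀ k : Fin n, ∃ p, ∀ t, wI p t = t k
  cases : ∀ p, (∀ t, wI p t = 0) ∨ ∃ k : Fin n, (∀ t, wI p t = t k) ∨ (∀ t, wI p t = - t k)
  sum : ∀ t, ∑ p, wI p t = 0
  bar : ∀ p t, wI (B.bar p) t = - wI p t

/-- products of isometries are isometries -/
theorem form_mul (S : FormK v) (B : IForm I) {M N : Matrix I I K}
    (hM : ct S.σ M * JI B K * M = JI B K) (hN : ct S.σ N * JI B K * N = JI B K) :
    ct S.σ (M * N) * JI B K * (M * N) = JI B K := by
  rw [ct_mul]
  calc ct S.σ N * ct S.σ M * JI B K * (M * N)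
      = ct S.σ N * (ct S.σ M * JI B K * M) * N := by simp only [Matrix.mul_assoc]
    _ = JI B K := by rw [hM, hN]

theorem self_mul_adj (S : FormK v) (B : IForm I) {M : Matrix I I K}
    (hM : ct S.σ M * JI B K * M = JI B K) : M * adj B S M = 1 :=
  mul_eq_one_comm.1 (adj_mul_self B S hM)

/-- **Comparison of frames.** Two frames of flats which are at bounded distance on the cone have
the same coordinates up to order and signs. -/
theorem frame_compare (hv : UNorm v) (hva : ∀ c : ℝ, c ≠ 0 → v (algebraMap ℝ K c) = 1)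
    (S : FormK v) (B : IForm I) {wI : I → (Fin n → ℝ) →ₗ[ℝ] ℝ} (hw : WtI B wI)
    {T T' : (Fin n → ℝ) ≃ₗ[ℝ] (Fin n → ℝ)}
    {φ φ' : (Fin n → ℝ) → (Fin n → ℝ) → Matrix I I K} {H H' : Matrix I I K}
    (hφ : ∀ p q s, φ p q * φ q s = φ p s) (hφ1 : ∀ p, φ p p = 1)
    (hφf : ∀ p q, ct S.σ (φ p q) * JI B K * φ p q = JI B K)
    (hφ' : ∀ p q s, φ' p q * φ' q s = φ' p s) (hφ'1 : ∀ p, φ' p p = 1)
    (hφ'f : ∀ p q, ct S.σ (φ' p q) * JI B K * φ' p q = JI B K)
    (hH : FrameK S B wI T φ H) (hH' : FrameK S B wI T' φ' H')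
    (c : (Fin n → ℝ) → Matrix I I K) (hc : ∀ w, φ w 0 * c 0 = c w * φ' w 0)
    (hcf : ct S.σ (c 0) * JI B K * c 0 = JI B K)
    {C : ℝ} (hcb : ∀ w : Fin n → ℝ, Antitone (ext w) → vm v (c w) ≤ C) :
    ∀ k : Fin n, ∃ l : Fin n, (∀ w, T w k = T' w l) ∨ (∀ w, T w k = -(T' w l)) := by
  have hC : 0 ≤ C := by
    refine (hv.vm_nonneg (c 0)).trans (hcb 0 ?_)
    intro i j _
    have h0 : ext (0 : Fin n → ℝ) = 0 := by
      have := ext_smul_h29 (0 : ℝ) (0 : Fin n → ℝ)
      simpa using this
    rw [h0]
    exact le_refl _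
  have hk : adj B S H * c 0 * H' * (adj B S H' * adj B S (c 0) * H) = 1 := by
    calc adj B S H * c 0 * H' * (adj B S H' * adj B S (c 0) * H)
        = adj B S H * (c 0 * ((H' * adj B S H') * adj B S (c 0))) * H := by
          simp only [Matrix.mul_assoc]
      _ = 1 := by
          rw [self_mul_adj S B hH'.form, Matrix.one_mul, self_mul_adj S B hcf, Matrix.mul_one,
            adj_mul_self B S hH.form]
  obtain ⟨π, hπ⟩ := comp_perm hv wI hw.sum T.toLinearMap T'.toLinearMap hk (C := C) (by
    intro w hwa p q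
    have hP := form_mul S B (hφf w 0) hH.form
    have e1 : (φ w 0 * H) * (adj B S H * c 0 * H') = c w * (φ' w 0 * H') := by
      calc (φ w 0 * H) * (adj B S H * c 0 * H')
          = φ w 0 * ((H * adj B S H) * c 0) * H' := by simp only [Matrix.mul_assoc]
        _ = c w * (φ' w 0 * H') := by
            rw [self_mul_adj S B hH.form, Matrix.one_mul, hc, Matrix.mul_assoc]
    have e2 : adj B S H * c 0 * H' = adj B S (φ w 0 * H) * (c w * (φ' w 0 * H')) := by
      rw [← e1, ← Matrix.mul_assoc (adj B S (φ w 0 * H)), adj_mul_self B S hP, Matrix.one_mul]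
    rw [e2, Matrix.mul_apply]
    have hpos : 0 ≤ C * Real.exp (wI p (T w) - wI q (T' w)) :=
      mul_nonneg hC (Real.exp_pos _).le
    refine hv.sum_le _ _ hpos fun a _ => ?_
    rw [hv.mul, v_adj B S hv hva]
    have b1 : v ((φ w 0 * H) (B.bar a) (B.bar p)) ≤ Real.exp (wI p (T w)) := by
      have := hH.bd w (B.bar a) (B.bar p)
      rwa [hw.bar, neg_neg] at this
    have b2 : v ((c w * (φ' w 0 * H')) a q) ≤ C * Real.exp (-(wI q (T' w))) := by
      rw [Matrix.mul_apply]
      refine hv.sum_le _ _ (mul_nonneg hC (Real.exp_pos _).le) fun b _ => ?_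
      rw [hv.mul]
      exact mul_le_mul ((hv.le_vm (c w) a b).trans (hcb w hwa)) (hH'.bd w b q) (hv.nonneg _) hC
    calc v ((φ w 0 * H) (B.bar a) (B.bar p)) * v ((c w * (φ' w 0 * H')) a q)
        ≤ Real.exp (wI p (T w)) * (C * Real.exp (-(wI q (T' w)))) :=
          mul_le_mul b1 b2 (hv.nonneg _) (Real.exp_pos _).le
      _ = C * Real.exp (wI p (T w) - wI q (T' w)) := by
          rw [sub_eq_add_neg, Real.exp_add]; ring)
  intro k
  obtain ⟨p, hp⟩ := hw.ex k
  have h1 : ∀ w, T w k = wI (π p) (T' w) := by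
    intro w
    rw [← hp (T w)]
    exact hπ p w
  rcases hw.cases (π p) with h | ⟨l, h | h⟩
  · exfalso
    obtain ⟨w, hw1⟩ := T.surjective (Pi.single k 1)
    have h2 := h1 w
    rw [h, hw1, Pi.single_eq_same] at h2
    exact one_ne_zero h2
  · exact ⟨l, Or.inl fun w => by rw [h1, h]⟩
  · exact ⟨l, Or.inr fun w => by rw [h1, h]⟩

end frame

end Pool.Agent.ANQ
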