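import Pool.Agent.ANQ.Frame
import Pool.Agent.ANQ.Comp
import Pool.Agent.ANM65.VSo

/-!
# Frames for the forms of signature `(n + k, n)` over `ℝ`
-/

namespace Pool.Agent.ANQ

open Matrix Filter Topology Pool.Agent.ANM51 Pool.Agent.ANM65

set_option linter.unusedSectionVars false

section real

variable {U : Ultrafilter ℕ} {r : ℕ → ℝ} {K : Type} [DivisionRing K] [Algebra ℝ K]
  (R : RobData U r ℝ K)

include R in
theorem rob_comm (x y : K) : x * y = y * x := by
  obtain ⟨a, ha, rfl⟩ := R.surj x
  obtain ⟨b, hb, rfl⟩ := R.surj y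
  rw [← R.mul a b ha hb, ← R.mul b a hb ha]
  congr 1
  funext i
  ring

/-- monotonicity of the norm -/
theorem rob_mono {D : Type} [NormedDivisionRing D] [NormedAlgebra ℝ D]
    (R : RobData U r D K) (hr : Tendsto r (U : Filter ℕ) atTop) {a b : ℕ → D} (ha : Mod U r a)
    (hb : Mod U r b) (h : ∀ᶠ i in (U : Filter ℕ), ‖a i‖ ≤ ‖b i‖) :
    R.v (R.toK a) ≤ R.v (R.toK b) := by
  refine le_of_tendsto_of_tendsto (R.lim a ha) (R.lim b hb) ?_
  filter_upwards [h, rob_ge hr 1] with i h1 h2
  exact Real.rpow_le_rpow (norm_nonneg _) h1 (by positivity)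

include R in
theorem rob_sq (hr : Tendsto r (U : Filter ℕ) atTop) (d : K) : ∃ s, d = s * s ∨ d = -(s * s) := by
  obtain ⟨a, ha, rfl⟩ := R.surj d
  have hs : Mod U r fun i => Real.sqrt |a i| := by
    obtain ⟨C, hC⟩ := ha
    refine ⟨|C|, ?_⟩
    filter_upwards [hC, rob_ge hr 1] with i h1 h2
    rw [Real.norm_of_nonneg (Real.sqrt_nonneg _), Real.sqrt_le_left (Real.exp_pos _).le,
      ← Real.exp_nat_mul]
    rw [Real.norm_eq_abs] at h1
    refine h1.trans (Real.exp_le_exp.2 ?_)
    have h3 : C * r i ≤ |C| * r i := mul_le_mul_of_nonneg_right (le_abs_self C) (by linarith)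
    have h4 : 0 ≤ |C| * r i := mul_nonneg (abs_nonneg _) (by linarith)
    push_cast
    linarith
  refine ⟨R.toK fun i => Real.sqrt |a i|, ?_⟩
  rw [← R.mul _ _ hs hs]
  have hm : Mod U r fun i => Real.sqrt |a i| * Real.sqrt |a i| := hs.mul hs
  rcases U.em (fun i => 0 ≤ a i) with h | h
  · left
    rw [R.eq_iff hr ha hm]
    refine Neg.of_eventually_zero ?_
    filter_upwards [h] with i hi
    rw [Real.mul_self_sqrt (abs_nonneg _), abs_of_nonneg hi, sub_self]
  · right
    rw [← R.neg hr hm, R.eq_iff hr ha hm.neg]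
    refine Neg.of_eventually_zero ?_
    filter_upwards [h] with i hi
    rw [Real.mul_self_sqrt (abs_nonneg _), abs_of_neg (not_le.1 hi)]
    ring

theorem rob_sumsq (hr : Tendsto r (U : Filter ℕ) atTop) {ι : Type} (s : Finset ι) (x : ι → K)
    {j : ι} (hj : j ∈ s) : R.v (x j) * R.v (x j) ≤ R.v (∑ i ∈ s, x i * x i) := by
  choose a ha hax using fun i => R.surj (x i)
  have h1 : ∑ i ∈ s, x i * x i = R.toK fun i => ∑ l ∈ s, a l i * a l i := by
    rw [toK_sum R hr s (fun l i => a l i * a l i) fun l => (ha l).mul (ha l)]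
    refine Finset.sum_congr rfl fun l _ => ?_
    rw [R.mul _ _ (ha l) (ha l), hax]
  rw [h1, ← R.hv.mul, ← hax j, ← R.mul _ _ (ha j) (ha j)]
  refine rob_mono R hr ((ha j).mul (ha j))
    (Mod.sum hr s (fun l i => a l i * a l i) fun l => (ha l).mul (ha l)) ?_
  refine Eventually.of_forall fun i => ?_
  rw [Real.norm_of_nonneg (mul_self_nonneg _),
    Real.norm_of_nonneg (Finset.sum_nonneg fun l _ => mul_self_nonneg _)]
  exact Finset.single_le_sum (f := fun l => a l i * a l i) (fun l _ => mul_self_nonneg _) hj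

include R in
theorem rob_sumsq_zero (hr : Tendsto r (U : Filter ℕ) atTop) {ι : Type} (s : Finset ι) (x : ι → K)
    (h : ∑ i ∈ s, x i * x i = 0) : ∀ j ∈ s, x j = 0 := by
  intro j hj
  have h1 := rob_sumsq R hr s x hj
  rw [h, R.hv.zero] at h1
  rw [← R.hv.eq_zero]
  have h2 := R.hv.nonneg (x j)
  nlinarith

include R in
theorem rob_id (F : FormData ℝ) (S : FormK R.v)
    (hS : ∀ a, Mod U r a → S.σ (R.toK a) = R.toK (fun i => F.σ (a i))) (x : K) : S.σ x = x := by
  obtain ⟨a, ha, rfl⟩ := R.surj x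
  rw [hS a ha]
  congr 1
  funext i
  have h := F.σ_real (a i)
  simpa using h

end real

section prz

variable {K : Type} [DivisionRing K] [Algebra ℝ K] {v : K → ℝ} {I : Type} [Fintype I]
  [DecidableEq I] (S : FormK v) (B : IForm I)

theorem pr_sum_right {ι : Type} [Fintype ι] (u' : I → K) (u : ι → I → K) (c : ι → K) :
    pr S B u' (fun p => ∑ i, u i p * c i) = ∑ i, pr S B u' (u i) * c i := by
  simp only [pr, JI_mulVec, Finset.sum_mul]
  rw [Finset.sum_comm]
  refine Finset.sum_congr rfl fun p _ => ?_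
  rw [Finset.mul_sum, Finset.mul_sum]
  refine Finset.sum_congr rfl fun i _ => ?_
  simp only [mul_assoc]

theorem pr_sum_left {ι : Type} [Fintype ι] (u' : I → K) (u : ι → I → K) (c : ι → K) :
    pr S B (fun p => ∑ i, u i p * c i) u' = ∑ i, S.σ (c i) * pr S B (u i) u' := by
  simp only [pr, map_sum, S.anti, Finset.mul_sum]
  rw [Finset.sum_comm]
  refine Finset.sum_congr rfl fun p _ => ?_
  rw [Finset.sum_mul]
  refine Finset.sum_congr rfl fun i _ => ?_
  simp only [mul_assoc]

end prz

section fz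

variable {n k : ℕ} {K : Type} [DivisionRing K] [Algebra ℝ K] {v : K → ℝ} {S : FormK v}

/-- the diagonal vectors -/
theorem fz_diag (hσ : ∀ x, S.σ x = x) (y : (Fin n ⊕ Fin n) ⊕ Fin k → K)
    (hy : ∀ j, y (.inl (.inl j)) = y (.inl (.inr j))) :
    pr S (iformSO n k) y y = ∑ p, y p * y p := by
  rw [pr_eq]
  refine Finset.sum_congr rfl fun p _ => ?_
  rw [hσ]
  have h1 : (iformSO n k).jc p = 1 := rfl
  rw [h1, one_smul]
  rcases p with (j | j) | z
  · have : y ((iformSO n k).bar (.inl (.inl j))) = y (.inl (.inl j)) := (hy j).symm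
    rw [this]
  · have : y ((iformSO n k).bar (.inl (.inr j))) = y (.inl (.inr j)) := hy j
    rw [this]
  · rfl

/-- totally isotropic families have at most `n` elements -/
theorem fz_count (hcomm : ∀ x y : K, x * y = y * x) (hσ : ∀ x, S.σ x = x)
    (hsq : ∀ (ι : Type) (s : Finset ι) (x : ι → K), ∑ i ∈ s, x i * x i = 0 → ∀ j ∈ s, x j = 0)
    {a : ℕ} (h h' : Fin a → (Fin n ⊕ Fin n) ⊕ Fin k → K)
    (h0 : ∀ i j, pr S (iformSO n k) (h i) (h j) = 0)
    (h1 : ∀ i j, i ≠ j → pr S (iformSO n k) (h' i) (h j) = 0)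
    (h2 : ∀ i, pr S (iformSO n k) (h' i) (h i) ≠ 0) : a ≤ n := by
  let L : (Fin a → K) →ₗ[K] (Fin n → K) :=
    { toFun := fun c j => ∑ i, c i * (h i (.inl (.inl j)) - h i (.inl (.inr j)))
      map_add' := fun c d => by
        funext q
        simp only [Pi.add_apply, add_mul, Finset.sum_add_distrib]
      map_smul' := fun a c => by
        funext q
        simp only [Pi.smul_apply, smul_eq_mul, mul_assoc, ← Finset.mul_sum, RingHom.id_apply] }
  have hL : Function.Injective L := by
    refine (injective_iff_map_eq_zero _).2 fun c hc => ?_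
    let y : (Fin n ⊕ Fin n) ⊕ Fin k → K := fun p => ∑ i, h i p * c i
    have hy : ∀ j, y (.inl (.inl j)) = y (.inl (.inr j)) := by
      intro j
      rw [← sub_eq_zero]
      simp only [y]
      rw [← Finset.sum_sub_distrib]
      have h3 := congrFun hc j
      change ∑ i, c i * (h i (.inl (.inl j)) - h i (.inl (.inr j))) = 0 at h3
      rw [← h3]
      refine Finset.sum_congr rfl fun i _ => ?_
      rw [hcomm (c i), sub_mul]
    have h4 : pr S (iformSO n k) y y = 0 := by
      simp only [y]
      rw [pr_sum_right]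
      refine Finset.sum_eq_zero fun i _ => ?_
      rw [pr_sum_left]
      rw [Finset.sum_eq_zero fun j _ => by rw [h0, mul_zero], zero_mul]
    rw [fz_diag hσ y hy] at h4
    have h5 : y = 0 := by
      funext p
      exact hsq _ _ _ h4 p (Finset.mem_univ p)
    funext i
    have h6 : pr S (iformSO n k) (h' i) y = 0 := by
      rw [h5, pr]
      simp
    simp only [y] at h6
    rw [pr_sum_right, Finset.sum_eq_single i] at h6
    · exact (mul_eq_zero.1 h6).resolve_left (h2 i)
    · intro j _ hj
      rw [h1 i j (Ne.symm hj), zero_mul]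
    · intro h; exact absurd (Finset.mem_univ _) h
  have h5 := LinearMap.finrank_le_finrank_of_injective hL
  rwa [Module.finrank_fintype_fun_eq_card, Module.finrank_fintype_fun_eq_card,
    Fintype.card_fin, Fintype.card_fin] at h5

/-- vectors orthogonal to a hyperbolic family have positive norms -/
theorem fz_pos (hcomm : ∀ x y : K, x * y = y * x) (hσ : ∀ x, S.σ x = x)
    (hsq : ∀ (ι : Type) (s : Finset ι) (x : ι → K), ∑ i ∈ s, x i * x i = 0 → ∀ j ∈ s, x j = 0)
    (hpm : ∀ d : K, ∃ s, d = s * s ∨ d = -(s * s))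
    (h : Fin n ⊕ Fin n → (Fin n ⊕ Fin n) ⊕ Fin k → K)
    (hh : ∀ p q, pr S (iformSO n k) (h p) (h q) = if q = p.swap then 1 else 0)
    (y : (Fin n ⊕ Fin n) ⊕ Fin k → K) (hy : ∀ p, pr S (iformSO n k) (h p) y = 0) (hy0 : y ≠ 0) :
    ∃ s, s ≠ 0 ∧ pr S (iformSO n k) y y = s * s := by
  by_contra hcon
  push Not at hcon
  have hB : ∀ p, (iformSO n k).jc ((iformSO n k).bar p) = 1 * (iformSO n k).jc p := by
    intro p; simp [iformSO]
  have hy' : ∀ p, pr S (iformSO n k) y (h p) = 0 := by
    intro p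
    rw [pr_symm S _ hB, hy, map_zero, smul_zero]
  obtain ⟨s, hs⟩ : ∃ s, pr S (iformSO n k) y y = -(s * s) := by
    obtain ⟨s, hs | hs⟩ := hpm (pr S (iformSO n k) y y)
    · by_cases h0 : s = 0
      · refine ⟨0, ?_⟩
        rw [hs, h0]; simp
      · exact absurd hs (hcon s h0)
    · exact ⟨s, hs⟩
  -- the negative family
  let g : Option (Fin n) → (Fin n ⊕ Fin n) ⊕ Fin k → K := fun o =>
    match o with
    | none => y
    | some i => fun p => h (.inl i) p - h (.inr i) p
  let D : Option (Fin n) → K := fun o =>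
    match o with
    | none => -(s * s)
    | some _ => -2
  have hprs : ∀ (u a b : (Fin n ⊕ Fin n) ⊕ Fin k → K),
      pr S (iformSO n k) u (fun p => a p - b p) =
        pr S (iformSO n k) u a - pr S (iformSO n k) u b := by
    intro u a b
    simp only [pr, JI_mulVec, mul_sub, Finset.sum_sub_distrib]
  have hpls : ∀ (u a b : (Fin n ⊕ Fin n) ⊕ Fin k → K),
      pr S (iformSO n k) (fun p => a p - b p) u =
        pr S (iformSO n k) a u - pr S (iformSO n k) b u := by
    intro u a b
    simp only [pr, map_sub, sub_mul, Finset.sum_sub_distrib]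
  have hg : ∀ i j, pr S (iformSO n k) (g i) (g j) = if i = j then D i else 0 := by
    intro i j
    rcases i with _ | i <;> rcases j with _ | j
    · rw [if_pos rfl]; exact hs
    · rw [if_neg (by simp)]
      change pr S (iformSO n k) y (fun p => h (.inl j) p - h (.inr j) p) = 0
      rw [hprs, hy', hy', sub_zero]
    · rw [if_neg (by simp)]
      change pr S (iformSO n k) (fun p => h (.inl i) p - h (.inr i) p) y = 0
      rw [hpls, hy, hy, sub_zero]
    · change pr S (iformSO n k) (fun p => h (.inl i) p - h (.inr i) p)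
        (fun p => h (.inl j) p - h (.inr j) p) = _
      rw [hpls, hprs, hprs, hh, hh, hh, hh]
      by_cases hij : i = j
      · subst hij
        simp [D]
        norm_num
      · have hij' : ¬ (j = i) := fun h => hij h.symm
        simp [hij, hij']
  let L : (Option (Fin n) → K) →ₗ[K] (Fin n → K) :=
    { toFun := fun c j => ∑ i, c i * (g i (.inl (.inl j)) - g i (.inl (.inr j)))
      map_add' := fun c d => by
        funext q
        simp only [Pi.add_apply, add_mul, Finset.sum_add_distrib]
      map_smul' := fun a c => by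
        funext q
        simp only [Pi.smul_apply, smul_eq_mul, mul_assoc, ← Finset.mul_sum, RingHom.id_apply] }
  have hL : Function.Injective L := by
    refine (injective_iff_map_eq_zero _).2 fun c hc => ?_
    let Y : (Fin n ⊕ Fin n) ⊕ Fin k → K := fun p => ∑ i, g i p * c i
    have hY : ∀ j, Y (.inl (.inl j)) = Y (.inl (.inr j)) := by
      intro j
      rw [← sub_eq_zero]
      simp only [Y]
      rw [← Finset.sum_sub_distrib]
      have h3 := congrFun hc j
      change ∑ i, c i * (g i (.inl (.inl j)) - g i (.inl (.inr j))) = 0 at h3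
      rw [← h3]
      refine Finset.sum_congr rfl fun i _ => ?_
      rw [hcomm (c i), sub_mul]
    have h4 : pr S (iformSO n k) Y Y = ∑ i, c i * D i * c i := by
      simp only [Y]
      rw [pr_sum_right]
      refine Finset.sum_congr rfl fun i _ => ?_
      rw [pr_sum_left, Finset.sum_eq_single i]
      · rw [hg, if_pos rfl, hσ]
      · intro j _ hj
        rw [hg, if_neg hj, mul_zero]
      · intro h; exact absurd (Finset.mem_univ _) h
    rw [fz_diag hσ Y hY, Fintype.sum_option] at h4
    let X : ((Fin n ⊕ Fin n) ⊕ Fin k) ⊕ (Unit ⊕ (Fin n ⊕ Fin n)) → K :=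
      Sum.elim Y (Sum.elim (fun _ => c none * s)
        (Sum.elim (fun i => c (some i)) (fun i => c (some i))))
    have h5 : ∑ a ∈ (Finset.univ : Finset (((Fin n ⊕ Fin n) ⊕ Fin k) ⊕
        (Unit ⊕ (Fin n ⊕ Fin n)))), X a * X a = 0 := by
      have e0 : ∑ a, X a * X a = ∑ p, Y p * Y p + (c none * s * (c none * s) +
          (∑ i, c (some i) * c (some i) + ∑ i, c (some i) * c (some i))) := by
        rw [Fintype.sum_sum_type]
        congr 1
        rw [Fintype.sum_sum_type]
        congr 1
        · simp [X]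
        · rw [Fintype.sum_sum_type]
          rfl
      rw [e0, h4]
      simp only [D]
      have e1 : ∑ i : Fin n, c (some i) * -2 * c (some i) =
          -(∑ i, c (some i) * c (some i) + ∑ i, c (some i) * c (some i)) := by
        rw [← Finset.sum_add_distrib, ← Finset.sum_neg_distrib]
        refine Finset.sum_congr rfl fun i _ => ?_
        rw [mul_neg, neg_mul, mul_assoc, ← two_mul, ← mul_assoc, ← mul_assoc, hcomm (c (some i)) 2]
      have e2 : c none * -(s * s) * c none = -(c none * s * (c none * s)) := by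
        rw [mul_neg, neg_mul]
        congr 1
        rw [← mul_assoc (c none) s s, mul_assoc (c none * s) s (c none), hcomm s (c none)]
      rw [e1, e2]
      abel
    have h6 := hsq _ _ _ h5
    have hY0 : Y = 0 := by
      funext p
      exact h6 (.inl p) (Finset.mem_univ _)
    have hc1 : ∀ i, c (some i) = 0 := fun i => h6 (.inr (.inr (.inl i))) (Finset.mem_univ _)
    funext o
    rcases o with _ | i
    · obtain ⟨p, hp⟩ : ∃ p, y p ≠ 0 := by
        by_contra h7
        push Not at h7
        exact hy0 (funext h7)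
      have h8 := congrFun hY0 p
      simp only [Y, Fintype.sum_option, hc1, mul_zero, Finset.sum_const_zero, add_zero,
        Pi.zero_apply] at h8
      exact (mul_eq_zero.1 h8).resolve_left hp
    · exact hc1 i
  have h5 := LinearMap.finrank_le_finrank_of_injective hL
  rw [Module.finrank_fintype_fun_eq_card, Module.finrank_fintype_fun_eq_card,
    Fintype.card_option, Fintype.card_fin] at h5
  omega

/-- orthonormal systems in the complement of a hyperbolic family -/
theorem fz_ext (hcomm : ∀ x y : K, x * y = y * x) (hσ : ∀ x, S.σ x = x)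
    (hsq : ∀ (ι : Type) (s : Finset ι) (x : ι → K), ∑ i ∈ s, x i * x i = 0 → ∀ j ∈ s, x j = 0)
    (hpm : ∀ d : K, ∃ s, d = s * s ∨ d = -(s * s))
    (h : Fin n ⊕ Fin n → (Fin n ⊕ Fin n) ⊕ Fin k → K)
    (hh : ∀ p q, pr S (iformSO n k) (h p) (h q) = if q = p.swap then 1 else 0) (j : ℕ)
    (hj : j ≤ k) : ∃ w : Fin j → (Fin n ⊕ Fin n) ⊕ Fin k → K,
      (∀ p z, pr S (iformSO n k) (h p) (w z) = 0) ∧
      ∀ z z', pr S (iformSO n k) (w z) (w z') = if z' = z then 1 else 0 := by
  have hB : ∀ p, (iformSO n k).jc ((iformSO n k).bar p) = 1 * (iformSO n k).jc p := by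
    intro p; simp [iformSO]
  induction j with
  | zero => exact ⟨fun z => z.elim0, fun _ z => z.elim0, fun z => z.elim0⟩
  | succ j ih =>
    obtain ⟨w, hw1, hw2⟩ := ih (by omega)
    -- a vector orthogonal to everything
    let g : (Fin n ⊕ Fin n) ⊕ Fin j → (Fin n ⊕ Fin n) ⊕ Fin k → K := Sum.elim h w
    let L : ((Fin n ⊕ Fin n) ⊕ Fin k → K) →ₗ[K] ((Fin n ⊕ Fin n) ⊕ Fin j → K) :=
      { toFun := fun y q => pr S (iformSO n k) (g q) y
        map_add' := fun y y' => by
          funext q
          simp only [pr, JI_mulVec, Pi.add_apply, mul_add, Finset.sum_add_distrib]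
        map_smul' := fun c y => by
          funext q
          simp only [pr, JI_mulVec, Pi.smul_apply, smul_eq_mul, Finset.mul_sum,
            RingHom.id_apply]
          refine Finset.sum_congr rfl fun p _ => ?_
          rw [← mul_assoc, ← mul_assoc, ← mul_assoc, hcomm _ c, ← mul_assoc, ← mul_assoc] }
    have hLn : ¬ Function.Injective L := by
      intro hL
      have h5 := LinearMap.finrank_le_finrank_of_injective hL
      rw [Module.finrank_fintype_fun_eq_card, Module.finrank_fintype_fun_eq_card] at h5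
      simp only [Fintype.card_sum, Fintype.card_fin] at h5
      omega
    obtain ⟨y, hy0, hy⟩ : ∃ y, y ≠ 0 ∧ L y = 0 := by
      by_contra hcon
      push Not at hcon
      refine hLn ((injective_iff_map_eq_zero _).2 fun y hy => ?_)
      by_contra hne
      exact hcon y hne hy
    have hy1 : ∀ p, pr S (iformSO n k) (h p) y = 0 := fun p => congrFun hy (.inl p)
    have hy2 : ∀ z, pr S (iformSO n k) (w z) y = 0 := fun z => congrFun hy (.inr z)
    obtain ⟨s, hs0, hs⟩ := fz_pos hcomm hσ hsq hpm h hh y hy1 hy0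
    let y' : (Fin n ⊕ Fin n) ⊕ Fin k → K := fun p => y p * s⁻¹
    have hy'1 : ∀ u, pr S (iformSO n k) u y = 0 → pr S (iformSO n k) u y' = 0 := by
      intro u hu
      have h3 := pr_mul_right S (iformSO n k) u y 1 s⁻¹
      simp only [mul_one] at h3
      simp only [y']
      rw [h3, hu, mul_zero, zero_mul]
    have hy'2 : pr S (iformSO n k) y' y' = 1 := by
      simp only [y']
      rw [pr_mul_right, hs, hσ, ← mul_assoc, inv_mul_cancel₀ hs0, one_mul, mul_inv_cancel₀ hs0]
    have hy'3 : ∀ z, pr S (iformSO n k) y' (w z) = 0 := by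
      intro z
      rw [pr_symm S _ hB, hy'1 _ (hy2 z), map_zero, smul_zero]
    refine ⟨Fin.snoc (α := fun _ => (Fin n ⊕ Fin n) ⊕ Fin k → K) w y', ?_, ?_⟩
    · intro p z
      refine Fin.lastCases ?_ (fun z => ?_) z
      · rw [Fin.snoc_last]; exact hy'1 _ (hy1 p)
      · rw [Fin.snoc_castSucc]; exact hw1 p z
    · intro z z'
      refine Fin.lastCases ?_ (fun z => ?_) z
      · refine Fin.lastCases ?_ (fun z' => ?_) z'
        · rw [Fin.snoc_last, if_pos rfl]; exact hy'2
        · rw [Fin.snoc_last, Fin.snoc_castSucc, if_neg (Fin.castSucc_lt_last z').ne]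
          exact hy'3 z'
      · refine Fin.lastCases ?_ (fun z' => ?_) z'
        · rw [Fin.snoc_last, Fin.snoc_castSucc, if_neg (Fin.castSucc_lt_last z).ne']
          exact hy'1 _ (hy2 z)
        · rw [Fin.snoc_castSucc, Fin.snoc_castSucc, hw2]
          by_cases h6 : z' = z
          · rw [if_pos h6, if_pos (by rw [h6])]
          · rw [if_neg h6, if_neg fun h7 => h6 (Fin.castSucc_injective _ h7)]

end fz

section exact

variable {n k : ℕ} {U : Ultrafilter ℕ} {r : ℕ → ℝ} {K : Type} [DivisionRing K] [Algebra ℝ K]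
  {R : RobData U r ℝ K} {S : FormK R.v} {ν : (Fin n → ℝ) → ℝ}
  {φ : (Fin n → ℝ) → (Fin n → ℝ) → Matrix ((Fin n ⊕ Fin n) ⊕ Fin k) ((Fin n ⊕ Fin n) ⊕ Fin k) K}

/-- the number of derivatives up to sign, for the forms of signature `(n + k, n)` -/
theorem FlatK.countZ (hU : (U : Filter ℕ) ≤ atTop) (hr : Tendsto r (U : Filter ℕ) atTop)
    (F : FormData ℝ) (hS : ∀ a, Mod U r a → S.σ (R.toK a) = R.toK (fun i => F.σ (a i)))
    (hφ : FlatK S (iformSO n k) ν φ) (hν : Nrm ν) (hn : 0 < n) (a : ℕ)
    (χ : Fin a → ((Fin n → ℝ) →L[ℝ] ℝ)) (hχ : ∀ i, ∃ w, HasFDerivAt ν (χ i) w)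
    (hne : ∀ i j, i ≠ j → χ i ≠ χ j ∧ χ i ≠ -χ j) : a ≤ n := by
  have : Nonempty ((Fin n ⊕ Fin n) ⊕ Fin k) := ⟨.inl (.inl ⟨0, hn⟩)⟩
  choose w hw using hχ
  choose u u' h1 h2 using fun i => hφ.exact_pair hU hr F hS hν (hw i)
  have hv := R.hv
  have hχ0 : ∀ i, χ i ≠ 0 := fun i => deriv_ne_zero hν hn (hw i)
  refine fz_count (S := S) (rob_comm R) (rob_id R F S hS) (fun ι s x => rob_sumsq_zero R hr s x)
    u u' (fun i j => ?_) (fun i j hij => ?_) (fun i => ?_)
  · refine hφ.pr_eq_zero hv (v_alg R hr) (χ := -(χ i).toLinearMap) (χ' := -(χ j).toLinearMap)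
      (fun w => (h2 i w).1) (fun w => (h2 j w).1) fun h0 => ?_
    have h3 : χ i = -χ j := by
      ext1 x
      have := congrArg (fun f => f x) h0
      simp only [LinearMap.add_apply, LinearMap.neg_apply,
        ContinuousLinearMap.coe_coe, LinearMap.zero_apply] at this
      simp only [_root_.neg_apply]
      linarith
    by_cases hij : i = j
    · subst hij
      apply hχ0 i
      ext1 x
      have := congrArg (fun f => f x) h3
      simp only [_root_.neg_apply] at this
      simp only [_root_.zero_apply]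
      linarith
    · exact (hne i j hij).2 h3
  · refine hφ.pr_eq_zero hv (v_alg R hr) (χ := (χ i).toLinearMap) (χ' := -(χ j).toLinearMap)
      (fun w => (h2 i w).2) (fun w => (h2 j w).1) fun h0 => ?_
    apply (hne i j hij).1
    ext1 x
    have := congrArg (fun f => f x) h0
    simp only [LinearMap.add_apply, LinearMap.neg_apply,
      ContinuousLinearMap.coe_coe, LinearMap.zero_apply] at this
    linarith
  · intro h0
    have := h1 i
    rw [h0, hv.zero] at this
    exact zero_ne_one this

/-- **Frames** for the forms of signature `(n + k, n)`. -/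
theorem FlatK.exists_frameZ (hU : (U : Filter ℕ) ≤ atTop) (hr : Tendsto r (U : Filter ℕ) atTop)
    (F : FormData ℝ) (hS : ∀ a, Mod U r a → S.σ (R.toK a) = R.toK (fun i => F.σ (a i)))
    (hφ : FlatK S (iformSO n k) ν φ) (hν : Nrm ν) (hn : 0 < n)
    (T : (Fin n → ℝ) ≃ₗ[ℝ] (Fin n → ℝ)) (hT : ∀ k : Fin n, ∃ w, ∃ χ : (Fin n → ℝ) →L[ℝ] ℝ,
      HasFDerivAt ν χ w ∧ ∀ p, χ p = T p k) :
    ∃ H, FrameK S (iformSO n k) (wSO n k) T φ H := by
  have : Nonempty ((Fin n ⊕ Fin n) ⊕ Fin k) := ⟨.inl (.inl ⟨0, hn⟩)⟩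
  have hv := R.hv
  have hσ := rob_id R F S hS
  have hcomm := rob_comm R
  have hva := v_alg R hr
  have hB : ∀ p, (iformSO n k).jc ((iformSO n k).bar p) = 1 * (iformSO n k).jc p := by
    intro p; simp [iformSO]
  choose w χ hw hχ using hT
  choose u u' h1 h2 using fun k => hφ.exact_pair hU hr F hS hν (hw k)
  -- the Gram entries
  have hx0 : ∀ k, R.v (pr S (iformSO n _) (u k) (u' k)) = 1 := by
    intro k
    rw [pr_symm S _ hB, one_smul, S.norm_σ, h1]
  have hxne : ∀ k, pr S (iformSO n _) (u k) (u' k) ≠ 0 := by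
    intro k h0
    have := hx0 k
    rw [h0, hv.zero] at this
    exact zero_ne_one this
  let c : Fin n → K := fun k => (pr S (iformSO n _) (u k) (u' k))⁻¹
  have hc : ∀ k, R.v (c k) = 1 := by
    intro k
    simp only [c]
    rw [hv.inv, hx0, _root_.inv_one]
  let h : Fin n ⊕ Fin n → (Fin n ⊕ Fin n) ⊕ Fin k → K :=
    Sum.elim u (fun k p => u' k p * c k)
  let ψ : Fin n ⊕ Fin n → (Fin n → ℝ) →ₗ[ℝ] ℝ := fun p => -(wl p ∘ₗ T.toLinearMap)
  have hψ : ∀ p w, vs R.v (φ w 0 *ᵥ h p) = Real.exp (ψ p w) := by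
    rintro (k | k) w
    · change vs R.v (φ w 0 *ᵥ u k) = _
      rw [(h2 k w).1, hχ]
      simp [ψ, wl]
    · change vs R.v (φ w 0 *ᵥ fun p => u' k p * c k) = _
      rw [UNorm.mulVec_mul_right, hv.vs_mul_right, hc, mul_one, (h2 k w).2, hχ]
      simp [ψ, wl]
  have hh : ∀ p q, pr S (iformSO n _) (h p) (h q) = if q = p.swap then 1 else 0 := by
    intro p q
    by_cases hq : q = p.swap
    · rw [if_pos hq, hq]
      have k1 : ∀ k, pr S (iformSO n _) (u k) (fun p => u' k p * c k) = 1 := by
        intro k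
        have h3 := pr_mul_right S (iformSO n _) (u k) (u' k) 1 (c k)
        simp only [mul_one] at h3
        rw [h3, hσ, one_mul]
        exact mul_inv_cancel₀ (hxne k)
      rcases p with k | k
      · exact k1 k
      · change pr S (iformSO n _) (fun p => u' k p * c k) (u k) = _
        rw [pr_symm S _ hB, k1, hσ, one_smul]
    · rw [if_neg hq]
      refine hφ.pr_eq_zero hv hva (hψ p) (hψ q) fun h0 => hq ?_
      apply wl_separate
      intro x
      obtain ⟨y, rfl⟩ := T.surjective x
      have h3 := congrArg (fun f => f y) h0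
      simp only [ψ, LinearMap.add_apply, LinearMap.neg_apply, LinearMap.comp_apply,
        LinearMap.zero_apply, LinearEquiv.coe_coe] at h3
      rw [wl_swap]
      linarith
  obtain ⟨z, hz1, hz2⟩ := fz_ext hcomm hσ (fun ι s x => rob_sumsq_zero R hr s x)
    (rob_sq R hr) h hh k le_rfl
  have hform : ct S.σ (colM (Sum.elim h z)) * JI (iformSO n k) K * colM (Sum.elim h z) =
      JI (iformSO n k) K := by
    ext p q
    rw [ct_mul_JI_mul S (iformSO n k) (Sum.elim h z) p q, JI]
    have hjc : algebraMap ℝ K ((iformSO n k).jc p) = 1 := by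
      change algebraMap ℝ K 1 = 1
      exact map_one _
    rw [hjc]
    rcases p with p | a <;> rcases q with q | b
    · rw [Sum.elim_inl, Sum.elim_inl, hh]
      have e1 : (iformSO n k).bar (.inl p) = .inl p.swap := rfl
      rw [e1]
      by_cases h6 : q = p.swap
      · rw [if_pos h6, if_pos (by rw [h6])]
      · rw [if_neg h6, if_neg fun h7 => h6 (Sum.inl_injective h7)]
    · rw [Sum.elim_inl, Sum.elim_inr, hz1, if_neg]
      have e1 : (iformSO n k).bar (.inl p) = .inl p.swap := rfl
      rw [e1]; simp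
    · rw [Sum.elim_inl, Sum.elim_inr, pr_symm S _ hB, hz1, map_zero, smul_zero, if_neg]
      have e1 : (iformSO n k).bar (.inr a) = .inr a := rfl
      rw [e1]; simp
    · rw [Sum.elim_inr, Sum.elim_inr, hz2]
      have e1 : (iformSO n k).bar (.inr a) = .inr a := rfl
      rw [e1]
      by_cases h6 : b = a
      · rw [if_pos h6, if_pos (by rw [h6])]
      · rw [if_neg h6, if_neg fun h7 => h6 (Sum.inr_injective h7)]
  refine ⟨colM (Sum.elim h z), hform, ?_⟩
  intro w' p q
  have hcol : ∀ (q : Fin n ⊕ Fin n) (p : (Fin n ⊕ Fin n) ⊕ Fin k),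
      R.v ((φ w' 0 * colM (Sum.elim h z)) p (.inl q)) ≤ Real.exp (-(wl q (T w'))) := by
    intro q p
    have h3 : (φ w' 0 * colM (Sum.elim h z)) p (.inl q) = (φ w' 0 *ᵥ h q) p := by
      rw [Matrix.mul_apply]; rfl
    rw [h3]
    refine (UNorm.le_vs _ p).trans (le_of_eq ?_)
    rw [hψ]
    rfl
  rcases q with q | b
  · exact hcol q p
  · -- the definite columns
    set M := φ w' 0 * colM (Sum.elim h z) with hM
    have hMf : ct S.σ M * JI (iformSO n k) K * M = JI (iformSO n k) K := by
      rw [hM, ct_mul]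
      have h4 : ct S.σ (colM (Sum.elim h z)) * ct S.σ (φ w' 0) * JI (iformSO n k) K *
          (φ w' 0 * colM (Sum.elim h z)) = ct S.σ (colM (Sum.elim h z)) *
          (ct S.σ (φ w' 0) * JI (iformSO n k) K * φ w' 0) * colM (Sum.elim h z) := by
        simp only [Matrix.mul_assoc]
      rw [h4, hφ.form, hform]
    have h5 := self_mul_adj S (iformSO n k) hMf
    have h6 := congrFun (congrFun h5 p) ((iformSO n k).bar p)
    rw [Matrix.mul_apply] at h6
    have h7 : ∀ a, adj (iformSO n k) S M a ((iformSO n k).bar p) = M p ((iformSO n k).bar a) := by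
      intro a
      rw [adj_apply, hσ, (iformSO n k).bar_bar]
      have e1 : ∀ x, algebraMap ℝ K ((iformSO n k).jc x) = 1 := by
        intro x
        change algebraMap ℝ K 1 = 1
        exact map_one _
      rw [e1, e1, one_mul, mul_one]
    simp only [h7] at h6
    rw [Fintype.sum_sum_type] at h6
    have h8 : ∑ a : Fin k, M p (.inr a) * M p (.inr a) =
        (1 : Matrix _ _ K) p ((iformSO n k).bar p) -
          ∑ a : Fin n ⊕ Fin n, M p (.inl a) * M p (.inl a.swap) := by
      rw [← h6]
      have e1 : ∑ x : Fin k, M p (.inr x) * M p ((iformSO n k).bar (.inr x)) =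
          ∑ a : Fin k, M p (.inr a) * M p (.inr a) := rfl
      have e2 : ∑ x : Fin n ⊕ Fin n, M p (.inl x) * M p ((iformSO n k).bar (.inl x)) =
          ∑ a : Fin n ⊕ Fin n, M p (.inl a) * M p (.inl a.swap) := rfl
      rw [e1, e2]
      abel
    have h9 := rob_sumsq R hr Finset.univ (fun a : Fin k => M p (.inr a)) (Finset.mem_univ b)
    rw [h8] at h9
    have h10 : R.v ((1 : Matrix ((Fin n ⊕ Fin n) ⊕ Fin k) _ K) p ((iformSO n k).bar p)) ≤ 1 := by
      by_cases h11 : p = (iformSO n k).bar p
      · rw [← h11, Matrix.one_apply_eq, hv.one]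
      · rw [Matrix.one_apply_ne h11, hv.zero]; exact zero_le_one
    have h12 : R.v (∑ a : Fin n ⊕ Fin n, M p (.inl a) * M p (.inl a.swap)) ≤ 1 := by
      refine hv.sum_le _ _ zero_le_one fun a _ => ?_
      rw [hv.mul]
      have h13 := mul_le_mul (hcol a p) (hcol a.swap p) (hv.nonneg _) (Real.exp_pos _).le
      rw [wl_swap, ← Real.exp_add] at h13
      have h14 : -(wl a (T w')) + -(-(wl a (T w'))) = 0 := by ring
      rw [h14, Real.exp_zero] at h13
      exact h13
    have h15 : R.v (M p (.inr b)) * R.v (M p (.inr b)) ≤ 1 :=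
      h9.trans ((hv.sub _ _).trans (max_le h10 h12))
    have h16 : -(wSO n k (.inr b) (T w')) = 0 := by
      change -(0 : ℝ) = 0
      exact neg_zero
    rw [h16, Real.exp_zero]
    have h17 := hv.nonneg (M p (.inr b))
    by_contra h18
    push Not at h18
    nlinarith

end exact

/-- the weights of the form of signature `(n + k, n)` -/
theorem wtI_SO (n k : ℕ) : WtI (iformSO n k) (wSO n k) where
  ex := fun j => ⟨.inl (.inl j), fun t => rfl⟩
  cases := by
    rintro ((j | j) | z)
    · exact Or.inr ⟨j, Or.inl fun t => rfl⟩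
    · exact Or.inr ⟨j, Or.inr fun t => by simp [wSO, wl]⟩
    · exact Or.inl fun t => rfl
  sum := by
    intro t
    rw [Fintype.sum_sum_type, Fintype.sum_sum_type]
    simp [wSO, wl]
  bar := by
    intro p t
    rw [wSO_bar]
    rfl

/-- the form is anisotropic on the definite part -/
theorem real_SO {k : ℕ} {U : Ultrafilter ℕ} {r : ℕ → ℝ} {K : Type} [DivisionRing K] [Algebra ℝ K]
    (R : RobData U r ℝ K) (hr : Tendsto r (U : Filter ℕ) atTop) (F : FormData ℝ) (S : FormK R.v)
    (hS : ∀ a, Mod U r a → S.σ (R.toK a) = R.toK (fun i => F.σ (a i))) (x : Fin k → K)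
    (h : ∑ z, S.σ (x z) * x z = 0) : x = 0 := by
  have h1 : ∑ z, x z * x z = 0 := by
    rw [← h]
    exact Finset.sum_congr rfl fun z _ => by rw [rob_id R F S hS]
  funext z
  exact rob_sumsq_zero R hr Finset.univ x h1 z (Finset.mem_univ z)

end Pool.Agent.ANQ
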