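import Pool.Agent.ANQ.FinMain
import Pool.Agent.ANM65.VSo
import Pool.Agent.ANQ.FrameZ

/-!
# The main theorem for the orthogonal groups of signature `(2, 2 + k)`
-/

namespace Pool.Agent.ANQ

open Matrix Filter Topology Pool.Agent.ANM51 Pool.Agent.ANM65

set_option linter.unusedSectionVars false

section real

variable {U : Ultrafilter ℕ} {r : ℕ → ℝ} {K : Type} [DivisionRing K] [Algebra ℝ K]
  (R : RobData U r ℝ K)

theorem real_σ (F : FormData ℝ) (x : ℝ) : F.σ x = x := F.σ_real x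

/-- the involution of the Robinson field of `ℝ` is trivial -/
theorem rob_real_σ (F : FormData ℝ) (S : FormK R.v)
    (hS : ∀ a, Mod U r a → S.σ (R.toK a) = R.toK (fun i => F.σ (a i))) (x : K) : S.σ x = x := by
  obtain ⟨a, ha, rfl⟩ := R.surj x
  rw [hS a ha]
  congr 1
  funext i
  exact real_σ F _

include R in
/-- the Robinson field of `ℝ` is formally real -/
theorem rob_real_sq (hr : Tendsto r (U : Filter ℕ) atTop) {k : ℕ} (x : Fin k → K)
    (h : ∑ z, x z * x z = 0) : x = 0 := by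
  choose a ha hax using fun z => R.surj (x z)
  have h1 : ∀ z, Mod U r (fun i => a z i * a z i) := fun z => (ha z).mul (ha z)
  have h2 : R.toK (fun i => ∑ z, a z i * a z i) = 0 := by
    rw [toK_sum R hr Finset.univ (fun z i => a z i * a z i) h1, ← h]
    refine Finset.sum_congr rfl fun z _ => ?_
    rw [R.mul _ _ (ha z) (ha z), hax]
  have h3 : Neg U r (fun i => ∑ z, a z i * a z i) :=
    (R.zero_iff _ (Mod.sum hr _ _ h1)).1 h2
  funext z
  have h4 : Neg U r (fun i => a z i * a z i) := by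
    intro C
    filter_upwards [h3 C] with i hi
    refine le_trans ?_ hi
    rw [Real.norm_of_nonneg (mul_self_nonneg _),
      Real.norm_of_nonneg (Finset.sum_nonneg fun z _ => mul_self_nonneg _)]
    exact Finset.single_le_sum (f := fun z => a z i * a z i) (fun _ _ => mul_self_nonneg _)
      (Finset.mem_univ z)
  have h5 := (R.zero_iff _ (h1 z)).2 h4
  rw [R.mul _ _ (ha z) (ha z), hax] at h5
  exact mul_self_eq_zero.1 h5

end real

theorem wtI_wSO (n k : ℕ) : WtI (iformSO n k) (wSO n k) where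
  ex l := ⟨.inl (.inl l), fun _ => rfl⟩
  cases p := by
    rcases p with (l | l) | z
    · exact .inr ⟨l, .inl fun _ => rfl⟩
    · exact .inr ⟨l, .inr fun _ => rfl⟩
    · exact .inl fun _ => rfl
  sum t := by
    rw [Fintype.sum_sum_type]
    have h1 : ∑ z : Fin k, wSO n k (Sum.inr z) t = 0 := Finset.sum_eq_zero fun z _ => rfl
    rw [h1, add_zero]
    exact sum_wl t
  bar p t := by
    rw [wSO_bar]
    rfl

theorem wSO_inj {n k : ℕ} {q : Fin n ⊕ Fin n} {p : (Fin n ⊕ Fin n) ⊕ Fin k}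
    (h : wSO n k p = wSO n k (Sum.inl q)) : p = Sum.inl q := by
  rcases p with p | z
  · have h1 : p = q := wl_separate fun v => by
      have := LinearMap.congr_fun h v
      exact this
    rw [h1]
  · exfalso
    have h1 := LinearMap.congr_fun h (Pi.single (ix q) 1)
    rw [wSO_single, wSO_single] at h1
    exact vc_ne h1.symm

section

variable {D₁ : Type} [NormedDivisionRing D₁] [NormedAlgebra ℝ D₁] [FiniteDimensional ℝ D₁]

/-- **Main theorem, orthogonal groups of real rank two** (with the count of the weights and the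
existence of frames as hypotheses). -/
theorem main_so' (k : ℕ) (F : FormData ℝ)
    (f : ANSL 2 D₁ → (Matrix ((Fin 2 ⊕ Fin 2) ⊕ Fin k) ((Fin 2 ⊕ Fin 2) ⊕ Fin k) ℝ)ˣ)
    {L C : ℝ} (hf : QIE (iformSO 2 k) F f L C)
    (hct : ∀ (U : Ultrafilter ℕ) (r : ℕ → ℝ), (U : Filter ℕ) ≤ atTop →
      Tendsto r (U : Filter ℕ) atTop → ∀ (K : Type) [DivisionRing K] [Algebra ℝ K]
      (R : RobData U r ℝ K) (S : FormK R.v),
      (∀ a, Mod U r a → S.σ (R.toK a) = R.toK (fun i => F.σ (a i))) →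
      ∀ (ν : (Fin 2 → ℝ) → ℝ) (φ : (Fin 2 → ℝ) → (Fin 2 → ℝ) →
        Matrix ((Fin 2 ⊕ Fin 2) ⊕ Fin k) ((Fin 2 ⊕ Fin 2) ⊕ Fin k) K),
      FlatK S (iformSO 2 k) ν φ → Nrm ν → ∀ (a : ℕ) (χ : Fin a → ((Fin 2 → ℝ) →L[ℝ] ℝ)),
        (∀ i, ∃ w, HasFDerivAt ν (χ i) w) → (∀ i j, i ≠ j → χ i ≠ χ j ∧ χ i ≠ -χ j) → a ≤ 2)
    (hfr : ∀ (U : Ultrafilter ℕ) (r : ℕ → ℝ), (U : Filter ℕ) ≤ atTop →
      Tendsto r (U : Filter ℕ) atTop → ∀ (K : Type) [DivisionRing K] [Algebra ℝ K]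
      (R : RobData U r ℝ K) (S : FormK R.v),
      (∀ a, Mod U r a → S.σ (R.toK a) = R.toK (fun i => F.σ (a i))) →
      ∀ (ν : (Fin 2 → ℝ) → ℝ) (φ : (Fin 2 → ℝ) → (Fin 2 → ℝ) →
        Matrix ((Fin 2 ⊕ Fin 2) ⊕ Fin k) ((Fin 2 ⊕ Fin 2) ⊕ Fin k) K),
      FlatK S (iformSO 2 k) ν φ → Nrm ν → ∀ T : (Fin 2 → ℝ) ≃ₗ[ℝ] (Fin 2 → ℝ),
        (∀ k : Fin 2, ∃ w, ∃ χ : (Fin 2 → ℝ) →L[ℝ] ℝ, HasFDerivAt ν χ w ∧ ∀ p, χ p = T p k) →
        ∃ H, FrameK S (iformSO 2 k) (wSO 2 k) T φ H) :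
    Module.finrank ℝ D₁ ≤ 1 := by
  have hne : Nonempty ((Fin 2 ⊕ Fin 2) ⊕ Fin k) := ⟨.inl (.inl 0)⟩
  refine with_setup hf (wtI_wSO 2 k) (Module.finBasis ℝ D₁) hct hfr ?_
  intro U r hU hr K _ _ R S hS Good g hb T W V hW hV
  obtain ⟨hg, c1, c2⟩ := hb.mem hr
  have hcl := clG_GGs (Good := Good) (g := g) hr
  have hσ := rob_real_σ R F S hS
  obtain ⟨i, j, l, hij, hjl, p, q, κ, -, h2, h3⟩ := alg_out_so hr R.hv S hσ
    (fun x hx => rob_real_sq R hr x (by simpa only [hσ] using hx)) T _ V hV (modG_GGs hr) g c2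
  have h4 := fin_root R hr F S hS (Module.finBasis ℝ D₁) hb hcl W V hW hij hjl
    (Sum.inl p) (Sum.inl q) (fun x hx => vdata_diag_ne hV hg hx fun p hp => wSO_inj hp) κ 1
    (one_mul 1) (⊤ : Submodule ℝ ℝ) (fun z => by
      rw [one_smul, real_σ]
      exact ⟨fun _ => rfl, fun _ => Submodule.mem_top⟩) (fun _ => 1)
    (Mod.const hr 1) (by rw [toK_one R, R.hv.one]) (fun u _ => by rw [hσ, one_smul]) h2 h3
  rwa [finrank_top, Module.finrank_self] at h4

/-- **Main theorem, orthogonal groups of real rank two.** -/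
theorem main_so (k : ℕ) (F : FormData ℝ)
    (f : ANSL 2 D₁ → (Matrix ((Fin 2 ⊕ Fin 2) ⊕ Fin k) ((Fin 2 ⊕ Fin 2) ⊕ Fin k) ℝ)ˣ)
    {L C : ℝ} (hf : QIE (iformSO 2 k) F f L C) : Module.finrank ℝ D₁ ≤ 1 :=
  main_so' k F f hf
    (fun U r hU hr K _ _ R S hS ν φ hφ hν a χ hχ hne =>
      FlatK.countZ hU hr F hS hφ hν two_pos a χ hχ hne)
    (fun U r hU hr K _ _ R S hS ν φ hφ hν T hT =>
      FlatK.exists_frameZ hU hr F hS hφ hν two_pos T hT)

end

end Pool.Agent.ANQ
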