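import Pool.Agent.ANQ.AlgRoot

/-!
# The root algebra over the Robinson division ring, case `k = 0`
-/

namespace Pool.Agent.ANQ

open Matrix Filter Topology Pool.Agent.ANM51 Pool.Agent.ANM65

set_option linter.unusedSectionVars false

/-! ## Weights of matrices -/

section wts

variable {n : ℕ} {K : Type} [DivisionRing K] [Algebra ℝ K] {I : Type} [Fintype I] [DecidableEq I]
  {wI : I → (Fin n → ℝ) →ₗ[ℝ] ℝ} {T : (Fin n → ℝ) ≃ₗ[ℝ] (Fin n → ℝ)}

/-- all non-zero entries have weight `α (i, j) + β (j, k)` -/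
def HW (wI : I → (Fin n → ℝ) →ₗ[ℝ] ℝ) (T : (Fin n → ℝ) ≃ₗ[ℝ] (Fin n → ℝ))
    (i j k : Fin (n + 1)) (α β : ℝ) (M : Matrix I I K) : Prop :=
  ∀ a b, M a b ≠ 0 → ∀ w, wI a (T w) - wI b (T w) = α * rootE i j w + β * rootE j k w

theorem HW.mul {i j k : Fin (n + 1)} {α β α' β' : ℝ} {M N : Matrix I I K}
    (hM : HW wI T i j k α β M) (hN : HW wI T i j k α' β' N) :
    HW wI T i j k (α + α') (β + β') (M * N) := by
  intro a b hab w
  rw [Matrix.mul_apply] at hab
  obtain ⟨c, -, hc⟩ := Finset.exists_ne_zero_of_sum_ne_zero hab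
  have h1 := hM a c (left_ne_zero_of_mul hc) w
  have h2 := hN c b (right_ne_zero_of_mul hc) w
  linarith

theorem HW.sub {i j k : Fin (n + 1)} {α β : ℝ} {M N : Matrix I I K}
    (hM : HW wI T i j k α β M) (hN : HW wI T i j k α β N) :
    HW wI T i j k α β (M - N) := by
  intro a b hab w
  by_cases h1 : M a b = 0
  · apply hN a b
    intro h2
    rw [Matrix.sub_apply, h1, h2, sub_zero] at hab
    exact hab rfl
  · exact hM a b h1 w

theorem HW.zero_of {i j k : Fin (n + 1)} (hij : i < j) (hjk : j < k) {α β α' β' : ℝ}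
    {M : Matrix I I K} (hM : HW wI T i j k α β M) {a b : I}
    (hab : ∀ w, wI a (T w) - wI b (T w) = α' * rootE i j w + β' * rootE j k w)
    (hne : α ≠ α' ∨ β ≠ β') : M a b = 0 := by
  by_contra h0
  have h1 := hM a b h0
  have h2 : ∀ w : Fin n → ℝ, (α - α') * rootE i j w = (β' - β) * rootE j k w := by
    intro w
    have e1 := h1 w
    have e2 := hab w
    linarith
  obtain ⟨h3, h4⟩ := root_indep hij hjk (Or.inl (ne_of_lt hij)) h2
  rcases hne with h | h
  · exact h (by linarith)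
  · exact h (by linarith)

theorem Ray.hw_left {B : IForm I} {i j k : Fin (n + 1)} (hij : i < j) {p q : I} {κ : ℝ}
    (hp : PatRoot B wI T i j p q κ) {M : Matrix I I K} (hM : Ray wI T i j M) :
    HW wI T i j k κ 0 (M - 1) := by
  intro a b hab w
  have hne : a ≠ b := by
    rintro rfl
    rw [Matrix.sub_apply, hM.diag, Matrix.one_apply_eq, sub_self] at hab
    exact hab rfl
  rw [Matrix.sub_apply, Matrix.one_apply_ne hne, sub_zero] at hab
  obtain ⟨c, hc, hc0, hcw⟩ := hM.off a b hab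
  have hc' : 0 < c := lt_of_le_of_ne hc fun h => hne (hc0 h.symm)
  have hcκ : c = κ := by
    rcases hp.pat a b c hc' hcw with ⟨rfl, rfl⟩ | ⟨rfl, rfl⟩
    · exact RtW.unique hij hcw hp.rt
    · exact RtW.unique hij hcw (RtW.partner hp.bar hp.rt)
  rw [hcw w, hcκ]; ring

theorem Ray.hw_right {B : IForm I} {i j k : Fin (n + 1)} (hjk : j < k) {p q : I} {κ : ℝ}
    (hp : PatRoot B wI T j k p q κ) {M : Matrix I I K} (hM : Ray wI T j k M) :
    HW wI T i j k 0 κ (M - 1) := by
  intro a b hab w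
  have h := Ray.hw_left (k := k) hjk hp hM a b hab w
  rw [h]; ring

theorem Ray.hw_sum {B : IForm I} {i j k : Fin (n + 1)} (hik : i < k) {p q : I} {κ : ℝ}
    (hp : PatRoot B wI T i k p q κ) {M : Matrix I I K} (hM : Ray wI T i k M) :
    HW wI T i j k κ κ (M - 1) := by
  intro a b hab w
  have h := Ray.hw_left (k := k) hik hp hM a b hab w
  rw [h, rootE_trans i j k]; ring

/-- The relation `P Q = Q P R` in terms of weight components. -/
theorem comm_rel {B : IForm I} {i j k : Fin (n + 1)} (hij : i < j) (hjk : j < k)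
    {P Q R : Matrix I I K} {pA qA pB qB pC qC : I} {κA κB κC : ℝ}
    (hA : PatRoot B wI T i j pA qA κA) (hB : PatRoot B wI T j k pB qB κB)
    (hC : PatRoot B wI T i k pC qC κC)
    (hP : Ray wI T i j P) (hQ : Ray wI T j k Q) (hR : Ray wI T i k R)
    (hrel : P * Q = Q * P * R) (hne : R - 1 ≠ 0) :
    R - 1 = (P - 1) * (Q - 1) - (Q - 1) * (P - 1) ∧ (P - 1) * (R - 1) = 0 ∧
      (Q - 1) * (R - 1) = 0 := by
  have hik := hij.trans hjk
  set X := P - 1 with hX
  set Y := Q - 1 with hY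
  set Z := R - 1 with hZ
  have wX : HW wI T i j k κA 0 X := Ray.hw_left hij hA hP
  have wY : HW wI T i j k 0 κB Y := Ray.hw_right hjk hB hQ
  have wZ : HW wI T i j k κC κC Z := Ray.hw_sum hik hC hR
  have pA' := hA.pos
  have pB' := hB.pos
  have pC' := hC.pos
  have hrel2 : X * Y - Y * X = Z + X * Z + Y * Z + Y * X * Z := by
    have e1 : P = X + 1 := by rw [hX]; abel
    have e2 : Q = Y + 1 := by rw [hY]; abel
    have e3 : R = Z + 1 := by rw [hZ]; abel
    rw [e1, e2, e3] at hrel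
    have h1 : (X + 1) * (Y + 1) - (Y + 1) * (X + 1) * (Z + 1) = 0 := by rw [hrel, sub_self]
    have h2 : X * Y - Y * X - (Z + X * Z + Y * Z + Y * X * Z) = 0 := by
      rw [← h1]; noncomm_ring
    exact sub_eq_zero.1 h2
  have wXY : HW wI T i j k κA κB (X * Y - Y * X) := by
    have h1 := wX.mul wY
    have h2 := wY.mul wX
    rw [add_zero, zero_add] at h1
    rw [zero_add, add_zero] at h2
    exact h1.sub h2
  have wXZ : HW wI T i j k (κA + κC) κC (X * Z) := by
    have h1 := wX.mul wZ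
    rwa [zero_add] at h1
  have wYZ : HW wI T i j k κC (κB + κC) (Y * Z) := by
    have h1 := wY.mul wZ
    rwa [zero_add] at h1
  have wYXZ : HW wI T i j k (κA + κC) (κB + κC) (Y * X * Z) := by
    have h1 := (wY.mul wX).mul wZ
    rwa [zero_add, add_zero] at h1
  have hent : ∀ a b, (X * Y - Y * X) a b = Z a b + (X * Z) a b + (Y * Z) a b +
      (Y * X * Z) a b := by
    intro a b
    rw [hrel2]; rfl
  -- the weights agree
  obtain ⟨c, d, hcd⟩ : ∃ c d, Z c d ≠ 0 := by
    by_contra hcon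
    push Not at hcon
    exact hne (by ext a b; exact hcon a b)
  have hκ : κA = κC ∧ κB = κC := by
    have hw := wZ c d hcd
    have h1 := hent c d
    rw [wXZ.zero_of hij hjk hw (Or.inl (by linarith)),
      wYZ.zero_of hij hjk hw (Or.inr (by linarith)),
      wYXZ.zero_of hij hjk hw (Or.inl (by linarith)), add_zero, add_zero, add_zero] at h1
    by_contra hcon
    have h2 : κA ≠ κC ∨ κB ≠ κC := by
      by_contra h3
      push Not at h3
      exact hcon h3
    rw [wXY.zero_of hij hjk hw h2] at h1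
    exact hcd h1.symm
  obtain ⟨rfl, rfl⟩ := hκ
  refine ⟨?_, ?_, ?_⟩
  · ext a b
    by_cases h0 : Z a b = 0 ∧ (X * Y - Y * X) a b = 0
    · rw [h0.1, h0.2]
    · have hw : ∀ w, wI a (T w) - wI b (T w) = κB * rootE i j w + κB * rootE j k w := by
        by_cases h1 : Z a b = 0
        · exact wXY a b (fun h2 => h0 ⟨h1, h2⟩)
        · exact wZ a b h1
      have h1 := hent a b
      rw [wXZ.zero_of hij hjk hw (Or.inl (by linarith)),
        wYZ.zero_of hij hjk hw (Or.inr (by linarith)),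
        wYXZ.zero_of hij hjk hw (Or.inl (by linarith)), add_zero, add_zero, add_zero] at h1
      exact h1.symm
  · ext a b
    by_contra h0
    have hw := wXZ a b h0
    have h1 := hent a b
    rw [wXY.zero_of hij hjk hw (Or.inl (by linarith)),
      wZ.zero_of hij hjk hw (Or.inl (by linarith)),
      wYZ.zero_of hij hjk hw (Or.inl (by linarith)),
      wYXZ.zero_of hij hjk hw (Or.inr (by linarith)), zero_add, add_zero, add_zero] at h1
    exact h0 h1.symm
  · ext a b
    by_contra h0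
    have hw := wYZ a b h0
    have h1 := hent a b
    rw [wXY.zero_of hij hjk hw (Or.inr (by linarith)),
      wZ.zero_of hij hjk hw (Or.inr (by linarith)),
      wXZ.zero_of hij hjk hw (Or.inl (by linarith)),
      wYXZ.zero_of hij hjk hw (Or.inl (by linarith)), zero_add, zero_add, add_zero] at h1
    exact h0 h1.symm

theorem long_core {bar : I → I} (hbb : ∀ a, bar (bar a) = a) {p : I} {L M Z : Matrix I I K}
    (hL : ∀ a b, L a b ≠ 0 → a = p ∧ b = bar p) (hMd : ∀ a, M a a = 0)
    (hMp : ∀ a b, M a b ≠ 0 → M (bar b) (bar a) ≠ 0)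
    (hMr : ∀ a e e', M a e ≠ 0 → M a e' ≠ 0 → e = e')
    (hZp : ∀ a b, Z a b ≠ 0 → Z (bar b) (bar a) ≠ 0)
    (hZ : Z = L * M - M * L ∨ Z = M * L - L * M) (hMZ : M * Z = 0) (hZ0 : Z ≠ 0) : False := by
  obtain ⟨c, d, hcd⟩ : ∃ c d, Z c d ≠ 0 := by
    by_contra hcon
    push Not at hcon
    exact hZ0 (by ext a b; exact hcon a b)
  -- a column of `M`
  have hLM : ∀ c d, (L * M) c d ≠ 0 → ∃ a, M a p ≠ 0 := by
    intro c d h
    rw [Matrix.mul_apply] at h
    obtain ⟨e, -, he⟩ := Finset.exists_ne_zero_of_sum_ne_zero h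
    obtain ⟨-, rfl⟩ := hL c e (left_ne_zero_of_mul he)
    have h1 := hMp _ _ (right_ne_zero_of_mul he)
    rw [hbb] at h1
    exact ⟨_, h1⟩
  have hML : ∀ c d, (M * L) c d ≠ 0 → ∃ a, M a p ≠ 0 := by
    intro c d h
    rw [Matrix.mul_apply] at h
    obtain ⟨e, -, he⟩ := Finset.exists_ne_zero_of_sum_ne_zero h
    obtain ⟨rfl, -⟩ := hL e d (right_ne_zero_of_mul he)
    exact ⟨_, left_ne_zero_of_mul he⟩
  obtain ⟨a, ha⟩ : ∃ a, M a p ≠ 0 := by
    by_cases h1 : (L * M) c d = 0
    · by_cases h2 : (M * L) c d = 0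
      · exfalso
        rcases hZ with h | h <;>
        · rw [h, Matrix.sub_apply, h1, h2, sub_zero] at hcd
          exact hcd rfl
      · exact hML c d h2
    · exact hLM c d h1
  have hap : a ≠ p := by
    rintro rfl
    exact ha (hMd a)
  -- the entry of `L`
  have hL0 : L p (bar p) ≠ 0 := by
    intro h0
    have hLz : L = 0 := by
      ext x y
      by_contra h1
      obtain ⟨rfl, rfl⟩ := hL x y h1
      exact h1 h0
    rcases hZ with h | h <;>
    · rw [hLz, zero_mul, mul_zero, sub_zero] at h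
      exact hZ0 h
  have h1 : (L * M) a (bar p) = 0 := by
    rw [Matrix.mul_apply]
    refine Finset.sum_eq_zero fun e _ => ?_
    by_contra h
    exact hap (hL a e (left_ne_zero_of_mul h)).1
  have h2 : (M * L) a (bar p) = M a p * L p (bar p) := by
    rw [Matrix.mul_apply, Finset.sum_eq_single p]
    · intro e _ he
      by_contra h
      exact he (hL e _ (right_ne_zero_of_mul h)).1
    · intro h; exact absurd (Finset.mem_univ _) h
  have h3 : Z a (bar p) ≠ 0 := by
    have h4 : M a p * L p (bar p) ≠ 0 := mul_ne_zero ha hL0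
    rcases hZ with h | h
    · rw [h, Matrix.sub_apply, h1, h2, zero_sub]
      exact neg_ne_zero.2 h4
    · rw [h, Matrix.sub_apply, h1, h2, sub_zero]
      exact h4
  have h4 := hZp _ _ h3
  rw [hbb] at h4
  have h5 : (M * Z) a (bar a) = M a p * Z p (bar a) := by
    rw [Matrix.mul_apply, Finset.sum_eq_single p]
    · intro e _ he
      by_contra h
      exact he (hMr a e p (left_ne_zero_of_mul h) ha)
    · intro h; exact absurd (Finset.mem_univ _) h
  rw [hMZ] at h5
  exact mul_ne_zero ha h4 h5.symm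

theorem IForm.jc_ne (B : IForm I) (a : I) : B.jc a ≠ 0 := by
  intro h
  have h1 := B.jc_sq a
  rw [h, mul_zero] at h1
  exact zero_ne_one h1

theorem partner_ne {v : K → ℝ} {S : FormK v} {B : IForm I} {i j : Fin (n + 1)} (hij : i < j)
    {p q : I} {κ : ℝ} (hp : PatRoot B wI T i j p q κ) {M : Matrix I I K} (hM : Ray wI T i j M)
    (hF : ct S.σ M * JI B K * M = JI B K) {a b : I} (hne : (M - 1) a b ≠ 0) :
    (M - 1) (B.bar b) (B.bar a) ≠ 0 := by
  have hab : a ≠ b := by
    rintro rfl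
    rw [Matrix.sub_apply, hM.diag, Matrix.one_apply_eq, sub_self] at hne
    exact hne rfl
  have hab' : B.bar b ≠ B.bar a := fun h => hab (bar_inj h).symm
  rw [Matrix.sub_apply, Matrix.one_apply_ne hab, sub_zero] at hne
  rw [Matrix.sub_apply, Matrix.one_apply_ne hab', sub_zero]
  have hpar := hp.partner hij hM hF
  obtain ⟨c, hc, hc0, hcw⟩ := hM.off a b hne
  have hc' : 0 < c := lt_of_le_of_ne hc fun h => hab (hc0 h.symm)
  rcases hp.pat a b c hc' hcw with ⟨rfl, rfl⟩ | ⟨rfl, rfl⟩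
  · intro h0
    rw [h0, smul_zero, zero_add] at hpar
    have h1 := (smul_eq_zero.1 hpar).resolve_left (IForm.jc_ne B _)
    apply hne
    rw [← S.invol (M a b), h1, map_zero]
  · rw [B.bar_bar, B.bar_bar]
    intro h0
    rw [h0, map_zero, smul_zero, add_zero] at hpar
    exact hne ((smul_eq_zero.1 hpar).resolve_left (IForm.jc_ne B _))

theorem row_unique {B : IForm I} {i j : Fin (n + 1)}
    {p q : I} {κ : ℝ} (hp : PatRoot B wI T i j p q κ) {M : Matrix I I K} (hM : Ray wI T i j M)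
    {a e e' : I} (h1 : (M - 1) a e ≠ 0) (h2 : (M - 1) a e' ≠ 0) : e = e' := by
  have key : ∀ e, (M - 1) a e ≠ 0 → (a = p ∧ e = q) ∨ (a = B.bar q ∧ e = B.bar p) := by
    intro e h
    have hab : a ≠ e := by
      rintro rfl
      rw [Matrix.sub_apply, hM.diag, Matrix.one_apply_eq, sub_self] at h
      exact h rfl
    rw [Matrix.sub_apply, Matrix.one_apply_ne hab, sub_zero] at h
    obtain ⟨c, hc, hc0, hcw⟩ := hM.off a e h
    exact hp.pat a e c (lt_of_le_of_ne hc fun h => hab (hc0 h.symm)) hcw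
  rcases key e h1 with ⟨h3, h4⟩ | ⟨h3, h4⟩ <;> rcases key e' h2 with ⟨h5, h6⟩ | ⟨h5, h6⟩
  · rw [h4, h6]
  · rw [h4, h6, ← h3, h5, B.bar_bar]
  · rw [h4, h6, ← h5, h3, B.bar_bar]
  · rw [h4, h6]

theorem ray_diag0 {i j : Fin (n + 1)} {M : Matrix I I K} (hM : Ray wI T i j M) (a : I) :
    (M - 1) a a = 0 := by
  rw [Matrix.sub_apply, hM.diag, Matrix.one_apply_eq, sub_self]

theorem long_entry {B : IForm I} {i j : Fin (n + 1)} {p : I} {κ : ℝ}
    (hp : PatRoot B wI T i j p (B.bar p) κ) {M : Matrix I I K} (hM : Ray wI T i j M)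
    (a b : I) (hne : (M - 1) a b ≠ 0) : a = p ∧ b = B.bar p := by
  have hab : a ≠ b := by
    rintro rfl
    exact hne (ray_diag0 hM a)
  rw [Matrix.sub_apply, Matrix.one_apply_ne hab, sub_zero] at hne
  obtain ⟨c, hc, hc0, hcw⟩ := hM.off a b hne
  rcases hp.pat a b c (lt_of_le_of_ne hc fun h => hab (hc0 h.symm)) hcw with h | h
  · exact h
  · rw [B.bar_bar] at h; exact h

/-- In a relation `P Q = Q P R` with `R ≠ 1` neither `P` nor `Q` is of long type. -/
theorem long_not_simple {v : K → ℝ} {S : FormK v} {B : IForm I} {i j k : Fin (n + 1)}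
    (hij : i < j) (hjk : j < k)
    {P Q R : Matrix I I K} {pA qA pB qB pC qC : I} {κA κB κC : ℝ}
    (hA : PatRoot B wI T i j pA qA κA) (hB : PatRoot B wI T j k pB qB κB)
    (hC : PatRoot B wI T i k pC qC κC)
    (hP : Ray wI T i j P) (hQ : Ray wI T j k Q) (hR : Ray wI T i k R)
    (fP : ct S.σ P * JI B K * P = JI B K) (fQ : ct S.σ Q * JI B K * Q = JI B K)
    (fR : ct S.σ R * JI B K * R = JI B K)
    (hrel : P * Q = Q * P * R) (hne : R - 1 ≠ 0) : qA ≠ B.bar pA ∧ qB ≠ B.bar pB := by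
  obtain ⟨r1, r2, r3⟩ := comm_rel hij hjk hA hB hC hP hQ hR hrel hne
  constructor
  · rintro rfl
    exact long_core B.bar_bar (L := P - 1) (M := Q - 1) (Z := R - 1)
      (fun a b h => long_entry hA hP a b h) (fun a => ray_diag0 hQ a)
      (fun a b h => partner_ne hjk hB hQ fQ h) (fun a e e' h h' => row_unique hB hQ h h')
      (fun a b h => partner_ne (hij.trans hjk) hC hR fR h) (Or.inl r1) r3 hne
  · rintro rfl
    exact long_core B.bar_bar (L := Q - 1) (M := P - 1) (Z := R - 1)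
      (fun a b h => long_entry hB hQ a b h) (fun a => ray_diag0 hP a)
      (fun a b h => partner_ne hij hA hP fP h) (fun a e e' h h' => row_unique hA hP h h')
      (fun a b h => partner_ne (hij.trans hjk) hC hR fR h) (Or.inr r1) r2 hne

end wts

section main

variable {n : ℕ} {D₁ : Type} [NormedDivisionRing D₁] [NormedAlgebra ℝ D₁]
  {D₂ : Type} [NormedDivisionRing D₂] [NormedAlgebra ℝ D₂]
  {U : Ultrafilter ℕ} {r : ℕ → ℝ} {K : Type} [DivisionRing K] [Algebra ℝ K] {v : K → ℝ}

theorem wl_inj {p q : Fin n ⊕ Fin n} (h : wl p = wl q) : p = q := by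
  apply wt_injective
  funext k
  have h1 := wl_single p k
  have h2 := wl_single q k
  rw [h, h2] at h1
  exact_mod_cast h1.symm

theorem patRoot_of (F : FormData D₂) {T : (Fin n → ℝ) ≃ₗ[ℝ] (Fin n → ℝ)} {i j : Fin (n + 1)}
    (hij : i < j) {p q : Fin n ⊕ Fin n} {κ : ℝ} (hκ : 0 < κ) (h : RtW wl T i j p q κ) :
    PatRoot (iform0 n F) wl T i j p q κ where
  pos := hκ
  rt := h
  sp _ ha := wl_inj ha
  sq _ ha := wl_inj ha
  bar a := LinearMap.ext fun w => wl_swap a w
  pat a b c hc hab := by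
    have h1 : RootAt (T.toLinearMap ∘ₗ prj n) i j p q κ :=
      (rootAt_iff T (RtW.ne hij hκ h) hκ).2 h
    have h2 : RootAt (T.toLinearMap ∘ₗ prj n) i j a b c :=
      (rootAt_iff T (RtW.ne hij hc hab) hc).2 hab
    exact wt_sub_eq (root_unique' (prj_surj T) h1 h2).1 h1.ne

theorem expGe_one (hr : Tendsto r (U : Filter ℕ) atTop) :
    ExpGe U r (fun _ => (1 : D₁)) 0 := by
  intro η hη
  filter_upwards [hr.eventually_ge_atTop 0] with i hi
  rw [norm_one, Real.exp_le_one_iff]
  nlinarith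

theorem expLe_one (hr : Tendsto r (U : Filter ℕ) atTop) :
    ExpLe U r (fun _ => (1 : D₁)) 0 := by
  intro η hη
  filter_upwards [hr.eventually_ge_atTop 0] with i hi
  rw [norm_one]
  apply Real.one_le_exp
  nlinarith

/-- **J.** Everything needed about the root algebra in the case `k = 0`. -/
theorem alg_out (hn : 2 ≤ n) (hr : Tendsto r (U : Filter ℕ) atTop) (hv : UNorm v)
    (S : FormK v) (F : FormData D₂)
    (T : (Fin n → ℝ) ≃ₗ[ℝ] (Fin n → ℝ)) (GG : Set (ℕ → ANSL n D₁))
    (V : (ℕ → ANSL n D₁) → (ℕ → ANSL n D₁) → Matrix (Fin n ⊕ Fin n) (Fin n ⊕ Fin n) K)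
    (hV : VData U r v S (iform0 n F) wl T GG V) (hm : ModG U r GG)
    (g : ℕ → ANSL n D₁) (hg : g ∈ GG)
    (c1 : ∀ (i j : Fin (n + 1)) (hij : i < j), g * rts hij (fun _ => 1) ∈ GG)
    (c2 : ∀ (i j k : Fin (n + 1)) (hij : i < j) (hjk : j < k),
      Cfg GG g hij hjk (fun _ => 0) (fun _ => 1)) :
    -- a long root
    (∃ (i j k : Fin (n + 1)) (hij : i < j) (hjk : j < k) (p : Fin n ⊕ Fin n) (κ : ℝ), 0 < κ ∧
      (∀ u, g * rts (hij.trans hjk) u ∈ GG →
        S.σ (psiV V g (hij.trans hjk) p p.swap u) =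
          F.ε • psiV V g (hij.trans hjk) p p.swap u) ∧
      (∀ u w, Cfg GG g hij hjk u w → psiV V g (hij.trans hjk) p p.swap (u + w) =
        psiV V g (hij.trans hjk) p p.swap u + psiV V g (hij.trans hjk) p p.swap w) ∧
      (∀ (a b : ℕ → D₁) (τ : ℝ), g * rts (hij.trans hjk) a ∈ GG → g * rts (hij.trans hjk) b ∈ GG →
        (ExpGe U r (b - a) τ → Real.exp (κ * τ) ≤
          v (psiV V g (hij.trans hjk) p p.swap b - psiV V g (hij.trans hjk) p p.swap a)) ∧
        (ExpLe U r (b - a) τ →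
          v (psiV V g (hij.trans hjk) p p.swap b - psiV V g (hij.trans hjk) p p.swap a) ≤
            Real.exp (κ * τ)))) ∨
    -- all roots short
    (n = 3 ∧ ∃ (i j k l : Fin (n + 1)) (hij : i < j) (hjk : j < k) (hkl : k < l)
      (p q : Fin n ⊕ Fin n) (κ : ℝ), 0 < κ ∧
      psiV V g (hjk.trans hkl) p q.swap (fun _ => 1) ≠ 0 ∧
      v (psiV V g (hjk.trans hkl) p q.swap (fun _ => 1)) = 1 ∧
      (∀ u, g * rts (hij.trans hjk) u ∈ GG →
        g * rts (hij.trans hjk) u * rts (hjk.trans hkl) (fun _ => 1) ∈ GG →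
        S.σ (psiV V g (hij.trans hjk) p q u * S.σ (psiV V g (hjk.trans hkl) p q.swap (fun _ => 1))) =
          -(F.ε • (psiV V g (hij.trans hjk) p q u *
            S.σ (psiV V g (hjk.trans hkl) p q.swap (fun _ => 1))))) ∧
      (∀ u w, Cfg GG g hij hjk u w → psiV V g (hij.trans hjk) p q (u + w) =
        psiV V g (hij.trans hjk) p q u + psiV V g (hij.trans hjk) p q w) ∧
      (∀ (a b : ℕ → D₁) (τ : ℝ), g * rts (hij.trans hjk) a ∈ GG → g * rts (hij.trans hjk) b ∈ GG →
        (ExpGe U r (b - a) τ → Real.exp (κ * τ) ≤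
          v (psiV V g (hij.trans hjk) p q b - psiV V g (hij.trans hjk) p q a)) ∧
        (ExpLe U r (b - a) τ →
          v (psiV V g (hij.trans hjk) p q b - psiV V g (hij.trans hjk) p q a) ≤
            Real.exp (κ * τ)))) := by
  classical
  have pat : ∀ (i j : Fin (n + 1)) (hij : i < j), ∃ p q κ,
      PatRoot (iform0 n F) wl T i j p q κ ∧
        gau wl V g g (g * rts hij (fun _ => 1)) p q ≠ 0 := by
    intro i j hij
    obtain ⟨p, q, c, hc, hcw, hne⟩ := exists_gau_ne hV hv hm hg hg hij (c1 i j hij)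
      (expGe_one hr)
    exact ⟨p, q, c, patRoot_of F hij hc hcw, hne⟩
  have hform : ∀ {x y : ℕ → ANSL n D₁}, x ∈ GG → y ∈ GG →
      ct S.σ (gau wl V g x y) * JI (iform0 n F) K * gau wl V g x y = JI (iform0 n F) K :=
    fun hx hy => gau_form hV (fun a => LinearMap.ext fun w => wl_swap a w) hg hx hy
  by_cases hlong : ∃ (i j k : Fin (n + 1)) (_ : i < j) (_ : j < k) (p : Fin n ⊕ Fin n) (κ : ℝ),
      PatRoot (iform0 n F) wl T i k p p.swap κ
  · left
    obtain ⟨i, j, k, hij, hjk, p, κ, hp⟩ := hlong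
    refine ⟨i, j, k, hij, hjk, p, κ, hp.pos, fun u hu => ?_, fun u w hc => ?_,
      fun a b τ ha hb => ⟨fun hτ => ?_, fun hτ => ?_⟩⟩
    · have h1 := psiV_eq hV hg (hij.trans hjk) hp.sp hp.sq hu
      rw [h1]
      have h2 := hp.partner (hij.trans hjk) (S := S) (gau_ray' hV hv hm hg hg _ hu) (hform hg hu)
      have h3 : (iform0 n F).bar p.swap = p := Sum.swap_swap p
      have h4 : (iform0 n F).bar p = p.swap := rfl
      rw [h3, h4] at h2
      set X := gau wl V g g (g * rts (hij.trans hjk) u) p p.swap with hX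
      have hε : F.ε * F.ε = 1 := by rcases F.hε with h | h <;> rw [h] <;> norm_num
      rcases p with a | a
      · have e1 : (iform0 n F).jc (Sum.inl a) = 1 := rfl
        have e2 : (iform0 n F).jc (Sum.swap (Sum.inl a)) = -F.ε := rfl
        rw [e1, e2, one_smul, neg_smul, neg_add_eq_zero] at h2
        exact h2.symm
      · have e1 : (iform0 n F).jc (Sum.inr a) = -F.ε := rfl
        have e2 : (iform0 n F).jc (Sum.swap (Sum.inr a)) = 1 := rfl
        rw [e1, e2, one_smul, neg_smul, ← sub_eq_add_neg, sub_eq_zero] at h2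
        rw [h2, smul_smul, hε, one_smul]
        rw [← h2]
    · exact psi_add hV hv hm hg hij hjk hp hc
    · exact psi_lower hV hv hm hg _ hp ha hb hτ
    · exact psi_upper hV hv hm hg _ hp ha hb hτ
  right
  -- no root (i, j), (j, k) is long
  have hnl : ∀ (i j k : Fin (n + 1)) (hij : i < j) (hjk : j < k) (pA qA pB qB : Fin n ⊕ Fin n)
      (κA κB : ℝ), PatRoot (iform0 n F) wl T i j pA qA κA →
      PatRoot (iform0 n F) wl T j k pB qB κB → qA ≠ pA.swap ∧ qB ≠ pB.swap := by
    intro i j k hij hjk pA qA pB qB κA κB hA hB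
    obtain ⟨pC, qC, κC, hC, hCne⟩ := pat i k (hij.trans hjk)
    obtain ⟨x1, x2, x3, x4, x5, x6, x7⟩ := c2 i j k hij hjk g (by simp)
    have hrel := gau_rel hV hv hm hg hij hjk x1 x2 x3 x4 x5 x6 x7
    refine long_not_simple (S := S) hij hjk hA hB hC (gau_ray' hV hv hm hg x1 hij x2)
      (gau_ray' hV hv hm hg x1 hjk x3) (gau_ray' hV hv hm hg x1 _ x6)
      (hform x1 x2) (hform x1 x3) (hform x1 x6) hrel ?_
    intro h0
    have h1 := congrFun (congrFun h0 pC) qC
    rw [Matrix.sub_apply, Matrix.one_apply_ne (hC.ne (hij.trans hjk)), sub_zero] at h1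
    exact hCne h1
  have hsh : ∀ i j : Fin (n + 1), i < j →
      ∃ p q c, RootAt (T.toLinearMap ∘ₗ prj n) i j p q c ∧ q ≠ p.swap := by
    intro i j hij
    obtain ⟨p, q, κ, hp, -⟩ := pat i j hij
    refine ⟨p, q, κ, (rootAt_iff T (hp.ne hij) hp.pos).2 hp.rt, ?_⟩
    by_cases hj : j < Fin.last n
    · obtain ⟨pB, qB, κB, hB, -⟩ := pat j (Fin.last n) hj
      exact (hnl i j (Fin.last n) hij hj p q pB qB κ κB hp hB).1
    · have hj' : j = Fin.last n := le_antisymm (Fin.le_last j) (not_lt.1 hj)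
      by_cases hi : (0 : Fin (n + 1)) < i
      · obtain ⟨pA, qA, κA, hA, -⟩ := pat 0 i hi
        exact (hnl 0 i j hi hij pA qA p q κA κ hA hp).2
      · have hi' : i = 0 := le_antisymm (not_lt.1 hi) (Fin.zero_le i)
        rintro rfl
        apply hlong
        refine ⟨i, ⟨1, by omega⟩, j, ?_, ?_, p, κ, hp⟩
        · rw [hi', Fin.lt_def]; exact Nat.one_pos
        · rw [hj', Fin.lt_def]; exact hn
  have h3 : n = 3 := eq_three' (prj_surj T) hn hsh
  subst h3
  obtain ⟨P, Q, c, c', h02, h13, hsw⟩ := three' (prj_surj T) hsh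
  have l01 : (0 : Fin (3 + 1)) < 1 := by decide
  have l12 : (1 : Fin (3 + 1)) < 2 := by decide
  have l23 : (2 : Fin (3 + 1)) < 3 := by decide
  have hp : PatRoot (iform0 3 F) wl T 0 2 P Q c :=
    patRoot_of F (l01.trans l12) h02.pos ((rootAt_iff T h02.ne h02.pos).1 h02)
  have hp' : PatRoot (iform0 3 F) wl T 1 3 P Q.swap c' :=
    patRoot_of F (l12.trans l23) h13.pos ((rootAt_iff T h13.ne h13.pos).1 h13)
  -- the norm of the second coordinate
  have hg0 : g * rts (l12.trans l23) (0 : ℕ → D₁) = g := by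
    have : (rts (l12.trans l23) (0 : ℕ → D₁)) = 1 := by funext t; exact rt_zero _
    rw [this, mul_one]
  have hpsi0 : psiV V g (l12.trans l23) P Q.swap (0 : ℕ → D₁) = 0 := by
    rw [psiV_eq hV hg (l12.trans l23) hp'.sp hp'.sq (by rw [hg0]; exact hg), hg0,
      gau_one hV hg hg, Matrix.one_apply_ne (hp'.ne (l12.trans l23))]
  have hv1 : v (psiV V g (l12.trans l23) P Q.swap (fun _ => 1)) = 1 := by
    have hg0' : g * rts (l12.trans l23) (0 : ℕ → D₁) ∈ GG := by rw [hg0]; exact hg
    have e0 : ((fun _ => 1 : ℕ → D₁) - 0) = (fun _ => 1 : ℕ → D₁) := sub_zero _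
    have h1 := psi_upper hV hv hm hg (l12.trans l23) hp' hg0' (c1 _ _ (l12.trans l23))
      (τ := 0) (by rw [e0]; exact expLe_one hr)
    have h2 := psi_lower hV hv hm hg (l12.trans l23) hp' hg0' (c1 _ _ (l12.trans l23))
      (τ := 0) (by rw [e0]; exact expGe_one hr)
    rw [hpsi0, sub_zero, mul_zero, Real.exp_zero] at h1 h2
    exact le_antisymm h1 h2
  refine ⟨rfl, 0, 1, 2, 3, l01, l12, l23, P, Q, c, h02.pos, ?_, hv1, fun u hu hu1 => ?_,
    fun u w hc => psi_add hV hv hm hg l01 l12 hp hc,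
    fun a b τ ha hb => ⟨fun hτ => psi_lower hV hv hm hg _ hp ha hb hτ,
      fun hτ => psi_upper hV hv hm hg _ hp ha hb hτ⟩⟩
  · intro h0
    rw [h0, (hv.eq_zero 0).2 rfl] at hv1
    exact zero_ne_one hv1
  -- the sigma relation
  have hone := c1 _ _ (l12.trans l23)
  have hcomm := rts_comm (D₁ := D₁) (l01.trans l12) (l12.trans l23) (by decide) (by decide) g u
    (fun _ => 1)
  have hu2 : g * rts (l12.trans l23) (fun _ => 1) * rts (l01.trans l12) u ∈ GG := by
    rw [← hcomm]; exact hu1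
  have k1 := gau_comm hV hv hm hg (l01.trans l12) (l12.trans l23) (Or.inl (by decide)) hg hu hone
    hu2 hcomm
  have k2 := gau_comm hV hv hm hg (l12.trans l23) (l01.trans l12) (Or.inl (by decide)) hg hone hu
    hu1 hcomm.symm
  have hMN : gau wl V g g (g * rts (l01.trans l12) u) *
      gau wl V g g (g * rts (l12.trans l23) (fun _ => 1)) =
      gau wl V g g (g * rts (l12.trans l23) (fun _ => 1)) *
        gau wl V g g (g * rts (l01.trans l12) u) := by
    calc gau wl V g g (g * rts (l01.trans l12) u) *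
        gau wl V g g (g * rts (l12.trans l23) (fun _ => 1))
        = gau wl V g g (g * rts (l01.trans l12) u) *
          gau wl V g (g * rts (l01.trans l12) u)
            (g * rts (l01.trans l12) u * rts (l12.trans l23) (fun _ => 1)) := by rw [← k2]
      _ = gau wl V g g (g * rts (l01.trans l12) u * rts (l12.trans l23) (fun _ => 1)) :=
          gau_mul hV hg hg hu hu1
      _ = gau wl V g g (g * rts (l12.trans l23) (fun _ => 1)) *
          gau wl V g (g * rts (l12.trans l23) (fun _ => 1))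
            (g * rts (l12.trans l23) (fun _ => 1) * rts (l01.trans l12) u) := by
          rw [hcomm, gau_mul hV hg hg hone hu2]
      _ = _ := by rw [← k1]
  rw [psiV_eq hV hg (l01.trans l12) hp.sp hp.sq hu,
    psiV_eq hV hg (l12.trans l23) hp'.sp hp'.sq hone]
  set M := gau wl V g g (g * rts (l01.trans l12) u) with hM
  set N := gau wl V g g (g * rts (l12.trans l23) (fun _ => 1)) with hN
  have rM : Ray wl T 0 2 M := gau_ray' hV hv hm hg hg _ hu
  have rN : Ray wl T 1 3 N := gau_ray' hV hv hm hg hg _ hone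
  have fM := hp.partner (l01.trans l12) (S := S) rM (hform hg hu)
  have fN := hp'.partner (l12.trans l23) (S := S) rN (hform hg hone)
  have hPQ : P ≠ Q := hp.ne (l01.trans l12)
  have hPQ' : P ≠ Q.swap := hp'.ne (l12.trans l23)
  have bs : ∀ a : Fin 3 ⊕ Fin 3, (iform0 3 F).bar a = a.swap := fun a => rfl
  simp only [bs, Sum.swap_swap] at fM fN
  have o1 : ∀ a b, a ≠ b → M a b ≠ 0 → (a = P ∧ b = Q) ∨ (a = Q.swap ∧ b = P.swap) := by
    intro a b hab h
    by_contra hcon
    rw [not_or] at hcon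
    exact h (hp.off_zero (l01.trans l12) rM hab hcon.1 hcon.2)
  have o2 : ∀ a b, a ≠ b → N a b ≠ 0 → (a = P ∧ b = Q.swap) ∨ (a = Q ∧ b = P.swap) := by
    intro a b hab h
    by_contra hcon
    rw [not_or] at hcon
    refine h (hp'.off_zero (l12.trans l23) rN hab hcon.1 ?_)
    simp only [bs, Sum.swap_swap]
    exact hcon.2
  have hPs : P ≠ P.swap := Ne.symm swap_ne
  have e1 : (M * N) P P.swap = M P Q * N Q P.swap := by
    rw [Matrix.mul_apply, Finset.sum_eq_single Q]
    · intro e _ he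
      by_contra h
      have h1 := left_ne_zero_of_mul h
      have h2 := right_ne_zero_of_mul h
      by_cases hPe : P = e
      · rw [← hPe] at h2
        rcases o2 _ _ hPs h2 with ⟨-, h4⟩ | ⟨h4, -⟩
        · exact hPQ (Sum.swap_leftInverse.injective h4)
        · exact hPQ h4
      · rcases o1 _ _ hPe h1 with ⟨-, h4⟩ | ⟨h4, -⟩
        · exact he h4
        · exact hPQ' h4
    · intro h; exact absurd (Finset.mem_univ _) h
  have e2 : (N * M) P P.swap = N P Q.swap * M Q.swap P.swap := by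
    rw [Matrix.mul_apply, Finset.sum_eq_single Q.swap]
    · intro e _ he
      by_contra h
      have h1 := left_ne_zero_of_mul h
      have h2 := right_ne_zero_of_mul h
      by_cases hPe : P = e
      · rw [← hPe] at h2
        rcases o1 _ _ hPs h2 with ⟨-, h4⟩ | ⟨h4, -⟩
        · exact hsw h4.symm
        · exact hPQ' h4
      · rcases o2 _ _ hPe h1 with ⟨-, h4⟩ | ⟨h4, -⟩
        · exact he h4
        · exact hPQ h4
    · intro h; exact absurd (Finset.mem_univ _) h
  rw [hMN, e2] at e1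
  rw [S.anti, S.invol]
  set x := M P Q with hx
  set y := N P Q.swap with hy
  set x' := M Q.swap P.swap with hx'
  set y' := N Q P.swap with hy'
  set jP := (iform0 3 F).jc P with hjP
  set jQ := (iform0 3 F).jc Q with hjQ
  set jQ' := (iform0 3 F).jc Q.swap with hjQ'
  have sP : jP * jP = 1 := (iform0 3 F).jc_sq P
  have sQ : jQ * jQ = 1 := (iform0 3 F).jc_sq Q
  have sQ' : jQ' * jQ' = 1 := (iform0 3 F).jc_sq Q.swap
  have sQQ : jQ * jQ' = -F.ε := by
    rw [hjQ, hjQ']
    rcases Q with a | a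
    · change (1 : ℝ) * (-F.ε) = -F.ε
      rw [one_mul]
    · change (-F.ε) * (1 : ℝ) = -F.ε
      rw [mul_one]
  have hx2 : x' = -((jQ * jP) • S.σ x) := by
    have h1 := congrArg (fun z => jQ • z) fM
    simp only [smul_add, smul_smul, sQ, one_smul, smul_zero] at h1
    exact eq_neg_of_add_eq_zero_left h1
  have hy2 : y' = -((jQ' * jP) • S.σ y) := by
    have h1 := congrArg (fun z => jQ' • z) fN
    simp only [smul_add, smul_smul, sQ', one_smul, smul_zero] at h1
    exact eq_neg_of_add_eq_zero_left h1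
  rw [hx2, hy2, mul_neg, mul_neg, neg_inj, mul_smul_comm, mul_smul_comm] at e1
  have h4 := congrArg (fun z => (jQ * jP) • z) e1
  simp only [smul_smul] at h4
  have c3 : jQ * jP * (jQ * jP) = 1 := by
    calc jQ * jP * (jQ * jP) = (jQ * jQ) * (jP * jP) := by ring
      _ = 1 := by rw [sQ, sP, one_mul]
  have c4 : jQ * jP * (jQ' * jP) = -F.ε := by
    calc jQ * jP * (jQ' * jP) = (jQ * jQ') * (jP * jP) := by ring
      _ = -F.ε := by rw [sQQ, sP, mul_one]
  rw [c3, c4, one_smul, neg_smul] at h4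
  exact h4

end main

end Pool.Agent.ANQ
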