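import Pool.Agent.ANM65.VRoot

/-!
# Roots and a linear isomorphism of the Cartan subspaces
-/

namespace Pool.Agent.ANQ

open Matrix Pool.Agent.ANM51 Pool.Agent.ANM65

set_option linter.unusedSectionVars false

variable {n : ℕ}

theorem vec_of_surj {T : (Fin (n + 1) → ℝ) →ₗ[ℝ] (Fin n → ℝ)} (hT : Function.Surjective T)
    {p q p' q' : Fin n ⊕ Fin n} {a b : ℝ}
    (h : ∀ s, a * (wl p (T s) - wl q (T s)) = b * (wl p' (T s) - wl q' (T s))) (k : Fin n) :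
    a * ((wt p - wt q) k : ℝ) = b * ((wt p' - wt q') k : ℝ) := by
  obtain ⟨s, hs⟩ := hT (Pi.single k 1)
  have h1 := h s
  rw [hs, wl_single, wl_single, wl_single, wl_single] at h1
  simp only [Pi.sub_apply]
  push_cast
  exact h1

theorem root_unique' {T : (Fin (n + 1) → ℝ) →ₗ[ℝ] (Fin n → ℝ)} (hT : Function.Surjective T)
    {i j : Fin (n + 1)} {p q p' q' : Fin n ⊕ Fin n} {c c' : ℝ}
    (h : RootAt T i j p q c) (h' : RootAt T i j p' q' c') :
    wt p - wt q = wt p' - wt q' ∧ c' = c := by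
  refine root_prop h.ne h'.ne h'.pos h.pos ?_
  refine vec_of_surj hT fun s => ?_
  rw [h.eq, h'.eq]; ring

/-- additivity of short roots -/
theorem root_add' {T : (Fin (n + 1) → ℝ) →ₗ[ℝ] (Fin n → ℝ)} (hT : Function.Surjective T)
    {i j k : Fin (n + 1)} (hij : i < j) (hjk : j < k)
    {p₁ q₁ p₂ q₂ p₃ q₃ : Fin n ⊕ Fin n} {c₁ c₂ c₃ : ℝ}
    (h₁ : RootAt T i j p₁ q₁ c₁) (h₂ : RootAt T j k p₂ q₂ c₂) (h₃ : RootAt T i k p₃ q₃ c₃)
    (s₁ : q₁ ≠ p₁.swap) (s₂ : q₂ ≠ p₂.swap) (s₃ : q₃ ≠ p₃.swap) :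
    (wt p₁ - wt q₁) + (wt p₂ - wt q₂) = wt p₃ - wt q₃ := by
  have hne := root_ne hij hjk (Or.inl (ne_of_lt hij)) h₁ h₂
  have key : ∀ m, c₁⁻¹ * ((wt p₁ - wt q₁) m : ℝ) + c₂⁻¹ * ((wt p₂ - wt q₂) m : ℝ) =
      c₃⁻¹ * ((wt p₃ - wt q₃) m : ℝ) := by
    intro m
    obtain ⟨s, hs⟩ := hT (Pi.single m 1)
    have e1 := h₁.eq s
    have e2 := h₂.eq s
    have e3 := h₃.eq s
    rw [hs, wl_single, wl_single] at e1 e2 e3
    simp only [Pi.sub_apply]
    push_cast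
    rw [e1, e2, e3, inv_mul_cancel_left₀ h₁.pos.ne', inv_mul_cancel_left₀ h₂.pos.ne',
      inv_mul_cancel_left₀ h₃.pos.ne']
    ring
  obtain ⟨e1, e2⟩ := short_comb (short_wt_sub h₁.ne s₁).1 (short_wt_sub h₂.ne s₂).1
    (short_wt_sub h₃.ne s₃).1 hne.1 hne.2 (inv_pos.2 h₁.pos) (inv_pos.2 h₂.pos)
    (inv_pos.2 h₃.pos) key
  funext m
  have h4 := key m
  rw [e1, e2, ← mul_add] at h4
  have h5 := mul_left_cancel₀ (inv_pos.2 h₃.pos).ne' h4
  rw [Pi.add_apply]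
  exact_mod_cast h5

theorem eq_three' {T : (Fin (n + 1) → ℝ) →ₗ[ℝ] (Fin n → ℝ)} (hT : Function.Surjective T)
    (hn : 2 ≤ n) (hsh : ∀ i j : Fin (n + 1), i < j → ∃ p q c, RootAt T i j p q c ∧ q ≠ p.swap) :
    n = 3 := by
  have hlt : ∀ i : Fin n, (Fin.castSucc i) < Fin.last n := fun i => Fin.castSucc_lt_last i
  choose p q c hr hsw using fun i : Fin n => hsh _ _ (hlt i)
  refine star_triangle hn (fun i => sup (wt (p i) - wt (q i))) (fun i => ?_) ?_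
  · exact (short_wt_sub (hr i).ne (hsw i)).1.2
  · have key : ∀ i j : Fin n, i < j →
        IP (wt (p i) - wt (q i)) (wt (p j) - wt (q j)) = 1 := by
      intro i j hij
      have hij' : Fin.castSucc i < Fin.castSucc j := by
        rw [Fin.lt_def]; exact hij
      obtain ⟨p', q', c', hr', hsw'⟩ := hsh _ _ hij'
      have hadd := root_add' hT hij' (hlt j) hr' (hr j) (hr i) hsw' (hsw j) (hsw i)
      apply IP_eq_one_of_short (short_wt_sub (hr i).ne (hsw i)).1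
        (short_wt_sub (hr j).ne (hsw j)).1
      rw [← hadd, add_sub_cancel_right]
      exact (short_wt_sub hr'.ne hsw').1
    intro i j hij
    rcases lt_or_gt_of_ne hij with h | h
    · exact (short_wt_sub (hr i).ne (hsw i)).1.inter_card_of_odd
        (short_wt_sub (hr j).ne (hsw j)).1 (key i j h)
    · rw [Finset.inter_comm]
      exact (short_wt_sub (hr j).ne (hsw j)).1.inter_card_of_odd
        (short_wt_sub (hr i).ne (hsw i)).1 (key j i h)

/-- In the case `n = 3` with all roots short, the roots `(0, 2)` and `(1, 3)` have a common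
support. -/
theorem three' {T : (Fin (3 + 1) → ℝ) →ₗ[ℝ] (Fin 3 → ℝ)} (hT : Function.Surjective T)
    (hsh : ∀ i j : Fin (3 + 1), i < j → ∃ p q c, RootAt T i j p q c ∧ q ≠ p.swap) :
    ∃ P Q : Fin 3 ⊕ Fin 3, ∃ c c' : ℝ, RootAt T 0 2 P Q c ∧ RootAt T 1 3 P Q.swap c' ∧
      Q ≠ P.swap := by
  have l01 : (0 : Fin (3 + 1)) < 1 := by decide
  have l02 : (0 : Fin (3 + 1)) < 2 := by decide
  have l03 : (0 : Fin (3 + 1)) < 3 := by decide
  have l12 : (1 : Fin (3 + 1)) < 2 := by decide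
  have l13 : (1 : Fin (3 + 1)) < 3 := by decide
  have l23 : (2 : Fin (3 + 1)) < 3 := by decide
  obtain ⟨p₁, q₁, c₁, h01, s01⟩ := hsh _ _ l01
  obtain ⟨p₂, q₂, c₂, h02, s02⟩ := hsh _ _ l02
  obtain ⟨p₃, q₃, c₃, h03, s03⟩ := hsh _ _ l03
  obtain ⟨p₄, q₄, c₄, h12, s12⟩ := hsh _ _ l12
  obtain ⟨p₅, q₅, c₅, h13, s13⟩ := hsh _ _ l13
  obtain ⟨p₆, q₆, c₆, h23, s23⟩ := hsh _ _ l23
  have a1 := root_add' hT l01 l13 h01 h13 h03 s01 s13 s03
  have a2 := root_add' hT l02 l23 h02 h23 h03 s02 s23 s03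
  have a3 := root_add' hT l12 l23 h12 h23 h13 s12 s23 s13
  have S01 := short_wt_sub h01.ne s01
  have S02 := short_wt_sub h02.ne s02
  have S03 := short_wt_sub h03.ne s03
  have S12 := short_wt_sub h12.ne s12
  have S13 := short_wt_sub h13.ne s13
  have S23 := short_wt_sub h23.ne s23
  have i1 : IP (wt p₃ - wt q₃) (wt p₅ - wt q₅) = 1 :=
    IP_eq_one_of_short S03.1 S13.1 (by rw [← a1, add_sub_cancel_right]; exact S01.1)
  have i2 : IP (wt p₆ - wt q₆) (wt p₅ - wt q₅) = 1 := by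
    rw [IP_comm]
    exact IP_eq_one_of_short S13.1 S23.1 (by rw [← a3, add_sub_cancel_right]; exact S12.1)
  have i3 : IP (wt p₂ - wt q₂) (wt p₅ - wt q₅) = 0 := by
    have : wt p₂ - wt q₂ = (wt p₃ - wt q₃) - (wt p₆ - wt q₆) := by
      rw [← a2, add_sub_cancel_right]
    rw [this, IP_sub_left, i1, i2, sub_self]
  have c1 := S02.1.inter_card_of_zero S13.1 i3
  have c2 : 1 ≤ (sup (wt p₂ - wt q₂) ∩ sup (wt p₅ - wt q₅)).card := by
    have h1 := Finset.card_union_add_card_inter (sup (wt p₂ - wt q₂)) (sup (wt p₅ - wt q₅))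
    have h2 : (sup (wt p₂ - wt q₂) ∪ sup (wt p₅ - wt q₅)).card ≤ 3 := by
      refine (Finset.card_le_univ _).trans ?_
      rw [Fintype.card_fin]
    rw [S02.1.2, S13.1.2] at h1
    omega
  have c3 : sup (wt p₂ - wt q₂) = sup (wt p₅ - wt q₅) := by
    have h1 : sup (wt p₂ - wt q₂) ∩ sup (wt p₅ - wt q₅) = sup (wt p₂ - wt q₂) :=
      Finset.eq_of_subset_of_card_le Finset.inter_subset_left (by rw [S02.1.2]; omega)
    have h2 : sup (wt p₂ - wt q₂) ∩ sup (wt p₅ - wt q₅) = sup (wt p₅ - wt q₅) :=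
      Finset.eq_of_subset_of_card_le Finset.inter_subset_right (by rw [S13.1.2]; omega)
    rw [← h1, h2]
  have hne := root_ne l02 l13 (Or.inl (by decide)) h02 h13
  obtain ⟨P, Q, hsw, hPQ, e1, e2⟩ := common_form h02.ne s02 h13.ne s13
    (by rw [← S02.2, ← S13.2, c3]) hne.1 hne.2
  refine ⟨P, Q, c₂, c₅, h02.congr hPQ e1, h13.congr ?_ e2, hsw⟩
  intro h
  exact hsw (by rw [h, Sum.swap_swap])

/-! ## From `Fin n → ℝ` to `Fin (n + 1) → ℝ` -/

/-- `RootAt` for maps defined on `Fin n → ℝ` -/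
theorem rootAt_iff (T : (Fin n → ℝ) ≃ₗ[ℝ] (Fin n → ℝ)) {i j : Fin (n + 1)}
    {p q : Fin n ⊕ Fin n} {c : ℝ} (hpq : p ≠ q) (hc : 0 < c) :
    RootAt (T.toLinearMap ∘ₗ prj n) i j p q c ↔
      ∀ w, wl p (T w) - wl q (T w) = c * rootE i j w := by
  constructor
  · intro h w
    have h1 := h.eq (ext w)
    simp only [LinearMap.comp_apply, LinearEquiv.coe_coe, prj_ext] at h1
    exact h1
  · intro h
    refine ⟨hpq, hc, fun s => ?_⟩
    simp only [LinearMap.comp_apply, LinearEquiv.coe_coe]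
    rw [h, rootE_prj]

theorem prj_surj (T : (Fin n → ℝ) ≃ₗ[ℝ] (Fin n → ℝ)) :
    Function.Surjective (T.toLinearMap ∘ₗ prj n) := by
  intro y
  refine ⟨ext (T.symm y), ?_⟩
  simp only [LinearMap.comp_apply, LinearEquiv.coe_coe, prj_ext, LinearEquiv.apply_symm_apply]

end Pool.Agent.ANQ
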