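import Pool.Agent.ANQ.Mean

/-!
# Base points with few bad translates
-/

namespace Pool.Agent.ANQ

open Filter Topology

section

variable {G : Type} [Group G]

theorem bdf_sum {ι : Type} (s : Finset ι) (φ : ι → G → ℝ) (h : ∀ k ∈ s, Bdf (φ k)) :
    Bdf fun x => ∑ k ∈ s, φ k x := by
  classical
  induction s using Finset.induction_on with
  | empty => simpa using bdf_const (G := G) 0
  | insert a s ha ih =>
    have h1 := (h a (Finset.mem_insert_self a s)).add
      (ih fun k hk => h k (Finset.mem_insert_of_mem hk))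
    simpa [Finset.sum_insert ha] using h1

theorem RMean.sum (M : RMean G) {ι : Type} (s : Finset ι) (φ : ι → G → ℝ)
    (h : ∀ k ∈ s, Bdf (φ k)) : M.m (fun x => ∑ k ∈ s, φ k x) = ∑ k ∈ s, M.m (φ k) := by
  classical
  induction s using Finset.induction_on with
  | empty => simpa using M.const 0
  | insert a s ha ih =>
    have hb : Bdf fun x => ∑ k ∈ s, φ k x :=
      bdf_sum s φ fun k hk => h k (Finset.mem_insert_of_mem hk)
    have h1 := M.add (φ a) _ (h a (Finset.mem_insert_self a s)) hb
    rw [ih fun k hk => h k (Finset.mem_insert_of_mem hk)] at h1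
    simpa [Finset.sum_insert ha] using h1

/-- a function takes a value at most `c` if its mean is smaller -/
theorem RMean.exists_le (M : RMean G) {φ : G → ℝ} (hφ : Bdf φ) {c : ℝ} (h : M.m φ < c) :
    ∃ g, φ g ≤ c := by
  by_contra hc
  push Not at hc
  have h1 := M.mono (fun _ => c) φ (bdf_const c) hφ fun x => (hc x).le
  rw [M.const] at h1
  linarith

theorem bdf_ind (B : Set G) : Bdf fun x => Set.indicator B (fun _ => (1 : ℝ)) x := by
  refine ⟨1, fun x => ?_⟩
  by_cases hx : x ∈ B <;> simp [hx]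

open Classical in
/-- **Base points.** If the mean of a set `Bad` is small, then finitely many finite families of
translates can be made simultaneously almost good by a choice of the base point. -/
theorem RMean.exists_base (M : RMean G) (Bad : Set G) {δ : ℝ} (hδ : 0 < δ)
    (hM : M.m (fun x => Set.indicator Bad (fun _ => (1 : ℝ)) x) ≤ δ) {S : Type} [Fintype S]
    (ι : S → Type) (A : ∀ s, Finset (ι s)) (W : ∀ s, ι s → G) :
    ∃ g : G, ∀ s, (Set.ncard {k | k ∈ A s ∧ g * W s k ∈ Bad} : ℝ) ≤
      (Fintype.card S + 1) * δ * (A s).card := by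
  let ψ : S → G → ℝ := fun s x =>
    ((A s).card : ℝ)⁻¹ * ∑ k ∈ A s, Set.indicator Bad (fun _ => (1 : ℝ)) (x * W s k)
  have hb : ∀ s, Bdf (ψ s) := fun s =>
    (bdf_sum _ _ fun k _ => (bdf_ind Bad).comp fun x => x * W s k).smul _
  have hs : ∀ s, M.m (ψ s) ≤ δ := by
    intro s
    have h1 : M.m (ψ s) = ((A s).card : ℝ)⁻¹ * ∑ k ∈ A s, M.m fun x =>
        Set.indicator Bad (fun _ => (1 : ℝ)) (x * W s k) := by
      rw [← M.sum _ _ fun k _ => (bdf_ind Bad).comp fun x => x * W s k]
      exact M.smul _ _ (bdf_sum _ _ fun k _ => (bdf_ind Bad).comp fun x => x * W s k)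
    rw [h1]
    have h2 : ∀ k ∈ A s, (M.m fun x => Set.indicator Bad (fun _ => (1 : ℝ)) (x * W s k)) ≤ δ := by
      intro k _
      rw [M.inv (fun x => Set.indicator Bad (fun _ => (1 : ℝ)) x) (W s k) (bdf_ind Bad)]
      exact hM
    have h3 := Finset.sum_le_sum h2
    rw [Finset.sum_const, nsmul_eq_mul] at h3
    rcases (A s).card.eq_zero_or_pos with h0 | h0
    · rw [h0]
      simpa using hδ.le
    · have h4 : (0 : ℝ) < (A s).card := by exact_mod_cast h0
      calc ((A s).card : ℝ)⁻¹ * _ ≤ ((A s).card : ℝ)⁻¹ * ((A s).card * δ) :=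
            mul_le_mul_of_nonneg_left h3 (inv_nonneg.2 h4.le)
        _ = δ := by field_simp
  have htot : M.m (fun x => ∑ s, ψ s x) < (Fintype.card S + 1) * δ := by
    rw [M.sum _ _ fun s _ => hb s]
    have h3 := Finset.sum_le_sum fun s (_ : s ∈ Finset.univ) => hs s
    rw [Finset.sum_const, nsmul_eq_mul, Finset.card_univ] at h3
    linarith
  obtain ⟨g, hg⟩ := M.exists_le (bdf_sum _ _ fun s _ => hb s) htot
  refine ⟨g, fun s => ?_⟩
  have hnn : ∀ s, 0 ≤ ψ s g := fun s =>
    mul_nonneg (inv_nonneg.2 (Nat.cast_nonneg _)) (Finset.sum_nonneg fun k _ =>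
      Set.indicator_nonneg (fun _ _ => zero_le_one) _)
  have h5 : ψ s g ≤ (Fintype.card S + 1) * δ :=
    (Finset.single_le_sum (f := fun s => ψ s g) (fun s _ => hnn s) (Finset.mem_univ s)).trans hg
  have h6 : ((Set.ncard {k | k ∈ A s ∧ g * W s k ∈ Bad} : ℕ) : ℝ) =
      ∑ k ∈ A s, Set.indicator Bad (fun _ => (1 : ℝ)) (g * W s k) := by
    have h7 : {k | k ∈ A s ∧ g * W s k ∈ Bad} =
        (((A s).filter fun k => g * W s k ∈ Bad : Finset (ι s)) : Set (ι s)) := by
      ext k
      simp
    rw [h7, Set.ncard_coe_finset, Finset.card_filter]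
    push_cast
    refine Finset.sum_congr rfl fun k _ => ?_
    simp [Set.indicator_apply]
  rw [h6]
  rcases (A s).card.eq_zero_or_pos with h0 | h0
  · rw [Finset.card_eq_zero.1 h0]
    simp
  · have h4 : (0 : ℝ) < (A s).card := by exact_mod_cast h0
    have h8 : ∑ k ∈ A s, Set.indicator Bad (fun _ => (1 : ℝ)) (g * W s k) =
        (A s).card * ψ s g := by
      simp only [ψ]
      field_simp
    rw [h8, mul_comm]
    exact mul_le_mul_of_nonneg_right h5 h4.le

end

end Pool.Agent.ANQ
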