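import Mathlib

/-!
# Almost additive functions on boxes: majority vote and packing
-/

namespace Pool.Agent.ANQ

open Filter Topology

set_option linter.unusedSectionVars false

/-- boxes in `ℤ^m` -/
noncomputable def box (m : ℕ) (N : ℕ) : Finset (Fin m → ℤ) :=
  Fintype.piFinset fun _ => Finset.Icc (-(N : ℤ)) N

theorem mem_box {m N : ℕ} {u : Fin m → ℤ} : u ∈ box m N ↔ ∀ l, -(N : ℤ) ≤ u l ∧ u l ≤ N := by
  simp [box, Fintype.mem_piFinset]

theorem card_box (m N : ℕ) : (box m N).card = (2 * N + 1) ^ m := by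
  rw [box, Fintype.card_piFinset_const, Int.card_Icc]
  congr 1
  omega

theorem box_mono {m N M : ℕ} (h : N ≤ M) : box m N ⊆ box m M := by
  intro u hu
  rw [mem_box] at hu ⊢
  intro l
  have := hu l
  constructor <;> omega

theorem add_mem_box {m N M K : ℕ} {u v : Fin m → ℤ} (hu : u ∈ box m N) (hv : v ∈ box m M)
    (h : N + M ≤ K) : u + v ∈ box m K := by
  rw [mem_box] at *
  intro l
  have := hu l
  have := hv l
  simp only [Pi.add_apply]
  constructor <;> omega

section one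

open scoped Classical

variable {m : ℕ} {V : Type} [NormedAddCommGroup V] [NormedSpace ℝ V]

/-- the number of points of the box of side `K` where `p` fails is at most `c` -/
def Few (m K : ℕ) (c : ℝ) (p : (Fin m → ℤ) → Prop) : Prop :=
  (((box m K).filter fun u => ¬ p u).card : ℝ) ≤ c

theorem Few.and {K : ℕ} {c d : ℝ} {p q : (Fin m → ℤ) → Prop} (hp : Few m K c p)
    (hq : Few m K d q) : Few m K (c + d) (fun u => p u ∧ q u) := by
  have h1 : ((box m K).filter fun u => ¬ (p u ∧ q u)) ⊆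
      ((box m K).filter fun u => ¬ p u) ∪ ((box m K).filter fun u => ¬ q u) := by
    intro u hu
    rw [Finset.mem_filter] at hu
    rw [Finset.mem_union, Finset.mem_filter, Finset.mem_filter]
    by_cases h : p u
    · right; exact ⟨hu.1, fun h' => hu.2 ⟨h, h'⟩⟩
    · left; exact ⟨hu.1, h⟩
  have h2 := (Finset.card_le_card h1).trans (Finset.card_union_le _ _)
  have h3 : (((box m K).filter fun u => ¬ (p u ∧ q u)).card : ℝ) ≤
      ((box m K).filter fun u => ¬ p u).card + ((box m K).filter fun u => ¬ q u).card := by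
    exact_mod_cast h2
  refine le_trans (le_of_eq ?_) (h3.trans (add_le_add hp hq))
  congr!

theorem Few.mono {K : ℕ} {c : ℝ} {p q : (Fin m → ℤ) → Prop} (hp : Few m K c p)
    (h : ∀ u ∈ box m K, p u → q u) : Few m K c q := by
  refine le_trans ?_ hp
  refine Nat.cast_le.2 (Finset.card_le_card ?_)
  intro u hu
  rw [Finset.mem_filter] at hu ⊢
  exact ⟨hu.1, fun h' => hu.2 (h u hu.1 h')⟩

theorem Few.sub {K L : ℕ} {c : ℝ} {p : (Fin m → ℤ) → Prop} (hp : Few m K c p) (h : L ≤ K) :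
    Few m L c p := by
  refine le_trans ?_ hp
  exact Nat.cast_le.2 (Finset.card_le_card (Finset.filter_subset_filter _ (box_mono h)))

theorem Few.shift {K L M : ℕ} {c : ℝ} {p : (Fin m → ℤ) → Prop} (hp : Few m K c p)
    {z : Fin m → ℤ} (hz : z ∈ box m M) (h : L + M ≤ K) : Few m L c (fun u => p (u + z)) := by
  refine le_trans ?_ hp
  refine Nat.cast_le.2 ?_
  refine Finset.card_le_card_of_injOn (fun u => u + z) ?_ ?_
  · intro u hu
    rw [Finset.mem_coe, Finset.mem_filter] at hu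
    rw [Finset.mem_coe, Finset.mem_filter]
    exact ⟨add_mem_box hu.1 hz h, hu.2⟩
  · intro a _ b _ hab
    exact add_right_cancel hab

theorem Few.exists {K N : ℕ} (hm : 0 < m) {c : ℝ} {p : (Fin m → ℤ) → Prop} (hp : Few m K c p)
    (hK : N ≤ K) (hc : c ≤ (N : ℝ) ^ m) : ∃ u ∈ box m K, p u := by
  by_contra hcon
  push Not at hcon
  have h1 : ((box m K).filter fun u => ¬ p u) = box m K := Finset.filter_true_of_mem hcon
  unfold Few at hp
  rw [h1, card_box] at hp
  have h2 : (N : ℝ) ^ m < (((2 * K + 1) ^ m : ℕ) : ℝ) := by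
    push_cast
    refine pow_lt_pow_left₀ ?_ (Nat.cast_nonneg _) (by omega)
    have : (N : ℝ) ≤ K := by exact_mod_cast hK
    have h0 : (0 : ℝ) ≤ K := Nat.cast_nonneg _
    linarith
  linarith

variable {N : ℕ} {θ : (Fin m → ℤ) → V} {P : Set ((Fin m → ℤ) × (Fin m → ℤ))}
  {B : Set (Fin m → ℤ)} {τ a b : ℝ}

/-- Markov's inequality: most `v` have few bad partners. -/
theorem few_nice {c γ : ℝ} (hγ : 0 < γ) (hc : 0 < c)
    (hP : (Set.ncard (P ∩ (box m (4 * N) ×ˢ box m (4 * N) : Set _)) : ℝ) ≤ (γ * c) * (γ * c)) :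
    Few m (4 * N) (γ * c) (fun v => Few m (4 * N) (γ * c) fun u => (u, v) ∉ P) := by
  set S : Finset ((Fin m → ℤ) × (Fin m → ℤ)) :=
    ((box m (4 * N)) ×ˢ (box m (4 * N))).filter fun x => x ∈ P with hS
  have hcS : (S.card : ℝ) ≤ (γ * c) * (γ * c) := by
    refine le_trans (le_of_eq ?_) hP
    congr 1
    rw [← Set.ncard_coe_finset S]
    congr 1
    ext x
    simp only [hS, Finset.coe_filter, Finset.mem_product, Set.mem_inter_iff, Set.mem_prod,
      Finset.mem_coe, Set.mem_ofPred_eq]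
    tauto
  set T : Finset (Fin m → ℤ) := (box m (4 * N)).filter
    fun v => ¬ Few m (4 * N) (γ * c) fun u => (u, v) ∉ P with hT
  have h1 : S.card = ∑ v ∈ box m (4 * N), (S.filter fun x => x.2 = v).card := by
    refine Finset.card_eq_sum_card_fiberwise ?_
    intro x hx
    rw [Finset.mem_coe, hS, Finset.mem_filter, Finset.mem_product] at hx
    exact hx.1.2
  have h2 : ∀ v ∈ T, γ * c ≤ ((S.filter fun x => x.2 = v).card : ℝ) := by
    intro v hv
    rw [hT, Finset.mem_filter] at hv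
    have h3 := hv.2
    unfold Few at h3
    push Not at h3
    refine h3.le.trans (Nat.cast_le.2 ?_)
    refine Finset.card_le_card_of_injOn (fun u => (u, v)) ?_ ?_
    · intro u hu
      rw [Finset.mem_coe, Finset.mem_filter] at hu
      have h4 : (u, v) ∈ P := by
        by_contra h5
        first
          | exact hu.2 h5
          | exact h5 hu.2
      rw [Finset.mem_coe, Finset.mem_filter, hS, Finset.mem_filter, Finset.mem_product]
      exact ⟨⟨⟨hu.1, hv.1⟩, h4⟩, rfl⟩
    · intro u _ u' _ h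
      exact (Prod.ext_iff.1 h).1
  have h3 : (T.card : ℝ) * (γ * c) ≤ (γ * c) * (γ * c) := by
    calc (T.card : ℝ) * (γ * c) = ∑ _v ∈ T, γ * c := by rw [Finset.sum_const, nsmul_eq_mul]
      _ ≤ ∑ v ∈ T, ((S.filter fun x => x.2 = v).card : ℝ) := Finset.sum_le_sum h2
      _ ≤ ∑ v ∈ box m (4 * N), ((S.filter fun x => x.2 = v).card : ℝ) :=
          Finset.sum_le_sum_of_subset_of_nonneg (Finset.filter_subset _ _)
            fun _ _ _ => Nat.cast_nonneg _
      _ = (S.card : ℝ) := by rw [h1]; push_cast; rfl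
      _ ≤ _ := hcS
  exact le_of_mul_le_mul_right h3 (mul_pos hγ hc)

/-- the majority value -/
theorem exists_delta (hm : 0 < m) (hN : 1 ≤ N)
    (hP : (Set.ncard (P ∩ (box m (4 * N) ×ˢ box m (4 * N) : Set _)) : ℝ) ≤
      1 / 256 * ((N : ℝ) ^ m) ^ 2)
    (h1 : ∀ u ∈ box m (4 * N), ∀ v ∈ box m (4 * N), (u, v) ∉ P → ‖θ (u + v) - θ u - θ v‖ ≤ τ)
    {z : Fin m → ℤ} (hz : z ∈ box m N) :
    ∃ D : V, Few m (2 * N) (1 / 8 * (N : ℝ) ^ m) fun u => ‖θ (u + z) - θ u - D‖ ≤ 2 * τ := by
  have hc : (0 : ℝ) < (N : ℝ) ^ m := by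
    have : (0 : ℝ) < N := by exact_mod_cast hN
    positivity
  have hnice := few_nice (N := N) (P := P) (γ := 1 / 16) (by norm_num) hc (by
    refine hP.trans (le_of_eq ?_); ring)
  obtain ⟨v, hv, hv1, hv2⟩ := ((hnice.sub (L := N) (by omega)).and
    (hnice.shift (L := N) hz (by omega))).exists (N := N) hm le_rfl (by linarith)
  have hvz : v + z ∈ box m (2 * N) := add_mem_box hv hz (by omega)
  refine ⟨θ (v + z) - θ v, ?_⟩
  have hf := ((hv1.shift (L := 2 * N) hz (by omega)).and (hv2.sub (L := 2 * N) (by omega)))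
  refine Few.mono (show Few m (2 * N) (1 / 8 * (N : ℝ) ^ m) _ by
    have e : 1 / 8 * (N : ℝ) ^ m = 1 / 16 * (N : ℝ) ^ m + 1 / 16 * (N : ℝ) ^ m := by ring
    rw [e]; exact hf) ?_
  intro u hu hu'
  have e1 := h1 (u + z) (box_mono (by omega) (add_mem_box (K := 3 * N) hu hz (by omega))) v
    (box_mono (by omega) hv) hu'.1
  have e2 := h1 u (box_mono (by omega) hu) (v + z) (box_mono (by omega) hvz) hu'.2
  have e3 : u + z + v = u + (v + z) := by abel
  rw [e3] at e1
  have e4 : θ (u + z) - θ u - (θ (v + z) - θ v) =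
      (θ (u + (v + z)) - θ u - θ (v + z)) - (θ (u + (v + z)) - θ (u + z) - θ v) := by abel
  rw [e4]
  refine (norm_sub_le _ _).trans ?_
  linarith

/-- all the properties of the majority values at one scale -/
theorem one_scale (hm : 0 < m) (hN : 1 ≤ N)
    (hP : (Set.ncard (P ∩ (box m (4 * N) ×ˢ box m (4 * N) : Set _)) : ℝ) ≤
      1 / 256 * ((N : ℝ) ^ m) ^ 2)
    (hB : (Set.ncard (B ∩ (box m (4 * N) : Set _)) : ℝ) ≤ 1 / 16 * (N : ℝ) ^ m)
    (h1 : ∀ u ∈ box m (4 * N), ∀ v ∈ box m (4 * N), (u, v) ∉ P → ‖θ (u + v) - θ u - θ v‖ ≤ τ)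
    (h2 : ∀ u ∈ box m (4 * N), ∀ v ∈ box m (4 * N), u ∉ B → v ∉ B → u ≠ v → a ≤ ‖θ u - θ v‖)
    (h3 : ∀ u ∈ box m (4 * N), ∀ v ∈ box m (4 * N), u ∉ B → v ∉ B → (∀ l, |u l - v l| ≤ 1) →
        ‖θ u - θ v‖ ≤ b) :
    ∃ Δ : Fin m → V, (∀ l, ‖Δ l‖ ≤ b + 2 * τ) ∧ ∀ z z' : Fin m → ℕ, (∀ l, z l ≤ N) →
      (∀ l, z' l ≤ N) → z ≠ z' →
      a - (8 + 12 * (m * N)) * τ ≤ ‖∑ l, (z l : ℝ) • Δ l - ∑ l, (z' l : ℝ) • Δ l‖ := by
  have hc : (0 : ℝ) < (N : ℝ) ^ m := by
    have : (0 : ℝ) < N := by exact_mod_cast hN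
    positivity
  have hfB : Few m (4 * N) (1 / 16 * (N : ℝ) ^ m) fun u => u ∉ B := by
    refine le_trans (le_of_eq ?_) hB
    congr 1
    rw [← Set.ncard_coe_finset]
    congr 1
    ext x
    simp only [Finset.coe_filter, Set.mem_inter_iff, Finset.mem_coe, Set.mem_ofPred_eq, not_not]
    tauto
  -- the embedding of natural vectors
  let ι : (Fin m → ℕ) → (Fin m → ℤ) := fun z l => (z l : ℤ)
  have hι : ∀ z : Fin m → ℕ, (∀ l, z l ≤ N) → ι z ∈ box m N := by
    intro z hz
    rw [mem_box]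
    intro l
    have := hz l
    simp only [ι]
    constructor <;> omega
  have hD : ∀ z : Fin m → ℕ, ∃ D : V, (∀ l, z l ≤ N) →
      Few m (2 * N) (1 / 8 * (N : ℝ) ^ m) fun u => ‖θ (u + ι z) - θ u - D‖ ≤ 2 * τ := by
    intro z
    by_cases hz : ∀ l, z l ≤ N
    · obtain ⟨D, hD⟩ := exists_delta hm hN hP h1 (hι z hz)
      exact ⟨D, fun _ => hD⟩
    · exact ⟨0, fun h => absurd h hz⟩
  choose D hD using hD
  let e : Fin m → (Fin m → ℕ) := fun l => Pi.single l 1
  have he : ∀ l k, e l k ≤ N := by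
    intro l k
    by_cases h : k = l
    · subst h; simp [e]; exact hN
    · simp [e, h]
  have hτ : 0 ≤ τ := by
    obtain ⟨u, hu, hu'⟩ := (hD (fun _ => 0) fun _ => Nat.zero_le _).exists (N := N) hm (by omega)
      (by linarith)
    linarith [(norm_nonneg _).trans hu']
  refine ⟨fun l => D (e l), ?_, ?_⟩
  · intro l
    obtain ⟨u, hu, ⟨hu1, hu2⟩, hu3⟩ := ((((hD (e l) (he l)).sub (L := N) (by omega)).and
      (hfB.sub (L := N) (by omega))).and (hfB.shift (L := N) (hι _ (he l)) (by omega))).exists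
      (N := N) hm le_rfl (by linarith)
    have e1 := h3 (u + ι (e l)) (box_mono (by omega) (add_mem_box (K := 2 * N) hu
      (hι _ (he l)) (by omega))) u (box_mono (by omega) hu) hu3 hu2 (by
        intro k
        simp only [Pi.add_apply, add_sub_cancel_left, ι]
        by_cases h : k = l
        · subst h; simp [e]
        · simp [e, h])
    have e2 : D (e l) = (θ (u + ι (e l)) - θ u) - (θ (u + ι (e l)) - θ u - D (e l)) := by abel
    change ‖D (e l)‖ ≤ _
    rw [e2]
    refine (norm_sub_le _ _).trans ?_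
    linarith
  · -- additivity
    have hadd : ∀ k : ℕ, ∀ z : Fin m → ℕ, (∀ l, z l ≤ N) → ∑ l, z l = k →
        ‖D z - ∑ l, (z l : ℝ) • D (e l)‖ ≤ 2 * τ + 6 * τ * k := by
      intro k
      induction k with
      | zero =>
        intro z hz hk
        have hz0 : z = fun _ => 0 := by
          funext l
          exact (Finset.sum_eq_zero_iff.1 hk) l (Finset.mem_univ l)
        obtain ⟨u, hu, hu'⟩ := (hD z hz).exists (N := N) hm (by omega) (by linarith)
        have e1 : ι z = 0 := by funext l; simp [ι, hz0]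
        rw [e1, add_zero, sub_self, zero_sub, norm_neg] at hu'
        have e2 : ∑ l, (z l : ℝ) • D (e l) = 0 := by
          refine Finset.sum_eq_zero fun l _ => ?_
          rw [hz0]; simp
        rw [e2, sub_zero, Nat.cast_zero, mul_zero, add_zero]
        exact hu'
      | succ k ih =>
        intro z hz hk
        obtain ⟨l, hl⟩ : ∃ l, z l ≠ 0 := by
          by_contra hcon
          push Not at hcon
          rw [Finset.sum_eq_zero fun l _ => hcon l] at hk
          omega
        let z' : Fin m → ℕ := Function.update z l (z l - 1)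
        have hz' : ∀ k, z' k ≤ N := by
          intro k
          by_cases h : k = l
          · subst h; simp only [z', Function.update_self]; have := hz k; omega
          · simp only [z', Function.update_of_ne h]; exact hz k
        have hzz : ∀ k, z k = z' k + e l k := by
          intro k
          by_cases h : k = l
          · subst h; simp only [z', e, Function.update_self, Pi.single_eq_same]; omega
          · simp only [z', e, Function.update_of_ne h, Pi.single_eq_of_ne h, add_zero]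
        have hsum : ∑ k, z' k = k := by
          have h4 : ∑ k, z k = ∑ k, z' k + ∑ k, e l k := by
            rw [← Finset.sum_add_distrib]
            exact Finset.sum_congr rfl fun k _ => hzz k
          have h5 : ∑ k, e l k = 1 := by simp [e]
          omega
        have ihz := ih z' hz' hsum
        obtain ⟨u, hu, ⟨hu1, hu2⟩, hu3⟩ := ((((hD z hz).sub (L := N) (by omega)).and
          ((hD z' hz').sub (L := N) (by omega))).and
          ((hD (e l) (he l)).shift (L := N) (hι _ hz') (by omega))).exists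
          (N := N) hm le_rfl (by linarith)
        have e1 : u + ι z' + ι (e l) = u + ι z := by
          funext k
          simp only [Pi.add_apply, ι]
          rw [hzz k]
          push_cast
          ring
        rw [e1] at hu3
        have e2 : ∑ k, (z k : ℝ) • D (e k) = ∑ k, (z' k : ℝ) • D (e k) + D (e l) := by
          have h4 : ∑ k, (e l k : ℝ) • D (e k) = D (e l) := by
            rw [Finset.sum_eq_single l]
            · simp [e]
            · intro k _ hk
              simp [e, hk]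
            · intro h; exact absurd (Finset.mem_univ l) h
          rw [← h4, ← Finset.sum_add_distrib]
          refine Finset.sum_congr rfl fun k _ => ?_
          rw [hzz k, ← add_smul]
          push_cast
          rfl
        have e3 : D z - ∑ k, (z k : ℝ) • D (e k) =
            -(θ (u + ι z) - θ u - D z) + (θ (u + ι z') - θ u - D z') +
            (θ (u + ι z) - θ (u + ι z') - D (e l)) +
            (D z' - ∑ k, (z' k : ℝ) • D (e k)) := by
          rw [e2]; abel
        rw [e3]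
        refine (norm_add_le _ _).trans ?_
        have e4 := norm_add_le (-(θ (u + ι z) - θ u - D z) + (θ (u + ι z') - θ u - D z'))
            (θ (u + ι z) - θ (u + ι z') - D (e l))
        have e5 := norm_add_le (-(θ (u + ι z) - θ u - D z)) (θ (u + ι z') - θ u - D z')
        rw [norm_neg] at e5
        push_cast
        linarith
    intro z z' hz hz' hne
    obtain ⟨u, hu, ⟨⟨hu1, hu2⟩, hu3⟩, hu4⟩ := (((((hD z hz).sub (L := N) (by omega)).and
      ((hD z' hz').sub (L := N) (by omega))).and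
      (hfB.shift (L := N) (hι _ hz) (by omega))).and
      (hfB.shift (L := N) (hι _ hz') (by omega))).exists
      (N := N) hm le_rfl (by linarith)
    have e1 := h2 (u + ι z) (box_mono (by omega) (add_mem_box (K := 2 * N) hu
      (hι _ hz) (by omega))) (u + ι z') (box_mono (by omega) (add_mem_box (K := 2 * N) hu
      (hι _ hz') (by omega))) hu3 hu4 (by
        intro h
        apply hne
        funext k
        have h4 := congrFun h k
        simp only [Pi.add_apply, ι] at h4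
        omega)
    have hs : ∀ z : Fin m → ℕ, (∀ l, z l ≤ N) → ((∑ l, z l : ℕ) : ℝ) ≤ m * N := by
      intro z hz
      have h4 : ∑ l, z l ≤ ∑ _l : Fin m, N := Finset.sum_le_sum fun l _ => hz l
      rw [Finset.sum_const, Finset.card_univ, Fintype.card_fin, smul_eq_mul] at h4
      exact_mod_cast h4
    have e2 := hadd _ z hz rfl
    have e3 := hadd _ z' hz' rfl
    have s2 := mul_le_mul_of_nonneg_left (hs z hz) (by linarith : 0 ≤ 6 * τ)
    have s3 := mul_le_mul_of_nonneg_left (hs z' hz') (by linarith : 0 ≤ 6 * τ)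
    have e4 : θ (u + ι z) - θ (u + ι z') =
        (∑ l, (z l : ℝ) • D (e l) - ∑ l, (z' l : ℝ) • D (e l)) +
        ((θ (u + ι z) - θ u - D z) - (θ (u + ι z') - θ u - D z')) +
        ((D z - ∑ l, (z l : ℝ) • D (e l)) - (D z' - ∑ l, (z' l : ℝ) • D (e l))) := by abel
    rw [e4] at e1
    have e5 := norm_add_le ((∑ l, (z l : ℝ) • D (e l) - ∑ l, (z' l : ℝ) • D (e l)) +
        ((θ (u + ι z) - θ u - D z) - (θ (u + ι z') - θ u - D z')))
        ((D z - ∑ l, (z l : ℝ) • D (e l)) - (D z' - ∑ l, (z' l : ℝ) • D (e l)))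
    have e6 := norm_add_le (∑ l, (z l : ℝ) • D (e l) - ∑ l, (z' l : ℝ) • D (e l))
        ((θ (u + ι z) - θ u - D z) - (θ (u + ι z') - θ u - D z'))
    have e7 := norm_sub_le (θ (u + ι z) - θ u - D z) (θ (u + ι z') - θ u - D z')
    have e8 := norm_sub_le (D z - ∑ l, (z l : ℝ) • D (e l)) (D z' - ∑ l, (z' l : ℝ) • D (e l))
    linarith

end one

/-- Packing: separated points `∑ z_l Δ_l` for `z` in a box of side `N`. -/
theorem packing (m : ℕ) (V : Type) [NormedAddCommGroup V] [NormedSpace ℝ V]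
    [FiniteDimensional ℝ V] : ∃ C : ℝ, 0 < C ∧ ∀ (N : ℕ) (M ρ : ℝ) (Δ : Fin m → V), 1 ≤ N →
      1 ≤ M → 0 < ρ → ρ ≤ 1 → (∀ l, ‖Δ l‖ ≤ M) →
      (∀ z z' : Fin m → ℕ, (∀ l, z l ≤ N) → (∀ l, z' l ≤ N) → z ≠ z' →
        ρ ≤ ‖∑ l, (z l : ℝ) • Δ l - ∑ l, (z' l : ℝ) • Δ l‖) →
      ((N : ℝ) + 1) ^ m ≤ (C * N * M / ρ) ^ Module.finrank ℝ V := by
  set d := Module.finrank ℝ V with hd
  let φ : V ≃L[ℝ] (Fin d → ℝ) := (Module.finBasis ℝ V).equivFunL
  obtain ⟨A, hA0, hA⟩ : ∃ A : ℝ, 0 < A ∧ ∀ x : V, ‖φ x‖ ≤ A * ‖x‖ := by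
    obtain ⟨A, hA0, hA⟩ := (φ : V →L[ℝ] (Fin d → ℝ)).bound
    exact ⟨A, hA0, hA⟩
  obtain ⟨A', hA0', hA'⟩ : ∃ A : ℝ, 0 < A ∧ ∀ y : Fin d → ℝ, ‖φ.symm y‖ ≤ A * ‖y‖ := by
    obtain ⟨A, hA0, hA⟩ := (φ.symm : (Fin d → ℝ) →L[ℝ] V).bound
    exact ⟨A, hA0, hA⟩
  refine ⟨4 * (A * m * (2 * A')) + 4, by positivity, ?_⟩
  intro N M ρ Δ hN hM hρ hρ1 hΔ hsep
  have hN' : (1 : ℝ) ≤ N := by exact_mod_cast hN
  set κ : ℝ := ρ / (2 * A') with hκ
  have hκ0 : 0 < κ := by positivity
  let L : (Fin m → ℕ) → (Fin d → ℝ) := fun z => φ (∑ l, (z l : ℝ) • Δ l)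
  set W : ℕ := ⌈A * m * N * M / κ⌉₊ with hW
  have hL : ∀ z : Fin m → ℕ, (∀ l, z l ≤ N) → ∀ k, |L z k| ≤ A * m * N * M := by
    intro z hz k
    have h1 : |L z k| ≤ ‖L z‖ := norm_le_pi_norm (L z) k
    have h2 : ‖L z‖ ≤ A * ‖∑ l, (z l : ℝ) • Δ l‖ := hA _
    have h3 : ‖∑ l, (z l : ℝ) • Δ l‖ ≤ m * (N * M) := by
      refine (norm_sum_le _ _).trans ?_
      have h4 : ∀ l ∈ (Finset.univ : Finset (Fin m)), ‖(z l : ℝ) • Δ l‖ ≤ N * M := by
        intro l _
        rw [norm_smul, Real.norm_of_nonneg (Nat.cast_nonneg _)]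
        exact mul_le_mul (by exact_mod_cast hz l) (hΔ l) (norm_nonneg _) (by linarith)
      refine (Finset.sum_le_card_nsmul _ _ _ h4).trans ?_
      rw [Finset.card_univ, Fintype.card_fin, nsmul_eq_mul]
    calc |L z k| ≤ A * ‖∑ l, (z l : ℝ) • Δ l‖ := h1.trans h2
      _ ≤ A * (m * (N * M)) := mul_le_mul_of_nonneg_left h3 hA0.le
      _ = _ := by ring
  -- the cells
  let S : Finset (Fin m → ℕ) := Fintype.piFinset fun _ => Finset.range (N + 1)
  let T : Finset (Fin d → ℤ) := Fintype.piFinset fun _ => Finset.Icc (-(W : ℤ) - 1) W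
  let c : (Fin m → ℕ) → (Fin d → ℤ) := fun z k => ⌊L z k / κ⌋
  have hmaps : ∀ z ∈ S, c z ∈ T := by
    intro z hz
    have hz' : ∀ l, z l ≤ N := by
      intro l
      have := (Fintype.mem_piFinset.1 hz) l
      rw [Finset.mem_range] at this
      omega
    rw [Fintype.mem_piFinset]
    intro k
    have h1 := hL z hz' k
    have h2 : |L z k / κ| ≤ W := by
      rw [abs_div, abs_of_pos hκ0]
      refine le_trans ?_ (Nat.le_ceil _)
      exact div_le_div_of_nonneg_right h1 hκ0.le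
    rw [abs_le] at h2
    rw [Finset.mem_Icc]
    constructor
    · have h3 : -((W : ℤ) : ℝ) - 1 < ⌊L z k / κ⌋ := by
        have := Int.sub_one_lt_floor (L z k / κ)
        push_cast
        linarith
      have h4 : (-(W : ℤ) - 1 : ℤ) < ⌊L z k / κ⌋ := by exact_mod_cast h3
      exact h4.le
    · have h3 := Int.floor_le (L z k / κ)
      have h4 : (⌊L z k / κ⌋ : ℝ) ≤ ((W : ℤ) : ℝ) := by push_cast; linarith
      exact_mod_cast h4
  have hinj : ∀ z ∈ S, ∀ z' ∈ S, c z = c z' → z = z' := by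
    intro z hz z' hz' hcc
    by_contra hne
    have hz1 : ∀ l, z l ≤ N := by
      intro l
      have := (Fintype.mem_piFinset.1 hz) l
      rw [Finset.mem_range] at this
      omega
    have hz1' : ∀ l, z' l ≤ N := by
      intro l
      have := (Fintype.mem_piFinset.1 hz') l
      rw [Finset.mem_range] at this
      omega
    have h1 := hsep z z' hz1 hz1' hne
    have h2 : ‖L z - L z'‖ ≤ κ := by
      rw [pi_norm_le_iff_of_nonneg hκ0.le]
      intro k
      have h3 : ⌊L z k / κ⌋ = ⌊L z' k / κ⌋ := congrFun hcc k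
      have h4 := Int.abs_sub_lt_one_of_floor_eq_floor h3
      rw [← sub_div, abs_div, abs_of_pos hκ0, div_lt_one hκ0] at h4
      exact h4.le
    have h3 : ∑ l, (z l : ℝ) • Δ l - ∑ l, (z' l : ℝ) • Δ l = φ.symm (L z - L z') := by
      simp only [L, ← map_sub, ContinuousLinearEquiv.symm_apply_apply]
    rw [h3] at h1
    have h4 := hA' (L z - L z')
    have h5 : A' * ‖L z - L z'‖ ≤ A' * κ := mul_le_mul_of_nonneg_left h2 hA0'.le
    have h6 : A' * κ = ρ / 2 := by rw [hκ]; field_simp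
    linarith
  have hcard : S.card ≤ T.card := by
    refine Finset.card_le_card_of_injOn c (fun z hz => hmaps z hz) ?_
    intro z hz z' hz' h
    exact hinj z hz z' hz' h
  rw [Fintype.card_piFinset_const, Fintype.card_piFinset_const, Finset.card_range,
    Int.card_Icc] at hcard
  have h7 : ((W : ℤ) + 1 - (-(W : ℤ) - 1)).toNat = 2 * W + 2 := by omega
  rw [h7] at hcard
  have h8 : ((N : ℝ) + 1) ^ m ≤ (2 * (W : ℝ) + 2) ^ d := by exact_mod_cast hcard
  refine h8.trans ?_
  refine pow_le_pow_left₀ (by positivity) ?_ _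
  have h9 : (W : ℝ) < A * m * N * M / κ + 1 := Nat.ceil_lt_add_one (by positivity)
  have h10 : A * m * N * M / κ = A * m * (2 * A') * (N * M / ρ) := by
    rw [hκ]; field_simp
  have h11 : 1 ≤ N * M / ρ := by
    rw [le_div_iff₀ hρ]
    nlinarith
  have h12 : (4 * (A * m * (2 * A')) + 4) * N * M / ρ =
      4 * (A * m * (2 * A')) * (N * M / ρ) + 4 * (N * M / ρ) := by ring
  rw [h12]
  rw [h10] at h9
  have h13 : 0 ≤ A * m * (2 * A') * (N * M / ρ) := by positivity
  linarith

/-- **Almost additive, separated functions on boxes of `ℤ^m`** can only exist with values in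
spaces of dimension at least `m`. -/
theorem fin_bound {m : ℕ} {V : Type} [NormedAddCommGroup V] [NormedSpace ℝ V]
    [FiniteDimensional ℝ V] (U : Ultrafilter ℕ) (r : ℕ → ℝ)
    (hr : Tendsto r (U : Filter ℕ) atTop) (N : ℕ → ℕ) (hN : ∀ i, N i = ⌊Real.exp (r i)⌋₊)
    (θ : ℕ → (Fin m → ℤ) → V) (P : ℕ → Set ((Fin m → ℤ) × (Fin m → ℤ)))
    (B : ℕ → Set (Fin m → ℤ))
    (hP : ∀ δ : ℝ, 0 < δ → ∀ᶠ i in (U : Filter ℕ),
      (Set.ncard (P i ∩ (box m (4 * N i) ×ˢ box m (4 * N i) : Set _)) : ℝ) ≤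
        δ * ((N i : ℝ) ^ m) ^ 2)
    (hB : ∀ δ : ℝ, 0 < δ → ∀ᶠ i in (U : Filter ℕ),
      (Set.ncard (B i ∩ (box m (4 * N i) : Set _)) : ℝ) ≤ δ * (N i : ℝ) ^ m)
    (h1 : ∀ C : ℝ, ∀ᶠ i in (U : Filter ℕ), ∀ u ∈ box m (4 * N i), ∀ v ∈ box m (4 * N i),
      (u, v) ∉ P i → ‖θ i (u + v) - θ i u - θ i v‖ ≤ Real.exp (-(C * r i)))
    (h2 : ∀ η : ℝ, 0 < η → ∀ᶠ i in (U : Filter ℕ), ∀ u ∈ box m (4 * N i),
      ∀ v ∈ box m (4 * N i), u ∉ B i → v ∉ B i → u ≠ v →
        Real.exp (-(η * r i)) ≤ ‖θ i u - θ i v‖)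
    (h3 : ∀ η : ℝ, 0 < η → ∀ᶠ i in (U : Filter ℕ), ∀ u ∈ box m (4 * N i),
      ∀ v ∈ box m (4 * N i), u ∉ B i → v ∉ B i → (∀ l, |u l - v l| ≤ 1) →
        ‖θ i u - θ i v‖ ≤ Real.exp (η * r i)) :
    m ≤ Module.finrank ℝ V := by
  by_contra hcon
  push Not at hcon
  obtain ⟨C, hC, hpack⟩ := packing m V
  set d := Module.finrank ℝ V with hd
  set η : ℝ := 1 / (8 * (d + 1)) with hη
  have hη0 : 0 < η := by positivity
  have hη1 : η ≤ 1 := by
    rw [hη, div_le_one (by positivity)]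
    have : (0 : ℝ) ≤ d := Nat.cast_nonneg _
    linarith
  have hηd : 2 * η * d ≤ 1 / 4 := by
    have h0 : (0 : ℝ) ≤ d := Nat.cast_nonneg _
    rw [hη, mul_one_div, div_mul_eq_mul_div, div_le_iff₀ (by positivity)]
    linarith
  have hR : ∀ x : ℝ, ∀ᶠ i in (U : Filter ℕ), x ≤ r i := fun x => hr.eventually_ge_atTop x
  have hev := (hP (1 / 256) (by norm_num)).and ((hB (1 / 16) (by norm_num)).and
    ((h1 3).and ((h2 η hη0).and ((h3 η hη0).and
      ((hR (16 + 24 * m)).and (hR ((6 * C) ^ d * 2)))))))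
  obtain ⟨i, e1, e2, e3, e4, e5, e6, e7⟩ := hev.exists
  set R := r i with hRdef
  have hm0 : (0 : ℝ) ≤ m := Nat.cast_nonneg _
  have hR1 : 1 ≤ R := by linarith
  have hexpR : R + 1 ≤ Real.exp R := Real.add_one_le_exp R
  have hNle : (N i : ℝ) ≤ Real.exp R := by
    rw [hN]; exact Nat.floor_le (Real.exp_pos _).le
  have hNlt : Real.exp R < N i + 1 := by
    rw [hN]; exact Nat.lt_floor_add_one _
  have hN1 : 1 ≤ N i := by
    by_contra h
    have h0 : N i = 0 := by omega
    rw [h0, Nat.cast_zero] at hNlt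
    linarith
  obtain ⟨Δ, hΔ, hsep⟩ := one_scale (θ := θ i) (by omega : 0 < m) hN1 e1 e2 e3 e4 e5
  have hτ1 : Real.exp (-(3 * R)) ≤ 1 := Real.exp_le_one_iff.2 (by linarith)
  have hb1 : 1 ≤ Real.exp (η * R) := Real.one_le_exp (by positivity)
  have key := hpack (N i) (3 * Real.exp (η * R)) (Real.exp (-(η * R)) / 2) Δ hN1 (by linarith)
    (by positivity) (by
      have : Real.exp (-(η * R)) ≤ 1 := Real.exp_le_one_iff.2 (by
        have : 0 ≤ η * R := by positivity
        linarith)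
      linarith) (fun l => (hΔ l).trans (by linarith)) (by
      intro z z' hz hz' hne
      refine le_trans ?_ (hsep z z' hz hz' hne)
      have h4 : (8 + 12 * (m * N i)) * Real.exp (-(3 * R)) ≤ Real.exp (-(η * R)) / 2 := by
        have h5 : (8 + 12 * ((m : ℝ) * N i)) ≤ (8 + 12 * m) * Real.exp R := by
          have h6 : (m : ℝ) * N i ≤ m * Real.exp R := mul_le_mul_of_nonneg_left hNle hm0
          nlinarith
        have h7 : (8 + 12 * (m : ℝ)) * Real.exp R ≤ Real.exp R * Real.exp R / 2 := by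
          have : 2 * (8 + 12 * (m : ℝ)) ≤ Real.exp R := by linarith
          nlinarith [Real.exp_pos R]
        have h8 : Real.exp R * Real.exp R * Real.exp (-(3 * R)) ≤ Real.exp (-(η * R)) := by
          rw [← Real.exp_add, ← Real.exp_add]
          apply Real.exp_le_exp.2
          nlinarith
        calc (8 + 12 * ((m : ℝ) * N i)) * Real.exp (-(3 * R)) ≤
              (Real.exp R * Real.exp R / 2) * Real.exp (-(3 * R)) :=
              mul_le_mul_of_nonneg_right (h5.trans h7) (Real.exp_pos _).le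
          _ = (Real.exp R * Real.exp R * Real.exp (-(3 * R))) / 2 := by ring
          _ ≤ _ := by linarith
      linarith)
  have h9 : C * N i * (3 * Real.exp (η * R)) / (Real.exp (-(η * R)) / 2) =
      (6 * C) * N i * Real.exp (2 * η * R) := by
    rw [show 2 * η * R = η * R + η * R by ring, Real.exp_add, Real.exp_neg]
    field_simp
    ring
  rw [h9] at key
  have h10 : ((N i : ℝ) + 1) ^ (d + 1) ≤ ((N i : ℝ) + 1) ^ m :=
    pow_le_pow_right₀ (by linarith [(Nat.cast_nonneg (N i) : (0 : ℝ) ≤ N i)]) hcon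
  have h11 : ((6 * C) * N i * Real.exp (2 * η * R)) ^ d =
      (6 * C) ^ d * (N i : ℝ) ^ d * Real.exp (2 * η * d * R) := by
    rw [mul_pow, mul_pow, ← Real.exp_nat_mul]
    congr 2
    ring
  rw [h11] at key
  have h12 : Real.exp (2 * η * d * R) ≤ Real.exp (R / 4) := by
    apply Real.exp_le_exp.2
    have := mul_le_mul_of_nonneg_right hηd (by linarith : 0 ≤ R)
    linarith
  have hNp : (0 : ℝ) < (N i : ℝ) + 1 := by positivity
  have h13 : ((N i : ℝ) + 1) ^ (d + 1) ≤ (6 * C) ^ d * ((N i : ℝ) + 1) ^ d * Real.exp (R / 4) := by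
    refine h10.trans (key.trans ?_)
    refine mul_le_mul ?_ h12 (Real.exp_pos _).le (by positivity)
    refine mul_le_mul_of_nonneg_left ?_ (by positivity)
    exact pow_le_pow_left₀ (Nat.cast_nonneg _) (by linarith) _
  have h14 : (N i : ℝ) + 1 ≤ (6 * C) ^ d * Real.exp (R / 4) := by
    rw [pow_succ] at h13
    have h15 : ((N i : ℝ) + 1) ^ d * ((N i : ℝ) + 1) ≤
        ((N i : ℝ) + 1) ^ d * ((6 * C) ^ d * Real.exp (R / 4)) := by
      linarith
    exact le_of_mul_le_mul_left h15 (by positivity)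
  have h16 : Real.exp R = Real.exp (3 * R / 4) * Real.exp (R / 4) := by
    rw [← Real.exp_add]; congr 1; ring
  have h17 : Real.exp (3 * R / 4) < (6 * C) ^ d := by
    have h18 : Real.exp (3 * R / 4) * Real.exp (R / 4) < (6 * C) ^ d * Real.exp (R / 4) := by
      rw [← h16]; linarith
    exact lt_of_mul_lt_mul_right h18 (Real.exp_pos _).le
  have h19 := Real.add_one_le_exp (3 * R / 4)
  linarith

end Pool.Agent.ANQ
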