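import Pool.Agent.ANQ.Pair

/-!
# Classes of sequences of matrices
-/

namespace Pool.Agent.ANQ

open Matrix Filter Topology Pool.Agent.ANM51 Pool.Agent.ANM65

set_option linter.unusedSectionVars false

section mod

variable {U : Ultrafilter ℕ} {r : ℕ → ℝ} {D : Type} [NormedDivisionRing D] [NormedAlgebra ℝ D]

theorem Mod.of_norm_le {a : ℕ → D} {b : ℕ → D} (hb : Mod U r b)
    (h : ∀ᶠ i in (U : Filter ℕ), ‖a i‖ ≤ ‖b i‖) : Mod U r a := by
  obtain ⟨C, hC⟩ := hb
  refine ⟨C, ?_⟩
  filter_upwards [hC, h] with i h1 h2 using h2.trans h1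

variable {K : Type} [DivisionRing K] [Algebra ℝ K] (R : RobData U r D K)

theorem toK_one : R.toK (fun _ => 1) = 1 := by
  have h := R.alg 1
  simpa using h

theorem toK_congr (hr : Tendsto r (U : Filter ℕ) atTop) {a b : ℕ → D} (ha : Mod U r a)
    (hb : Mod U r b) (h : Neg U r (fun i => a i - b i)) : R.toK a = R.toK b := by
  exact (R.eq_iff hr ha hb).2 h

theorem Neg.of_eventuallyEq {a b : ℕ → D} (h : ∀ᶠ i in (U : Filter ℕ), a i = b i) :
    Neg U r (fun i => a i - b i) := by
  intro C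
  filter_upwards [h] with i hi
  rw [hi, sub_self, norm_zero]
  exact (Real.exp_pos _).le

theorem toK_inv (hr : Tendsto r (U : Filter ℕ) atTop) {a : ℕ → D} (ha : Mod U r a)
    (hne : R.toK a ≠ 0) : Mod U r (fun i => (a i)⁻¹) ∧ R.toK (fun i => (a i)⁻¹) = (R.toK a)⁻¹ := by
  have hpos := R.hv.pos hne
  have h1 := (le_v_iff R hr ha (Real.log (R.v (R.toK a)))).1 (by rw [Real.exp_log hpos]) 1 one_pos
  have hm : Mod U r (fun i => (a i)⁻¹) := by
    refine ⟨-(Real.log (R.v (R.toK a)) - 1), ?_⟩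
    filter_upwards [h1] with i hi
    rw [norm_inv, neg_mul, Real.exp_neg]
    exact inv_anti₀ (Real.exp_pos _) hi
  refine ⟨hm, ?_⟩
  apply eq_inv_of_mul_eq_one_left
  rw [← R.mul _ _ hm ha, ← toK_one R]
  refine toK_congr R hr (hm.mul ha) (Mod.const hr 1) (Neg.of_eventuallyEq ?_)
  filter_upwards [h1] with i hi
  apply inv_mul_cancel₀
  intro h0
  rw [h0, norm_zero] at hi
  exact absurd hi (not_le.2 (Real.exp_pos _))

end mod

section cls

variable {U : Ultrafilter ℕ} {r : ℕ → ℝ} {D : Type} [NormedDivisionRing D] [NormedAlgebra ℝ D]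
  {K : Type} [DivisionRing K] [Algebra ℝ K] (R : RobData U r D K)

/-- moderate sequences of matrices -/
def ModM (U : Ultrafilter ℕ) (r : ℕ → ℝ) {A C : Type} (M : ℕ → Matrix A C D) : Prop :=
  ∀ p q, Mod U r (fun i => M i p q)

/-- the class of a sequence of matrices -/
def cl {A C : Type} (M : ℕ → Matrix A C D) : Matrix A C K := fun p q => R.toK (fun i => M i p q)

theorem ModM.mul (hr : Tendsto r (U : Filter ℕ) atTop) {A C E : Type} [Fintype C]
    {M : ℕ → Matrix A C D} {N : ℕ → Matrix C E D} (hM : ModM U r M) (hN : ModM U r N) :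
    ModM U r (fun i => M i * N i) := by
  intro p q
  simp only [Matrix.mul_apply]
  exact Mod.sum hr _ (fun j i => M i p j * N i j q) fun j => (hM p j).mul (hN j q)

theorem cl_mul (hr : Tendsto r (U : Filter ℕ) atTop) {A C E : Type} [Fintype C]
    {M : ℕ → Matrix A C D} {N : ℕ → Matrix C E D} (hM : ModM U r M) (hN : ModM U r N) :
    cl R (fun i => M i * N i) = cl R M * cl R N := by
  ext p q
  rw [Matrix.mul_apply]
  simp only [cl, Matrix.mul_apply]
  rw [toK_sum R hr _ (fun j i => M i p j * N i j q) fun j => (hM p j).mul (hN j q)]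
  refine Finset.sum_congr rfl fun j _ => ?_
  exact R.mul _ _ (hM p j) (hN j q)

theorem cl_one {A : Type} [DecidableEq A] : cl R (fun _ => (1 : Matrix A A D)) = 1 := by
  ext p q
  by_cases h : p = q
  · subst h
    simp only [cl, Matrix.one_apply_eq]
    exact toK_one R
  · simp only [cl, Matrix.one_apply_ne h]
    exact toK_zero R

theorem ModM.one (hr : Tendsto r (U : Filter ℕ) atTop) {A : Type} [DecidableEq A] :
    ModM U r (fun _ => (1 : Matrix A A D)) := fun _ _ => Mod.const hr _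

theorem ModM.const (hr : Tendsto r (U : Filter ℕ) atTop) {A C : Type} (M : Matrix A C D) :
    ModM U r (fun _ => M) := fun _ _ => Mod.const hr _

variable (F : FormData D) (S : FormK R.v)
  (hS : ∀ a, Mod U r a → S.σ (R.toK a) = R.toK (fun i => F.σ (a i)))

theorem ModM.ct {F : FormData D} {A C : Type} {M : ℕ → Matrix A C D} (hM : ModM U r M) :
    ModM U r (fun i => ct F.σ (M i)) := fun p q =>
  (hM q p).of_norm_le (Eventually.of_forall fun i => by
    change ‖F.σ (M i q p)‖ ≤ _
    rw [F.norm_σ])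

include hS in
theorem cl_ct {A C : Type} {M : ℕ → Matrix A C D} (hM : ModM U r M) :
    cl R (fun i => ct F.σ (M i)) = ct S.σ (cl R M) := by
  ext p q
  change R.toK (fun i => F.σ (M i q p)) = S.σ (R.toK fun i => M i q p)
  rw [hS _ (hM q p)]

theorem cl_JI {I : Type} [DecidableEq I] (B : IForm I) : cl R (fun _ => JI B D) = JI B K := by
  ext p q
  by_cases h : q = B.bar p
  · simp only [cl, JI, if_pos h]
    exact R.alg _
  · simp only [cl, JI, if_neg h]
    exact toK_zero R

theorem cl_JInv {I : Type} [DecidableEq I] (B : IForm I) : cl R (fun _ => JInv B D) = JInv B K := by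
  ext p q
  by_cases h : q = B.bar p
  · simp only [cl, JInv, if_pos h]
    exact R.alg _
  · simp only [cl, JInv, if_neg h]
    exact toK_zero R

include hS in
/-- classes of sequences of isometries -/
theorem cl_form (hr : Tendsto r (U : Filter ℕ) atTop) {I : Type} [Fintype I] [DecidableEq I]
    (B : IForm I) {M : ℕ → Matrix I I D} (hM : ModM U r M)
    (h : ∀ᶠ i in (U : Filter ℕ), ct F.σ (M i) * JI B D * M i = JI B D) :
    ct S.σ (cl R M) * JI B K * cl R M = JI B K := by
  have hJ : ModM U r (fun _ => JI B D) := ModM.const hr _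
  have h1 : ModM U r (fun i => ct F.σ (M i) * JI B D) := (ModM.ct (F := F) hM).mul hr hJ
  rw [← cl_ct R F S hS hM, ← cl_JI R B, ← cl_mul R hr (ModM.ct (F := F) hM) hJ,
    ← cl_mul R hr h1 hM]
  ext p q
  refine toK_congr R hr ((h1.mul hr hM) p q) (hJ p q) (Neg.of_eventuallyEq ?_)
  filter_upwards [h] with i hi
  rw [hi]

end cls

section size

variable {I D : Type} [Fintype I] [DecidableEq I] [NormedDivisionRing D] [NormedAlgebra ℝ D]

theorem le_msz (g : Matrix I I D) (p q : I) : ‖g p q‖ ≤ msz g :=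
  (Finset.single_le_sum (f := fun q => ‖g p q‖) (fun _ _ => norm_nonneg _)
    (Finset.mem_univ q)).trans (Finset.single_le_sum (f := fun p => ∑ q, ‖g p q‖)
      (fun _ _ => Finset.sum_nonneg fun _ _ => norm_nonneg _) (Finset.mem_univ p))

theorem msz_nonneg (g : Matrix I I D) : 0 ≤ msz g :=
  Finset.sum_nonneg fun _ _ => Finset.sum_nonneg fun _ _ => norm_nonneg _

theorem msz_le {g : Matrix I I D} {C : ℝ} (h : ∀ p q, ‖g p q‖ ≤ C) :
    msz g ≤ (Fintype.card I : ℝ) * ((Fintype.card I : ℝ) * C) := by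
  rw [msz]
  calc ∑ p, ∑ q, ‖g p q‖ ≤ ∑ _p : I, ∑ _q : I, C :=
        Finset.sum_le_sum fun p _ => Finset.sum_le_sum fun q _ => h p q
    _ = _ := by simp [Finset.sum_const, Finset.card_univ]

theorem msz_mul_le (g h : Matrix I I D) : msz (g * h) ≤ msz g * msz h := by
  have h1 : ∀ p, ∑ q, ‖(g * h) p q‖ ≤ (∑ r, ‖g p r‖) * msz h := by
    intro p
    calc ∑ q, ‖(g * h) p q‖ ≤ ∑ q, ∑ r, ‖g p r‖ * ‖h r q‖ := by
          refine Finset.sum_le_sum fun q _ => ?_
          rw [Matrix.mul_apply]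
          refine (norm_sum_le _ _).trans (Finset.sum_le_sum fun r _ => ?_)
          rw [norm_mul]
      _ = ∑ r, ‖g p r‖ * ∑ q, ‖h r q‖ := by
          rw [Finset.sum_comm]
          refine Finset.sum_congr rfl fun r _ => ?_
          rw [Finset.mul_sum]
      _ ≤ ∑ r, ‖g p r‖ * msz h := by
          refine Finset.sum_le_sum fun r _ => mul_le_mul_of_nonneg_left ?_ (norm_nonneg _)
          exact Finset.single_le_sum (f := fun p => ∑ q, ‖h p q‖)
            (fun _ _ => Finset.sum_nonneg fun _ _ => norm_nonneg _) (Finset.mem_univ r)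
      _ = _ := by rw [Finset.sum_mul]
  calc msz (g * h) ≤ ∑ p, (∑ r, ‖g p r‖) * msz h := Finset.sum_le_sum fun p _ => h1 p
    _ = _ := by rw [← Finset.sum_mul]; rfl

theorem one_le_max_msz [Nonempty I] (g : (Matrix I I D)ˣ) :
    1 ≤ max (msz g.val) (msz (g⁻¹).val) := by
  have h1 : (1 : ℝ) ≤ msz (1 : Matrix I I D) := by
    obtain ⟨p⟩ := ‹Nonempty I›
    refine le_trans ?_ (le_msz _ p p)
    rw [Matrix.one_apply_eq, norm_one]
  have h2 := msz_mul_le g.val (g⁻¹).val
  rw [Units.mul_inv] at h2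
  by_contra hcon
  push Not at hcon
  rw [max_lt_iff] at hcon
  have h3 := msz_nonneg g.val
  have h4 := msz_nonneg (g⁻¹).val
  nlinarith

theorem len_nonneg [Nonempty I] (g : (Matrix I I D)ˣ) : 0 ≤ len g :=
  Real.log_nonneg (one_le_max_msz g)

theorem len_inv (g : (Matrix I I D)ˣ) : len g⁻¹ = len g := by
  rw [len, len, inv_inv, max_comm]

theorem len_mul_le [Nonempty I] (g h : (Matrix I I D)ˣ) : len (g * h) ≤ len g + len h := by
  have hg := one_le_max_msz g
  have hh := one_le_max_msz h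
  have hgh := one_le_max_msz (g * h)
  rw [len, len, len, ← Real.log_mul (by linarith) (by linarith)]
  refine Real.log_le_log (by linarith) (max_le ?_ ?_)
  · rw [Units.val_mul]
    refine (msz_mul_le _ _).trans ?_
    exact mul_le_mul (le_max_left _ _) (le_max_left _ _) (msz_nonneg _) (by linarith)
  · rw [_root_.mul_inv_rev, Units.val_mul]
    refine (msz_mul_le _ _).trans ?_
    rw [mul_comm]
    exact mul_le_mul (le_max_right _ _) (le_max_right _ _) (msz_nonneg _) (by linarith)

theorem norm_le_exp_len [Nonempty I] (g : (Matrix I I D)ˣ) (p q : I) :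
    ‖g.val p q‖ ≤ Real.exp (len g) := by
  have hg := one_le_max_msz g
  rw [len, Real.exp_log (by linarith)]
  exact (le_msz _ p q).trans (le_max_left _ _)

theorem len_le_of_entries [Nonempty I] {g : (Matrix I I D)ˣ} {C : ℝ} (hC : 0 < C)
    (h : ∀ p q, ‖g.val p q‖ ≤ C) (h' : ∀ p q, ‖(g⁻¹).val p q‖ ≤ C) :
    len g ≤ Real.log ((Fintype.card I : ℝ) * ((Fintype.card I : ℝ) * C)) := by
  have hg := one_le_max_msz g
  exact Real.log_le_log (by linarith) (max_le (msz_le h) (msz_le h'))

end size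

section lim

variable {U : Ultrafilter ℕ} {r : ℕ → ℝ} {D : Type} [NormedDivisionRing D] [NormedAlgebra ℝ D]
  {K : Type} [DivisionRing K] [Algebra ℝ K] (R : RobData U r D K)
  {I : Type} [Fintype I] [DecidableEq I] [Nonempty I]

/-- sequences of units of length `O(r)` are moderate -/
theorem ModM.of_len {g : ℕ → (Matrix I I D)ˣ} (h : ∃ C : ℝ, ∀ᶠ i in (U : Filter ℕ),
    len (g i) ≤ C * r i) : ModM U r (fun i => (g i).val) := by
  obtain ⟨C, hC⟩ := h
  refine fun p q => ⟨C, ?_⟩
  filter_upwards [hC] with i hi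
  exact (norm_le_exp_len (g i) p q).trans (Real.exp_le_exp.2 hi)

theorem vm_cl_le (hr : Tendsto r (U : Filter ℕ) atTop) {g : ℕ → (Matrix I I D)ˣ} {L : ℝ}
    (h : ∀ η : ℝ, 0 < η → ∀ᶠ i in (U : Filter ℕ), len (g i) ≤ (L + η) * r i) :
    vm R.v (cl R fun i => (g i).val) ≤ Real.exp L := by
  have hm : ModM U r (fun i => (g i).val) := ModM.of_len ⟨L + 1, h 1 one_pos⟩
  refine R.hv.vm_le (Real.exp_pos _).le fun p q => ?_
  rw [cl, v_le_iff R hr (hm p q)]
  intro η hη
  filter_upwards [h η hη] with i hi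
  exact (norm_le_exp_len (g i) p q).trans (Real.exp_le_exp.2 hi)

/-- The entries of the inverse have the same norms as the entries. -/
def InvSame (g : (Matrix I I D)ˣ) : Prop := ∀ p q, ∃ p' q', ‖(g⁻¹).val p q‖ = ‖g.val p' q'‖

theorem le_vm_cl (hr : Tendsto r (U : Filter ℕ) atTop) {g : ℕ → (Matrix I I D)ˣ} {L : ℝ}
    (hinv : ∀ i, InvSame (g i)) (hm : ModM U r (fun i => (g i).val))
    (h : ∀ η : ℝ, 0 < η → ∀ᶠ i in (U : Filter ℕ), (L - η) * r i ≤ len (g i)) :
    Real.exp L ≤ vm R.v (cl R fun i => (g i).val) := by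
  by_contra hcon
  push Not at hcon
  -- the norm is at most `exp (L - 3 ε)`
  obtain ⟨L', hL', hL'2⟩ : ∃ L' < L, vm R.v (cl R fun i => (g i).val) ≤ Real.exp L' := by
    rcases (R.hv.vm_nonneg (cl R fun i => (g i).val)).eq_or_lt with h0 | h0
    · exact ⟨L - 1, by linarith, by rw [← h0]; exact (Real.exp_pos _).le⟩
    · refine ⟨Real.log (vm R.v (cl R fun i => (g i).val)), ?_, (Real.exp_log h0).symm.le⟩
      rwa [Real.log_lt_iff_lt_exp h0]
  set ε : ℝ := (L - L') / 3 with hε
  have hεpos : 0 < ε := by rw [hε]; linarith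
  have hev : ∀ᶠ i in (U : Filter ℕ), ∀ p q, ‖(g i).val p q‖ ≤ Real.exp ((L' + ε) * r i) := by
    rw [Filter.eventually_all]
    intro p
    rw [Filter.eventually_all]
    intro q
    exact (v_le_iff R hr (hm p q) L').1 ((R.hv.le_vm _ p q).trans hL'2) ε hεpos
  have hcard : (0 : ℝ) < Fintype.card I := by exact_mod_cast Fintype.card_pos
  have hbig : ∀ᶠ i in (U : Filter ℕ), Real.log ((Fintype.card I : ℝ) * Fintype.card I) < ε * r i := by
    have := hr.eventually_gt_atTop (Real.log ((Fintype.card I : ℝ) * Fintype.card I) / ε)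
    filter_upwards [this] with i hi
    rw [div_lt_iff₀ hεpos] at hi
    exact hi.trans_eq (mul_comm _ _)
  obtain ⟨i, h1, h2, h3⟩ := (hev.and ((h ε hεpos).and hbig)).exists
  have h4 := len_le_of_entries (g := g i) (Real.exp_pos _) h1 (fun p q => by
    obtain ⟨p', q', hpq⟩ := hinv i p q
    rw [hpq]; exact h1 p' q')
  rw [← mul_assoc, Real.log_mul (by positivity) (Real.exp_pos _).ne', Real.log_exp] at h4
  have h5 : (L - ε) * r i - (L' + ε) * r i = ε * r i := by
    rw [hε]; ring
  linarith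

theorem vm_cl_eq (hr : Tendsto r (U : Filter ℕ) atTop) {g : ℕ → (Matrix I I D)ˣ} {L : ℝ}
    (hinv : ∀ i, InvSame (g i))
    (h : Tendsto (fun i => len (g i) / r i) (U : Filter ℕ) (𝓝 L)) :
    vm R.v (cl R fun i => (g i).val) = Real.exp L := by
  have h1 : ∀ η : ℝ, 0 < η → ∀ᶠ i in (U : Filter ℕ), (L - η) * r i ≤ len (g i) ∧
      len (g i) ≤ (L + η) * r i := by
    intro η hη
    have := (Metric.tendsto_nhds.1 h) η hη
    filter_upwards [this, hr.eventually_gt_atTop 0] with i h2 h3
    rw [Real.dist_eq, abs_lt] at h2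
    rw [← le_div_iff₀ h3, ← div_le_iff₀ h3]
    constructor <;> linarith
  exact le_antisymm (vm_cl_le R hr fun η hη => (h1 η hη).mono fun i h => h.2)
    (le_vm_cl R hr hinv (ModM.of_len ⟨L + 1, (h1 1 one_pos).mono fun i h => h.2⟩)
      fun η hη => (h1 η hη).mono fun i h => h.1)

end lim

end Pool.Agent.ANQ
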