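import Pool.Agent.ANM65.Base

/-!
# Definitions for the analysis of quasi-isometric embeddings `A₁N₁ → G₂`
-/

namespace Pool.Agent.ANQ

open Matrix Filter Topology Pool.Agent.ANM51

set_option linter.unusedSectionVars false

/-! ## Bounded functions and right-invariant means -/

/-- bounded real functions -/
def Bdf {G : Type} (φ : G → ℝ) : Prop := ∃ C, ∀ x, |φ x| ≤ C

/-- A right-invariant mean on the bounded functions of a (discrete) group. -/
structure RMean (G : Type) [Group G] where
  /-- the mean -/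
  m : (G → ℝ) → ℝ
  add : ∀ φ ψ, Bdf φ → Bdf ψ → m (fun x => φ x + ψ x) = m φ + m ψ
  smul : ∀ (c : ℝ) φ, Bdf φ → m (fun x => c * φ x) = c * m φ
  mono : ∀ φ ψ, Bdf φ → Bdf ψ → (∀ x, φ x ≤ ψ x) → m φ ≤ m ψ
  one : m (fun _ => 1) = 1
  inv : ∀ φ (c : G), Bdf φ → m (fun x => φ (x * c)) = m φ

/-! ## Size and length of matrices -/

section size

variable {I D : Type} [Fintype I] [DecidableEq I] [NormedDivisionRing D]

/-- the sum of the norms of the entries -/
noncomputable def msz (g : Matrix I I D) : ℝ := ∑ p, ∑ q, ‖g p q‖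

/-- the length of an invertible matrix -/
noncomputable def len (g : (Matrix I I D)ˣ) : ℝ :=
  Real.log (max (msz g.val) (msz (g⁻¹).val))

end size

/-! ## Ultranorms -/

/-- multiplicative non-archimedean norms on a division ring -/
structure UNorm {K : Type} [DivisionRing K] (v : K → ℝ) : Prop where
  nonneg : ∀ a, 0 ≤ v a
  eq_zero : ∀ a, v a = 0 ↔ a = 0
  mul : ∀ a b, v (a * b) = v a * v b
  add : ∀ a b, v (a + b) ≤ max (v a) (v b)

/-- sup norm of vectors -/
noncomputable def vs {K : Type} (v : K → ℝ) {I : Type} (u : I → K) : ℝ := ⨆ p, v (u p)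

/-- sup norm of matrices -/
noncomputable def vm {K : Type} (v : K → ℝ) {I J : Type} (M : Matrix I J K) : ℝ := ⨆ p, ⨆ q, v (M p q)

/-! ## Sequences along an ultrafilter, and the Robinson division ring -/

section rob

variable (U : Ultrafilter ℕ) (r : ℕ → ℝ)

/-- moderate sequences -/
def Mod {D : Type} [NormedAddCommGroup D] (a : ℕ → D) : Prop :=
  ∃ C : ℝ, ∀ᶠ i in (U : Filter ℕ), ‖a i‖ ≤ Real.exp (C * r i)

/-- negligible sequences -/
def Neg {D : Type} [NormedAddCommGroup D] (a : ℕ → D) : Prop :=
  ∀ C : ℝ, ∀ᶠ i in (U : Filter ℕ), ‖a i‖ ≤ Real.exp (-(C * r i))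

/-- The quotient of the ring of moderate sequences in `D` by the negligible ones. -/
structure RobData (D K : Type) [NormedDivisionRing D] [NormedAlgebra ℝ D] [DivisionRing K]
    [Algebra ℝ K] where
  /-- the norm -/
  v : K → ℝ
  hv : UNorm v
  /-- the class of a sequence -/
  toK : (ℕ → D) → K
  surj : ∀ x, ∃ a, Mod U r a ∧ toK a = x
  zero_iff : ∀ a, Mod U r a → (toK a = 0 ↔ Neg U r a)
  add : ∀ a b, Mod U r a → Mod U r b → toK (fun i => a i + b i) = toK a + toK b
  mul : ∀ a b, Mod U r a → Mod U r b → toK (fun i => a i * b i) = toK a * toK b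
  alg : ∀ c : ℝ, toK (fun _ => algebraMap ℝ D c) = algebraMap ℝ K c
  lim : ∀ a, Mod U r a → Tendsto (fun i => ‖a i‖ ^ (1 / r i)) (U : Filter ℕ) (𝓝 (v (toK a)))

end rob

/-! ## Forms -/

/-- The shape of the matrix of a form: the entry at `(p, bar p)` is `jc p = ± 1`, all other
entries vanish. -/
structure IForm (I : Type) where
  /-- the partner of an index -/
  bar : I → I
  bar_bar : ∀ p, bar (bar p) = p
  /-- the sign -/
  jc : I → ℝ
  jc_sq : ∀ p, jc p * jc p = 1

/-- the matrix of the form -/
noncomputable def JI {I : Type} [DecidableEq I] (B : IForm I) (K : Type) [Ring K] [Algebra ℝ K] :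
    Matrix I I K :=
  fun p q => if q = B.bar p then algebraMap ℝ K (B.jc p) else 0

/-- An isometric real-linear involutive anti-automorphism (for a norm `v`). -/
structure FormK {K : Type} [DivisionRing K] [Algebra ℝ K] (v : K → ℝ) where
  /-- the involution -/
  σ : K →ₗ[ℝ] K
  anti : ∀ x y, σ (x * y) = σ y * σ x
  invol : ∀ x, σ (σ x) = x
  norm_σ : ∀ x, v (σ x) = v x

/-- conjugate transpose with respect to a map `σ` -/
def ct {K : Type} (σ : K → K) {I J : Type} (g : Matrix I J K) : Matrix J I K :=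
  fun i j => σ (g j i)

/-- the `FormK` of a `FormData` -/
noncomputable def FormData.toFormK {D : Type} [NormedDivisionRing D] [NormedAlgebra ℝ D]
    (F : FormData D) : FormK (fun x : D => ‖x‖) where
  σ := F.σ
  anti := F.anti
  invol := F.invol
  norm_σ := F.norm_σ

/-- `Fin n ⊕ Fin n` with the form of `FormGrp` -/
noncomputable def iform0 (n : ℕ) {D : Type} [NormedDivisionRing D] [NormedAlgebra ℝ D]
    (F : FormData D) : IForm (Fin n ⊕ Fin n) where
  bar := Sum.swap
  bar_bar p := Sum.swap_swap p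
  jc := fun p => match p with
    | .inl _ => 1
    | .inr _ => -F.ε
  jc_sq p := by
    rcases p with i | i
    · norm_num
    · rcases F.hε with h | h <;> simp [h]

/-! ## The domain group -/

section dom

variable {n : ℕ}

/-- the map `Fin n → ℝ → Fin (n+1) → ℝ`, last coordinate `0` -/
def ext (p : Fin n → ℝ) : Fin (n + 1) → ℝ := Fin.snoc (α := fun _ => ℝ) p 0

/-- the parametrisation of `A₁` -/
noncomputable def av (D : Type) [NormedDivisionRing D] [NormedAlgebra ℝ D] (p : Fin n → ℝ) :
    ANSL n D := tor D (ext p)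

/-- the root `(i, j)` as a function on `Fin n → ℝ` -/
def rootE (i j : Fin (n + 1)) (p : Fin n → ℝ) : ℝ := ext p i - ext p j

end dom

end Pool.Agent.ANQ
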