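import Pool.Agent.ANQ.Defs

/-!
# Energy along scales: good scales and good base points

Averages of `(d (x, x a(r e)) / r) ^ 2` are nonincreasing under `r ↦ k r`; along factorials they
converge, so at good scales the map is almost affine along all rational lines through almost all
points.
-/

namespace Pool.Agent.ANQ

open Matrix Filter Topology

namespace Energy

/-! ## Elementary facts on means -/

section mean

variable {G : Type}

theorem bdf_const (c : ℝ) : Bdf (fun _ : G => c) := ⟨|c|, fun _ => le_rfl⟩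

theorem bdf_add {φ ψ : G → ℝ} (h : Bdf φ) (h' : Bdf ψ) : Bdf (fun x => φ x + ψ x) := by
  obtain ⟨C, hC⟩ := h
  obtain ⟨C', hC'⟩ := h'
  exact ⟨C + C', fun x => (abs_add_le _ _).trans (add_le_add (hC x) (hC' x))⟩

theorem bdf_smul {φ : G → ℝ} (c : ℝ) (h : Bdf φ) : Bdf (fun x => c * φ x) := by
  obtain ⟨C, hC⟩ := h
  refine ⟨|c| * C, fun x => ?_⟩
  rw [abs_mul]
  exact mul_le_mul_of_nonneg_left (hC x) (abs_nonneg c)

theorem bdf_sum {ι : Type} (s : Finset ι) {φ : ι → G → ℝ} (h : ∀ i ∈ s, Bdf (φ i)) :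
    Bdf (fun x => ∑ i ∈ s, φ i x) := by
  classical
  induction s using Finset.induction_on with
  | empty => simpa using bdf_const (G := G) 0
  | insert b s hb ih =>
    have h1 := bdf_add (h b (Finset.mem_insert_self b s))
      (ih (fun i hi => h i (Finset.mem_insert_of_mem hi)))
    simpa [Finset.sum_insert hb] using h1

variable [Group G] (M : RMean G)

theorem m_const (c : ℝ) : M.m (fun _ => c) = c := by
  have h := M.smul c (fun _ => 1) (bdf_const 1)
  rw [M.one] at h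
  simpa using h

theorem m_nonneg {φ : G → ℝ} (hφ : Bdf φ) (h : ∀ x, 0 ≤ φ x) : 0 ≤ M.m φ := by
  have h1 := M.mono (fun _ => 0) φ (bdf_const 0) hφ h
  rwa [m_const] at h1

theorem m_sum {ι : Type} (s : Finset ι) {φ : ι → G → ℝ} (h : ∀ i ∈ s, Bdf (φ i)) :
    M.m (fun x => ∑ i ∈ s, φ i x) = ∑ i ∈ s, M.m (φ i) := by
  classical
  induction s using Finset.induction_on with
  | empty => simpa using m_const M 0
  | insert b s hb ih =>
    have h1 := M.add (φ b) (fun x => ∑ i ∈ s, φ i x) (h b (Finset.mem_insert_self b s))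
      (bdf_sum s (fun i hi => h i (Finset.mem_insert_of_mem hi)))
    rw [ih (fun i hi => h i (Finset.mem_insert_of_mem hi))] at h1
    simpa [Finset.sum_insert hb] using h1

theorem m_sub {φ ψ : G → ℝ} (h : Bdf φ) (h' : Bdf ψ) :
    M.m (fun x => φ x - ψ x) = M.m φ - M.m ψ := by
  have h1 := M.add φ (fun x => (-1) * ψ x) h (bdf_smul (-1) h')
  rw [M.smul (-1) ψ h'] at h1
  have h2 : (fun x => φ x + -1 * ψ x) = fun x => φ x - ψ x := by
    funext x; ring
  rw [h2] at h1
  rw [h1]; ring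

end mean

/-! ## The deficit -/

section deficit

variable {G : Type} [Group G] {n : ℕ} (a : (Fin n → ℝ) → G) (d : G → G → ℝ)

/-- the speed at scale `r` in direction `e` -/
noncomputable def sp (r : ℝ) (e : Fin n → ℝ) (x : G) : ℝ := d x (x * a (r • e)) / r

/-- the deficit -/
noncomputable def df (e : Fin n → ℝ) (k : ℕ) (r : ℝ) (x : G) : ℝ :=
  (∑ i ∈ Finset.range k, (sp a d r e (x * a (((i : ℝ) * r) • e))) ^ 2) / k
    - (sp a d ((k : ℝ) * r) e x) ^ 2

variable {a d}

theorem a_zero (ha : ∀ p q, a (p + q) = a p * a q) : a 0 = 1 := by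
  have h := ha 0 0
  rw [add_zero] at h
  exact (left_eq_mul.mp h)

theorem sp_nonneg (d_nonneg : ∀ x y, 0 ≤ d x y) {r : ℝ} (hr : 0 ≤ r) (e : Fin n → ℝ) (x : G) :
    0 ≤ sp a d r e x := div_nonneg (d_nonneg _ _) hr

theorem C_nonneg (d_nonneg : ∀ x y, 0 ≤ d x y) {K C : ℝ}
    (up : ∀ x p, d x (x * a p) ≤ K * ‖p‖ + C) : 0 ≤ C := by
  have h := up 1 0
  have h1 := d_nonneg 1 (1 * a 0)
  simp only [norm_zero, mul_zero, zero_add] at h
  exact h1.trans h

theorem sp_le {K C : ℝ}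
    (up : ∀ x p, d x (x * a p) ≤ K * ‖p‖ + C) {r : ℝ} (hr : 1 ≤ r) (e : Fin n → ℝ) (x : G) :
    sp a d r e x ≤ K * ‖e‖ + C / r := by
  have hr0 : 0 < r := by linarith
  unfold sp
  rw [div_le_iff₀ hr0]
  have h := up x (r • e)
  rw [norm_smul, Real.norm_eq_abs, abs_of_pos hr0] at h
  have h2 : (K * ‖e‖ + C / r) * r = K * (r * ‖e‖) + C := by
    field_simp
  rw [h2]; exact h

theorem sp_le' {K C : ℝ} (hC : 0 ≤ C)
    (up : ∀ x p, d x (x * a p) ≤ K * ‖p‖ + C) {r : ℝ} (hr : 1 ≤ r) (e : Fin n → ℝ) (x : G) :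
    sp a d r e x ≤ K * ‖e‖ + C := by
  refine (sp_le up hr e x).trans ?_
  have : C / r ≤ C := div_le_self hC hr
  linarith

theorem bdf_sp (d_nonneg : ∀ x y, 0 ≤ d x y) {K C : ℝ} (hC : 0 ≤ C)
    (up : ∀ x p, d x (x * a p) ≤ K * ‖p‖ + C) {r : ℝ} (hr : 1 ≤ r) (e : Fin n → ℝ) (g : G) :
    Bdf (fun x => (sp a d r e (x * g)) ^ 2) := by
  refine ⟨(K * ‖e‖ + C) ^ 2, fun x => ?_⟩
  rw [abs_of_nonneg (sq_nonneg _)]
  exact pow_le_pow_left₀ (sp_nonneg d_nonneg (by linarith) e _) (sp_le' hC up hr e _) 2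

theorem bdf_sp' (d_nonneg : ∀ x y, 0 ≤ d x y) {K C : ℝ} (hC : 0 ≤ C)
    (up : ∀ x p, d x (x * a p) ≤ K * ‖p‖ + C) {r : ℝ} (hr : 1 ≤ r) (e : Fin n → ℝ) :
    Bdf (fun x => (sp a d r e x) ^ 2) := by
  have h := bdf_sp d_nonneg hC up hr e 1
  simpa using h

/-- the chain of points along a line -/
theorem chain (ha : ∀ p q, a (p + q) = a p * a q) (d_tri : ∀ x y z, d x z ≤ d x y + d y z)
    (r : ℝ) (e : Fin n → ℝ) (x : G) (k : ℕ) :
    d x (x * a ((((k : ℝ) + 1) * r) • e)) ≤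
      ∑ i ∈ Finset.range (k + 1), d (x * a (((i : ℝ) * r) • e))
        (x * a (((i : ℝ) * r) • e) * a (r • e)) := by
  induction k with
  | zero =>
    simp [a_zero ha]
  | succ k ih =>
    rw [Finset.sum_range_succ]
    have h1 : (x * a ((((k + 1 : ℕ) : ℝ) * r) • e)) * a (r • e)
        = x * a (((((k + 1 : ℕ) : ℝ) + 1) * r) • e) := by
      rw [mul_assoc, ← ha, ← add_smul]
      congr 2
      ring_nf
    rw [h1]
    have h2 := d_tri x (x * a ((((k + 1 : ℕ) : ℝ) * r) • e))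
      (x * a (((((k + 1 : ℕ) : ℝ) + 1) * r) • e))
    have h3 : ((k + 1 : ℕ) : ℝ) = (k : ℝ) + 1 := by push_cast; ring
    rw [h3] at h2 ⊢
    linarith

theorem sp_mul_le (ha : ∀ p q, a (p + q) = a p * a q) (d_tri : ∀ x y z, d x z ≤ d x y + d y z)
    {r : ℝ} (hr : 0 < r) (e : Fin n → ℝ) (x : G) (k : ℕ) :
    sp a d (((k : ℝ) + 1) * r) e x ≤
      (∑ i ∈ Finset.range (k + 1), sp a d r e (x * a (((i : ℝ) * r) • e))) / ((k : ℝ) + 1) := by
  have hk : (0 : ℝ) < (k : ℝ) + 1 := by positivity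
  unfold sp
  rw [← Finset.sum_div, div_div, mul_comm r ((k : ℝ) + 1)]
  exact div_le_div_of_nonneg_right (chain ha d_tri r e x k) (by positivity)

theorem df_nonneg (ha : ∀ p q, a (p + q) = a p * a q) (d_nonneg : ∀ x y, 0 ≤ d x y)
    (d_tri : ∀ x y z, d x z ≤ d x y + d y z)
    {r : ℝ} (hr : 0 < r) (e : Fin n → ℝ) (x : G) (k : ℕ) : 0 ≤ df a d e (k + 1) r x := by
  have hk : (0 : ℝ) < (k : ℝ) + 1 := by positivity
  unfold df
  rw [sub_nonneg]
  push_cast
  have h1 := sp_mul_le ha d_tri hr e x k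
  have h0 : 0 ≤ sp a d (((k : ℝ) + 1) * r) e x := sp_nonneg d_nonneg (by positivity) e x
  have h2 := pow_le_pow_left₀ h0 h1 2
  refine h2.trans ?_
  rw [div_pow]
  have h3 := sq_sum_le_card_mul_sum_sq (s := Finset.range (k + 1))
    (f := fun i : ℕ => sp a d r e (x * a (((i : ℝ) * r) • e)))
  rw [Finset.card_range] at h3
  push_cast at h3
  rw [div_le_div_iff₀ (by positivity) hk]
  nlinarith

theorem bdf_df (d_nonneg : ∀ x y, 0 ≤ d x y)
    {K C : ℝ} (hC : 0 ≤ C)
    (up : ∀ x p, d x (x * a p) ≤ K * ‖p‖ + C) {r : ℝ} (hr : 1 ≤ r) (e : Fin n → ℝ) (k : ℕ) :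
    Bdf (fun x => df a d e (k + 1) r x) := by
  have h1 : Bdf (fun x => (1 / ((k + 1 : ℕ) : ℝ)) * ∑ i ∈ Finset.range (k + 1),
      (sp a d r e (x * a (((i : ℝ) * r) • e))) ^ 2) :=
    bdf_smul _ (bdf_sum _ (fun i _ => bdf_sp d_nonneg hC up hr e _))
  have hkr : 1 ≤ ((k + 1 : ℕ) : ℝ) * r := by
    have : (1 : ℝ) ≤ ((k + 1 : ℕ) : ℝ) := by
      exact_mod_cast Nat.succ_le_succ (Nat.zero_le k)
    nlinarith
  have h2 : Bdf (fun x => (-1) * (sp a d (((k + 1 : ℕ) : ℝ) * r) e x) ^ 2) :=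
    bdf_smul _ (bdf_sp' d_nonneg hC up hkr e)
  have h3 := bdf_add h1 h2
  convert h3 using 1
  funext x
  unfold df
  ring

theorem m_df (M : RMean G) (d_nonneg : ∀ x y, 0 ≤ d x y)
    {K C : ℝ} (hC : 0 ≤ C)
    (up : ∀ x p, d x (x * a p) ≤ K * ‖p‖ + C) {r : ℝ} (hr : 1 ≤ r) (e : Fin n → ℝ) (k : ℕ) :
    M.m (fun x => df a d e (k + 1) r x) =
      M.m (fun x => (sp a d r e x) ^ 2) -
        M.m (fun x => (sp a d (((k + 1 : ℕ) : ℝ) * r) e x) ^ 2) := by
  have hkr : 1 ≤ ((k + 1 : ℕ) : ℝ) * r := by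
    have : (1 : ℝ) ≤ ((k + 1 : ℕ) : ℝ) := by
      exact_mod_cast Nat.succ_le_succ (Nat.zero_le k)
    nlinarith
  have hk : ((k + 1 : ℕ) : ℝ) ≠ 0 := by
    exact_mod_cast Nat.succ_ne_zero k
  have hB : Bdf (fun x => ∑ i ∈ Finset.range (k + 1),
      (sp a d r e (x * a (((i : ℝ) * r) • e))) ^ 2) :=
    bdf_sum _ (fun i _ => bdf_sp d_nonneg hC up hr e _)
  have h1 : Bdf (fun x => (1 / ((k + 1 : ℕ) : ℝ)) * ∑ i ∈ Finset.range (k + 1),
      (sp a d r e (x * a (((i : ℝ) * r) • e))) ^ 2) :=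
    bdf_smul _ hB
  have h3 : (fun x => df a d e (k + 1) r x) = fun x =>
      (1 / ((k + 1 : ℕ) : ℝ)) * (∑ i ∈ Finset.range (k + 1),
      (sp a d r e (x * a (((i : ℝ) * r) • e))) ^ 2) -
        (sp a d (((k + 1 : ℕ) : ℝ) * r) e x) ^ 2 := by
    funext x
    unfold df
    ring
  rw [h3, m_sub M h1 (bdf_sp' d_nonneg hC up hkr e)]
  congr 1
  rw [M.smul _ _ hB, m_sum M _ (fun i _ => bdf_sp d_nonneg hC up hr e _)]
  have h4 : ∀ i ∈ Finset.range (k + 1),
      M.m (fun x => (sp a d r e (x * a (((i : ℝ) * r) • e))) ^ 2) =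
        M.m (fun x => (sp a d r e x) ^ 2) := by
    intro i _
    exact M.inv (fun x => (sp a d r e x) ^ 2) _ (bdf_sp' d_nonneg hC up hr e)
  rw [Finset.sum_congr rfl h4, Finset.sum_const, Finset.card_range, nsmul_eq_mul]
  field_simp

/-- the energies are nonincreasing under multiples of the scale -/
theorem en_mul_le (M : RMean G) (ha : ∀ p q, a (p + q) = a p * a q)
    (d_nonneg : ∀ x y, 0 ≤ d x y) (d_tri : ∀ x y z, d x z ≤ d x y + d y z)
    {K C : ℝ} (hC : 0 ≤ C)
    (up : ∀ x p, d x (x * a p) ≤ K * ‖p‖ + C) (e : Fin n → ℝ) {r s : ℕ} (hr : 1 ≤ r)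
    (hs : 1 ≤ s) (h : r ∣ s) :
    M.m (fun x => (sp a d (s : ℝ) e x) ^ 2) ≤ M.m (fun x => (sp a d (r : ℝ) e x) ^ 2) := by
  obtain ⟨k, rfl⟩ := h
  have hk : k ≠ 0 := by rintro rfl; simp at hs
  obtain ⟨k, rfl⟩ := Nat.exists_eq_succ_of_ne_zero hk
  have hr' : (1 : ℝ) ≤ (r : ℝ) := by exact_mod_cast hr
  have h1 := m_df M d_nonneg hC up hr' e k
  have h2 : 0 ≤ M.m (fun x => df a d e (k + 1) (r : ℝ) x) :=
    m_nonneg M (bdf_df d_nonneg hC up hr' e k)
      (fun x => df_nonneg ha d_nonneg d_tri (by linarith) e x k)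
  have h3 : (((r * (k + 1) : ℕ)) : ℝ) = ((k + 1 : ℕ) : ℝ) * (r : ℝ) := by
    push_cast; ring
  have h4 : (((r * k.succ : ℕ)) : ℝ) = ((k + 1 : ℕ) : ℝ) * (r : ℝ) := h3
  rw [h4]
  linarith

theorem tendsto_df (M : RMean G) (ha : ∀ p q, a (p + q) = a p * a q)
    (d_nonneg : ∀ x y, 0 ≤ d x y) (d_tri : ∀ x y z, d x z ≤ d x y + d y z)
    {K C : ℝ} (hC : 0 ≤ C)
    (up : ∀ x p, d x (x * a p) ≤ K * ‖p‖ + C) (e : Fin n → ℝ) (k : ℕ) :
    Tendsto (fun j : ℕ => M.m (fun x => df a d e (k + 1) ((j.factorial : ℕ) : ℝ) x)) atTop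
      (𝓝 0) := by
  set E : ℕ → ℝ := fun s => M.m (fun x => (sp a d (s : ℝ) e x) ^ 2) with hE
  have hpos : ∀ j : ℕ, 1 ≤ j.factorial := fun j => Nat.succ_le_of_lt (Nat.factorial_pos j)
  have hE0 : ∀ s : ℕ, 1 ≤ s → 0 ≤ E s := fun s hs =>
    m_nonneg M (bdf_sp' d_nonneg hC up (by exact_mod_cast hs) e) (fun x => sq_nonneg _)
  have hanti : Antitone (fun j : ℕ => E j.factorial) := by
    intro i j hij
    exact en_mul_le M ha d_nonneg d_tri hC up e (hpos i) (hpos j)
      (Nat.factorial_dvd_factorial hij)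
  have hbdd : BddBelow (Set.range (fun j : ℕ => E j.factorial)) := by
    refine ⟨0, ?_⟩
    rintro _ ⟨j, rfl⟩
    exact hE0 _ (hpos j)
  have hlim : Tendsto (fun j : ℕ => E j.factorial) atTop (𝓝 (⨅ j : ℕ, E j.factorial)) :=
    tendsto_atTop_ciInf hanti hbdd
  have hlim2 : Tendsto (fun j : ℕ => E (j + (k + 1)).factorial) atTop
      (𝓝 (⨅ j : ℕ, E j.factorial)) := hlim.comp (tendsto_add_atTop_nat (k + 1))
  have hsub : Tendsto (fun j : ℕ => E j.factorial - E (j + (k + 1)).factorial) atTop (𝓝 0) := by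
    have := hlim.sub hlim2
    simpa using this
  refine tendsto_of_tendsto_of_tendsto_of_le_of_le tendsto_const_nhds hsub ?_ ?_
  · intro j
    have hr' : (1 : ℝ) ≤ ((j.factorial : ℕ) : ℝ) := by exact_mod_cast hpos j
    exact m_nonneg M (bdf_df d_nonneg hC up hr' e k)
      (fun x => df_nonneg ha d_nonneg d_tri (by linarith) e x k)
  · intro j
    have hr' : (1 : ℝ) ≤ ((j.factorial : ℕ) : ℝ) := by exact_mod_cast hpos j
    show M.m (fun x => df a d e (k + 1) ((j.factorial : ℕ) : ℝ) x) ≤ _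
    rw [m_df M d_nonneg hC up hr' e k]
    have h1 : E (j + (k + 1)).factorial ≤ E ((k + 1) * j.factorial) := by
      refine en_mul_le M ha d_nonneg d_tri hC up e ?_ (hpos _) ?_
      · have := hpos j
        nlinarith
      · have h2 : (k + 1) * j.factorial ∣ j.factorial * (k + 1).factorial := by
          rw [mul_comm (k + 1)]
          exact Nat.mul_dvd_mul_left _ (Nat.dvd_factorial (Nat.succ_pos k) le_rfl)
        exact h2.trans (Nat.factorial_mul_factorial_dvd_factorial_add _ _)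
    have h3 : E ((k + 1) * j.factorial) =
        M.m (fun x => (sp a d (((k + 1 : ℕ) : ℝ) * ((j.factorial : ℕ) : ℝ)) e x) ^ 2) := by
      simp only [hE]
      congr 1
      funext x
      congr 2
      push_cast
      ring
    rw [← h3]
    have h4 : M.m (fun x => (sp a d ((j.factorial : ℕ) : ℝ) e x) ^ 2) = E j.factorial := rfl
    rw [h4]
    linarith

end deficit

/-! ## Limits -/

section limit

variable {n : ℕ}

/-- rational points -/
def rt (p : Fin n → ℚ) : Fin n → ℝ := fun i => (p i : ℝ)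

theorem dense_rt : DenseRange (rt (n := n)) := by
  have h : DenseRange (Pi.map (fun _ : Fin n => ((↑) : ℚ → ℝ))) :=
    DenseRange.piMap (fun _ => Rat.denseRange_cast)
  exact h

variable {K : ℝ} {D : (Fin n → ℝ) → (Fin n → ℝ) → ℝ}

theorem D_cont (D_tri : ∀ p q s, D p s ≤ D p q + D q s)
    (D_up : ∀ p q, D p q ≤ K * ‖q - p‖) :
    Continuous (fun z : (Fin n → ℝ) × (Fin n → ℝ) => D z.1 z.2) := by
  have key : ∀ p q p' q', D p q ≤ D p' q' + K * (‖p' - p‖ + ‖q' - q‖) := by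
    intro p q p' q'
    have h1 := D_tri p p' q
    have h2 := D_tri p' q' q
    have h3 := D_up p p'
    have h4 := D_up q' q
    rw [norm_sub_rev] at h4
    rw [mul_add]
    linarith
  have key2 : ∀ p q p' q', |D p q - D p' q'| ≤ K * (‖p' - p‖ + ‖q' - q‖) := by
    intro p q p' q'
    rw [abs_le]
    have h1 := key p q p' q'
    have h2 := key p' q' p q
    rw [norm_sub_rev p p', norm_sub_rev q q'] at h2
    constructor <;> linarith
  rw [continuous_iff_continuousAt]
  rintro ⟨p, q⟩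
  rw [ContinuousAt, tendsto_iff_dist_tendsto_zero]
  have h0 : Tendsto (fun z : (Fin n → ℝ) × (Fin n → ℝ) => K * (‖p - z.1‖ + ‖q - z.2‖))
      (𝓝 (p, q)) (𝓝 (K * (‖p - p‖ + ‖q - q‖))) := by
    have hc : Continuous (fun z : (Fin n → ℝ) × (Fin n → ℝ) =>
        K * (‖p - z.1‖ + ‖q - z.2‖)) := by fun_prop
    exact hc.tendsto (p, q)
  simp only [sub_self, norm_zero, add_zero, mul_zero] at h0
  refine squeeze_zero (fun _ => dist_nonneg) (fun z => ?_) h0
  rw [Real.dist_eq]
  exact key2 z.1 z.2 p q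

theorem D_trans (D_symm : ∀ p q, D p q = D q p)
    (D_tri : ∀ p q s, D p s ≤ D p q + D q s)
    (D_up : ∀ p q, D p q ≤ K * ‖q - p‖)
    (D_mul : ∀ (p e : Fin n → ℚ) (k : ℕ), D (rt p) (rt p + ((k : ℝ) + 1) • rt e) =
      ((k : ℝ) + 1) * D (rt p) (rt p + rt e)) :
    ∀ p q, D p q = D 0 (q - p) := by
  have h1 : ∀ p e : Fin n → ℚ, D (rt p) (rt p + rt e) = D 0 (rt e) := by
    intro p e
    have h0 : rt (0 : Fin n → ℚ) = 0 := by funext i; simp [rt]
    by_contra hne
    have hpos : 0 < |D (rt p) (rt p + rt e) - D 0 (rt e)| :=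
      abs_pos.mpr (sub_ne_zero.mpr hne)
    obtain ⟨N, hN⟩ := exists_nat_gt (2 * K * ‖rt p‖ / |D (rt p) (rt p + rt e) - D 0 (rt e)|)
    rw [div_lt_iff₀ hpos] at hN
    have h2 := D_mul p e N
    have h3 := D_mul 0 e N
    rw [h0, zero_add, zero_add] at h3
    set w := ((N : ℝ) + 1) • rt e with hw
    have h4 : |D (rt p) (rt p + w) - D 0 w| ≤ 2 * K * ‖rt p‖ := by
      rw [abs_le]
      have a1 := D_tri (rt p) 0 (rt p + w)
      have a2 := D_tri 0 w (rt p + w)
      have a3 := D_tri 0 (rt p) w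
      have a4 := D_tri (rt p) (rt p + w) w
      have b1 := D_up (rt p) 0
      have b2 := D_up 0 (rt p)
      have b3 := D_up w (rt p + w)
      have b4 := D_up (rt p + w) w
      rw [zero_sub, norm_neg] at b1
      rw [sub_zero] at b2
      rw [show rt p + w - w = rt p by abel] at b3
      rw [show w - (rt p + w) = - rt p by abel, norm_neg] at b4
      constructor <;> linarith
    rw [h2, h3, ← mul_sub, abs_mul, abs_of_pos (by positivity : (0 : ℝ) < (N : ℝ) + 1)] at h4
    nlinarith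
  have hcont := D_cont D_tri D_up
  have h2 : (fun z : (Fin n → ℝ) × (Fin n → ℝ) => D z.1 (z.1 + z.2)) =
      fun z => D 0 z.2 := by
    refine DenseRange.equalizer (dense_rt.prodMap dense_rt) ?_ ?_ ?_
    · exact hcont.comp (continuous_fst.prodMk (continuous_fst.add continuous_snd))
    · exact hcont.comp (continuous_const.prodMk continuous_snd)
    · funext z
      exact h1 z.1 z.2
  intro p q
  have h3 := congrFun h2 (p, q - p)
  simpa using h3

theorem norm_of_D (D_symm : ∀ p q, D p q = D q p)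
    (D_tri : ∀ p q s, D p s ≤ D p q + D q s)
    (D_up : ∀ p q, D p q ≤ K * ‖q - p‖) (D_lo : ∀ p q, ‖q - p‖ / K ≤ D p q)
    (D_mul : ∀ (p e : Fin n → ℚ) (k : ℕ), D (rt p) (rt p + ((k : ℝ) + 1) • rt e) =
      ((k : ℝ) + 1) * D (rt p) (rt p + rt e)) :
    ∃ ν : (Fin n → ℝ) → ℝ, (∀ p q, ν (p + q) ≤ ν p + ν q) ∧
      (∀ (c : ℝ) p, ν (c • p) = |c| * ν p) ∧ (∀ p, ‖p‖ / K ≤ ν p) ∧
      (∀ p, ν p ≤ K * ‖p‖) ∧ ∀ p q, D p q = ν (q - p) := by
  have htr := D_trans D_symm D_tri D_up D_mul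
  have hcont := D_cont D_tri D_up
  have hν : Continuous (fun p => D 0 p) := hcont.comp (continuous_const.prodMk continuous_id)
  have hzero : D 0 0 = 0 := by
    have h1 := D_up 0 0
    have h2 := D_lo 0 0
    simp only [sub_self, norm_zero, mul_zero, zero_div] at h1 h2
    linarith
  have hneg : ∀ p, D 0 (-p) = D 0 p := by
    intro p
    rw [D_symm, htr]
    simp
  have hsucc : ∀ (k : ℕ) p, D 0 (((k : ℝ) + 1) • p) = ((k : ℝ) + 1) * D 0 p := by
    intro k
    have h2 : (fun p : Fin n → ℝ => D 0 (((k : ℝ) + 1) • p)) =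
        fun p => ((k : ℝ) + 1) * D 0 p := by
      refine DenseRange.equalizer dense_rt ?_ ?_ ?_
      · exact hν.comp (continuous_const_smul _)
      · exact continuous_const.mul hν
      · funext e
        have h3 := D_mul 0 e k
        have h0 : rt (0 : Fin n → ℚ) = 0 := by funext i; simp [rt]
        rw [h0, zero_add, zero_add] at h3
        exact h3
    intro p
    exact congrFun h2 p
  have hnat : ∀ (k : ℕ) p, D 0 ((k : ℝ) • p) = (k : ℝ) * D 0 p := by
    intro k p
    rcases k with _ | k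
    · simp [hzero]
    · have := hsucc k p
      push_cast
      exact this
  have hrat : ∀ (c : ℚ) p, D 0 (|(c : ℝ)| • p) = |(c : ℝ)| * D 0 p := by
    intro c p
    have hd : (0 : ℝ) < (c.den : ℝ) := by exact_mod_cast c.pos
    have hc : |(c : ℝ)| = (c.num.natAbs : ℝ) / (c.den : ℝ) := by
      have h1 : (c : ℝ) = (c.num : ℝ) / (c.den : ℝ) := by
        exact_mod_cast (Rat.cast_def (K := ℝ) c)
      rw [h1, abs_div, abs_of_pos hd]
      congr 1
      rw [Nat.cast_natAbs]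
      push_cast
      rfl
    have h1 := hnat c.den (|(c : ℝ)| • p)
    rw [smul_smul] at h1
    have h2 : (c.den : ℝ) * |(c : ℝ)| = (c.num.natAbs : ℝ) := by
      rw [hc]; field_simp
    rw [h2, hnat] at h1
    rw [hc] at h1 ⊢
    field_simp
    linarith
  refine ⟨fun p => D 0 p, ?_, ?_, ?_, ?_, htr⟩
  · intro p q
    have h1 := D_tri 0 p (p + q)
    rw [htr p (p + q)] at h1
    simpa using h1
  · intro c p
    have h2 : (fun c : ℝ => D 0 (|c| • p)) = fun c => |c| * D 0 p := by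
      refine DenseRange.equalizer Rat.denseRange_cast ?_ ?_ ?_
      · exact hν.comp (continuous_abs.smul continuous_const)
      · exact continuous_abs.mul continuous_const
      · funext c
        exact hrat c p
    have h3 : D 0 (|c| • p) = |c| * D 0 p := congrFun h2 c
    show D 0 (c • p) = |c| * D 0 p
    rw [← h3]
    rcases abs_choice c with h | h
    · rw [h]
    · rw [h, neg_smul, hneg]
  · intro p
    have h1 := D_lo 0 p
    rwa [sub_zero] at h1
  · intro p
    have h1 := D_up 0 p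
    rwa [sub_zero] at h1

end limit

end Energy

open Energy in
/-- Good scales and good base points. -/
theorem energy {G : Type} [Group G] (M : RMean G) {n : ℕ} (a : (Fin n → ℝ) → G)
    (ha : ∀ p q, a (p + q) = a p * a q) (d : G → G → ℝ) (d_nonneg : ∀ x y, 0 ≤ d x y)
    (d_symm : ∀ x y, d x y = d y x) (d_tri : ∀ x y z, d x z ≤ d x y + d y z)
    {K C : ℝ} (hK : 0 < K) (up : ∀ x p, d x (x * a p) ≤ K * ‖p‖ + C)
    (lo : ∀ x p, ‖p‖ / K - C ≤ d x (x * a p)) :
    ∃ (r : ℕ → ℝ) (Good : ℕ → Set G), (∀ i, 1 ≤ r i) ∧ Tendsto r atTop atTop ∧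
      (∀ i, M.m (fun x => Set.indicator (Good i)ᶜ (fun _ => (1 : ℝ)) x) ≤ 1 / ((i : ℝ) + 1)) ∧
      ∀ (U : Ultrafilter ℕ), (U : Filter ℕ) ≤ atTop → ∀ x : ℕ → G,
        (∀ᶠ i in (U : Filter ℕ), x i ∈ Good i) →
        ∃ ν : (Fin n → ℝ) → ℝ, (∀ p q, ν (p + q) ≤ ν p + ν q) ∧
          (∀ (c : ℝ) p, ν (c • p) = |c| * ν p) ∧ (∀ p, ‖p‖ / K ≤ ν p) ∧ (∀ p, ν p ≤ K * ‖p‖) ∧
          ∀ p q, Tendsto (fun i => d (x i * a (r i • p)) (x i * a (r i • q)) / r i)
            (U : Filter ℕ) (𝓝 (ν (q - p))) := by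
  have hC : 0 ≤ C := C_nonneg d_nonneg up
  obtain ⟨l, hl⟩ : ∃ l : ℕ → (Fin n → ℚ) × (Fin n → ℚ) × ℕ, Function.Surjective l :=
    exists_surjective_nat _
  set b : ℕ → ℝ → G → ℝ := fun m r x =>
    df a d (rt (l m).2.1) ((l m).2.2 + 1) r (x * a (r • rt (l m).1)) with hbdef
  have hpos : ∀ j : ℕ, (1 : ℝ) ≤ ((j.factorial : ℕ) : ℝ) := fun j => by
    exact_mod_cast Nat.succ_le_of_lt (Nat.factorial_pos j)
  have hb_bdf : ∀ m r, 1 ≤ r → Bdf (b m r) := by
    intro m r hr
    obtain ⟨B, hB⟩ := bdf_df (n := n) (a := a) d_nonneg hC up hr (rt (l m).2.1) (l m).2.2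
    exact ⟨B, fun x => hB _⟩
  have hb_nonneg : ∀ m r x, 1 ≤ r → 0 ≤ b m r x := by
    intro m r x hr
    exact df_nonneg ha d_nonneg d_tri (by linarith) _ _ _
  have hb_lim : ∀ m, Tendsto (fun j : ℕ => M.m (b m ((j.factorial : ℕ) : ℝ))) atTop (𝓝 0) := by
    intro m
    have h1 := tendsto_df M ha d_nonneg d_tri hC up (rt (l m).2.1) (l m).2.2
    refine h1.congr (fun j => ?_)
    exact (M.inv _ _ (bdf_df d_nonneg hC up (hpos j) _ _)).symm
  have hj : ∀ i : ℕ, ∃ j : ℕ, i ≤ j ∧ ∀ m ≤ i,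
      M.m (b m ((j.factorial : ℕ) : ℝ)) ≤ 1 / ((i : ℝ) + 1) ^ 3 := by
    intro i
    have h1 : ∀ᶠ j : ℕ in atTop, ∀ m ≤ i,
        M.m (b m ((j.factorial : ℕ) : ℝ)) ≤ 1 / ((i : ℝ) + 1) ^ 3 := by
      have h2 : ∀ᶠ j : ℕ in atTop, ∀ m ∈ Finset.range (i + 1),
          M.m (b m ((j.factorial : ℕ) : ℝ)) ≤ 1 / ((i : ℝ) + 1) ^ 3 := by
        rw [Filter.eventually_all_finset]
        intro m _
        have h3 : ∀ᶠ j : ℕ in atTop,
            M.m (b m ((j.factorial : ℕ) : ℝ)) < 1 / ((i : ℝ) + 1) ^ 3 :=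
          (hb_lim m).eventually_lt_const (by positivity)
        exact h3.mono (fun j hj => hj.le)
      filter_upwards [h2] with j hj m hm
      exact hj m (Finset.mem_range.mpr (Nat.lt_succ_of_le hm))
    obtain ⟨j, hj1, hj2⟩ := (h1.and (eventually_ge_atTop i)).exists
    exact ⟨j, hj2, hj1⟩
  choose j hji hjb using hj
  refine ⟨fun i => (((j i).factorial : ℕ) : ℝ),
    fun i => {x | ∀ m ≤ i, b m (((j i).factorial : ℕ) : ℝ) x ≤ 1 / ((i : ℝ) + 1)},
    fun i => hpos _, ?_, ?_, ?_⟩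
  · refine tendsto_atTop_mono (fun i => ?_) tendsto_natCast_atTop_atTop
    exact_mod_cast (hji i).trans (Nat.self_le_factorial _)
  · intro i
    set r : ℝ := (((j i).factorial : ℕ) : ℝ) with hr
    have hr1 : 1 ≤ r := hpos _
    have hi : (0 : ℝ) < (i : ℝ) + 1 := by positivity
    have hB : ∀ m ∈ Finset.range (i + 1), Bdf (fun x => ((i : ℝ) + 1) * b m r x) :=
      fun m _ => bdf_smul _ (hb_bdf m r hr1)
    have h1 : M.m (fun x => Set.indicator {x | ∀ m ≤ i, b m r x ≤ 1 / ((i : ℝ) + 1)}ᶜ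
        (fun _ => (1 : ℝ)) x) ≤
        M.m (fun x => ∑ m ∈ Finset.range (i + 1), ((i : ℝ) + 1) * b m r x) := by
      refine M.mono _ _ ?_ (bdf_sum _ hB) ?_
      · refine ⟨1, fun x => ?_⟩
        beta_reduce
        by_cases hx : x ∈ {x | ∀ m ≤ i, b m r x ≤ 1 / ((i : ℝ) + 1)}ᶜ
        · rw [Set.indicator_of_mem hx]; simp
        · rw [Set.indicator_of_notMem hx]; simp
      · intro x
        have hnn : ∀ m ∈ Finset.range (i + 1), 0 ≤ ((i : ℝ) + 1) * b m r x :=
          fun m _ => mul_nonneg hi.le (hb_nonneg m r x hr1)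
        by_cases hx : x ∈ {x | ∀ m ≤ i, b m r x ≤ 1 / ((i : ℝ) + 1)}ᶜ
        · rw [Set.indicator_of_mem hx]
          simp only [Set.mem_compl_iff, Set.mem_ofPred_eq, not_forall, not_le] at hx
          obtain ⟨m, hm, hx⟩ := hx
          have h2 := Finset.single_le_sum hnn (Finset.mem_range.mpr (Nat.lt_succ_of_le hm))
          refine le_trans ?_ h2
          rw [div_lt_iff₀ hi] at hx
          linarith
        · rw [Set.indicator_of_notMem hx]
          exact Finset.sum_nonneg hnn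
    refine h1.trans ?_
    rw [m_sum M _ hB]
    have h3 : ∀ m ∈ Finset.range (i + 1), M.m (fun x => ((i : ℝ) + 1) * b m r x) ≤
        ((i : ℝ) + 1) * (1 / ((i : ℝ) + 1) ^ 3) := by
      intro m hm
      rw [M.smul _ _ (hb_bdf m r hr1)]
      exact mul_le_mul_of_nonneg_left
        (hjb i m (Nat.le_of_lt_succ (Finset.mem_range.mp hm))) hi.le
    refine (Finset.sum_le_sum h3).trans ?_
    rw [Finset.sum_const, Finset.card_range, nsmul_eq_mul]
    push_cast
    apply le_of_eq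
    field_simp
  · intro U hU x hx
    set r : ℕ → ℝ := fun i => (((j i).factorial : ℕ) : ℝ) with hr
    have hr1 : ∀ i, 1 ≤ r i := fun i => hpos _
    have hr0 : ∀ i, 0 < r i := fun i => lt_of_lt_of_le one_pos (hr1 i)
    have hrtop : Tendsto r (U : Filter ℕ) atTop := by
      have h1 : Tendsto r atTop atTop := by
        refine tendsto_atTop_mono (fun i => ?_) tendsto_natCast_atTop_atTop
        simp only [hr]
        exact_mod_cast (hji i).trans (Nat.self_le_factorial _)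
      exact h1.mono_left hU
    have hCr : Tendsto (fun i => C / r i) (U : Filter ℕ) (𝓝 0) := hrtop.const_div_atTop C
    set F : (Fin n → ℝ) → (Fin n → ℝ) → ℕ → ℝ := fun p q i =>
      d (x i * a (r i • p)) (x i * a (r i • q)) / r i with hF
    have hFsp : ∀ p q i, F p q i = sp a d (r i) (q - p) (x i * a (r i • p)) := by
      intro p q i
      simp only [hF, sp]
      rw [mul_assoc (x i), ← ha, ← smul_add, add_sub_cancel]
    have hF0 : ∀ p q i, 0 ≤ F p q i := fun p q i => div_nonneg (d_nonneg _ _) (hr0 i).le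
    have hF1 : ∀ p q i, F p q i ≤ K * ‖q - p‖ + C / r i := by
      intro p q i
      rw [hFsp]
      exact sp_le up (hr1 i) _ _
    have hF2 : ∀ p q i, ‖q - p‖ / K - C / r i ≤ F p q i := by
      intro p q i
      rw [hFsp]
      unfold sp
      rw [le_div_iff₀ (hr0 i)]
      have h1 := lo (x i * a (r i • p)) (r i • (q - p))
      rw [norm_smul, Real.norm_eq_abs, abs_of_pos (hr0 i)] at h1
      have h2 : (‖q - p‖ / K - C / r i) * r i = r i * ‖q - p‖ / K - C := by
        have := (hr0 i).ne'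
        field_simp
      rw [h2]; exact h1
    have hex : ∀ p q, ∃ y, Tendsto (F p q) (U : Filter ℕ) (𝓝 y) := by
      intro p q
      have hmem : ∀ i, F p q i ∈ Set.Icc 0 (K * ‖q - p‖ + C) := by
        intro i
        refine ⟨hF0 p q i, (hF1 p q i).trans ?_⟩
        have : C / r i ≤ C := div_le_self hC (hr1 i)
        linarith
      obtain ⟨y, -, hy⟩ := isCompact_Icc.ultrafilter_le_nhds (U.map (F p q)) (by
        rw [Filter.le_principal_iff]
        show F p q ⁻¹' _ ∈ (U : Filter ℕ)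
        exact Filter.univ_mem' hmem)
      exact ⟨y, hy⟩
    choose D hD using hex
    have hDsymm : ∀ p q, D p q = D q p := by
      intro p q
      refine tendsto_nhds_unique (hD p q) ((hD q p).congr (fun i => ?_))
      simp only [hF]
      rw [d_symm]
    have hDtri : ∀ p q s, D p s ≤ D p q + D q s := by
      intro p q s
      refine le_of_tendsto_of_tendsto' (hD p s) ((hD p q).add (hD q s)) (fun i => ?_)
      simp only [hF]
      rw [← add_div]
      exact div_le_div_of_nonneg_right (d_tri _ _ _) (hr0 i).le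
    have hDup : ∀ p q, D p q ≤ K * ‖q - p‖ := by
      intro p q
      have h1 : Tendsto (fun i => K * ‖q - p‖ + C / r i) (U : Filter ℕ)
          (𝓝 (K * ‖q - p‖ + 0)) := tendsto_const_nhds.add hCr
      rw [add_zero] at h1
      exact le_of_tendsto_of_tendsto' (hD p q) h1 (hF1 p q)
    have hDlo : ∀ p q, ‖q - p‖ / K ≤ D p q := by
      intro p q
      have h1 : Tendsto (fun i => ‖q - p‖ / K - C / r i) (U : Filter ℕ)
          (𝓝 (‖q - p‖ / K - 0)) := tendsto_const_nhds.sub hCr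
      rw [sub_zero] at h1
      exact le_of_tendsto_of_tendsto' h1 (hD p q) (hF2 p q)
    have hDnn : ∀ p q, 0 ≤ D p q := fun p q => ge_of_tendsto' (hD p q) (hF0 p q)
    have hDmul : ∀ (p e : Fin n → ℚ) (k : ℕ), D (rt p) (rt p + ((k : ℝ) + 1) • rt e) =
        ((k : ℝ) + 1) * D (rt p) (rt p + rt e) := by
      intro p e k
      obtain ⟨m, hm⟩ := hl (p, e, k)
      have hk : (0 : ℝ) < (k : ℝ) + 1 := by positivity
      -- the deficits tend to zero
      have hb0 : Tendsto (fun i => b m (r i) (x i)) (U : Filter ℕ) (𝓝 0) := by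
        have h1 : Tendsto (fun i : ℕ => 1 / ((i : ℝ) + 1)) (U : Filter ℕ) (𝓝 0) :=
          tendsto_one_div_add_atTop_nhds_zero_nat.mono_left hU
        refine tendsto_of_tendsto_of_tendsto_of_le_of_le' tendsto_const_nhds h1 ?_ ?_
        · exact Eventually.of_forall (fun i => hb_nonneg m _ _ (hr1 i))
        · have h2 : ∀ᶠ i in (U : Filter ℕ), m ≤ i := hU (eventually_ge_atTop m)
          filter_upwards [hx, h2] with i hi him
          exact hi m him
      have hbval : ∀ i, b m (r i) (x i) =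
          (∑ t ∈ Finset.range (k + 1),
            (F (rt p + (t : ℝ) • rt e) (rt p + ((t : ℝ) + 1) • rt e) i) ^ 2) / ((k : ℝ) + 1) -
          (F (rt p) (rt p + ((k : ℝ) + 1) • rt e) i / ((k : ℝ) + 1)) ^ 2 := by
        intro i
        simp only [hbdef, hm, df]
        push_cast
        congr 1
        · congr 1
          refine Finset.sum_congr rfl (fun t _ => ?_)
          rw [hFsp]
          have e1 : rt p + ((t : ℝ) + 1) • rt e - (rt p + (t : ℝ) • rt e) = rt e := by
            rw [add_smul, one_smul]; abel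
          have e2 : x i * a (r i • rt p) * a (((t : ℝ) * r i) • rt e) =
              x i * a (r i • (rt p + (t : ℝ) • rt e)) := by
            rw [mul_assoc, ← ha, smul_add, smul_smul, mul_comm (r i)]
          rw [e1, e2]
        · congr 1
          simp only [hF, sp]
          have e2 : x i * a (r i • rt p) * a ((((k : ℝ) + 1) * r i) • rt e) =
              x i * a (r i • (rt p + ((k : ℝ) + 1) • rt e)) := by
            rw [mul_assoc, ← ha, smul_add, smul_smul, mul_comm (r i)]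
          rw [e2, div_div, mul_comm ((k : ℝ) + 1) (r i)]
      set A := D (rt p) (rt p + ((k : ℝ) + 1) • rt e) with hA
      set Dt : ℕ → ℝ := fun t => D (rt p + (t : ℝ) • rt e) (rt p + ((t : ℝ) + 1) • rt e)
        with hDt
      have hlim : Tendsto (fun i => b m (r i) (x i)) (U : Filter ℕ)
          (𝓝 ((∑ t ∈ Finset.range (k + 1), (Dt t) ^ 2) / ((k : ℝ) + 1) -
            (A / ((k : ℝ) + 1)) ^ 2)) := by
        have h1 : Tendsto (fun i => (∑ t ∈ Finset.range (k + 1),
            (F (rt p + (t : ℝ) • rt e) (rt p + ((t : ℝ) + 1) • rt e) i) ^ 2) /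
              ((k : ℝ) + 1) -
            (F (rt p) (rt p + ((k : ℝ) + 1) • rt e) i / ((k : ℝ) + 1)) ^ 2) (U : Filter ℕ)
            (𝓝 ((∑ t ∈ Finset.range (k + 1), (Dt t) ^ 2) / ((k : ℝ) + 1) -
            (A / ((k : ℝ) + 1)) ^ 2)) := by
          refine Tendsto.sub (Tendsto.div_const (tendsto_finsetSum _ (fun t _ => ?_)) _)
            (Tendsto.pow (Tendsto.div_const (hD _ _) _) 2)
          exact (hD _ _).pow 2
        exact h1.congr (fun i => (hbval i).symm)
      have heq := tendsto_nhds_unique hb0 hlim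
      -- the triangle inequality along the chain
      have hchain : ∀ s : ℕ, D (rt p) (rt p + ((s : ℝ) + 1) • rt e) ≤
          ∑ t ∈ Finset.range (s + 1), Dt t := by
        intro s
        induction s with
        | zero => simp [hDt]
        | succ s ih =>
          rw [Finset.sum_range_succ]
          have h1 := hDtri (rt p) (rt p + ((s : ℝ) + 1) • rt e)
            (rt p + (((s + 1 : ℕ) : ℝ) + 1) • rt e)
          have h2 : Dt (s + 1) = D (rt p + ((s : ℝ) + 1) • rt e)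
              (rt p + (((s + 1 : ℕ) : ℝ) + 1) • rt e) := by
            simp only [hDt]
            push_cast
            rfl
          rw [h2]
          linarith
      have hsA := hchain k
      have hA0 : 0 ≤ A := hDnn _ _
      have hsum0 : ∑ t ∈ Finset.range (k + 1), (Dt t - A / ((k : ℝ) + 1)) ^ 2 ≤ 0 := by
        have h1 : ∑ t ∈ Finset.range (k + 1), (Dt t - A / ((k : ℝ) + 1)) ^ 2 =
            (∑ t ∈ Finset.range (k + 1), (Dt t) ^ 2) -
              2 * (A / ((k : ℝ) + 1)) * (∑ t ∈ Finset.range (k + 1), Dt t) +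
              ((k : ℝ) + 1) * (A / ((k : ℝ) + 1)) ^ 2 := by
          have h2 : ∀ t ∈ Finset.range (k + 1), (Dt t - A / ((k : ℝ) + 1)) ^ 2 =
              (Dt t) ^ 2 - 2 * (A / ((k : ℝ) + 1)) * Dt t + (A / ((k : ℝ) + 1)) ^ 2 := by
            intro t _; ring
          rw [Finset.sum_congr rfl h2, Finset.sum_add_distrib, Finset.sum_sub_distrib,
            ← Finset.mul_sum, Finset.sum_const, Finset.card_range, nsmul_eq_mul]
          push_cast
          ring
        have h3 : (∑ t ∈ Finset.range (k + 1), (Dt t) ^ 2) =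
            ((k : ℝ) + 1) * (A / ((k : ℝ) + 1)) ^ 2 := by
          have h4 : (∑ t ∈ Finset.range (k + 1), (Dt t) ^ 2) / ((k : ℝ) + 1) =
            (A / ((k : ℝ) + 1)) ^ 2 := by linarith
          rw [div_eq_iff hk.ne'] at h4
          linarith
        rw [h1, h3]
        have h5 : 2 * (A / ((k : ℝ) + 1)) * A ≤
            2 * (A / ((k : ℝ) + 1)) * (∑ t ∈ Finset.range (k + 1), Dt t) :=
          mul_le_mul_of_nonneg_left hsA (by positivity)
        have h6 : ((k : ℝ) + 1) * (A / ((k : ℝ) + 1)) ^ 2 = (A / ((k : ℝ) + 1)) * A := by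
          field_simp
        rw [h6]
        linarith
      have h7 : (Dt 0 - A / ((k : ℝ) + 1)) ^ 2 ≤ 0 := by
        refine le_trans ?_ hsum0
        exact Finset.single_le_sum (f := fun t => (Dt t - A / ((k : ℝ) + 1)) ^ 2)
          (fun t _ => sq_nonneg _) (Finset.mem_range.mpr (Nat.succ_pos k))
      have h8 : Dt 0 - A / ((k : ℝ) + 1) = 0 :=
        pow_eq_zero_iff (two_ne_zero) |>.mp (le_antisymm h7 (sq_nonneg _))
      have h9 : Dt 0 = D (rt p) (rt p + rt e) := by
        simp [hDt]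
      rw [h9] at h8
      have h10 : D (rt p) (rt p + rt e) = A / ((k : ℝ) + 1) := by linarith
      rw [h10]
      field_simp
    obtain ⟨ν, h1, h2, h3, h4, h5⟩ := norm_of_D hDsymm hDtri hDup hDlo hDmul
    refine ⟨ν, h1, h2, h3, h4, fun p q => ?_⟩
    rw [← h5]
    exact hD p q

end Pool.Agent.ANQ
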