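import Pool.Agent.ANQ.Defs

/-!
# The Robinson division ring
-/

namespace Pool.Agent.ANQ

open Filter Topology Matrix Pool.Agent.ANM51

set_option linter.unusedSectionVars false

section robcon

variable {U : Ultrafilter ℕ} {r : ℕ → ℝ}
variable {D : Type} [NormedDivisionRing D] [NormedAlgebra ℝ D]

theorem rob_ge {r : ℕ → ℝ} (hr : Tendsto r (U : Filter ℕ) atTop) (c : ℝ) :
    ∀ᶠ i in (U : Filter ℕ), c ≤ r i := hr.eventually_ge_atTop c

theorem two_le_exp_of_one_le {x : ℝ} (hx : 1 ≤ x) : 2 ≤ Real.exp x := by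
  have := Real.add_one_le_exp x
  linarith

theorem Mod.add (hr : Tendsto r (U : Filter ℕ) atTop) {a b : ℕ → D} (ha : Mod U r a)
    (hb : Mod U r b) : Mod U r (fun i => a i + b i) := by
  obtain ⟨C1, h1⟩ := ha
  obtain ⟨C2, h2⟩ := hb
  refine ⟨max C1 C2 + 1, ?_⟩
  filter_upwards [h1, h2, rob_ge hr 1] with i k1 k2 k3
  have e1 : Real.exp (C1 * r i) ≤ Real.exp (max C1 C2 * r i) :=
    Real.exp_le_exp.mpr (mul_le_mul_of_nonneg_right (le_max_left _ _) (by linarith))
  have e2 : Real.exp (C2 * r i) ≤ Real.exp (max C1 C2 * r i) :=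
    Real.exp_le_exp.mpr (mul_le_mul_of_nonneg_right (le_max_right _ _) (by linarith))
  have e3 : Real.exp ((max C1 C2 + 1) * r i) = Real.exp (max C1 C2 * r i) * Real.exp (r i) := by
    rw [← Real.exp_add]; ring_nf
  rw [e3]
  have e4 := two_le_exp_of_one_le k3
  have e5 := Real.exp_pos (max C1 C2 * r i)
  calc ‖a i + b i‖ ≤ ‖a i‖ + ‖b i‖ := norm_add_le _ _
    _ ≤ Real.exp (max C1 C2 * r i) * 2 := by linarith
    _ ≤ _ := mul_le_mul_of_nonneg_left e4 e5.le

theorem Mod.mul {a b : ℕ → D} (ha : Mod U r a)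
    (hb : Mod U r b) : Mod U r (fun i => a i * b i) := by
  obtain ⟨C1, h1⟩ := ha
  obtain ⟨C2, h2⟩ := hb
  refine ⟨C1 + C2, ?_⟩
  filter_upwards [h1, h2] with i k1 k2
  rw [add_mul, Real.exp_add, norm_mul]
  exact mul_le_mul k1 k2 (norm_nonneg _) (Real.exp_pos _).le

theorem Mod.neg {a : ℕ → D} (ha : Mod U r a) : Mod U r (fun i => - a i) := by
  obtain ⟨C1, h1⟩ := ha
  exact ⟨C1, h1.mono fun i hi => by rwa [norm_neg]⟩

theorem Mod.sub (hr : Tendsto r (U : Filter ℕ) atTop) {a b : ℕ → D} (ha : Mod U r a)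
    (hb : Mod U r b) : Mod U r (fun i => a i - b i) := by
  simp only [sub_eq_add_neg]
  exact ha.add hr hb.neg

theorem Mod.const (hr : Tendsto r (U : Filter ℕ) atTop) (c : D) : Mod U r (fun _ => c) := by
  refine ⟨1, ?_⟩
  filter_upwards [rob_ge hr ‖c‖] with i hi
  have := Real.add_one_le_exp (1 * r i)
  linarith

theorem Neg.mod {a : ℕ → D} (ha : Neg U r a) : Mod U r a :=
  ⟨0, (ha 0).mono fun i hi => by simpa using hi⟩

theorem Neg.add (hr : Tendsto r (U : Filter ℕ) atTop) {a b : ℕ → D} (ha : Neg U r a)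
    (hb : Neg U r b) : Neg U r (fun i => a i + b i) := by
  intro C
  filter_upwards [ha (C + 1), hb (C + 1), rob_ge hr 1] with i k1 k2 k3
  have e3 : Real.exp (-(C * r i)) = Real.exp (-((C + 1) * r i)) * Real.exp (r i) := by
    rw [← Real.exp_add]; ring_nf
  rw [e3]
  have e4 := two_le_exp_of_one_le k3
  have e5 := Real.exp_pos (-((C + 1) * r i))
  calc ‖a i + b i‖ ≤ ‖a i‖ + ‖b i‖ := norm_add_le _ _
    _ ≤ Real.exp (-((C + 1) * r i)) * 2 := by linarith
    _ ≤ _ := mul_le_mul_of_nonneg_left e4 e5.le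

theorem Neg.mod_mul {a b : ℕ → D} (ha : Mod U r a)
    (hb : Neg U r b) : Neg U r (fun i => a i * b i) := by
  obtain ⟨C1, h1⟩ := ha
  intro C
  filter_upwards [h1, hb (C + C1)] with i k1 k2
  have e3 : Real.exp (-(C * r i)) = Real.exp (C1 * r i) * Real.exp (-((C + C1) * r i)) := by
    rw [← Real.exp_add]; ring_nf
  rw [e3, norm_mul]
  exact mul_le_mul k1 k2 (norm_nonneg _) (Real.exp_pos _).le

theorem Neg.mul_mod {a b : ℕ → D} (ha : Neg U r a)
    (hb : Mod U r b) : Neg U r (fun i => a i * b i) := by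
  obtain ⟨C1, h1⟩ := hb
  intro C
  filter_upwards [h1, ha (C + C1)] with i k1 k2
  have e3 : Real.exp (-(C * r i)) = Real.exp (-((C + C1) * r i)) * Real.exp (C1 * r i) := by
    rw [← Real.exp_add]; ring_nf
  rw [e3, norm_mul]
  exact mul_le_mul k2 k1 (norm_nonneg _) (Real.exp_pos _).le

theorem Neg.zero : Neg U r (fun _ => (0 : D)) := by
  intro C
  filter_upwards with i
  rw [norm_zero]
  exact (Real.exp_pos _).le

theorem Neg.of_eventually_zero {a : ℕ → D} (h : ∀ᶠ i in (U : Filter ℕ), a i = 0) : Neg U r a := by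
  intro C
  filter_upwards [h] with i hi
  rw [hi, norm_zero]
  exact (Real.exp_pos _).le

theorem Neg.neg {a : ℕ → D} (ha : Neg U r a) : Neg U r (fun i => - a i) :=
  fun C => (ha C).mono fun i hi => by rwa [norm_neg]

theorem Neg.sub (hr : Tendsto r (U : Filter ℕ) atTop) {a b : ℕ → D} (ha : Neg U r a)
    (hb : Neg U r b) : Neg U r (fun i => a i - b i) := by
  simp only [sub_eq_add_neg]
  exact ha.add hr hb.neg

theorem Mod.inv {a : ℕ → D} (ha : ¬ Neg U r a) :
    Mod U r (fun i => (a i)⁻¹) ∧ ∀ᶠ i in (U : Filter ℕ), a i ≠ 0 := by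
  unfold Neg at ha
  push Not at ha
  obtain ⟨C, hC⟩ := ha
  have h1 : ∀ᶠ i in (U : Filter ℕ), Real.exp (-(C * r i)) < ‖a i‖ := hC
  refine ⟨⟨C, ?_⟩, ?_⟩
  · filter_upwards [h1] with i hi
    rw [norm_inv]
    rw [Real.exp_neg] at hi
    exact (inv_lt_of_inv_lt₀ (Real.exp_pos _) hi).le
  · filter_upwards [h1] with i hi h0
    rw [h0, norm_zero] at hi
    exact absurd hi (not_lt.mpr (Real.exp_pos _).le)

variable (U r D)

/-- the algebra of moderate sequences -/
def modAlg (hr : Tendsto r (U : Filter ℕ) atTop) : Subalgebra ℝ (ℕ → D) where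
  carrier := {a | Mod U r a}
  mul_mem' := fun ha hb => Mod.mul ha hb
  add_mem' := fun ha hb => Mod.add hr ha hb
  algebraMap_mem' := fun c => Mod.const hr (algebraMap ℝ D c)

/-- the ideal of negligible sequences -/
def negI (hr : Tendsto r (U : Filter ℕ) atTop) : Ideal (modAlg U r D hr) where
  carrier := {a | Neg U r a.1}
  add_mem' := fun ha hb => Neg.add hr ha hb
  zero_mem' := Neg.zero
  smul_mem' := fun c _ hx => Neg.mod_mul c.2 hx

instance (hr : Tendsto r (U : Filter ℕ) atTop) : (negI U r D hr).IsTwoSided where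
  mul_mem_of_left := fun b ha => Neg.mul_mod ha b.2

/-- the Robinson division ring -/
abbrev RobK (hr : Tendsto r (U : Filter ℕ) atTop) : Type := modAlg U r D hr ⧸ negI U r D hr

variable {U r D}

theorem robK_isUnit_or (hr : Tendsto r (U : Filter ℕ) atTop) (x : RobK U r D hr) :
    IsUnit x ∨ x = 0 := by
  obtain ⟨a, rfl⟩ := Ideal.Quotient.mk_surjective x
  by_cases h : Neg U r a.1
  · right
    exact Ideal.Quotient.eq_zero_iff_mem.mpr h
  · left
    obtain ⟨h1, h2⟩ := Mod.inv h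
    set b : modAlg U r D hr := ⟨fun i => (a.1 i)⁻¹, h1⟩ with hb
    refine ⟨⟨Ideal.Quotient.mk _ a, Ideal.Quotient.mk _ b, ?_, ?_⟩, rfl⟩
    · rw [← map_mul, ← map_one (Ideal.Quotient.mk _), Ideal.Quotient.eq]
      apply Neg.of_eventually_zero
      filter_upwards [h2] with i hi
      show a.1 i * (a.1 i)⁻¹ - 1 = 0
      rw [mul_inv_cancel₀ hi, sub_self]
    · rw [← map_mul, ← map_one (Ideal.Quotient.mk _), Ideal.Quotient.eq]
      apply Neg.of_eventually_zero
      filter_upwards [h2] with i hi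
      show (a.1 i)⁻¹ * a.1 i - 1 = 0
      rw [inv_mul_cancel₀ hi, sub_self]

theorem not_neg_one (hr : Tendsto r (U : Filter ℕ) atTop) : ¬ Neg U r (fun _ => (1 : D)) := by
  intro h
  have h1 := h 1
  obtain ⟨i, hi1, hi2⟩ := (h1.and (rob_ge hr 1)).exists
  rw [norm_one] at hi1
  have h3 : Real.exp (-(1 * r i)) < 1 := by
    rw [Real.exp_lt_one_iff]
    linarith
  linarith

instance robK_nontrivial (hr : Tendsto r (U : Filter ℕ) atTop) : Nontrivial (RobK U r D hr) := by
  refine ⟨⟨1, 0, ?_⟩⟩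
  rw [← map_one (Ideal.Quotient.mk _)]
  intro h
  rw [Ideal.Quotient.eq_zero_iff_mem] at h
  exact not_neg_one hr h

noncomputable instance robK_div (hr : Tendsto r (U : Filter ℕ) atTop) :
    DivisionRing (RobK U r D hr) :=
  DivisionRing.ofIsUnitOrEqZero (robK_isUnit_or hr)

/-! ## The norm -/

/-- the limit of the rescaled norms -/
def RLim (U : Ultrafilter ℕ) (r : ℕ → ℝ) (a : ℕ → D) (l : ℝ) : Prop :=
  Tendsto (fun i => ‖a i‖ ^ (1 / r i)) (U : Filter ℕ) (𝓝 l)

theorem RLim.nonneg {a : ℕ → D} {l : ℝ} (h : RLim U r a l) : 0 ≤ l :=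
  ge_of_tendsto' h (fun _ => Real.rpow_nonneg (norm_nonneg _) _)

theorem RLim.unique {a : ℕ → D} {l l' : ℝ} (h : RLim U r a l) (h' : RLim U r a l') : l = l' :=
  tendsto_nhds_unique h h'

theorem RLim.exists (hr : Tendsto r (U : Filter ℕ) atTop) {a : ℕ → D} (ha : Mod U r a) :
    ∃ l : ℝ, RLim U r a l := by
  obtain ⟨C, hC⟩ := ha
  have h1 : ∀ᶠ i in (U : Filter ℕ), ‖a i‖ ^ (1 / r i) ∈ Set.Icc (0 : ℝ) (Real.exp C) := by
    filter_upwards [hC, rob_ge hr 1] with i h1 h2
    refine ⟨Real.rpow_nonneg (norm_nonneg _) _, ?_⟩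
    have h3 : ‖a i‖ ^ (1 / r i) ≤ (Real.exp (C * r i)) ^ (1 / r i) :=
      Real.rpow_le_rpow (norm_nonneg _) h1 (by positivity)
    rw [← Real.exp_mul, mul_assoc, mul_one_div_cancel (by linarith), mul_one] at h3
    exact h3
  obtain ⟨l, -, hl⟩ := isCompact_Icc.ultrafilter_le_nhds
    (U.map (fun i => ‖a i‖ ^ (1 / r i))) (by
      rw [Filter.le_principal_iff]
      exact h1)
  exact ⟨l, hl⟩

theorem RLim.zero_of_neg (hr : Tendsto r (U : Filter ℕ) atTop) {a : ℕ → D} (ha : Neg U r a) :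
    RLim U r a 0 := by
  obtain ⟨l, hl⟩ := RLim.exists hr ha.mod
  have h0 := hl.nonneg
  rcases h0.eq_or_lt with h | h
  · rwa [← h] at hl
  · exfalso
    obtain ⟨C, hC⟩ : ∃ C : ℝ, Real.exp (-C) < l := by
      refine ⟨- Real.log l + 1, ?_⟩
      rw [neg_add, neg_neg]
      calc Real.exp (Real.log l + -1) < Real.exp (Real.log l) := Real.exp_lt_exp.mpr (by linarith)
        _ = l := Real.exp_log h
    have h2 : l ≤ Real.exp (-C) := by
      refine le_of_tendsto hl ?_
      filter_upwards [ha C, rob_ge hr 1] with i h1 h2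
      have h3 : ‖a i‖ ^ (1 / r i) ≤ (Real.exp (-(C * r i))) ^ (1 / r i) :=
        Real.rpow_le_rpow (norm_nonneg _) h1 (by positivity)
      rw [← Real.exp_mul, ← neg_mul, mul_assoc, mul_one_div_cancel (by linarith), mul_one] at h3
      exact h3
    linarith

theorem RLim.neg_of_zero (hr : Tendsto r (U : Filter ℕ) atTop) {a : ℕ → D}
    (ha : RLim U r a 0) : Neg U r a := by
  intro C
  have h1 : ∀ᶠ i in (U : Filter ℕ), ‖a i‖ ^ (1 / r i) < Real.exp (-C) :=
    ha.eventually_lt_const (Real.exp_pos _)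
  filter_upwards [h1, rob_ge hr 1] with i h1 h2
  have h3 : (‖a i‖ ^ (1 / r i)) ^ (r i) ≤ (Real.exp (-C)) ^ (r i) :=
    Real.rpow_le_rpow (Real.rpow_nonneg (norm_nonneg _) _) h1.le (by linarith)
  rw [← Real.rpow_mul (norm_nonneg _), one_div_mul_cancel (by linarith), Real.rpow_one,
    ← Real.exp_mul, neg_mul] at h3
  exact h3

theorem RLim.mul {a b : ℕ → D} {l m : ℝ} (ha : RLim U r a l) (hb : RLim U r b m) :
    RLim U r (fun i => a i * b i) (l * m) := by
  have h := Filter.Tendsto.mul ha hb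
  refine h.congr (fun i => ?_)
  rw [norm_mul, Real.mul_rpow (norm_nonneg _) (norm_nonneg _)]

theorem rob_two_rpow (hr : Tendsto r (U : Filter ℕ) atTop) :
    Tendsto (fun i => (2 : ℝ) ^ (1 / r i)) (U : Filter ℕ) (𝓝 1) := by
  have h1 : Tendsto (fun i => 1 / r i) (U : Filter ℕ) (𝓝 0) :=
    hr.inv_tendsto_atTop.congr (fun i => (one_div (r i)).symm)
  have h2 : Tendsto (fun i => (2 : ℝ) ^ (1 / r i)) (U : Filter ℕ) (𝓝 ((2 : ℝ) ^ (0 : ℝ))) :=
    ((Real.continuousAt_const_rpow (by norm_num)).tendsto).comp h1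
  simpa using h2

theorem RLim.add_le (hr : Tendsto r (U : Filter ℕ) atTop) {a b : ℕ → D} {l m k : ℝ}
    (ha : RLim U r a l) (hb : RLim U r b m) (hab : RLim U r (fun i => a i + b i) k) :
    k ≤ max l m := by
  have h1 : Tendsto (fun i => (2 : ℝ) ^ (1 / r i) * max (‖a i‖ ^ (1 / r i)) (‖b i‖ ^ (1 / r i)))
      (U : Filter ℕ) (𝓝 (1 * max l m)) := (rob_two_rpow hr).mul (Filter.Tendsto.max ha hb)
  rw [one_mul] at h1
  refine le_of_tendsto_of_tendsto hab h1 ?_
  filter_upwards [rob_ge hr 1] with i hi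
  have hp : 0 ≤ 1 / r i := by positivity
  have h2 : ‖a i + b i‖ ≤ 2 * max ‖a i‖ ‖b i‖ := by
    have := norm_add_le (a i) (b i)
    have h3 := le_max_left ‖a i‖ ‖b i‖
    have h4 := le_max_right ‖a i‖ ‖b i‖
    linarith
  have h5 : ‖a i + b i‖ ^ (1 / r i) ≤ (2 * max ‖a i‖ ‖b i‖) ^ (1 / r i) :=
    Real.rpow_le_rpow (norm_nonneg _) h2 hp
  refine h5.trans ?_
  rw [Real.mul_rpow (by norm_num) (le_max_of_le_left (norm_nonneg _))]
  refine mul_le_mul_of_nonneg_left ?_ (Real.rpow_nonneg (by norm_num) _)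
  rcases le_total ‖a i‖ ‖b i‖ with h | h
  · rw [max_eq_right h]; exact le_max_right _ _
  · rw [max_eq_left h]; exact le_max_left _ _

theorem RLim.congr_neg (hr : Tendsto r (U : Filter ℕ) atTop) {a b : ℕ → D} {l m : ℝ}
    (ha : RLim U r a l) (hb : RLim U r b m) (hab : Neg U r (fun i => a i - b i)) : l = m := by
  have h0 := RLim.zero_of_neg hr hab
  have h0' := RLim.zero_of_neg hr hab.neg
  apply le_antisymm
  · have h1 : RLim U r (fun i => (a i - b i) + b i) l := by
      simpa using ha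
    have h2 := RLim.add_le hr h0 hb h1
    rwa [max_eq_right hb.nonneg] at h2
  · have h1 : RLim U r (fun i => -(a i - b i) + a i) m := by
      simpa using hb
    have h2 := RLim.add_le hr h0' ha h1
    rwa [max_eq_right ha.nonneg] at h2

/-- the limit norm of a moderate sequence -/
noncomputable def rlim (hr : Tendsto r (U : Filter ℕ) atTop) (a : modAlg U r D hr) : ℝ :=
  (RLim.exists hr a.2).choose

theorem rlim_spec (hr : Tendsto r (U : Filter ℕ) atTop) (a : modAlg U r D hr) :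
    RLim U r a.1 (rlim hr a) := (RLim.exists hr a.2).choose_spec

/-- the norm on the Robinson division ring -/
noncomputable def robV (hr : Tendsto r (U : Filter ℕ) atTop) (x : RobK U r D hr) : ℝ :=
  rlim hr (Ideal.Quotient.mk_surjective x).choose

theorem robV_mk (hr : Tendsto r (U : Filter ℕ) atTop) (a : modAlg U r D hr) :
    RLim U r a.1 (robV hr (Ideal.Quotient.mk (negI U r D hr) a)) := by
  have h1 := (Ideal.Quotient.mk_surjective (Ideal.Quotient.mk (negI U r D hr) a)).choose_spec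
  set b := (Ideal.Quotient.mk_surjective (Ideal.Quotient.mk (negI U r D hr) a)).choose with hb
  have h2 : RLim U r b.1 (robV hr (Ideal.Quotient.mk (negI U r D hr) a)) := rlim_spec hr b
  rw [Ideal.Quotient.eq] at h1
  have h3 : rlim hr a = robV hr (Ideal.Quotient.mk (negI U r D hr) a) := by
    refine RLim.congr_neg hr (rlim_spec hr a) h2 ?_
    have h4 : Neg U r (fun i => b.1 i - a.1 i) := h1
    simpa using h4.neg
  rw [← h3]
  exact rlim_spec hr a

theorem robV_unorm (hr : Tendsto r (U : Filter ℕ) atTop) :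
    UNorm (K := RobK U r D hr) (robV hr) where
  nonneg x := by
    obtain ⟨a, rfl⟩ := Ideal.Quotient.mk_surjective x
    exact (robV_mk hr a).nonneg
  eq_zero x := by
    obtain ⟨a, rfl⟩ := Ideal.Quotient.mk_surjective x
    rw [Ideal.Quotient.eq_zero_iff_mem]
    constructor
    · intro h
      have h1 := robV_mk hr a
      rw [h] at h1
      exact h1.neg_of_zero hr
    · intro h
      exact (robV_mk hr a).unique (RLim.zero_of_neg hr h)
  mul x y := by
    obtain ⟨a, rfl⟩ := Ideal.Quotient.mk_surjective x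
    obtain ⟨b, rfl⟩ := Ideal.Quotient.mk_surjective y
    have h1 := (robV_mk hr a).mul (robV_mk hr b)
    have h2 := robV_mk hr (a * b)
    have h3 := RLim.unique (a := (a * b).1) h2 h1
    exact h3
  add x y := by
    obtain ⟨a, rfl⟩ := Ideal.Quotient.mk_surjective x
    obtain ⟨b, rfl⟩ := Ideal.Quotient.mk_surjective y
    have h2 := robV_mk hr (a + b)
    exact RLim.add_le hr (robV_mk hr a) (robV_mk hr b) h2

open Classical in
/-- the class of a sequence -/
noncomputable def robTo (hr : Tendsto r (U : Filter ℕ) atTop) (a : ℕ → D) : RobK U r D hr :=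
  if h : Mod U r a then Ideal.Quotient.mk (negI U r D hr) ⟨a, h⟩ else 0

theorem robTo_of (hr : Tendsto r (U : Filter ℕ) atTop) {a : ℕ → D} (h : Mod U r a) :
    robTo hr a = Ideal.Quotient.mk (negI U r D hr) ⟨a, h⟩ := by
  unfold robTo
  rw [dif_pos h]

/-- the Robinson data -/
noncomputable def robData (hr : Tendsto r (U : Filter ℕ) atTop) :
    RobData U r D (RobK U r D hr) where
  v := robV hr
  hv := robV_unorm hr
  toK := robTo hr
  surj x := by
    obtain ⟨a, rfl⟩ := Ideal.Quotient.mk_surjective x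
    exact ⟨a.1, a.2, robTo_of hr a.2⟩
  zero_iff a ha := by
    rw [robTo_of hr ha, Ideal.Quotient.eq_zero_iff_mem]
    rfl
  add a b ha hb := by
    rw [robTo_of hr ha, robTo_of hr hb, robTo_of hr (ha.add hr hb), ← map_add]
    rfl
  mul a b ha hb := by
    rw [robTo_of hr ha, robTo_of hr hb, robTo_of hr (ha.mul hb), ← map_mul]
    rfl
  alg c := by
    rw [robTo_of hr (Mod.const hr (algebraMap ℝ D c))]
    rfl
  lim a ha := by
    rw [robTo_of hr ha]
    exact robV_mk hr ⟨a, ha⟩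

end robcon

/-- Existence of the Robinson division ring. -/
theorem exists_rob (U : Ultrafilter ℕ) (r : ℕ → ℝ) (hr : Tendsto r (U : Filter ℕ) atTop)
    (D : Type) [NormedDivisionRing D] [NormedAlgebra ℝ D] :
    ∃ (K : Type) (_ : DivisionRing K) (_ : Algebra ℝ K), Nonempty (RobData U r D K) :=
  ⟨RobK U r D hr, inferInstance, inferInstance, ⟨robData hr⟩⟩

section
variable {U : Ultrafilter ℕ} {r : ℕ → ℝ} {D K : Type} [NormedDivisionRing D] [NormedAlgebra ℝ D]
  [DivisionRing K] [Algebra ℝ K] (R : RobData U r D K)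

include R in
theorem RobData.smul (hr : Tendsto r (U : Filter ℕ) atTop) (c : ℝ) {a : ℕ → D} (ha : Mod U r a) :
    R.toK (fun i => c • a i) = c • R.toK a := by
  rw [Algebra.smul_def, ← R.alg, ← R.mul _ _ (Mod.const hr _) ha]
  simp only [Algebra.smul_def]

include R in
theorem RobData.neg (hr : Tendsto r (U : Filter ℕ) atTop) {a : ℕ → D} (ha : Mod U r a) :
    R.toK (fun i => - a i) = - R.toK a := by
  have h := R.smul hr (-1) ha
  simpa using h

include R in
theorem RobData.sub (hr : Tendsto r (U : Filter ℕ) atTop) {a b : ℕ → D} (ha : Mod U r a)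
    (hb : Mod U r b) : R.toK (fun i => a i - b i) = R.toK a - R.toK b := by
  simp only [sub_eq_add_neg]
  rw [R.add _ _ ha hb.neg, R.neg hr hb]

include R in
theorem RobData.eq_iff (hr : Tendsto r (U : Filter ℕ) atTop) {a b : ℕ → D} (ha : Mod U r a)
    (hb : Mod U r b) : R.toK a = R.toK b ↔ Neg U r (fun i => a i - b i) := by
  rw [← R.zero_iff _ (ha.sub hr hb), R.sub hr ha hb, sub_eq_zero]

theorem Mod.map {a : ℕ → D} (ha : Mod U r a) (F : FormData D) : Mod U r (fun i => F.σ (a i)) := by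
  obtain ⟨C, hC⟩ := ha
  exact ⟨C, hC.mono fun i hi => by rwa [F.norm_σ]⟩

/-- `toK` respects the involution -/
theorem exists_formK (hr : Tendsto r (U : Filter ℕ) atTop) (F : FormData D) :
    ∃ S : FormK R.v, ∀ a, Mod U r a → S.σ (R.toK a) = R.toK (fun i => F.σ (a i)) := by
  classical
  choose g hg1 hg2 using R.surj
  have key : ∀ a, Mod U r a → R.toK (fun i => F.σ (g (R.toK a) i)) = R.toK (fun i => F.σ (a i)) := by
    intro a ha
    rw [R.eq_iff hr ((hg1 _).map F) (ha.map F)]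
    have h1 : R.toK (g (R.toK a)) = R.toK a := hg2 _
    rw [R.eq_iff hr (hg1 _) ha] at h1
    intro C
    filter_upwards [h1 C] with i hi
    rw [← map_sub, F.norm_σ]
    exact hi
  let s : K →ₗ[ℝ] K :=
    { toFun := fun x => R.toK (fun i => F.σ (g x i))
      map_add' := by
        intro x y
        have h1 := key _ ((hg1 x).add hr (hg1 y))
        rw [R.add _ _ (hg1 x) (hg1 y), hg2, hg2] at h1
        rw [h1, ← R.add _ _ ((hg1 x).map F) ((hg1 y).map F)]
        simp only [map_add]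
      map_smul' := by
        intro c x
        have h0 : Mod U r (fun i => c • g x i) := by
          simp only [Algebra.smul_def]
          exact (Mod.const hr _).mul (hg1 x)
        have h1 := key _ h0
        rw [R.smul hr c (hg1 x), hg2] at h1
        rw [h1, RingHom.id_apply, ← R.smul hr c ((hg1 x).map F)]
        simp only [map_smul] }
  have hs : ∀ a, Mod U r a → s (R.toK a) = R.toK (fun i => F.σ (a i)) := key
  refine ⟨⟨s, ?_, ?_, ?_⟩, hs⟩
  · intro x y
    obtain ⟨a, ha, rfl⟩ := R.surj x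
    obtain ⟨b, hb, rfl⟩ := R.surj y
    rw [← R.mul _ _ ha hb, hs _ (ha.mul hb), hs _ ha, hs _ hb, ← R.mul _ _ (hb.map F) (ha.map F)]
    simp only [F.anti]
  · intro x
    obtain ⟨a, ha, rfl⟩ := R.surj x
    rw [hs _ ha, hs _ (ha.map F)]
    simp only [F.invol]
  · intro x
    obtain ⟨a, ha, rfl⟩ := R.surj x
    rw [hs _ ha]
    have h1 := R.lim _ ha
    have h2 := R.lim _ (ha.map F)
    simp only [F.norm_σ] at h2
    exact tendsto_nhds_unique h2 h1

theorem rob_rpow_le {x c r : ℝ} (hx : 0 ≤ x) (hr : 0 < r) :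
    x ^ (1 / r) ≤ Real.exp c ↔ x ≤ Real.exp (c * r) := by
  rw [Real.exp_mul, one_div, Real.rpow_inv_le_iff_of_pos hx (Real.exp_pos _).le hr]

theorem rob_le_rpow {x c r : ℝ} (hx : 0 ≤ x) (hr : 0 < r) :
    Real.exp c ≤ x ^ (1 / r) ↔ Real.exp (c * r) ≤ x := by
  rw [Real.exp_mul, one_div, Real.le_rpow_inv_iff_of_pos (Real.exp_pos _).le hx hr]

theorem v_le_iff (hr : Tendsto r (U : Filter ℕ) atTop) {a : ℕ → D} (ha : Mod U r a) (c : ℝ) :
    R.v (R.toK a) ≤ Real.exp c ↔
      ∀ η : ℝ, 0 < η → ∀ᶠ i in (U : Filter ℕ), ‖a i‖ ≤ Real.exp ((c + η) * r i) := by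
  have hl := R.lim a ha
  constructor
  · intro h η hη
    have h1 : R.v (R.toK a) < Real.exp (c + η) :=
      h.trans_lt (Real.exp_lt_exp.mpr (by linarith))
    filter_upwards [hl.eventually_lt_const h1, rob_ge hr 1] with i h2 h3
    exact (rob_rpow_le (norm_nonneg _) (by linarith)).mp h2.le
  · intro h
    have h1 : ∀ η : ℝ, 0 < η → R.v (R.toK a) ≤ Real.exp (c + η) := by
      intro η hη
      refine le_of_tendsto hl ?_
      filter_upwards [h η hη, rob_ge hr 1] with i h2 h3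
      exact (rob_rpow_le (norm_nonneg _) (by linarith)).mpr h2
    have h2 : Tendsto (fun η : ℝ => Real.exp (c + η)) (𝓝[>] 0) (𝓝 (Real.exp c)) := by
      have h3 : Tendsto (fun η : ℝ => Real.exp (c + η)) (𝓝 0) (𝓝 (Real.exp (c + 0))) :=
        Continuous.tendsto (by fun_prop) 0
      rw [add_zero] at h3
      exact h3.mono_left nhdsWithin_le_nhds
    refine ge_of_tendsto h2 ?_
    filter_upwards [self_mem_nhdsWithin] with η hη
    exact h1 η hη

theorem le_v_iff (hr : Tendsto r (U : Filter ℕ) atTop) {a : ℕ → D} (ha : Mod U r a) (c : ℝ) :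
    Real.exp c ≤ R.v (R.toK a) ↔
      ∀ η : ℝ, 0 < η → ∀ᶠ i in (U : Filter ℕ), Real.exp ((c - η) * r i) ≤ ‖a i‖ := by
  have hl := R.lim a ha
  constructor
  · intro h η hη
    have h1 : Real.exp (c - η) < R.v (R.toK a) :=
      lt_of_lt_of_le (Real.exp_lt_exp.mpr (by linarith)) h
    filter_upwards [hl.eventually_const_lt h1, rob_ge hr 1] with i h2 h3
    exact (rob_le_rpow (norm_nonneg _) (by linarith)).mp h2.le
  · intro h
    have h1 : ∀ η : ℝ, 0 < η → Real.exp (c - η) ≤ R.v (R.toK a) := by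
      intro η hη
      refine ge_of_tendsto hl ?_
      filter_upwards [h η hη, rob_ge hr 1] with i h2 h3
      exact (rob_le_rpow (norm_nonneg _) (by linarith)).mpr h2
    have h2 : Tendsto (fun η : ℝ => Real.exp (c - η)) (𝓝[>] 0) (𝓝 (Real.exp c)) := by
      have h3 : Tendsto (fun η : ℝ => Real.exp (c - η)) (𝓝 0) (𝓝 (Real.exp (c - 0))) :=
        Continuous.tendsto (by fun_prop) 0
      rw [sub_zero] at h3
      exact h3.mono_left nhdsWithin_le_nhds
    refine le_of_tendsto h2 ?_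
    filter_upwards [self_mem_nhdsWithin] with η hη
    exact h1 η hη

/-- central elements of norm `exp s` -/
noncomputable def RobData.tt (s : ℝ) : K := R.toK (fun i => algebraMap ℝ D (Real.exp (s * r i)))

theorem mod_tt (s : ℝ) : Mod U r (fun i => algebraMap ℝ D (Real.exp (s * r i))) := by
  refine ⟨s, ?_⟩
  filter_upwards with i
  rw [norm_algebraMap', Real.norm_eq_abs, abs_of_pos (Real.exp_pos _)]

theorem v_tt (hr : Tendsto r (U : Filter ℕ) atTop) (s : ℝ) : R.v (R.tt s) = Real.exp s := by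
  apply le_antisymm
  · rw [RobData.tt, v_le_iff R hr (mod_tt s)]
    intro η hη
    filter_upwards [rob_ge hr 1] with i hi
    rw [norm_algebraMap', Real.norm_eq_abs, abs_of_pos (Real.exp_pos _)]
    apply Real.exp_le_exp.mpr
    nlinarith
  · rw [RobData.tt, le_v_iff R hr (mod_tt s)]
    intro η hη
    filter_upwards [rob_ge hr 1] with i hi
    rw [norm_algebraMap', Real.norm_eq_abs, abs_of_pos (Real.exp_pos _)]
    apply Real.exp_le_exp.mpr
    nlinarith

theorem tt_add (s t : ℝ) : R.tt (s + t) = R.tt s * R.tt t := by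
  rw [RobData.tt, RobData.tt, RobData.tt, ← R.mul _ _ (mod_tt s) (mod_tt t)]
  congr 1
  funext i
  rw [← map_mul, add_mul, Real.exp_add]

theorem tt_zero : R.tt 0 = 1 := by
  have h1 : R.tt 0 = R.toK (fun _ => algebraMap ℝ D 1) := by
    rw [RobData.tt]
    simp
  rw [h1, R.alg, map_one]

theorem tt_comm (s : ℝ) (x : K) : R.tt s * x = x * R.tt s := by
  obtain ⟨a, ha, rfl⟩ := R.surj x
  rw [RobData.tt, ← R.mul _ _ (mod_tt s) ha, ← R.mul _ _ ha (mod_tt s)]
  congr 1
  funext i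
  exact Algebra.commutes _ _

theorem v_alg (hr : Tendsto r (U : Filter ℕ) atTop) (c : ℝ) (hc : c ≠ 0) :
    R.v (algebraMap ℝ K c) = 1 := by
  have hc' : 0 < ‖algebraMap ℝ D c‖ := by
    rw [norm_algebraMap']
    exact norm_pos_iff.mpr hc
  rw [← R.alg, ← Real.exp_zero]
  apply le_antisymm
  · rw [v_le_iff R hr (Mod.const hr _)]
    intro η hη
    have h1 : Tendsto (fun i => η * r i) (U : Filter ℕ) atTop :=
      hr.const_mul_atTop hη
    filter_upwards [h1.eventually_ge_atTop ‖algebraMap ℝ D c‖] with i hi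
    have := Real.add_one_le_exp ((0 + η) * r i)
    rw [zero_add] at this ⊢
    linarith
  · rw [le_v_iff R hr (Mod.const hr _)]
    intro η hη
    have h1 : Tendsto (fun i => η * r i) (U : Filter ℕ) atTop :=
      hr.const_mul_atTop hη
    filter_upwards [h1.eventually_ge_atTop (-Real.log ‖algebraMap ℝ D c‖)] with i hi
    rw [← Real.exp_log hc']
    apply Real.exp_le_exp.mpr
    linarith

/-- pointwise selection: one function `H i x` which works for all sequences `x` at once -/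
theorem seq_select {X α : Type} [Nonempty α] (U : Ultrafilter ℕ) (hU : (U : Filter ℕ) ≤ atTop)
    (P : ℕ → ℕ → X → α → Prop) (hP : ∀ m i x h, P (m + 1) i x h → P m i x h) :
    ∃ H : ℕ → X → α, ∀ x : ℕ → X,
      (∀ m, ∃ h : ℕ → α, ∀ᶠ i in (U : Filter ℕ), P m i (x i) (h i)) →
      ∀ m, ∀ᶠ i in (U : Filter ℕ), P m i (x i) (H i (x i)) := by
  classical
  have hmono : ∀ m n i x h, m ≤ n → P n i x h → P m i x h := by
    intro m n i x h hmn
    induction n, hmn using Nat.le_induction with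
    | base => exact id
    | succ n _ ih => exact fun hh => ih (hP _ _ _ _ hh)
  have hex : ∀ i x, ∃ h : α, ∀ m ≤ i, (∃ h', P m i x h') → P m i x h := by
    intro i x
    by_cases h0 : ∃ m, m ≤ i ∧ ∃ h', P m i x h'
    · obtain ⟨m0, hm0, hm1⟩ := h0
      set M := Nat.findGreatest (fun m => ∃ h', P m i x h') i with hM
      have h1 : ∃ h', P M i x h' :=
        Nat.findGreatest_spec (P := fun m => ∃ h', P m i x h') hm0 hm1
      obtain ⟨h, hh⟩ := h1
      refine ⟨h, fun m hm hm2 => ?_⟩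
      exact hmono _ _ _ _ _ (Nat.le_findGreatest hm hm2) hh
    · refine ⟨Classical.arbitrary α, fun m hm hm2 => ?_⟩
      exact absurd ⟨m, hm, hm2⟩ h0
  choose H hH using hex
  refine ⟨H, fun x hx m => ?_⟩
  obtain ⟨h, hh⟩ := hx m
  have h2 : ∀ᶠ i in (U : Filter ℕ), m ≤ i := hU (eventually_ge_atTop m)
  filter_upwards [hh, h2] with i h3 h4
  exact hH i (x i) m h4 ⟨h i, h3⟩

/-- general countable saturation at the level of sequences -/
theorem seq_sat {α : Type} [Nonempty α] (U : Ultrafilter ℕ) (hU : (U : Filter ℕ) ≤ atTop)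
    (P : ℕ → ℕ → α → Prop) (hP : ∀ m i h, P (m + 1) i h → P m i h)
    (h : ∀ m, ∃ h : ℕ → α, ∀ᶠ i in (U : Filter ℕ), P m i (h i)) :
    ∃ h : ℕ → α, ∀ m, ∀ᶠ i in (U : Filter ℕ), P m i (h i) := by
  obtain ⟨H, hH⟩ := seq_select (X := Unit) U hU (fun m i _ h => P m i h)
    (fun m i _ h => hP m i h)
  exact ⟨fun i => H i (), hH (fun _ => ()) h⟩

theorem toK_zero : R.toK (fun _ => 0) = 0 := (R.zero_iff _ (Neg.zero.mod)).mpr Neg.zero

theorem Mod.sum (hr : Tendsto r (U : Filter ℕ) atTop) {ι : Type} (s : Finset ι)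
    (f : ι → ℕ → D) (hf : ∀ p, Mod U r (f p)) : Mod U r (fun i => ∑ p ∈ s, f p i) := by
  classical
  induction s using Finset.induction_on with
  | empty => simpa using (Neg.zero (U := U) (r := r) (D := D)).mod
  | insert a s ha ih =>
    simp only [Finset.sum_insert ha]
    exact (hf a).add hr ih

theorem toK_sum (hr : Tendsto r (U : Filter ℕ) atTop) {ι : Type} (s : Finset ι)
    (f : ι → ℕ → D) (hf : ∀ p, Mod U r (f p)) :
    R.toK (fun i => ∑ p ∈ s, f p i) = ∑ p ∈ s, R.toK (f p) := by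
  classical
  induction s using Finset.induction_on with
  | empty => simpa using toK_zero R
  | insert a s ha ih =>
    simp only [Finset.sum_insert ha]
    rw [R.add _ _ (hf a) (Mod.sum hr s f hf), ih]

theorem toK_mulVec (hr : Tendsto r (U : Filter ℕ) atTop) {I : Type} [Fintype I]
    (φ : I → I → ℕ → D) (hφ : ∀ p q, Mod U r (φ p q)) (b : I → ℕ → D) (hb : ∀ p, Mod U r (b p))
    (p : I) : R.toK (fun i => ∑ q, φ p q i * b q i) =
      (Matrix.mulVec (fun p q => R.toK (φ p q)) (fun q => R.toK (b q))) p := by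
  rw [toK_sum R hr Finset.univ (fun q i => φ p q i * b q i) (fun q => (hφ p q).mul (hb q))]
  simp only [Matrix.mulVec, dotProduct]
  exact Finset.sum_congr rfl (fun q _ => R.mul _ _ (hφ p q) (hb q))

theorem vs_le_iff (v : K → ℝ) {I : Type} [Fintype I] [Nonempty I] (u : I → K) (b : ℝ) :
    vs v u ≤ b ↔ ∀ p, v (u p) ≤ b := by
  constructor
  · intro h p
    exact (le_ciSup (f := fun p => v (u p)) (Set.finite_range _).bddAbove p).trans h
  · intro h
    exact ciSup_le h

theorem le_vs_iff (v : K → ℝ) {I : Type} [Fintype I] [Nonempty I] (u : I → K) (b : ℝ) :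
    b ≤ vs v u ↔ ∃ p, b ≤ v (u p) := by
  constructor
  · intro h
    obtain ⟨p, hp⟩ := exists_eq_ciSup_of_finite (f := fun p => v (u p))
    exact ⟨p, by rw [hp]; exact h⟩
  · rintro ⟨p, hp⟩
    exact hp.trans (le_ciSup (f := fun p => v (u p)) (Set.finite_range _).bddAbove p)

theorem vs_toK_le_iff (hr : Tendsto r (U : Filter ℕ) atTop) {I : Type} [Fintype I] [Nonempty I]
    (b : I → ℕ → D) (hb : ∀ p, Mod U r (b p)) (c : ℝ) :
    vs R.v (fun p => R.toK (b p)) ≤ Real.exp c ↔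
      ∀ η : ℝ, 0 < η → ∀ᶠ i in (U : Filter ℕ), ∀ p, ‖b p i‖ ≤ Real.exp ((c + η) * r i) := by
  rw [vs_le_iff]
  constructor
  · intro h η hη
    rw [Filter.eventually_all]
    intro p
    exact (v_le_iff R hr (hb p) c).mp (h p) η hη
  · intro h p
    rw [v_le_iff R hr (hb p) c]
    intro η hη
    exact (h η hη).mono (fun i hi => hi p)

theorem le_vs_toK_iff (hr : Tendsto r (U : Filter ℕ) atTop) {I : Type} [Fintype I] [Nonempty I]
    (b : I → ℕ → D) (hb : ∀ p, Mod U r (b p)) (c : ℝ) :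
    Real.exp c ≤ vs R.v (fun p => R.toK (b p)) ↔
      ∀ η : ℝ, 0 < η → ∀ᶠ i in (U : Filter ℕ), ∃ p, Real.exp ((c - η) * r i) ≤ ‖b p i‖ := by
  constructor
  · intro h η hη
    obtain ⟨p, hp⟩ := (le_vs_iff R.v _ _).mp h
    exact ((le_v_iff R hr (hb p) c).mp hp η hη).mono (fun i hi => ⟨p, hi⟩)
  · intro h
    by_contra hcon
    push Not at hcon
    obtain ⟨c', hc1, hc2⟩ : ∃ c' < c, vs R.v (fun p => R.toK (b p)) ≤ Real.exp c' := by
      by_cases h0 : vs R.v (fun p => R.toK (b p)) ≤ 0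
      · exact ⟨c - 1, by linarith, h0.trans (Real.exp_pos _).le⟩
      · push Not at h0
        refine ⟨Real.log (vs R.v (fun p => R.toK (b p))), ?_, ?_⟩
        · rw [← Real.log_exp c]
          exact Real.log_lt_log h0 hcon
        · rw [Real.exp_log h0]
    have h1 := (vs_toK_le_iff R hr b hb c').mp hc2 ((c - c') / 3) (by linarith)
    have h2 := h ((c - c') / 3) (by linarith)
    obtain ⟨i, hi1, ⟨p, hp⟩, hi3⟩ := (h1.and (h2.and (rob_ge hr 1))).exists
    have h3 := hp.trans (hi1 p)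
    rw [Real.exp_le_exp] at h3
    nlinarith

/-- two-sided bounds -/
def Apx {I : Type} (x : I → D) (c ε ρ : ℝ) : Prop :=
  (∀ p, ‖x p‖ ≤ Real.exp ((c + ε) * ρ)) ∧ ∃ p, Real.exp ((c - ε) * ρ) ≤ ‖x p‖

theorem Apx.mono {I : Type} {x : I → D} {c ε ε' ρ : ℝ} (h : Apx x c ε ρ) (hε : ε ≤ ε')
    (hρ : 0 ≤ ρ) : Apx x c ε' ρ := by
  refine ⟨fun p => (h.1 p).trans (Real.exp_le_exp.mpr ?_), ?_⟩
  · exact mul_le_mul_of_nonneg_right (by linarith) hρ
  · obtain ⟨p, hp⟩ := h.2
    refine ⟨p, le_trans (Real.exp_le_exp.mpr ?_) hp⟩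
    exact mul_le_mul_of_nonneg_right (by linarith) hρ

theorem apx_of_vs (hr : Tendsto r (U : Filter ℕ) atTop) {I : Type} [Fintype I] [Nonempty I]
    (b : I → ℕ → D) (hb : ∀ p, Mod U r (b p)) (c δ δ' : ℝ) (hδ : δ < δ')
    (h1 : Real.exp (c - δ) ≤ vs R.v (fun p => R.toK (b p)))
    (h2 : vs R.v (fun p => R.toK (b p)) ≤ Real.exp (c + δ)) :
    ∀ᶠ i in (U : Filter ℕ), Apx (fun p => b p i) c δ' (r i) := by
  have k1 := (le_vs_toK_iff R hr b hb _).mp h1 (δ' - δ) (by linarith)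
  have k2 := (vs_toK_le_iff R hr b hb _).mp h2 (δ' - δ) (by linarith)
  filter_upwards [k1, k2] with i h1 h2
  refine ⟨fun p => ?_, ?_⟩
  · have := h2 p
    rwa [show c + δ + (δ' - δ) = c + δ' by ring] at this
  · obtain ⟨p, hp⟩ := h1
    refine ⟨p, ?_⟩
    rwa [show c - δ - (δ' - δ) = c - δ' by ring] at hp

theorem vs_of_apx (hr : Tendsto r (U : Filter ℕ) atTop) {I : Type} [Fintype I] [Nonempty I]
    (b : I → ℕ → D) (hb : ∀ p, Mod U r (b p)) (c : ℝ)
    (h : ∀ η : ℝ, 0 < η → ∀ᶠ i in (U : Filter ℕ), Apx (fun p => b p i) c η (r i)) :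
    vs R.v (fun p => R.toK (b p)) = Real.exp c := by
  apply le_antisymm
  · rw [vs_toK_le_iff R hr b hb]
    exact fun η hη => (h η hη).mono (fun i hi => hi.1)
  · rw [le_vs_toK_iff R hr b hb]
    exact fun η hη => (h η hη).mono (fun i hi => hi.2)

theorem vs_unit (v : K → ℝ) (x : K) : vs v (fun _ : Unit => x) = v x := by
  unfold vs
  exact ciSup_const

/-- countable saturation of `K` for a pair of vectors with prescribed norms -/
theorem rob_sat (hU : (U : Filter ℕ) ≤ atTop) (hr : Tendsto r (U : Filter ℕ) atTop)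
    {I : Type} [Fintype I] [Nonempty I] [DecidableEq I] (F : FormData D) (S : FormK R.v)
    (hS : ∀ a, Mod U r a → S.σ (R.toK a) = R.toK (fun i => F.σ (a i)))
    (Φ : ℕ → Matrix I I K) (hΦ : Φ 0 = 1) (J : Matrix I I K) (c : ℕ → ℝ)
    (h : ∀ m : ℕ, ∃ u u' : I → K, (∀ l ≤ m,
        Real.exp (-c l - 1 / ((m : ℝ) + 1)) ≤ vs R.v (Φ l *ᵥ u) ∧
        vs R.v (Φ l *ᵥ u) ≤ Real.exp (-c l + 1 / ((m : ℝ) + 1)) ∧
        Real.exp (c l - 1 / ((m : ℝ) + 1)) ≤ vs R.v (Φ l *ᵥ u') ∧
        vs R.v (Φ l *ᵥ u') ≤ Real.exp (c l + 1 / ((m : ℝ) + 1))) ∧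
      R.v (∑ p, S.σ (u' p) * (J *ᵥ u) p) = 1) :
    ∃ u u' : I → K, (∀ l, vs R.v (Φ l *ᵥ u) = Real.exp (-c l) ∧
        vs R.v (Φ l *ᵥ u') = Real.exp (c l)) ∧
      R.v (∑ p, S.σ (u' p) * (J *ᵥ u) p) = 1 := by
  classical
  choose g hg1 hg2 using R.surj
  -- the approximate conditions at the level `m`
  set P : ℕ → ℕ → (I → D) × (I → D) → Prop := fun m i x => 0 < r i →
    (∀ l ≤ m, Apx (fun p => ∑ q, g (Φ l p q) i * x.1 q) (-c l) (2 / ((m : ℝ) + 1)) (r i) ∧
      Apx (fun p => ∑ q, g (Φ l p q) i * x.2 q) (c l) (2 / ((m : ℝ) + 1)) (r i)) ∧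
    Apx (fun _ : Unit => ∑ p, F.σ (x.2 p) * ∑ q, g (J p q) i * x.1 q) 0
      (2 / ((m : ℝ) + 1)) (r i) ∧
    (∀ p, ‖x.1 p‖ ≤ Real.exp ((-c 0 + 2) * r i)) ∧ (∀ p, ‖x.2 p‖ ≤ Real.exp ((c 0 + 2) * r i))
    with hPdef
  have hinv : ∀ m : ℕ, 2 / (((m + 1 : ℕ) : ℝ) + 1) ≤ 2 / ((m : ℝ) + 1) := by
    intro m
    apply div_le_div_of_nonneg_left (by norm_num) (by positivity)
    push_cast
    linarith
  have hP : ∀ m i x, P (m + 1) i x → P m i x := by
    intro m i x hx hri
    obtain ⟨h1, h2, h3, h4⟩ := hx hri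
    refine ⟨fun l hl => ?_, h2.mono (hinv m) hri.le, h3, h4⟩
    obtain ⟨k1, k2⟩ := h1 l (by omega)
    exact ⟨k1.mono (hinv m) hri.le, k2.mono (hinv m) hri.le⟩
  have hrep : ∀ (M : Matrix I I K) (b : I → ℕ → D) (_ : ∀ p, Mod U r (b p)),
      (fun p => R.toK (fun i => ∑ q, g (M p q) i * b q i)) =
        M *ᵥ (fun q => R.toK (b q)) := by
    intro M b hb
    funext p
    rw [toK_mulVec R hr (fun p q => g (M p q)) (fun p q => hg1 _) b hb p]
    simp only [hg2]
  have hmodrep : ∀ (M : Matrix I I K) (b : I → ℕ → D) (_ : ∀ p, Mod U r (b p)) (p : I),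
      Mod U r (fun i => ∑ q, g (M p q) i * b q i) := by
    intro M b hb p
    exact Mod.sum hr Finset.univ (fun q i => g (M p q) i * b q i)
      (fun q => (hg1 _).mul (hb q))
  have hform : ∀ (b b' : I → ℕ → D) (_ : ∀ p, Mod U r (b p)) (_ : ∀ p, Mod U r (b' p)),
      R.toK (fun i => ∑ p, F.σ (b' p i) * ∑ q, g (J p q) i * b q i) =
        ∑ p, S.σ (R.toK (b' p)) * (J *ᵥ (fun q => R.toK (b q))) p := by
    intro b b' hb hb'
    rw [toK_sum R hr Finset.univ (fun p i => F.σ (b' p i) * ∑ q, g (J p q) i * b q i)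
      (fun p => ((hb' p).map F).mul (hmodrep J b hb p))]
    refine Finset.sum_congr rfl (fun p _ => ?_)
    rw [R.mul _ _ ((hb' p).map F) (hmodrep J b hb p), ← hS _ (hb' p), ← hrep J b hb]
  have hmodform : ∀ (b b' : I → ℕ → D) (_ : ∀ p, Mod U r (b p)) (_ : ∀ p, Mod U r (b' p)),
      Mod U r (fun i => ∑ p, F.σ (b' p i) * ∑ q, g (J p q) i * b q i) := by
    intro b b' hb hb'
    exact Mod.sum hr Finset.univ (fun p i => F.σ (b' p i) * ∑ q, g (J p q) i * b q i)
      (fun p => ((hb' p).map F).mul (hmodrep J b hb p))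
  -- level-wise solutions
  have hlev : ∀ m, ∃ x : ℕ → (I → D) × (I → D), ∀ᶠ i in (U : Filter ℕ), P m i (x i) := by
    intro m
    obtain ⟨u, u', hu, huu⟩ := h m
    have hm1 : 1 / ((m : ℝ) + 1) < 2 / ((m : ℝ) + 1) := by
      apply div_lt_div_of_pos_right (by norm_num) (by positivity)
    have hm2 : 1 / ((m : ℝ) + 1) ≤ 1 := by
      rw [div_le_one (by positivity)]
      have : (0 : ℝ) ≤ (m : ℝ) := Nat.cast_nonneg m
      linarith
    refine ⟨fun i => (fun p => g (u p) i, fun p => g (u' p) i), ?_⟩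
    have hub : ∀ p, Mod U r (g (u p)) := fun p => hg1 _
    have hub' : ∀ p, Mod U r (g (u' p)) := fun p => hg1 _
    have hueq : (fun q => R.toK (g (u q))) = u := funext fun q => hg2 _
    have hueq' : (fun q => R.toK (g (u' q))) = u' := funext fun q => hg2 _
    have a1 : ∀ᶠ i in (U : Filter ℕ), ∀ l ≤ m,
        Apx (fun p => ∑ q, g (Φ l p q) i * g (u q) i) (-c l) (2 / ((m : ℝ) + 1)) (r i) ∧
        Apx (fun p => ∑ q, g (Φ l p q) i * g (u' q) i) (c l) (2 / ((m : ℝ) + 1)) (r i) := by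
      have a2 : ∀ l : Fin (m + 1), ∀ᶠ i in (U : Filter ℕ),
          Apx (fun p => ∑ q, g (Φ l p q) i * g (u q) i) (-c l) (2 / ((m : ℝ) + 1)) (r i) ∧
          Apx (fun p => ∑ q, g (Φ l p q) i * g (u' q) i) (c l) (2 / ((m : ℝ) + 1)) (r i) := by
        intro l
        obtain ⟨k1, k2, k3, k4⟩ := hu l (by omega)
        refine (apx_of_vs R hr (fun p i => ∑ q, g (Φ l p q) i * g (u q) i)
          (hmodrep (Φ l) _ hub) (-c l) _ _ hm1 ?_ ?_).and
          (apx_of_vs R hr (fun p i => ∑ q, g (Φ l p q) i * g (u' q) i)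
          (hmodrep (Φ l) _ hub') (c l) _ _ hm1 ?_ ?_)
        · rw [hrep (Φ l) _ hub, hueq]; exact k1
        · rw [hrep (Φ l) _ hub, hueq]; exact k2
        · rw [hrep (Φ l) _ hub', hueq']; exact k3
        · rw [hrep (Φ l) _ hub', hueq']; exact k4
      have a3 := (Filter.eventually_all (ι := Fin (m + 1))).mpr a2
      filter_upwards [a3] with i hi l hl
      exact hi ⟨l, by omega⟩
    have a4 : ∀ᶠ i in (U : Filter ℕ),
        Apx (fun _ : Unit => ∑ p, F.σ (g (u' p) i) * ∑ q, g (J p q) i * g (u q) i) 0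
          (2 / ((m : ℝ) + 1)) (r i) := by
      refine apx_of_vs R hr (fun (_ : Unit) i => ∑ p, F.σ (g (u' p) i) *
        ∑ q, g (J p q) i * g (u q) i) (fun _ => hmodform _ _ hub hub') 0 0 _ (by positivity)
        ?_ ?_
      · rw [hform _ _ hub hub', vs_unit]
        simp only [hg2]
        rw [huu]
        simp
      · rw [hform _ _ hub hub', vs_unit]
        simp only [hg2]
        rw [huu]
        simp
    have a5 : ∀ᶠ i in (U : Filter ℕ), ∀ p, ‖g (u p) i‖ ≤ Real.exp ((-c 0 + 2) * r i) := by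
      have b1 : vs R.v (fun p => R.toK (g (u p))) ≤ Real.exp (-c 0 + 1) := by
        rw [hueq]
        obtain ⟨_, k2, _, _⟩ := hu 0 (Nat.zero_le _)
        rw [hΦ, Matrix.one_mulVec] at k2
        exact k2.trans (Real.exp_le_exp.mpr (by linarith))
      have b2 := (vs_toK_le_iff R hr _ hub _).mp b1 1 one_pos
      filter_upwards [b2] with i hi p
      have := hi p
      rwa [show -c 0 + 1 + 1 = -c 0 + 2 by ring] at this
    have a6 : ∀ᶠ i in (U : Filter ℕ), ∀ p, ‖g (u' p) i‖ ≤ Real.exp ((c 0 + 2) * r i) := by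
      have b1 : vs R.v (fun p => R.toK (g (u' p))) ≤ Real.exp (c 0 + 1) := by
        rw [hueq']
        obtain ⟨_, _, _, k4⟩ := hu 0 (Nat.zero_le _)
        rw [hΦ, Matrix.one_mulVec] at k4
        exact k4.trans (Real.exp_le_exp.mpr (by linarith))
      have b2 := (vs_toK_le_iff R hr _ hub' _).mp b1 1 one_pos
      filter_upwards [b2] with i hi p
      have := hi p
      rwa [show c 0 + 1 + 1 = c 0 + 2 by ring] at this
    filter_upwards [a1, a4, a5, a6] with i k1 k2 k3 k4 _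
    exact ⟨k1, k2, k3, k4⟩
  obtain ⟨x, hx⟩ := seq_sat U hU P hP hlev
  -- the limit vectors
  have hpos : ∀ᶠ i in (U : Filter ℕ), 0 < r i :=
    (rob_ge hr 1).mono (fun i hi => by linarith)
  have hub : ∀ p, Mod U r (fun i => (x i).1 p) := by
    intro p
    refine ⟨-c 0 + 2, ?_⟩
    filter_upwards [hx 0, hpos] with i h1 h2
    exact (h1 h2).2.2.1 p
  have hub' : ∀ p, Mod U r (fun i => (x i).2 p) := by
    intro p
    refine ⟨c 0 + 2, ?_⟩
    filter_upwards [hx 0, hpos] with i h1 h2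
    exact (h1 h2).2.2.2 p
  have hη : ∀ (l : ℕ) (η : ℝ), 0 < η → ∃ m : ℕ, l ≤ m ∧ 2 / ((m : ℝ) + 1) ≤ η := by
    intro l η hη
    obtain ⟨m, hm⟩ := exists_nat_gt (2 / η)
    refine ⟨max l m, le_max_left _ _, ?_⟩
    rw [div_le_iff₀ (by positivity)]
    rw [div_lt_iff₀ hη] at hm
    have h1 : (m : ℝ) ≤ ((max l m : ℕ) : ℝ) := by exact_mod_cast le_max_right l m
    nlinarith
  refine ⟨fun p => R.toK (fun i => (x i).1 p), fun p => R.toK (fun i => (x i).2 p),
    fun l => ⟨?_, ?_⟩, ?_⟩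
  · rw [← hrep (Φ l) (fun p i => (x i).1 p) hub]
    refine vs_of_apx R hr (fun p i => ∑ q, g (Φ l p q) i * (x i).1 q) (hmodrep (Φ l) _ hub) _ ?_
    intro η h0
    obtain ⟨m, hm1, hm2⟩ := hη l η h0
    filter_upwards [hx m, hpos] with i h1 h2
    exact ((h1 h2).1 l hm1).1.mono hm2 h2.le
  · rw [← hrep (Φ l) (fun p i => (x i).2 p) hub']
    refine vs_of_apx R hr (fun p i => ∑ q, g (Φ l p q) i * (x i).2 q) (hmodrep (Φ l) _ hub') _ ?_
    intro η h0
    obtain ⟨m, hm1, hm2⟩ := hη l η h0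
    filter_upwards [hx m, hpos] with i h1 h2
    exact ((h1 h2).1 l hm1).2.mono hm2 h2.le
  · rw [← hform _ _ hub hub', ← vs_unit R.v, ← Real.exp_zero]
    refine vs_of_apx R hr (fun (_ : Unit) i => ∑ p, F.σ ((x i).2 p) *
        ∑ q, g (J p q) i * (x i).1 q) (fun _ => hmodform _ _ hub hub') 0 ?_
    intro η h0
    obtain ⟨m, -, hm2⟩ := hη 0 η h0
    filter_upwards [hx m, hpos] with i h1 h2
    exact (h1 h2).2.1.mono hm2 h2.le

end

end Pool.Agent.ANQ
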