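import Pool.Agent.ANQ.VDef
import Pool.Agent.ANQ.Blr
import Pool.Agent.ANQ.BasePt
import Pool.Agent.ANQ.Rob

/-!
# The finite level: choice of the base points, transfer, and the dimension bound
-/

namespace Pool.Agent.ANQ

open Matrix Filter Topology

set_option linter.unusedSectionVars false

/-! ## Transfer along an ultrafilter -/

/-- What holds for all sequences holds uniformly. -/
theorem unif {α : Type} [Nonempty α] (U : Ultrafilter ℕ) (Q R : ℕ → α → Prop)
    (h : ∀ u : ℕ → α, (∀ᶠ i in (U : Filter ℕ), Q i (u i)) →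
      ∀ᶠ i in (U : Filter ℕ), R i (u i)) :
    ∀ᶠ i in (U : Filter ℕ), ∀ a, Q i a → R i a := by
  by_contra hcon
  rw [← Ultrafilter.eventually_not] at hcon
  have h1 : ∀ i, ∃ a, (¬ ∀ a, Q i a → R i a) → Q i a ∧ ¬ R i a := by
    intro i
    by_cases h2 : ∀ a, Q i a → R i a
    · exact ⟨Classical.arbitrary α, fun h3 => absurd h2 h3⟩
    · push Not at h2
      obtain ⟨a, ha⟩ := h2
      exact ⟨a, fun _ => ha⟩
  choose u hu using h1
  have h2 : ∀ᶠ i in (U : Filter ℕ), Q i (u i) := hcon.mono fun i hi => (hu i hi).1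
  obtain ⟨i, hi1, hi2⟩ := (hcon.and (h u h2)).exists
  exact (hu i hi1).2 hi2

/-! ## Typical elements for a right-invariant mean -/

open scoped Classical in
/-- For finitely many finite families there is an element all of whose translates of the families
meet the bad set in a small proportion. -/
theorem exists_typical {G : Type} [Group G] (M : RMean G) (Bad : Set G) {ε : ℝ} (hε : 0 < ε)
    (hM : M.m (fun x => Set.indicator Bad (fun _ => (1 : ℝ)) x) ≤ ε) {κ ι : Type} [Fintype κ]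
    (s : κ → Finset ι) (c : κ → ι → G) :
    ∃ g : G, ∀ k, (((s k).filter fun i => g * c k i ∈ Bad).card : ℝ) ≤
      2 * (Fintype.card κ + 1) * ε * (s k).card := by
  obtain ⟨g, hg⟩ := M.exists_base Bad hε hM (fun _ => ι) s c
  refine ⟨g, fun k => ?_⟩
  have h1 : ((s k).filter fun i => g * c k i ∈ Bad).card =
      Set.ncard {i | i ∈ s k ∧ g * c k i ∈ Bad} := by
    rw [← Set.ncard_coe_finset]
    congr 1
    ext x
    simp
  rw [h1]
  refine (hg k).trans ?_
  have h2 : 0 ≤ ((Fintype.card κ : ℝ) + 1) * ε * (s k).card := by positivity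
  linarith

theorem card_box_le {m N : ℕ} (hN : 1 ≤ N) :
    ((box m (4 * N)).card : ℝ) ≤ 9 ^ m * (N : ℝ) ^ m := by
  rw [card_box]
  push_cast
  rw [← mul_pow]
  refine pow_le_pow_left₀ (by positivity) ?_ _
  have : (1 : ℝ) ≤ N := by exact_mod_cast hN
  linarith

open scoped Classical in
/-- The choice of the base points: for families of words `c`, `c'`, `c''` indexed by pairs of points
of the boxes, by points of the boxes, and by nothing. -/
theorem choose_base {G : Type} [Group G] (M : RMean G) (Good : ℕ → Set G)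
    (hG : ∀ i, M.m (fun x => Set.indicator (Good i)ᶜ (fun _ => (1 : ℝ)) x) ≤ 1 / ((i : ℝ) + 1))
    {m : ℕ} (N : ℕ → ℕ) (hN : ∀ᶠ i in atTop, 1 ≤ N i) {κ κ' κ'' : Type} [Fintype κ] [Fintype κ']
    [Fintype κ''] (c : ℕ → κ → (Fin m → ℤ) → (Fin m → ℤ) → G) (c' : ℕ → κ' → (Fin m → ℤ) → G)
    (c'' : ℕ → κ'' → G) :
    ∃ g : ℕ → G, (∀ᶠ i in atTop, ∀ k, g i * c'' i k ∈ Good i) ∧
      (∀ δ : ℝ, 0 < δ → ∀ᶠ i in atTop,
        (Set.ncard ({x : (Fin m → ℤ) × (Fin m → ℤ) | ∃ k, g i * c i k x.1 x.2 ∉ Good i} ∩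
          (box m (4 * N i) ×ˢ box m (4 * N i) : Set _)) : ℝ) ≤ δ * ((N i : ℝ) ^ m) ^ 2) ∧
      (∀ δ : ℝ, 0 < δ → ∀ᶠ i in atTop,
        (Set.ncard ({x : Fin m → ℤ | ∃ k, g i * c' i k x ∉ Good i} ∩
          (box m (4 * N i) : Set _)) : ℝ) ≤ δ * (N i : ℝ) ^ m) := by
  let s : ℕ → κ ⊕ (κ' ⊕ κ'') → Finset ((Fin m → ℤ) × (Fin m → ℤ)) := fun i k =>
    match k with
    | .inl _ => (box m (4 * N i)) ×ˢ (box m (4 * N i))
    | .inr (.inl _) => (box m (4 * N i)) ×ˢ {0}
    | .inr (.inr _) => {(0, 0)}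
  let w : ℕ → κ ⊕ (κ' ⊕ κ'') → (Fin m → ℤ) × (Fin m → ℤ) → G := fun i k x =>
    match k with
    | .inl k => c i k x.1 x.2
    | .inr (.inl k) => c' i k x.1
    | .inr (.inr k) => c'' i k
  have hε : ∀ i : ℕ, (0 : ℝ) < 1 / ((i : ℝ) + 1) := fun i => by positivity
  obtain ⟨Bad, hBad⟩ : ∃ Bad : ℕ → Set G, ∀ i, Bad i = (Good i)ᶜ := ⟨_, fun _ => rfl⟩
  have hmB : ∀ i x, x ∈ Bad i ↔ x ∉ Good i := by
    intro i x
    rw [hBad]
    exact Iff.rfl
  choose g hg using fun i => exists_typical M (Bad i) (hε i) (by rw [hBad]; exact hG i) (s i) (w i)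
  set A : ℝ := 2 * (Fintype.card (κ ⊕ (κ' ⊕ κ'')) + 1) with hA
  have hA0 : 0 ≤ A := by positivity
  have hlim : ∀ δ : ℝ, 0 < δ → ∀ᶠ i : ℕ in atTop, A * (1 / ((i : ℝ) + 1)) < δ := by
    intro δ hδ
    have h1 : Tendsto (fun i : ℕ => A * (1 / ((i : ℝ) + 1))) atTop (𝓝 (A * 0)) :=
      tendsto_one_div_add_atTop_nhds_zero_nat.const_mul A
    rw [mul_zero] at h1
    exact h1.eventually_lt_const hδ
  refine ⟨g, ?_, ?_, ?_⟩
  · filter_upwards [hlim 1 one_pos] with i hi k
    have h1 := hg i (.inr (.inr k))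
    by_contra hcon
    have h2 : ((s i (.inr (.inr k))).filter fun x =>
        g i * w i (.inr (.inr k)) x ∈ Bad i) = {(0, 0)} := by
      refine Finset.filter_true_of_mem fun x _ => ?_
      exact (hmB i _).2 hcon
    rw [h2] at h1
    have h3 : (s i (.inr (.inr k))).card = 1 := Finset.card_singleton _
    rw [h3] at h1
    push_cast at h1
    linarith
  · intro δ hδ
    have hδ' : 0 < δ / ((Fintype.card κ + 1) * (9 ^ m * 9 ^ m)) := by positivity
    filter_upwards [hlim _ hδ', hN] with i hi hNi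
    have h1 : ((({x : (Fin m → ℤ) × (Fin m → ℤ) | ∃ k, g i * c i k x.1 x.2 ∉ Good i} ∩
          (box m (4 * N i) ×ˢ box m (4 * N i) : Set _)).ncard : ℕ) : ℝ) ≤
        ∑ k : κ, (((s i (.inl k)).filter fun x =>
          g i * w i (.inl k) x ∈ Bad i).card : ℝ) := by
      have h2 : ({x : (Fin m → ℤ) × (Fin m → ℤ) | ∃ k, g i * c i k x.1 x.2 ∉ Good i} ∩
          (box m (4 * N i) ×ˢ box m (4 * N i) : Set _)) ⊆
          ((Finset.univ.biUnion fun k : κ => (s i (.inl k)).filter fun x =>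
          g i * w i (.inl k) x ∈ Bad i : Finset _) : Set ((Fin m → ℤ) × (Fin m → ℤ))) := by
        rintro x ⟨⟨k, hk⟩, hx⟩
        rw [Finset.mem_coe, Finset.mem_biUnion]
        refine ⟨k, Finset.mem_univ _, ?_⟩
        rw [Finset.mem_filter]
        exact ⟨Finset.mem_product.2 hx, (hmB i _).2 hk⟩
      have h3 := Set.ncard_le_ncard h2 (Finset.finite_toSet _)
      rw [Set.ncard_coe_finset] at h3
      have h4 := h3.trans Finset.card_biUnion_le
      exact_mod_cast h4
    have h5 : ∀ k : κ, (((s i (.inl k)).filter fun x =>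
          g i * w i (.inl k) x ∈ Bad i).card : ℝ) ≤
          A * (1 / ((i : ℝ) + 1)) * ((9 ^ m * (N i : ℝ) ^ m) * (9 ^ m * (N i : ℝ) ^ m)) := by
      intro k
      refine (hg i (.inl k)).trans ?_
      refine mul_le_mul_of_nonneg_left ?_ (by positivity)
      have h6 : (s i (.inl k)).card = (box m (4 * N i)).card * (box m (4 * N i)).card :=
        Finset.card_product _ _
      rw [h6]
      push_cast
      exact mul_le_mul (card_box_le hNi) (card_box_le hNi) (Nat.cast_nonneg _) (by positivity)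
    refine h1.trans ((Finset.sum_le_sum fun k _ => h5 k).trans ?_)
    rw [Finset.sum_const, Finset.card_univ, nsmul_eq_mul]
    have h7 : (Fintype.card κ : ℝ) * (A * (1 / ((i : ℝ) + 1))) * (9 ^ m * 9 ^ m) ≤ δ := by
      rw [lt_div_iff₀ (by positivity)] at hi
      have h8 : (0 : ℝ) ≤ A * (1 / ((i : ℝ) + 1)) := mul_nonneg hA0 (hε i).le
      have h9 : (0 : ℝ) ≤ A * (1 / ((i : ℝ) + 1)) * (9 ^ m * 9 ^ m) := by positivity
      nlinarith
    calc (Fintype.card κ : ℝ) * (A * (1 / ((i : ℝ) + 1)) *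
          ((9 ^ m * (N i : ℝ) ^ m) * (9 ^ m * (N i : ℝ) ^ m))) =
          ((Fintype.card κ : ℝ) * (A * (1 / ((i : ℝ) + 1))) * (9 ^ m * 9 ^ m)) *
            ((N i : ℝ) ^ m) ^ 2 := by ring
      _ ≤ _ := mul_le_mul_of_nonneg_right h7 (by positivity)
  · intro δ hδ
    have hδ' : 0 < δ / ((Fintype.card κ' + 1) * 9 ^ m) := by positivity
    filter_upwards [hlim _ hδ', hN] with i hi hNi
    have h1 : ((({x : Fin m → ℤ | ∃ k, g i * c' i k x ∉ Good i} ∩
          (box m (4 * N i) : Set _)).ncard : ℕ) : ℝ) ≤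
        ∑ k : κ', (((s i (.inr (.inl k))).filter fun x =>
          g i * w i (.inr (.inl k)) x ∈ Bad i).card : ℝ) := by
      have h2 : ({x : Fin m → ℤ | ∃ k, g i * c' i k x ∉ Good i} ∩
          (box m (4 * N i) : Set _)) ⊆
          ((Finset.univ.biUnion fun k : κ' => ((s i (.inr (.inl k))).filter fun x =>
          g i * w i (.inr (.inl k)) x ∈ Bad i).image Prod.fst : Finset _) :
            Set (Fin m → ℤ)) := by
        rintro x ⟨⟨k, hk⟩, hx⟩
        rw [Finset.mem_coe, Finset.mem_biUnion]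
        refine ⟨k, Finset.mem_univ _, ?_⟩
        rw [Finset.mem_image]
        refine ⟨(x, 0), ?_, rfl⟩
        rw [Finset.mem_filter]
        exact ⟨Finset.mem_product.2 ⟨hx, Finset.mem_singleton_self _⟩, (hmB i _).2 hk⟩
      have h3 := Set.ncard_le_ncard h2 (Finset.finite_toSet _)
      rw [Set.ncard_coe_finset] at h3
      have h4 := h3.trans (Finset.card_biUnion_le.trans
        (Finset.sum_le_sum fun k _ => Finset.card_image_le))
      exact_mod_cast h4
    have h5 : ∀ k : κ', (((s i (.inr (.inl k))).filter fun x =>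
          g i * w i (.inr (.inl k)) x ∈ Bad i).card : ℝ) ≤
          A * (1 / ((i : ℝ) + 1)) * (9 ^ m * (N i : ℝ) ^ m) := by
      intro k
      refine (hg i (.inr (.inl k))).trans ?_
      refine mul_le_mul_of_nonneg_left ?_ (by positivity)
      have h6 : (s i (.inr (.inl k))).card = (box m (4 * N i)).card := by
        have : (s i (.inr (.inl k))).card = (box m (4 * N i)).card * 1 := by
          rw [← Finset.card_singleton (0 : Fin m → ℤ)]
          exact Finset.card_product _ _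
        rw [this, mul_one]
      rw [h6]
      exact card_box_le hNi
    refine h1.trans ((Finset.sum_le_sum fun k _ => h5 k).trans ?_)
    rw [Finset.sum_const, Finset.card_univ, nsmul_eq_mul]
    have h7 : (Fintype.card κ' : ℝ) * (A * (1 / ((i : ℝ) + 1))) * 9 ^ m ≤ δ := by
      rw [lt_div_iff₀ (by positivity)] at hi
      have h8 : (0 : ℝ) ≤ A * (1 / ((i : ℝ) + 1)) := mul_nonneg hA0 (hε i).le
      have h9 : (0 : ℝ) ≤ A * (1 / ((i : ℝ) + 1)) * 9 ^ m := by positivity
      nlinarith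
    calc (Fintype.card κ' : ℝ) * (A * (1 / ((i : ℝ) + 1)) * (9 ^ m * (N i : ℝ) ^ m)) =
          ((Fintype.card κ' : ℝ) * (A * (1 / ((i : ℝ) + 1))) * 9 ^ m) * (N i : ℝ) ^ m := by ring
      _ ≤ _ := mul_le_mul_of_nonneg_right h7 (by positivity)

end Pool.Agent.ANQ
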