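import Pool.Agent.ANQ.Defs

/-!
# The difference elements of a coarsely affine family of flats, over the Robinson division ring
-/

namespace Pool.Agent.ANQ

open Matrix Filter Topology Pool.Agent.ANM51

set_option linter.unusedSectionVars false

section

variable {n : ℕ} {D₁ : Type} [NormedDivisionRing D₁] [NormedAlgebra ℝ D₁]

/-- root sequences -/
noncomputable def rts {i j : Fin (n + 1)} (hij : i < j) (y : ℕ → D₁) : ℕ → ANSL n D₁ :=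
  fun k => rt hij (y k)

/-- `‖y i‖ ≤ exp ((τ + η) r i)` for all `η > 0`, eventually -/
def ExpLe (U : Ultrafilter ℕ) (r : ℕ → ℝ) {D : Type} [NormedAddCommGroup D] (y : ℕ → D)
    (τ : ℝ) : Prop :=
  ∀ η : ℝ, 0 < η → ∀ᶠ i in (U : Filter ℕ), ‖y i‖ ≤ Real.exp ((τ + η) * r i)

/-- `‖y i‖ ≥ exp ((τ - η) r i)` for all `η > 0`, eventually -/
def ExpGe (U : Ultrafilter ℕ) (r : ℕ → ℝ) {D : Type} [NormedAddCommGroup D] (y : ℕ → D)
    (τ : ℝ) : Prop :=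
  ∀ η : ℝ, 0 < η → ∀ᶠ i in (U : Filter ℕ), Real.exp ((τ - η) * r i) ≤ ‖y i‖

variable (U : Ultrafilter ℕ) (r : ℕ → ℝ) {K : Type} [DivisionRing K] [Algebra ℝ K] (v : K → ℝ)
  (S : FormK v) {I : Type} [Fintype I] [DecidableEq I] (B : IForm I)
  (wI : I → (Fin n → ℝ) →ₗ[ℝ] ℝ) (T : (Fin n → ℝ) ≃ₗ[ℝ] (Fin n → ℝ))

/-- The difference elements `V x y = H_x⁻¹ c(x, y) H_y` of the frames at the points of a set `GG`
of sequences in `A₁N₁`. -/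
structure VData (GG : Set (ℕ → ANSL n D₁))
    (V : (ℕ → ANSL n D₁) → (ℕ → ANSL n D₁) → Matrix I I K) : Prop where
  one : ∀ x ∈ GG, V x x = 1
  mul : ∀ x ∈ GG, ∀ y ∈ GG, ∀ z ∈ GG, V x y * V y z = V x z
  form : ∀ x ∈ GG, ∀ y ∈ GG, ct S.σ (V x y) * JI B K * V x y = JI B K
  tri : ∀ x ∈ GG, ∀ y ∈ GG, ∀ p q, V x y p q ≠ 0 → ∀ w : Fin n → ℝ, Antitone (ext w) →
    0 ≤ wI p (T w) - wI q (T w)
  up : ∀ x ∈ GG, ∀ (i j : Fin (n + 1)) (hij : i < j) (y : ℕ → D₁), x * rts hij y ∈ GG →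
    ∀ (τ : ℝ) (w : Fin n → ℝ), ExpLe U r y τ → τ ≤ rootE i j w → ∀ p q,
      v (V x (x * rts hij y) p q) ≤ Real.exp (wI p (T w) - wI q (T w))
  lo : ∀ x ∈ GG, ∀ (i j : Fin (n + 1)) (hij : i < j) (y : ℕ → D₁), x * rts hij y ∈ GG →
    ∀ (τ : ℝ) (w : Fin n → ℝ), ExpGe U r y τ → rootE i j w < τ → ∃ p q,
      Real.exp (wI p (T w) - wI q (T w)) < v (V x (x * rts hij y) p q)

/-- The configuration of points needed for the additivity in the root group of `(i, k)`,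
`i < j < k`: `x c` and `x C_u c` for `c = 1, A, B, AB, BA, C, BC`, `A = rt_ij(w)`, `B = rt_jk(1)`,
`C = rt_ik(w)`, `C_u = rt_ik(u)`. -/
def Cfg (GG : Set (ℕ → ANSL n D₁)) (x : ℕ → ANSL n D₁) {i j k : Fin (n + 1)} (hij : i < j)
    (hjk : j < k) (u w : ℕ → D₁) : Prop :=
  ∀ z ∈ ({x, x * rts (hij.trans hjk) u} : Set (ℕ → ANSL n D₁)),
    z ∈ GG ∧ z * rts hij w ∈ GG ∧ z * rts hjk (fun _ => 1) ∈ GG ∧
    z * rts hij w * rts hjk (fun _ => 1) ∈ GG ∧ z * rts hjk (fun _ => 1) * rts hij w ∈ GG ∧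
    z * rts (hij.trans hjk) w ∈ GG ∧ z * rts hjk (fun _ => 1) * rts (hij.trans hjk) w ∈ GG

/-- the leading coordinate -/
noncomputable def psiV (V : (ℕ → ANSL n D₁) → (ℕ → ANSL n D₁) → Matrix I I K)
    (g : ℕ → ANSL n D₁) {i j : Fin (n + 1)} (hij : i < j) (p q : I) (u : ℕ → D₁) : K :=
  V g (g * rts hij u) p q * (V g (g * rts hij u) q q)⁻¹

end

end Pool.Agent.ANQ
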