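import Pool.Agent.ANQ.Rob
import Pool.Agent.ANQ.Blr
import Pool.Agent.ANQ.BasePt
import Pool.Agent.ANQ.VDef

/-!
# The finite level: from sequences to the dimension bound
-/

namespace Pool.Agent.ANQ

open Filter Topology

set_option linter.unusedSectionVars false

/-! ## Lattices -/

section lat

variable {m : ℕ} {E : Type} [NormedAddCommGroup E] [NormedSpace ℝ E] [FiniteDimensional ℝ E]
  (b : Module.Basis (Fin m) ℝ E)

/-- the lattice spanned by a basis -/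
noncomputable def lat (u : Fin m → ℤ) : E := ∑ l, ((u l : ℤ) : ℝ) • b l

theorem lat_add (u v : Fin m → ℤ) : lat b (u + v) = lat b u + lat b v := by
  simp [lat, add_smul, Finset.sum_add_distrib]

theorem lat_sub (u v : Fin m → ℤ) : lat b (u - v) = lat b u - lat b v := by
  simp [lat, sub_smul, Finset.sum_sub_distrib]

theorem lat_zero : lat b (0 : Fin m → ℤ) = 0 := by simp [lat]

theorem lat_le : ∃ C : ℝ, 0 < C ∧ ∀ (u : Fin m → ℤ) (N : ℝ), 0 ≤ N → (∀ l, |(u l : ℝ)| ≤ N) →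
    ‖lat b u‖ ≤ C * N := by
  refine ⟨1 + ∑ l, ‖b l‖, by positivity, fun u N hN hu => ?_⟩
  calc ‖lat b u‖ ≤ ∑ l, ‖((u l : ℤ) : ℝ) • b l‖ := norm_sum_le _ _
    _ ≤ ∑ l, ‖b l‖ * N := by
        refine Finset.sum_le_sum fun l _ => ?_
        rw [norm_smul, mul_comm]
        exact mul_le_mul_of_nonneg_left (hu l) (norm_nonneg _)
    _ = (∑ l, ‖b l‖) * N := by rw [Finset.sum_mul]
    _ ≤ (1 + ∑ l, ‖b l‖) * N := mul_le_mul_of_nonneg_right (by linarith) hN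

theorem le_lat : ∃ c : ℝ, 0 < c ∧ ∀ u : Fin m → ℤ, u ≠ 0 → c ≤ ‖lat b u‖ := by
  let e : E →L[ℝ] (Fin m → ℝ) := b.equivFun.toLinearMap.toContinuousLinearMap
  have he : ∀ u : Fin m → ℤ, e (lat b u) = fun l => ((u l : ℤ) : ℝ) := by
    intro u
    change b.equivFun (lat b u) = _
    have h1 : lat b u = b.equivFun.symm (fun l => ((u l : ℤ) : ℝ)) := by
      rw [Module.Basis.equivFun_symm_apply, lat]
    rw [h1, LinearEquiv.apply_symm_apply]
  refine ⟨(‖e‖ + 1)⁻¹, by positivity, fun u hu => ?_⟩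
  obtain ⟨l, hl⟩ : ∃ l, u l ≠ 0 := by
    by_contra h
    push Not at h
    exact hu (funext h)
  have h1 : (1 : ℝ) ≤ ‖e (lat b u)‖ := by
    rw [he]
    have h2 := norm_le_pi_norm (fun l => ((u l : ℤ) : ℝ)) l
    refine le_trans ?_ h2
    rw [Real.norm_eq_abs, ← Int.cast_abs]
    exact_mod_cast Int.one_le_abs hl
  have h3 : ‖e (lat b u)‖ ≤ (‖e‖ + 1) * ‖lat b u‖ :=
    (e.le_opNorm _).trans (mul_le_mul_of_nonneg_right (by linarith) (norm_nonneg _))
  rw [inv_le_iff_one_le_mul₀ (by positivity)]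
  linarith

end lat

/-! ## Contradiction along sequences -/

theorem seq_contra {α : Type} [Nonempty α] (U : Ultrafilter ℕ) (Q : ℕ → α → Prop)
    (h : ∀ s : ℕ → α, ¬ ∀ᶠ i in (U : Filter ℕ), Q i (s i)) :
    ∀ᶠ i in (U : Filter ℕ), ∀ a, ¬ Q i a := by
  by_contra hc
  rw [← Ultrafilter.eventually_not] at hc
  classical
  let s : ℕ → α := fun i => if h : ∃ a, Q i a then h.choose else Classical.arbitrary α
  refine h s (hc.mono fun i hi => ?_)
  have h1 : ∃ a, Q i a := by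
    by_contra h2
    push Not at h2
    exact hi h2
  have h2 : s i = h1.choose := by
    change (if h : ∃ a, Q i a then h.choose else Classical.arbitrary α) = _
    rw [dif_pos h1]
  rw [h2]
  exact h1.choose_spec

/-! ## The core statement -/

theorem fc_exp_ge {U : Ultrafilter ℕ} {r : ℕ → ℝ} (hr : Tendsto r (U : Filter ℕ) atTop) (C : ℝ)
    {η : ℝ} (hη : 0 < η) : ∀ᶠ i in (U : Filter ℕ), C ≤ Real.exp (η * r i) := by
  have h1 : Tendsto (fun i => Real.exp (η * r i)) (U : Filter ℕ) atTop :=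
    Real.tendsto_exp_atTop.comp (hr.const_mul_atTop hη)
  exact h1.eventually_ge_atTop C

theorem fc_exp_le {U : Ultrafilter ℕ} {r : ℕ → ℝ} (hr : Tendsto r (U : Filter ℕ) atTop) {c : ℝ}
    (hc : 0 < c) {η : ℝ} (hη : 0 < η) : ∀ᶠ i in (U : Filter ℕ), Real.exp (-(η * r i)) ≤ c := by
  filter_upwards [fc_exp_ge hr c⁻¹ hη] with i hi
  rw [Real.exp_neg]
  exact inv_le_of_inv_le₀ hc hi

theorem mod_lat {m : ℕ} {E : Type} [NormedAddCommGroup E] [NormedSpace ℝ E]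
    [FiniteDimensional ℝ E] {U : Ultrafilter ℕ} {r : ℕ → ℝ}
    (hr : Tendsto r (U : Filter ℕ) atTop) (b : Module.Basis (Fin m) ℝ E)
    {u : ℕ → Fin m → ℤ}
    (hu : ∀ᶠ i in (U : Filter ℕ), u i ∈ box m (4 * ⌊Real.exp (r i)⌋₊)) :
    Mod U r (fun i => lat b (u i)) := by
  obtain ⟨C, hC, hlat⟩ := lat_le b
  refine ⟨2, ?_⟩
  filter_upwards [hu, fc_exp_ge hr (C * 4) one_pos] with i hi h4
  have h5 : ((⌊Real.exp (r i)⌋₊ : ℕ) : ℝ) ≤ Real.exp (r i) := Nat.floor_le (Real.exp_pos _).le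
  have h6 : ∀ l, |((u i l : ℤ) : ℝ)| ≤ 4 * Real.exp (r i) := by
    intro l
    have h7 := (mem_box.1 hi) l
    have h8 : |u i l| ≤ ((4 * ⌊Real.exp (r i)⌋₊ : ℕ) : ℤ) := abs_le.2 h7
    have h9 : |((u i l : ℤ) : ℝ)| ≤ ((4 * ⌊Real.exp (r i)⌋₊ : ℕ) : ℝ) := by
      rw [← Int.cast_abs]
      exact_mod_cast h8
    push_cast at h9
    linarith
  have h7 := hlat (u i) (4 * Real.exp (r i)) (by positivity) h6
  calc ‖lat b (u i)‖ ≤ C * (4 * Real.exp (r i)) := h7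
    _ = (C * 4) * Real.exp (r i) := by ring
    _ ≤ Real.exp (1 * r i) * Real.exp (r i) :=
        mul_le_mul_of_nonneg_right h4 (Real.exp_pos _).le
    _ = Real.exp (2 * r i) := by rw [← Real.exp_add]; congr 1; ring

theorem fin_core {m : ℕ} {E V : Type} [NormedAddCommGroup E] [NormedSpace ℝ E]
    [FiniteDimensional ℝ E] [NormedAddCommGroup V] [NormedSpace ℝ V] [FiniteDimensional ℝ V]
    (U : Ultrafilter ℕ) (r : ℕ → ℝ) (hr : Tendsto r (U : Filter ℕ) atTop)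
    (b : Module.Basis (Fin m) ℝ E) (θ : ℕ → E → V) (P : ℕ → E → E → Prop) (B : ℕ → E → Prop)
    (hP : ∀ δ : ℝ, 0 < δ → ∀ᶠ i in (U : Filter ℕ),
      (Set.ncard {q : (Fin m → ℤ) × (Fin m → ℤ) |
        q ∈ box m (4 * ⌊Real.exp (r i)⌋₊) ×ˢ box m (4 * ⌊Real.exp (r i)⌋₊) ∧
          P i (lat b q.1) (lat b q.2)} : ℝ) ≤
        δ * ((box m (4 * ⌊Real.exp (r i)⌋₊)).card : ℝ) ^ 2)
    (hB : ∀ δ : ℝ, 0 < δ → ∀ᶠ i in (U : Filter ℕ),
      (Set.ncard {u | u ∈ box m (4 * ⌊Real.exp (r i)⌋₊) ∧ B i (lat b u)} : ℝ) ≤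
        δ * ((box m (4 * ⌊Real.exp (r i)⌋₊)).card : ℝ))
    (h1 : ∀ u w : ℕ → E, Mod U r u → Mod U r w →
      (∀ᶠ i in (U : Filter ℕ), ¬ P i (u i) (w i)) →
      Neg U r (fun i => θ i (u i + w i) - θ i (u i) - θ i (w i)))
    (h2 : ∀ u w : ℕ → E, Mod U r u → Mod U r w → (∀ᶠ i in (U : Filter ℕ), ¬ B i (u i)) →
      (∀ᶠ i in (U : Filter ℕ), ¬ B i (w i)) → ExpGe U r (w - u) 0 →
      ∀ η : ℝ, 0 < η → ∀ᶠ i in (U : Filter ℕ),
        Real.exp (-(η * r i)) ≤ ‖θ i (w i) - θ i (u i)‖)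
    (h3 : ∀ u w : ℕ → E, Mod U r u → Mod U r w → (∀ᶠ i in (U : Filter ℕ), ¬ B i (u i)) →
      (∀ᶠ i in (U : Filter ℕ), ¬ B i (w i)) → ExpLe U r (w - u) 0 →
      ∀ η : ℝ, 0 < η → ∀ᶠ i in (U : Filter ℕ),
        ‖θ i (w i) - θ i (u i)‖ ≤ Real.exp (η * r i)) :
    m ≤ Module.finrank ℝ V := by
  have hN1 : ∀ᶠ i in (U : Filter ℕ), 1 ≤ ⌊Real.exp (r i)⌋₊ := by
    filter_upwards [hr.eventually_ge_atTop 0] with i hi
    rw [Nat.one_le_floor_iff]
    exact Real.one_le_exp hi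
  have hcard : ∀ N : ℕ, 1 ≤ N → ((box m (4 * N)).card : ℝ) ≤ 9 ^ m * (N : ℝ) ^ m := by
    intro N hN
    rw [card_box, ← mul_pow]
    push_cast
    refine pow_le_pow_left₀ (by positivity) ?_ m
    have : (1 : ℝ) ≤ N := by exact_mod_cast hN
    linarith
  refine fin_bound U r hr (fun i => ⌊Real.exp (r i)⌋₊) (fun _ => rfl)
    (fun i u => θ i (lat b u)) (fun i => {q | P i (lat b q.1) (lat b q.2)})
    (fun i => {u | B i (lat b u)}) ?_ ?_ ?_ ?_ ?_
  · intro δ hδ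
    filter_upwards [hP (δ / (9 ^ m) ^ 2) (by positivity), hN1] with i hi hN
    have h4 : {q : (Fin m → ℤ) × (Fin m → ℤ) | P i (lat b q.1) (lat b q.2)} ∩
        ((box m (4 * ⌊Real.exp (r i)⌋₊) : Set (Fin m → ℤ)) ×ˢ
          (box m (4 * ⌊Real.exp (r i)⌋₊) : Set (Fin m → ℤ))) =
        {q : (Fin m → ℤ) × (Fin m → ℤ) |
        q ∈ box m (4 * ⌊Real.exp (r i)⌋₊) ×ˢ box m (4 * ⌊Real.exp (r i)⌋₊) ∧
          P i (lat b q.1) (lat b q.2)} := by
      ext q
      simp only [Set.mem_inter_iff, Set.mem_setOf_eq, Set.mem_prod, Finset.mem_coe,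
        Finset.mem_product]
      tauto
    rw [h4]
    refine hi.trans ?_
    have h5 := hcard _ hN
    have h6 : ((box m (4 * ⌊Real.exp (r i)⌋₊)).card : ℝ) ^ 2 ≤
        (9 ^ m * (⌊Real.exp (r i)⌋₊ : ℝ) ^ m) ^ 2 := pow_le_pow_left₀ (by positivity) h5 2
    calc δ / (9 ^ m) ^ 2 * ((box m (4 * ⌊Real.exp (r i)⌋₊)).card : ℝ) ^ 2
        ≤ δ / (9 ^ m) ^ 2 * (9 ^ m * (⌊Real.exp (r i)⌋₊ : ℝ) ^ m) ^ 2 :=
          mul_le_mul_of_nonneg_left h6 (by positivity)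
      _ = δ * ((⌊Real.exp (r i)⌋₊ : ℝ) ^ m) ^ 2 := by field_simp
  · intro δ hδ
    filter_upwards [hB (δ / 9 ^ m) (by positivity), hN1] with i hi hN
    have h4 : {u : Fin m → ℤ | B i (lat b u)} ∩
        (box m (4 * ⌊Real.exp (r i)⌋₊) : Set (Fin m → ℤ)) =
        {u | u ∈ box m (4 * ⌊Real.exp (r i)⌋₊) ∧ B i (lat b u)} := by
      ext q
      simp only [Set.mem_inter_iff, Set.mem_setOf_eq, Finset.mem_coe]
      tauto
    rw [h4]
    refine hi.trans ?_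
    have h5 := hcard _ hN
    calc δ / 9 ^ m * ((box m (4 * ⌊Real.exp (r i)⌋₊)).card : ℝ)
        ≤ δ / 9 ^ m * (9 ^ m * (⌊Real.exp (r i)⌋₊ : ℝ) ^ m) :=
          mul_le_mul_of_nonneg_left h5 (by positivity)
      _ = δ * (⌊Real.exp (r i)⌋₊ : ℝ) ^ m := by field_simp
  · intro C
    have h4 := seq_contra U (fun i (q : (Fin m → ℤ) × (Fin m → ℤ)) =>
      q.1 ∈ box m (4 * ⌊Real.exp (r i)⌋₊) ∧ q.2 ∈ box m (4 * ⌊Real.exp (r i)⌋₊) ∧
      ¬ P i (lat b q.1) (lat b q.2) ∧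
      ¬ ‖θ i (lat b (q.1 + q.2)) - θ i (lat b q.1) - θ i (lat b q.2)‖ ≤
        Real.exp (-(C * r i))) (by
        intro s hs
        have hu := mod_lat hr b (u := fun i => (s i).1) (hs.mono fun i h => h.1)
        have hw := mod_lat hr b (u := fun i => (s i).2) (hs.mono fun i h => h.2.1)
        have h5 := h1 _ _ hu hw (hs.mono fun i h => h.2.2.1) C
        obtain ⟨i, hi, hi'⟩ := (hs.and h5).exists
        apply hi.2.2.2
        rw [lat_add]
        exact hi')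
    filter_upwards [h4] with i hi u hu v hv huv
    have h5 := hi (u, v)
    by_contra hc
    exact h5 ⟨hu, hv, huv, hc⟩
  · intro η hη
    obtain ⟨c, hc, hlat⟩ := le_lat b
    have h4 := seq_contra U (fun i (q : (Fin m → ℤ) × (Fin m → ℤ)) =>
      q.1 ∈ box m (4 * ⌊Real.exp (r i)⌋₊) ∧ q.2 ∈ box m (4 * ⌊Real.exp (r i)⌋₊) ∧
      ¬ B i (lat b q.1) ∧ ¬ B i (lat b q.2) ∧ q.1 ≠ q.2 ∧
      ¬ Real.exp (-(η * r i)) ≤ ‖θ i (lat b q.1) - θ i (lat b q.2)‖) (by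
        intro s hs
        have hu := mod_lat hr b (u := fun i => (s i).1) (hs.mono fun i h => h.1)
        have hw := mod_lat hr b (u := fun i => (s i).2) (hs.mono fun i h => h.2.1)
        have hge : ExpGe U r ((fun i => lat b (s i).1) - fun i => lat b (s i).2) 0 := by
          intro η' hη'
          filter_upwards [fc_exp_le hr hc hη', hs] with i h5 h6
          rw [Pi.sub_apply, zero_sub, neg_mul, ← lat_sub]
          exact h5.trans (hlat _ (sub_ne_zero.2 h6.2.2.2.2.1))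
        have h5 := h2 _ _ hw hu (hs.mono fun i h => h.2.2.2.1) (hs.mono fun i h => h.2.2.1)
          hge η hη
        obtain ⟨i, hi, hi'⟩ := (hs.and h5).exists
        exact hi.2.2.2.2.2 hi')
    filter_upwards [h4] with i hi u hu v hv huB hvB huv
    have h5 := hi (u, v)
    by_contra hc
    exact h5 ⟨hu, hv, huB, hvB, huv, hc⟩
  · intro η hη
    obtain ⟨C, hC, hlat⟩ := lat_le b
    have h4 := seq_contra U (fun i (q : (Fin m → ℤ) × (Fin m → ℤ)) =>
      q.1 ∈ box m (4 * ⌊Real.exp (r i)⌋₊) ∧ q.2 ∈ box m (4 * ⌊Real.exp (r i)⌋₊) ∧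
      ¬ B i (lat b q.1) ∧ ¬ B i (lat b q.2) ∧ (∀ l, |q.1 l - q.2 l| ≤ 1) ∧
      ¬ ‖θ i (lat b q.1) - θ i (lat b q.2)‖ ≤ Real.exp (η * r i)) (by
        intro s hs
        have hu := mod_lat hr b (u := fun i => (s i).1) (hs.mono fun i h => h.1)
        have hw := mod_lat hr b (u := fun i => (s i).2) (hs.mono fun i h => h.2.1)
        have hle : ExpLe U r ((fun i => lat b (s i).1) - fun i => lat b (s i).2) 0 := by
          intro η' hη'
          filter_upwards [fc_exp_ge hr C hη', hs] with i h5 h6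
          rw [Pi.sub_apply, zero_add, ← lat_sub]
          have h7 := hlat ((s i).1 - (s i).2) 1 zero_le_one fun l => by
            have h8 := h6.2.2.2.2.1 l
            rw [Pi.sub_apply, ← Int.cast_abs]
            exact_mod_cast h8
          rw [mul_one] at h7
          exact h7.trans h5
        have h5 := h3 _ _ hw hu (hs.mono fun i h => h.2.2.2.1) (hs.mono fun i h => h.2.2.1)
          hle η hη
        obtain ⟨i, hi, hi'⟩ := (hs.and h5).exists
        exact hi.2.2.2.2.2 hi')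
    filter_upwards [h4] with i hi u hu v hv huB hvB huv
    have h5 := hi (u, v)
    by_contra hc
    exact h5 ⟨hu, hv, huB, hvB, huv, hc⟩

end Pool.Agent.ANQ
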