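import Pool.Agent.ANQ.Setup
import Pool.Agent.ANM65.Can

/-!
# Distances along sequences
-/

namespace Pool.Agent.ANQ

open Matrix Filter Topology Pool.Agent.ANM51 Pool.Agent.ANM65

set_option linter.unusedSectionVars false

/-! ## The isometry group -/

section fg

variable {D : Type} [NormedDivisionRing D] [NormedAlgebra ℝ D] {I : Type} [Fintype I]
  [DecidableEq I] {B : IForm I} {F : FormData D}

theorem fg_mul {g h : Matrix I I D} (hg : ct F.σ g * JI B D * g = JI B D)
    (hh : ct F.σ h * JI B D * h = JI B D) : ct F.σ (g * h) * JI B D * (g * h) = JI B D := by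
  have h1 : ct F.σ (g * h) = ct F.σ h * ct F.σ g := ct_mul (FormData.toFormK F) g h
  calc ct F.σ (g * h) * JI B D * (g * h) = ct F.σ h * (ct F.σ g * JI B D * g) * h := by
        rw [h1]; simp only [mul_assoc]
    _ = JI B D := by rw [hg, hh]

theorem fg_inv {g : (Matrix I I D)ˣ} (hg : ct F.σ g.val * JI B D * g.val = JI B D) :
    ct F.σ (g⁻¹).val * JI B D * (g⁻¹).val = JI B D := by
  have h1 : g.val * (g⁻¹).val = 1 := Units.mul_inv g
  have h2 : ct F.σ (g⁻¹).val * ct F.σ g.val = 1 := by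
    have h3 := ct_mul (FormData.toFormK F) g.val (g⁻¹).val
    rw [h1, ct_one] at h3
    exact h3.symm
  calc ct F.σ (g⁻¹).val * JI B D * (g⁻¹).val
      = ct F.σ (g⁻¹).val * (ct F.σ g.val * JI B D * g.val) * (g⁻¹).val := by rw [hg]
    _ = (ct F.σ (g⁻¹).val * ct F.σ g.val) * JI B D * (g.val * (g⁻¹).val) := by
        simp only [mul_assoc]
    _ = JI B D := by rw [h1, h2, one_mul, mul_one]

theorem fg_invSame {g : (Matrix I I D)ˣ} (hg : ct F.σ g.val * JI B D * g.val = JI B D) :
    InvSame g := by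
  intro p q
  refine ⟨B.bar q, B.bar p, ?_⟩
  have h1 : adj B (FormData.toFormK F) g.val * g.val = 1 := adj_mul_self B _ hg
  have h2 : (g⁻¹).val = adj B (FormData.toFormK F) g.val := by
    calc (g⁻¹).val = adj B (FormData.toFormK F) g.val * g.val * (g⁻¹).val := by rw [h1, one_mul]
      _ = _ := by rw [mul_assoc, Units.mul_inv, mul_one]
  have hj : ∀ p, ‖algebraMap ℝ D (B.jc p)‖ = 1 := by
    intro p
    rw [norm_algebraMap']
    have h3 := B.jc_sq p
    rw [Real.norm_eq_abs]
    have h4 : |B.jc p| * |B.jc p| = 1 := by rw [← abs_mul, h3, abs_one]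
    nlinarith [abs_nonneg (B.jc p)]
  rw [h2, adj_apply, norm_mul, norm_mul, hj, hj, one_mul, mul_one]
  exact F.norm_σ _

end fg

/-! ## The domain -/

section dom

variable {n : ℕ} {D : Type} [NormedDivisionRing D] [NormedAlgebra ℝ D]

theorem ext_add (p q : Fin n → ℝ) : ext (p + q) = ext p + ext q := by
  funext i
  refine Fin.lastCases ?_ (fun i => ?_) i
  · simp [ext]
  · simp [ext]

theorem ext_smul (c : ℝ) (p : Fin n → ℝ) : ext (c • p) = c • ext p := by
  funext i
  refine Fin.lastCases ?_ (fun i => ?_) i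
  · simp [ext]
  · simp [ext]

theorem av_add (p q : Fin n → ℝ) : av D (p + q) = av D p * av D q := by
  rw [av, ext_add, tor_add]; rfl

theorem av_zero : av D (0 : Fin n → ℝ) = 1 := by
  have h := av_add (D := D) (0 : Fin n → ℝ) 0
  rw [add_zero] at h
  exact (mul_eq_left.1 h.symm)

theorem av_neg (p : Fin n → ℝ) : av D (-p) = (av D p)⁻¹ := by
  rw [eq_inv_iff_mul_eq_one, ← av_add, neg_add_cancel, av_zero]

theorem abs_ext_le (p : Fin n → ℝ) (i : Fin (n + 1)) : |ext p i| ≤ ‖p‖ := by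
  refine Fin.lastCases ?_ (fun i => ?_) i
  · simp [ext]
  · simpa [ext] using norm_le_pi_norm p i

theorem abs_avg_le (p : Fin n → ℝ) : |(∑ j, ext p j) / ((n : ℝ) + 1)| ≤ ‖p‖ := by
  rw [abs_div, abs_of_pos (by positivity : (0 : ℝ) < (n : ℝ) + 1), div_le_iff₀ (by positivity)]
  refine (Finset.abs_sum_le_sum_abs _ _).trans ?_
  calc ∑ j, |ext p j| ≤ ∑ _j : Fin (n + 1), ‖p‖ := Finset.sum_le_sum fun j _ => abs_ext_le p j
    _ = _ := by
      rw [Finset.sum_const, Finset.card_univ, Fintype.card_fin, nsmul_eq_mul]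
      push_cast; ring

theorem av_entry_le (p : Fin n → ℝ) (i j : Fin (n + 1)) :
    ‖(av D p).1.val i j‖ ≤ Real.exp (2 * ‖p‖) := by
  change ‖torM D (ext p) i j‖ ≤ _
  by_cases h : i = j
  · subst h
    rw [torM_diag, norm_algebraMap', Real.norm_of_nonneg (tval_pos _ _).le, tval]
    refine Real.exp_le_exp.2 ?_
    have h1 := (abs_le.1 (abs_ext_le p i)).2
    have h2 := (abs_le.1 (abs_avg_le p)).1
    linarith
  · rw [torM, Matrix.diagonal_apply_ne _ h, norm_zero]
    exact (Real.exp_pos _).le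

theorem len_av_le (p : Fin n → ℝ) :
    len (av D p).1 ≤ 2 * ‖p‖ + Real.log (((n : ℝ) + 1) * ((n : ℝ) + 1)) := by
  have h1 := len_le_of_entries (g := (av D p).1) (Real.exp_pos (2 * ‖p‖)) (av_entry_le p)
    (fun i j => by
      have h2 := av_entry_le (D := D) (-p) i j
      rw [av_neg, norm_neg] at h2
      exact h2)
  rw [← mul_assoc, Real.log_mul _ (Real.exp_pos _).ne', Real.log_exp, Fintype.card_fin] at h1
  · push_cast at h1
    linarith
  · rw [Fintype.card_fin]; push_cast; positivity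

theorem le_len_av (p : Fin n → ℝ) : ‖p‖ / 2 ≤ len (av D p).1 := by
  have h0 : 0 ≤ len (av D p).1 := len_nonneg _
  have key : ∀ i, |ext p i - (∑ j, ext p j) / ((n : ℝ) + 1)| ≤ len (av D p).1 := by
    intro i
    have h1 := norm_le_exp_len (av D p).1 i i
    have h2 := norm_le_exp_len ((av D p).1)⁻¹ i i
    rw [len_inv] at h2
    have h3 : ((av D p).1)⁻¹ = (av D (-p)).1 := by rw [av_neg]; rfl
    rw [h3] at h2
    change ‖torM D (ext p) i i‖ ≤ _ at h1
    change ‖torM D (ext (-p)) i i‖ ≤ _ at h2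
    rw [torM_diag, norm_algebraMap', Real.norm_of_nonneg (tval_pos _ _).le, tval,
      Real.exp_le_exp] at h1 h2
    have h4 : ext (-p) = - ext p := by
      have := ext_smul (-1) p
      rwa [neg_one_smul, neg_one_smul] at this
    rw [h4] at h2
    simp only [Pi.neg_apply, Finset.sum_neg_distrib] at h2
    rw [abs_le]
    constructor
    · have : -((∑ j, ext p j)) / ((n : ℝ) + 1) = -((∑ j, ext p j) / ((n : ℝ) + 1)) := by ring
      rw [this] at h2
      linarith
    · exact h1
  have hl := key (Fin.last n)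
  have hlast : ext p (Fin.last n) = 0 := by simp [ext]
  rw [hlast, zero_sub, abs_neg] at hl
  rw [div_le_iff₀ (by norm_num : (0 : ℝ) < 2), pi_norm_le_iff_of_nonneg (by linarith)]
  intro i
  have h1 := key i.castSucc
  have h2 : ext p i.castSucc = p i := by simp [ext]
  rw [h2] at h1
  rw [Real.norm_eq_abs]
  have h3 := abs_sub_abs_le_abs_sub (p i) ((∑ j, ext p j) / ((n : ℝ) + 1))
  linarith

theorem rt_entry_le {i j : Fin (n + 1)} (hij : i < j) (y : D) (p q : Fin (n + 1)) :
    ‖(rt hij y : ANSL n D).1.val p q‖ ≤ 1 + ‖y‖ := by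
  change ‖rtM i j y p q‖ ≤ _
  have hy := norm_nonneg y
  by_cases h : p = q
  · subst h
    rw [rtM_diag hij, norm_one]; linarith
  · rw [rtM, Matrix.add_apply, Matrix.one_apply_ne h, zero_add]
    by_cases h2 : i = p ∧ j = q
    · obtain ⟨rfl, rfl⟩ := h2
      rw [Matrix.single_apply_same]; linarith
    · rw [Matrix.single_apply_of_ne _ _ _ _ _ h2, norm_zero]; linarith

theorem rt_neg {i j : Fin (n + 1)} (hij : i < j) (y : D) :
    (rt hij (-y) : ANSL n D) = (rt hij y)⁻¹ := by
  rw [eq_inv_iff_mul_eq_one, ← rt_add, neg_add_cancel, rt_zero]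

theorem len_rt_le {i j : Fin (n + 1)} (hij : i < j) (y : D) :
    len (rt hij y : ANSL n D).1 ≤
      Real.log (1 + ‖y‖) + Real.log (((n : ℝ) + 1) * ((n : ℝ) + 1)) := by
  have hy := norm_nonneg y
  have h1 := len_le_of_entries (g := (rt hij y : ANSL n D).1) (by linarith : 0 < 1 + ‖y‖)
    (rt_entry_le hij y) (fun p q => by
      have h2 := rt_entry_le (n := n) hij (-y) p q
      rw [rt_neg, norm_neg] at h2
      exact h2)
  rw [← mul_assoc, Real.log_mul _ (by linarith), Fintype.card_fin] at h1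
  · push_cast at h1
    linarith
  · rw [Fintype.card_fin]; push_cast; positivity

theorem norm_le_len_rt {i j : Fin (n + 1)} (hij : i < j) (y : D) :
    ‖y‖ ≤ Real.exp (len (rt hij y : ANSL n D).1) := by
  have h := norm_le_exp_len (rt hij y : ANSL n D).1 i j
  change ‖rtM i j y i j‖ ≤ _ at h
  rwa [rtM_entry hij] at h

theorem av_conj_rt {i j : Fin (n + 1)} (hij : i < j) (w : Fin n → ℝ) (y : D) :
    (av D w)⁻¹ * rt hij y * av D w = rt hij (Real.exp (-(rootE i j w)) • y) := by
  rw [mul_assoc, av, rt_tor hij, inv_mul_cancel_left]; rfl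

theorem rootE_smul (i j : Fin (n + 1)) (c : ℝ) (w : Fin n → ℝ) :
    rootE i j (c • w) = c * rootE i j w := by
  rw [rootE, rootE, ext_smul]; simp only [Pi.smul_apply, smul_eq_mul]; ring

/-- conjugation by antitone elements of `A` contracts unipotent elements -/
theorem cone_entry_le (u : ANSL n D) {w : Fin n → ℝ} (hw : Antitone (ext w)) (p q : Fin (n + 1)) :
    ‖((av D w)⁻¹ * u * av D w).1.val p q‖ ≤ ‖u.1.val p q‖ := by
  have h1 : ((av D w)⁻¹ * u * av D w).1.val = torM D (-ext w) * u.1.val * torM D (ext w) := rfl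
  rw [h1, torM, torM, Matrix.mul_diagonal, Matrix.diagonal_mul, norm_mul, norm_mul,
    norm_algebraMap', norm_algebraMap', Real.norm_of_nonneg (tval_pos _ _).le,
    Real.norm_of_nonneg (tval_pos _ _).le]
  rcases le_or_gt p q with hpq | hpq
  · have h2 : tval (-ext w) p * tval (ext w) q ≤ 1 := by
      rw [tval_div (ext w) q p]
      have h3 : tval (-ext w) p * tval (ext w) p = 1 := by
        rw [← tval_add, neg_add_cancel, tval_zero]
      have h4 : Real.exp (ext w q - ext w p) ≤ 1 := by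
        rw [Real.exp_le_one_iff]
        linarith [hw hpq]
      calc tval (-ext w) p * (Real.exp (ext w q - ext w p) * tval (ext w) p)
          = Real.exp (ext w q - ext w p) * (tval (-ext w) p * tval (ext w) p) := by ring
        _ ≤ 1 := by rw [h3, mul_one]; exact h4
    calc tval (-ext w) p * ‖u.1.val p q‖ * tval (ext w) q
        = (tval (-ext w) p * tval (ext w) q) * ‖u.1.val p q‖ := by ring
      _ ≤ 1 * ‖u.1.val p q‖ := mul_le_mul_of_nonneg_right h2 (norm_nonneg _)
      _ = _ := one_mul _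
  · rw [u.2.1.1 p q hpq, norm_zero, mul_zero, zero_mul]

theorem len_cone_le (u : ANSL n D) {w : Fin n → ℝ} (hw : Antitone (ext w)) :
    len ((av D w)⁻¹ * u * av D w).1 ≤ len u.1 + Real.log (((n : ℝ) + 1) * ((n : ℝ) + 1)) := by
  have h1 := len_le_of_entries (g := ((av D w)⁻¹ * u * av D w).1) (Real.exp_pos (len u.1))
    (fun p q => (cone_entry_le u hw p q).trans (norm_le_exp_len u.1 p q)) (fun p q => by
      have h0 : (((av D w)⁻¹ * u * av D w).1)⁻¹ = ((av D w)⁻¹ * u⁻¹ * av D w).1 := by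
        have : ((av D w)⁻¹ * u * av D w)⁻¹ = (av D w)⁻¹ * u⁻¹ * av D w := by group
        rw [← this]; rfl
      rw [h0]
      refine (cone_entry_le u⁻¹ hw p q).trans ?_
      have h2 := norm_le_exp_len (u⁻¹).1 p q
      have h3 : len (u⁻¹).1 = len u.1 := len_inv u.1
      rwa [h3] at h2)
  rw [← mul_assoc, Real.log_mul _ (Real.exp_pos _).ne', Real.log_exp, Fintype.card_fin] at h1
  · push_cast at h1
    refine h1.trans (le_of_eq ?_)
    ring
  · rw [Fintype.card_fin]; push_cast; positivity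

end dom

/-! ## Sequences -/

section seq

variable {n : ℕ} {D₁ D₂ : Type} [NormedDivisionRing D₁] [NormedAlgebra ℝ D₁]
  [NormedDivisionRing D₂] [NormedAlgebra ℝ D₂] {I : Type} [Fintype I] [DecidableEq I]
  {U : Ultrafilter ℕ} {r : ℕ → ℝ}

theorem NearS.symm {x y : ℕ → ANSL n D₁} (h : NearS U r x y) : NearS U r y x := by
  obtain ⟨C, hC⟩ := h
  refine ⟨C, hC.mono fun i hi => ?_⟩
  have h1 : ((y i)⁻¹ * x i).1 = (((x i)⁻¹ * y i).1)⁻¹ := by
    have : (y i)⁻¹ * x i = ((x i)⁻¹ * y i)⁻¹ := by group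
    rw [this]; rfl
  rw [h1, len_inv]; exact hi

theorem NearS.trans {x y z : ℕ → ANSL n D₁} (h : NearS U r x y) (h' : NearS U r y z) :
    NearS U r x z := by
  obtain ⟨C, hC⟩ := h
  obtain ⟨C', hC'⟩ := h'
  refine ⟨C + C', ?_⟩
  filter_upwards [hC, hC'] with i h1 h2
  have h3 : ((x i)⁻¹ * z i).1 = ((x i)⁻¹ * y i).1 * ((y i)⁻¹ * z i).1 := by
    have : (x i)⁻¹ * z i = ((x i)⁻¹ * y i) * ((y i)⁻¹ * z i) := by group
    rw [this]; rfl
  rw [h3, add_mul]
  exact (len_mul_le _ _).trans (add_le_add h1 h2)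

theorem eventually_const_le (hr : Tendsto r (U : Filter ℕ) atTop) (c : ℝ) {η : ℝ} (hη : 0 < η) :
    ∀ᶠ i in (U : Filter ℕ), c ≤ η * r i := by
  filter_upwards [hr.eventually_ge_atTop (c / η)] with i hi
  rw [div_le_iff₀ hη] at hi
  linarith

theorem nearS_sh (hr : Tendsto r (U : Filter ℕ) atTop) (x : ℕ → ANSL n D₁) (p q : Fin n → ℝ) :
    NearS U r (sh r x p) (sh r x q) := by
  refine ⟨2 * ‖q - p‖ + 1, ?_⟩
  filter_upwards [eventually_const_le hr (Real.log (((n : ℝ) + 1) * ((n : ℝ) + 1))) one_pos,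
    hr.eventually_ge_atTop 0] with i hi hi0
  have h1 : (sh r x p i)⁻¹ * sh r x q i = av D₁ (r i • (q - p)) := by
    rw [sh, sh, smul_sub, sub_eq_neg_add, av_add, av_neg]
    group
  rw [h1]
  refine (len_av_le _).trans ?_
  rw [norm_smul, Real.norm_of_nonneg hi0]
  nlinarith

theorem sh_zero (x : ℕ → ANSL n D₁) : sh r x 0 = x := by
  funext i
  rw [sh, smul_zero, av_zero, mul_one]

theorem NearS.refl (hr : Tendsto r (U : Filter ℕ) atTop) (x : ℕ → ANSL n D₁) : NearS U r x x := by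
  have := nearS_sh hr x 0 0
  rwa [sh_zero] at this

variable {B : IForm I} {F : FormData D₂} {f : ANSL n D₁ → (Matrix I I D₂)ˣ} {L C : ℝ}

theorem QIE.dmem (hf : QIE B F f L C) (x y : ANSL n D₁) :
    ct F.σ ((f x)⁻¹ * f y).val * JI B D₂ * ((f x)⁻¹ * f y).val = JI B D₂ := by
  rw [Units.val_mul]
  exact fg_mul (fg_inv (hf.mem x)) (hf.mem y)

variable [Nonempty I]

theorem QIE.near_len (hf : QIE B F f L C) (hr : Tendsto r (U : Filter ℕ) atTop)
    {x y : ℕ → ANSL n D₁} (h : NearS U r x y) :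
    ∃ c : ℝ, ∀ᶠ i in (U : Filter ℕ), len ((f (x i))⁻¹ * f (y i)) ≤ c * r i := by
  obtain ⟨c, hc⟩ := h
  refine ⟨L * c + 1, ?_⟩
  filter_upwards [hc, eventually_const_le hr C one_pos] with i h1 h2
  refine (hf.up _ _).trans ?_
  have := mul_le_mul_of_nonneg_left h1 hf.pos.le
  linarith

theorem QIE.modM (hf : QIE B F f L C) (hr : Tendsto r (U : Filter ℕ) atTop)
    {x y : ℕ → ANSL n D₁} (h : NearS U r x y) :
    ModM U r fun i => ((f (x i))⁻¹ * f (y i)).val := ModM.of_len (hf.near_len hr h)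

variable {K : Type} [DivisionRing K] [Algebra ℝ K] (R : RobData U r D₂ K)

theorem cc_mul (hf : QIE B F f L C) (hr : Tendsto r (U : Filter ℕ) atTop)
    {x y z : ℕ → ANSL n D₁} (hxy : NearS U r x y) (hyz : NearS U r y z) :
    cc R f x y * cc R f y z = cc R f x z := by
  rw [cc, cc, cc, ← cl_mul R hr (hf.modM hr hxy) (hf.modM hr hyz)]
  congr 1
  funext i
  rw [← Units.val_mul]
  congr 1
  group

theorem cc_self (x : ℕ → ANSL n D₁) : cc R f x x = 1 := by
  rw [cc]
  have h : (fun i => ((f (x i))⁻¹ * f (x i)).val) = fun _ => (1 : Matrix I I D₂) := by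
    funext i
    rw [inv_mul_cancel, Units.val_one]
  rw [h, cl_one]

theorem cc_form (hf : QIE B F f L C) (hr : Tendsto r (U : Filter ℕ) atTop) (S : FormK R.v)
    (hS : ∀ a, Mod U r a → S.σ (R.toK a) = R.toK (fun i => F.σ (a i)))
    {x y : ℕ → ANSL n D₁} (hxy : NearS U r x y) :
    ct S.σ (cc R f x y) * JI B K * cc R f x y = JI B K :=
  cl_form R F S hS hr B (hf.modM hr hxy) (Eventually.of_forall fun _ => hf.dmem _ _)

theorem flatK_phiS (hf : QIE B F f L C) (hr : Tendsto r (U : Filter ℕ) atTop) (S : FormK R.v)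
    (hS : ∀ a, Mod U r a → S.σ (R.toK a) = R.toK (fun i => F.σ (a i)))
    {Good : ℕ → Set (ANSL n D₁)} (hE : EnergyProp U r f Good) {x : ℕ → ANSL n D₁}
    (hx : ∀ᶠ i in (U : Filter ℕ), x i ∈ Good i) :
    ∃ ν, Nrm ν ∧ FlatK S B ν (phiS (r := r) R f x) := by
  obtain ⟨ν, hν, h⟩ := hE x hx
  refine ⟨ν, hν, fun p => cc_self R _, fun p q s => ?_, fun p q => ?_, fun p q => ?_⟩
  · exact cc_mul R hf hr (nearS_sh hr x p q) (nearS_sh hr x q s)
  · exact cc_form R hf hr S hS (nearS_sh hr x p q)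
  · exact vm_cl_eq R hr (fun i => fg_invSame (hf.dmem _ _)) (h p q)

theorem sh_conj (x c : ℕ → ANSL n D₁) (w : Fin n → ℝ) (i : ℕ) :
    (sh r x w i)⁻¹ * sh r (x * c) w i = (av D₁ (r i • w))⁻¹ * c i * av D₁ (r i • w) := by
  rw [sh, sh, Pi.mul_apply]; group

/-- the cone of antitone parameters -/
theorem vm_cc_cone (hf : QIE B F f L C) (hr : Tendsto r (U : Filter ℕ) atTop)
    {Good : ℕ → Set (ANSL n D₁)} {g x : ℕ → ANSL n D₁} (hx : x ∈ GGs U r Good g) :
    ∃ c, ∀ w : Fin n → ℝ, Antitone (ext w) → vm R.v (cc R f (sh r g w) (sh r x w)) ≤ c := by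
  obtain ⟨-, -, c, hc⟩ := hx
  refine ⟨Real.exp (L * c), fun w hw => ?_⟩
  refine vm_cl_le R hr fun η hη => ?_
  filter_upwards [hc, hr.eventually_ge_atTop 0,
    eventually_const_le hr (L * Real.log (((n : ℝ) + 1) * ((n : ℝ) + 1)) + C) hη] with i h1 h2 h3
  refine (hf.up _ _).trans ?_
  have h4 : (sh r g w i)⁻¹ * sh r x w i =
      (av D₁ (r i • w))⁻¹ * ((g i)⁻¹ * x i) * av D₁ (r i • w) := by
    rw [sh, sh]; group
  have h5 : Antitone (ext (r i • w)) := by
    rw [ext_smul]
    intro a b hab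
    exact mul_le_mul_of_nonneg_left (hw hab) h2
  rw [h4]
  have h6 := mul_le_mul_of_nonneg_left ((len_cone_le ((g i)⁻¹ * x i) h5).trans
    (add_le_add_left h1 _)) hf.pos.le
  linarith

theorem vm_cc_root_le (hf : QIE B F f L C) (hr : Tendsto r (U : Filter ℕ) atTop)
    {x : ℕ → ANSL n D₁} {i j : Fin (n + 1)} (hij : i < j) {y : ℕ → D₁} {τ : ℝ} {w : Fin n → ℝ}
    (hy : ExpLe U r y τ) (hw : τ ≤ rootE i j w) :
    vm R.v (cc R f (sh r x w) (sh r (x * rts hij y) w)) ≤ 1 := by
  rw [← Real.exp_zero]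
  refine vm_cl_le R hr fun η hη => ?_
  have hη2 : 0 < η / (2 * L) := div_pos hη (mul_pos two_pos hf.pos)
  filter_upwards [hy _ hη2, hr.eventually_ge_atTop 0, eventually_const_le hr
    (L * (Real.log 2 + Real.log (((n : ℝ) + 1) * ((n : ℝ) + 1))) + C) (half_pos hη)] with k h1 h2 h3
  refine (hf.up _ _).trans ?_
  have h4 : ‖Real.exp (-(rootE i j (r k • w))) • y k‖ ≤ Real.exp (η / (2 * L) * r k) := by
    rw [norm_smul, Real.norm_of_nonneg (Real.exp_pos _).le, rootE_smul]
    calc Real.exp (-(r k * rootE i j w)) * ‖y k‖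
        ≤ Real.exp (-(r k * rootE i j w)) * Real.exp ((τ + η / (2 * L)) * r k) :=
          mul_le_mul_of_nonneg_left h1 (Real.exp_pos _).le
      _ = Real.exp ((τ - rootE i j w) * r k + η / (2 * L) * r k) := by
          rw [← Real.exp_add]; congr 1; ring
      _ ≤ _ := by
          apply Real.exp_le_exp.2
          have : (τ - rootE i j w) * r k ≤ 0 :=
            mul_nonpos_of_nonpos_of_nonneg (by linarith) h2
          linarith
  rw [sh_conj, rts, av_conj_rt]
  have h5 : 1 ≤ Real.exp (η / (2 * L) * r k) := Real.one_le_exp (mul_nonneg hη2.le h2)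
  have h6 : Real.log (1 + ‖Real.exp (-(rootE i j (r k • w))) • y k‖) ≤
      Real.log 2 + η / (2 * L) * r k := by
    rw [← Real.log_exp (η / (2 * L) * r k), ← Real.log_mul two_ne_zero (Real.exp_pos _).ne']
    apply Real.log_le_log
    · have := norm_nonneg (Real.exp (-(rootE i j (r k • w))) • y k)
      linarith
    · linarith
  have h7 := mul_le_mul_of_nonneg_left ((len_rt_le (n := n) hij
    (Real.exp (-(rootE i j (r k • w))) • y k)).trans (add_le_add_left h6 _)) hf.pos.le
  have h8 : L * (η / (2 * L) * r k) = η / 2 * r k := by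
    have := hf.pos.ne'
    field_simp
  nlinarith

theorem lt_vm_cc_root (hf : QIE B F f L C) (hr : Tendsto r (U : Filter ℕ) atTop)
    {x : ℕ → ANSL n D₁} {i j : Fin (n + 1)} (hij : i < j) {y : ℕ → D₁} {τ : ℝ} {w : Fin n → ℝ}
    (hnear : NearS U r x (x * rts hij y))
    (hy : ExpGe U r y τ) (hw : rootE i j w < τ) :
    1 < vm R.v (cc R f (sh r x w) (sh r (x * rts hij y) w)) := by
  set δ : ℝ := τ - rootE i j w with hδ
  have hδpos : 0 < δ := by rw [hδ]; linarith
  have hL := hf.pos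
  have h0 : Real.exp (δ / L) ≤ vm R.v (cc R f (sh r x w) (sh r (x * rts hij y) w)) := by
    refine le_vm_cl R hr (fun i => fg_invSame (hf.dmem _ _)) (hf.modM hr ?_) fun η hη => ?_
    · have h1 := nearS_sh hr x w 0
      have h2 := nearS_sh hr (x * rts hij y) 0 w
      rw [sh_zero] at h1 h2
      exact (h1.trans hnear).trans h2
    · have hη2 : 0 < η / 2 * L := mul_pos (half_pos hη) hL
      filter_upwards [hy _ hη2, hr.eventually_ge_atTop 0,
        eventually_const_le hr C (half_pos hη)] with k h1 h2 h3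
      refine le_trans ?_ (hf.lo _ _)
      rw [sh_conj, rts, av_conj_rt]
      have h4 : Real.exp ((δ - η / 2 * L) * r k) ≤
          ‖Real.exp (-(rootE i j (r k • w))) • y k‖ := by
        rw [norm_smul, Real.norm_of_nonneg (Real.exp_pos _).le, rootE_smul]
        calc Real.exp ((δ - η / 2 * L) * r k)
            = Real.exp (-(r k * rootE i j w)) * Real.exp ((τ - η / 2 * L) * r k) := by
              rw [← Real.exp_add, hδ]; congr 1; ring
          _ ≤ _ := mul_le_mul_of_nonneg_left h1 (Real.exp_pos _).le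
      have h5 := h4.trans (norm_le_len_rt (n := n) hij
        (Real.exp (-(rootE i j (r k • w))) • y k))
      rw [Real.exp_le_exp] at h5
      have h6 : (δ / L - η / 2) * r k ≤
          len (rt hij (Real.exp (-(rootE i j (r k • w))) • y k) : ANSL n D₁).1 / L := by
        rw [le_div_iff₀ hL]
        refine le_trans (le_of_eq ?_) h5
        field_simp
      linarith
  refine lt_of_lt_of_le ?_ h0
  rw [← Real.exp_zero, Real.exp_lt_exp]
  exact div_pos hδpos hL

end seq

end Pool.Agent.ANQ
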