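import Pool.Agent.ANQ.FinRoot
import Pool.Agent.ANQ.Near
import Pool.Agent.ANQ.Energy

/-!
# The finite level: good scales, the set of good sequences, diagonal entries
-/

namespace Pool.Agent.ANQ

open Matrix Filter Topology Pool.Agent.ANM51

set_option linter.unusedSectionVars false

section

variable {n : ℕ} {D₁ D₂ : Type} [NormedDivisionRing D₁] [NormedAlgebra ℝ D₁]
  [NormedDivisionRing D₂] [NormedAlgebra ℝ D₂] {I : Type} [Fintype I] [DecidableEq I] [Nonempty I]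
  {B : IForm I} {F : FormData D₂} {f : ANSL n D₁ → (Matrix I I D₂)ˣ} {L C : ℝ}

/-- good scales for a quasi-isometric embedding -/
theorem exists_scales (hf : QIE B F f L C) (M : RMean (ANSL n D₁)) :
    ∃ (r : ℕ → ℝ) (Good : ℕ → Set (ANSL n D₁)), Tendsto r atTop atTop ∧
      (∀ i, M.m (fun x => Set.indicator (Good i)ᶜ (fun _ => (1 : ℝ)) x) ≤ 1 / ((i : ℝ) + 1)) ∧
      ∀ U : Ultrafilter ℕ, (U : Filter ℕ) ≤ atTop → EnergyProp U r f Good := by
  have hL := hf.pos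
  set A : ℝ := Real.log (((n : ℝ) + 1) * ((n : ℝ) + 1)) with hA
  have hA0 : 0 ≤ A := by
    apply Real.log_nonneg
    have : (0 : ℝ) ≤ n := Nat.cast_nonneg _
    nlinarith
  have hx : ∀ (x : ANSL n D₁) (p : Fin n → ℝ), x⁻¹ * (x * av D₁ p) = av D₁ p := fun x p => by
    rw [inv_mul_cancel_left]
  obtain ⟨r, Good, -, h2, h3, h4⟩ := energy M (av D₁) av_add
    (fun x y => len ((f x)⁻¹ * f y)) (fun x y => len_nonneg _)
    (fun x y => by
      have h : (f y)⁻¹ * f x = ((f x)⁻¹ * f y)⁻¹ := by group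
      rw [h, len_inv])
    (fun x y z => by
      have h : (f x)⁻¹ * f z = ((f x)⁻¹ * f y) * ((f y)⁻¹ * f z) := by group
      rw [h]
      exact len_mul_le _ _)
    (K := 2 * L) (C := |C| + L * A) (by positivity)
    (fun x p => by
      have h1 := hf.up x (x * av D₁ p)
      rw [hx] at h1
      have h2 := len_av_le (D := D₁) p
      have h3 : L * len (av D₁ p).1 ≤ L * (2 * ‖p‖ + A) :=
        mul_le_mul_of_nonneg_left h2 hL.le
      have h4 := le_abs_self C
      have h5 : 0 ≤ ‖p‖ := norm_nonneg p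
      nlinarith)
    (fun x p => by
      have h1 := hf.lo x (x * av D₁ p)
      rw [hx] at h1
      have h2 := le_len_av (D := D₁) p
      have h3 : ‖p‖ / 2 / L ≤ len (av D₁ p).1 / L := div_le_div_of_nonneg_right h2 hL.le
      have h4 := le_abs_self C
      have h5 : 0 ≤ L * A := by positivity
      have h6 : ‖p‖ / 2 / L = ‖p‖ / (2 * L) := by rw [div_div]
      rw [h6] at h3
      linarith)
  refine ⟨r, Good, h2, h3, fun U hU x hx => ?_⟩
  obtain ⟨ν, n1, n2, n3, n4, n5⟩ := h4 U hU x hx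
  refine ⟨ν, ⟨n1, n2, ⟨(2 * L)⁻¹, by positivity, fun p => ?_⟩, ⟨2 * L, n4⟩⟩, n5⟩
  rw [inv_mul_eq_div]
  exact n3 p

end

section

variable {n : ℕ} {D₁ : Type} [NormedDivisionRing D₁] [NormedAlgebra ℝ D₁] {U : Ultrafilter ℕ}
  {r : ℕ → ℝ}

theorem UMod.len_le (hr : Tendsto r (U : Filter ℕ) atTop) {c : ℕ → ANSL n D₁}
    (h : UMod U r c) : ∃ C : ℝ, ∀ᶠ i in (U : Filter ℕ), len (c i).1 ≤ C * r i := by
  have h1 : ∀ p q, ∃ C : ℝ, ∀ᶠ i in (U : Filter ℕ),
      ‖(c i).1.val p q‖ ≤ Real.exp (C * r i) ∧ ‖((c i)⁻¹).1.val p q‖ ≤ Real.exp (C * r i) := by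
    intro p q
    obtain ⟨C, hC⟩ := h.mod p q
    obtain ⟨C', hC'⟩ := h.modi p q
    refine ⟨max C C', ?_⟩
    filter_upwards [hC, hC', hr.eventually_ge_atTop 0] with i h2 h3 h4
    exact ⟨h2.trans (Real.exp_le_exp.2 (mul_le_mul_of_nonneg_right (le_max_left _ _) h4)),
      h3.trans (Real.exp_le_exp.2 (mul_le_mul_of_nonneg_right (le_max_right _ _) h4))⟩
  choose C hC using h1
  obtain ⟨C₀, hC₀⟩ : ∃ C₀ : ℝ, ∀ p q, C p q ≤ C₀ := by
    refine ⟨∑ p, ∑ q, |C p q|, fun p q => (le_abs_self _).trans ?_⟩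
    exact (Finset.single_le_sum (f := fun q => |C p q|) (fun _ _ => abs_nonneg _)
      (Finset.mem_univ q)).trans (Finset.single_le_sum (f := fun p => ∑ q, |C p q|)
        (fun _ _ => Finset.sum_nonneg fun _ _ => abs_nonneg _) (Finset.mem_univ p))
  have hall : ∀ᶠ i in (U : Filter ℕ), ∀ p q,
      ‖(c i).1.val p q‖ ≤ Real.exp (C p q * r i) ∧
        ‖((c i)⁻¹).1.val p q‖ ≤ Real.exp (C p q * r i) :=
    Filter.eventually_all.2 fun p => Filter.eventually_all.2 fun q => hC p q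
  refine ⟨C₀ + 1, ?_⟩
  filter_upwards [hall, hr.eventually_ge_atTop 0,
    eventually_const_le hr (Real.log (((n : ℝ) + 1) * ((n : ℝ) + 1))) one_pos] with i h2 h3 h4
  have h5 : ∀ p q, C p q * r i ≤ C₀ * r i := fun p q => mul_le_mul_of_nonneg_right (hC₀ p q) h3
  have h6 := len_le_of_entries (g := (c i).1) (Real.exp_pos (C₀ * r i))
    (fun p q => (h2 p q).1.trans (Real.exp_le_exp.2 (h5 p q)))
    (fun p q => (h2 p q).2.trans (Real.exp_le_exp.2 (h5 p q)))
  refine h6.trans ?_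
  rw [Fintype.card_fin, ← mul_assoc, Real.log_mul (by positivity) (Real.exp_pos _).ne',
    Real.log_exp]
  push_cast
  linarith

variable {Good : ℕ → Set (ANSL n D₁)} {g : ℕ → ANSL n D₁}

theorem clG_GGs (hr : Tendsto r (U : Filter ℕ) atTop) : ClG U r Good g (GGs U r Good g) := by
  intro c hc hg
  have h1 : ∀ i, (g i)⁻¹ * (g * c) i = c i := fun i => by
    rw [Pi.mul_apply, inv_mul_cancel_left]
  refine ⟨hg, fun i p => ?_, ?_⟩
  · rw [h1]
    exact hc.diag i p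
  · obtain ⟨C, hC⟩ := hc.len_le hr
    refine ⟨C, hC.mono fun i hi => ?_⟩
    rw [h1]
    exact hi

theorem modG_GGs (hr : Tendsto r (U : Filter ℕ) atTop) :
    ANM65.ModG U r (GGs U r Good g) := by
  intro x hx i j hij y hxy
  obtain ⟨C, hC⟩ := hx.2.2.symm.trans hxy.2.2
  refine ⟨C, fun η hη => ?_⟩
  filter_upwards [hC, hr.eventually_ge_atTop 0] with k hk hr0
  have h1 : (x k)⁻¹ * (x * rts hij y) k = rt hij (y k) := by
    rw [Pi.mul_apply, inv_mul_cancel_left]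
    rfl
  rw [h1] at hk
  refine (norm_le_len_rt hij (y k)).trans (Real.exp_le_exp.2 (hk.trans ?_))
  exact mul_le_mul_of_nonneg_right (by linarith) hr0

variable {K : Type} [DivisionRing K] [Algebra ℝ K] {v : K → ℝ} {S : FormK v} {I : Type}
  [Fintype I] [DecidableEq I] {B : IForm I} {wI : I → (Fin n → ℝ) →ₗ[ℝ] ℝ}
  {T : (Fin n → ℝ) ≃ₗ[ℝ] (Fin n → ℝ)} {GG : Set (ℕ → ANSL n D₁)}
  {V : (ℕ → ANSL n D₁) → (ℕ → ANSL n D₁) → Matrix I I K}

/-- diagonal entries at weights of multiplicity one do not vanish -/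
theorem vdata_diag_ne (h : VData U r v S B wI T GG V) {x y : ℕ → ANSL n D₁} (hx : x ∈ GG)
    (hy : y ∈ GG) {q : I} (hq : ∀ p, wI p = wI q → p = q) : V x y q q ≠ 0 := by
  have h1 := congrFun (congrFun (ANM65.vd_zp_inv h hx hy) q) q
  rw [Matrix.mul_apply, Matrix.one_apply_eq, Finset.sum_eq_single q, ANM65.zp_eq rfl] at h1
  · exact left_ne_zero_of_mul (h1 ▸ one_ne_zero)
  · intro b _ hb
    rw [ANM65.zp_ne, zero_mul]
    intro h2
    exact hb (hq b h2.symm)
  · intro h2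
    exact absurd (Finset.mem_univ q) h2

end

end Pool.Agent.ANQ
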