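import Pool.Agent.ANQ.Defs

/-!
# The groups `A₁N₁` are solvable
-/

namespace Pool.Agent.ANQ

open Matrix Pool.Agent.ANM51
open scoped commutatorElement

section up

variable {n : ℕ} {D : Type} [NormedDivisionRing D] [NormedAlgebra ℝ D]

/-- the entries below the `k`-th superdiagonal vanish -/
def Up (k : ℕ) (M : Matrix (Fin (n + 1)) (Fin (n + 1)) D) : Prop :=
  ∀ i j : Fin (n + 1), (j : ℕ) < i + k → M i j = 0

theorem Up.mul {k l : ℕ} {M N : Matrix (Fin (n + 1)) (Fin (n + 1)) D} (hM : Up k M) (hN : Up l N) :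
    Up (k + l) (M * N) := by
  intro i j hij
  rw [Matrix.mul_apply]
  refine Finset.sum_eq_zero fun r _ => ?_
  by_cases h : (r : ℕ) < i + k
  · rw [hM i r h, zero_mul]
  · rw [hN r j (by omega), mul_zero]

theorem Up.add {k : ℕ} {M N : Matrix (Fin (n + 1)) (Fin (n + 1)) D} (hM : Up k M) (hN : Up k N) :
    Up k (M + N) := fun i j h => by rw [Matrix.add_apply, hM i j h, hN i j h, add_zero]

theorem Up.neg {k : ℕ} {M : Matrix (Fin (n + 1)) (Fin (n + 1)) D} (hM : Up k M) :
    Up k (-M) := fun i j h => by rw [Matrix.neg_apply, hM i j h, neg_zero]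

theorem Up.sub {k : ℕ} {M N : Matrix (Fin (n + 1)) (Fin (n + 1)) D} (hM : Up k M) (hN : Up k N) :
    Up k (M - N) := by
  rw [sub_eq_add_neg]
  exact hM.add hN.neg

theorem Up.mono {k l : ℕ} (h : l ≤ k) {M : Matrix (Fin (n + 1)) (Fin (n + 1)) D} (hM : Up k M) :
    Up l M := fun i j hij => hM i j (by omega)

theorem Up.zero_of {k : ℕ} (h : n + 1 ≤ k) {M : Matrix (Fin (n + 1)) (Fin (n + 1)) D}
    (hM : Up k M) : M = 0 := by
  ext i j
  exact hM i j (by have := j.2; omega)

theorem up_zero_of (g : ANSL n D) : Up 0 g.1.val := fun i j h => g.2.1.1 i j (by simpa using h)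

theorem up_one : Up 0 (1 : Matrix (Fin (n + 1)) (Fin (n + 1)) D) := by
  intro i j h
  rw [Matrix.one_apply_ne]
  rintro rfl
  omega

/-- the subgroups of the filtration -/
def fil (n : ℕ) (D : Type) [NormedDivisionRing D] [NormedAlgebra ℝ D] (k : ℕ) :
    Subgroup (ANSL n D) where
  carrier := {g | Up k (g.1.val - 1)}
  mul_mem' {a b} ha hb := by
    change Up k ((a * b).1.val - 1)
    have h : (a * b).1.val - 1 = (a.1.val - 1) * b.1.val + (b.1.val - 1) := by
      change a.1.val * b.1.val - 1 = _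
      rw [sub_mul, one_mul]
      abel
    rw [h]
    exact ((Up.mul ha (up_zero_of b)).mono (by omega)).add hb
  one_mem' := by
    change Up k ((1 : Matrix (Fin (n + 1)) (Fin (n + 1)) D) - 1)
    rw [sub_self]
    intro i j _
    rfl
  inv_mem' {a} ha := by
    change Up k ((a⁻¹).1.val - 1)
    have h0 : a.1.val * (a⁻¹).1.val = 1 := Units.mul_inv a.1
    have h : (a⁻¹).1.val - 1 = -((a.1.val - 1) * (a⁻¹).1.val) := by
      rw [sub_mul, one_mul, h0]
      abel
    rw [h]
    exact ((Up.mul ha (up_zero_of a⁻¹)).mono (by omega)).neg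

theorem mem_fil {k : ℕ} {g : ANSL n D} : g ∈ fil n D k ↔ Up k (g.1.val - 1) := Iff.rfl

theorem comm_sub_one (g h : ANSL n D) : (⁅g, h⁆).1.val - 1 =
    (g.1.val * h.1.val - h.1.val * g.1.val) * ((h * g)⁻¹).1.val := by
  have h0 : (h * g).1.val * ((h * g)⁻¹).1.val = 1 := Units.mul_inv (h * g).1
  have h1 : (⁅g, h⁆).1.val = (g * h).1.val * ((h * g)⁻¹).1.val := by
    have : ⁅g, h⁆ = (g * h) * (h * g)⁻¹ := by
      rw [commutatorElement_def]
      group
    rw [this]
    rfl
  rw [h1, sub_mul]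
  change _ = (g * h).1.val * ((h * g)⁻¹).1.val - (h * g).1.val * ((h * g)⁻¹).1.val
  rw [h0]

theorem fil_step {k : ℕ} {g h : ANSL n D} (hg : g ∈ fil n D k) (hh : h ∈ fil n D k) :
    ⁅g, h⁆ ∈ fil n D (k + 1) := by
  rw [mem_fil, comm_sub_one]
  have key : Up (k + 1) (g.1.val * h.1.val - h.1.val * g.1.val) := by
    have h1 : g.1.val * h.1.val - h.1.val * g.1.val =
        (g.1.val - 1) * (h.1.val - 1) - (h.1.val - 1) * (g.1.val - 1) := by
      noncomm_ring
    rcases Nat.eq_zero_or_pos k with rfl | hk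
    · -- the diagonals commute
      intro i j hij
      rcases Nat.lt_or_ge (j : ℕ) i with h2 | h2
      · exact ((Up.mul (up_zero_of g) (up_zero_of h)).sub (Up.mul (up_zero_of h) (up_zero_of g)))
          i j (by omega)
      · have h3 : j = i := Fin.ext (by omega)
        subst h3
        obtain ⟨c, hc, -⟩ := g.2.2
        obtain ⟨d, hd, -⟩ := h.2.2
        rw [Matrix.sub_apply, IsTri.mul_diag Fin.val_injective g.2.1.1 h.2.1.1,
          IsTri.mul_diag Fin.val_injective h.2.1.1 g.2.1.1, (hc j).2, (hd j).2, ← map_mul,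
          ← map_mul, mul_comm, sub_self]
    · rw [h1]
      exact ((Up.mul hg hh).sub (Up.mul hh hg)).mono (by omega)
  exact (Up.mul key (up_zero_of (h * g)⁻¹)).mono (by omega)

end up

/-- **`A₁N₁` is solvable** -/
theorem ansl_solvable (n : ℕ) (D : Type) [NormedDivisionRing D] [NormedAlgebra ℝ D] :
    Group.IsSolvable (ANSL n D) := by
  have h : ∀ k, derivedSeries (ANSL n D) k ≤ fil n D k := by
    intro k
    induction k with
    | zero =>
      intro g _
      exact (up_zero_of g).sub up_one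
    | succ k ih =>
      rw [derivedSeries_succ, Subgroup.commutator_le]
      intro g hg g' hg'
      exact fil_step (ih hg) (ih hg')
  refine ⟨⟨n + 1, ?_⟩⟩
  rw [eq_bot_iff]
  intro g hg
  have h1 := Up.zero_of le_rfl (h _ hg)
  rw [Subgroup.mem_bot]
  apply Subtype.ext
  apply Units.ext
  exact sub_eq_zero.1 h1

end Pool.Agent.ANQ
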