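import Pool.Agent.ANQ.VD
import Pool.Agent.ANQ.Alg
import Pool.Agent.ANQ.FinGlue
import Pool.Agent.ANQ.Solv

/-!
# The main theorem for the classical targets
-/

namespace Pool.Agent.ANQ

open Matrix Filter Topology Pool.Agent.ANM51 Pool.Agent.ANM65

set_option linter.unusedSectionVars false

section

variable {n : ℕ} {D₁ D₂ : Type} [NormedDivisionRing D₁] [NormedAlgebra ℝ D₁]
  [FiniteDimensional ℝ D₁] [NormedDivisionRing D₂] [NormedAlgebra ℝ D₂]

/-- **Setup.** A quasi-isometric embedding gives difference elements over a Robinson division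
ring, at a base sequence with few bad translates. -/
theorem with_setup {I : Type} [Fintype I] [DecidableEq I] [Nonempty I] {B : IForm I}
    {F : FormData D₂} {f : ANSL n D₁ → (Matrix I I D₂)ˣ} {L C : ℝ} (hf : QIE B F f L C)
    {wI : I → (Fin n → ℝ) →ₗ[ℝ] ℝ} (hwI : WtI B wI) {m : ℕ} (b : Module.Basis (Fin m) ℝ D₁)
    (hct : ∀ (U : Ultrafilter ℕ) (r : ℕ → ℝ), (U : Filter ℕ) ≤ atTop →
      Tendsto r (U : Filter ℕ) atTop → ∀ (K : Type) [DivisionRing K] [Algebra ℝ K]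
      (R : RobData U r D₂ K) (S : FormK R.v),
      (∀ a, Mod U r a → S.σ (R.toK a) = R.toK (fun i => F.σ (a i))) →
      ∀ (ν : (Fin n → ℝ) → ℝ) (φ : (Fin n → ℝ) → (Fin n → ℝ) → Matrix I I K),
      FlatK S B ν φ → Nrm ν → ∀ (a : ℕ) (χ : Fin a → ((Fin n → ℝ) →L[ℝ] ℝ)),
        (∀ i, ∃ w, HasFDerivAt ν (χ i) w) → (∀ i j, i ≠ j → χ i ≠ χ j ∧ χ i ≠ -χ j) → a ≤ n)
    (hfr : ∀ (U : Ultrafilter ℕ) (r : ℕ → ℝ), (U : Filter ℕ) ≤ atTop →
      Tendsto r (U : Filter ℕ) atTop → ∀ (K : Type) [DivisionRing K] [Algebra ℝ K]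
      (R : RobData U r D₂ K) (S : FormK R.v),
      (∀ a, Mod U r a → S.σ (R.toK a) = R.toK (fun i => F.σ (a i))) →
      ∀ (ν : (Fin n → ℝ) → ℝ) (φ : (Fin n → ℝ) → (Fin n → ℝ) → Matrix I I K),
      FlatK S B ν φ → Nrm ν → ∀ T : (Fin n → ℝ) ≃ₗ[ℝ] (Fin n → ℝ),
        (∀ k : Fin n, ∃ w, ∃ χ : (Fin n → ℝ) →L[ℝ] ℝ, HasFDerivAt ν χ w ∧ ∀ p, χ p = T p k) →
        ∃ H, FrameK S B wI T φ H)
    {P : Prop}
    (key : ∀ (U : Ultrafilter ℕ) (r : ℕ → ℝ), (U : Filter ℕ) ≤ atTop →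
      Tendsto r (U : Filter ℕ) atTop → ∀ (K : Type) [DivisionRing K] [Algebra ℝ K]
      (R : RobData U r D₂ K) (S : FormK R.v),
      (∀ a, Mod U r a → S.σ (R.toK a) = R.toK (fun i => F.σ (a i))) →
      ∀ (Good : ℕ → Set (ANSL n D₁)) (g : ℕ → ANSL n D₁), BaseOK U r Good b g →
      ∀ (T : (Fin n → ℝ) ≃ₗ[ℝ] (Fin n → ℝ))
        (W : ℕ → ANSL n D₁ → ANSL n D₁ → Matrix I I D₂)
        (V : (ℕ → ANSL n D₁) → (ℕ → ANSL n D₁) → Matrix I I K),
      (∀ x ∈ GGs U r Good g, ∀ y ∈ GGs U r Good g, ∀ p q,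
        Mod U r (fun i => W i (x i) (y i) p q) ∧
          V x y p q = R.toK (fun i => W i (x i) (y i) p q)) →
      VData U r R.v S B wI T (GGs U r Good g) V → P) : P := by
  have hsol := ansl_solvable n D₁
  obtain ⟨M⟩ := exists_rmean (ANSL n D₁)
  obtain ⟨r, Good, hrt, hG, hE⟩ := exists_scales hf M
  obtain ⟨U, hU⟩ : ∃ U : Ultrafilter ℕ, (U : Filter ℕ) ≤ atTop :=
    ⟨Ultrafilter.of atTop, Ultrafilter.of_le atTop⟩
  have hr : Tendsto r (U : Filter ℕ) atTop := hrt.mono_left hU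
  obtain ⟨g, hg⟩ := exists_baseOK M U hU r hrt Good hG b
  obtain ⟨K, _, _, ⟨R⟩⟩ := exists_rob U r hr D₂
  obtain ⟨S, hS⟩ := exists_formK R hr F
  have hgood : ∀ᶠ i in (U : Filter ℕ), g i ∈ Good i := by
    filter_upwards [hg.c0 (.inl ())] with l hl
    have h : g l * word0 D₁ (.inl ()) = g l := mul_one _
    rwa [h] at hl
  obtain ⟨T, HH, h1, h2⟩ := exists_vdata R hf hU hr S hS hwI (hE U hU)
    (hct U r hU hr K R S hS) (hfr U r hU hr K R S hS) hgood
  exact key U r hU hr K R S hS Good g hg T (fun i x y => VV B F (HH i x) (HH i y)) _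
    (fun x hx y hy p q => ⟨h2 x hx y hy p q, rfl⟩) h1

/-- the special points near a base sequence with few bad translates -/
theorem BaseOK.mem {m : ℕ} {U : Ultrafilter ℕ} {r : ℕ → ℝ}
    (hr : Tendsto r (U : Filter ℕ) atTop) {Good : ℕ → Set (ANSL n D₁)}
    {b : Module.Basis (Fin m) ℝ D₁} {g : ℕ → ANSL n D₁} (hg : BaseOK U r Good b g) :
    g ∈ GGs U r Good g ∧
      (∀ (i j : Fin (n + 1)) (hij : i < j), g * rts hij (fun _ => 1) ∈ GGs U r Good g) ∧
      ∀ (i j k : Fin (n + 1)) (hij : i < j) (hjk : j < k),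
        Cfg (GGs U r Good g) g hij hjk (fun _ => 0) (fun _ => 1) := by
  have hc := clG_GGs (Good := Good) (g := g) hr
  refine ⟨?_, fun i j hij => ?_, fun i j k hij hjk => ?_⟩
  · have h := hc 1 (UMod.one hr) (hg.c0 (.inl ()))
    rwa [mul_one] at h
  · exact hc _ (UMod.rts hr hij (Mod.const hr 1)) (hg.c0 (.inr (.inl ⟨(i, j), hij⟩)))
  · exact cfg_of hr hc hij hjk (Mod.const hr 0) (Mod.const hr 1)
      fun t => hg.c0 (.inr (.inr t))

theorem wtI_wl (F : FormData D₂) : WtI (iform0 n F) (wl : Fin n ⊕ Fin n → (Fin n → ℝ) →ₗ[ℝ] ℝ) where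
  ex k := ⟨.inl k, fun _ => rfl⟩
  cases p := by
    rcases p with k | k
    · exact .inr ⟨k, .inl fun _ => rfl⟩
    · exact .inr ⟨k, .inr fun _ => rfl⟩
  sum t := sum_wl t
  bar p t := wl_swap p t

theorem jc_swap (F : FormData D₂) (p : Fin n ⊕ Fin n) :
    (iform0 n F).jc ((iform0 n F).bar p) = (-F.ε) * (iform0 n F).jc p := by
  rcases F.hε with h | h <;> rcases p with k | k <;> simp [iform0, h]

/-- **Main theorem, classical targets.** -/
theorem main [FiniteDimensional ℝ D₂] (hn : 2 ≤ n) (F : FormData D₂)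
    (f : ANSL n D₁ → (Matrix (Fin n ⊕ Fin n) (Fin n ⊕ Fin n) D₂)ˣ)
    {L C : ℝ} (hf : QIE (iform0 n F) F f L C) :
    Module.finrank ℝ D₁ ≤ Module.finrank ℝ F.L ∨
      (n = 3 ∧ Module.finrank ℝ D₁ ≤ Module.finrank ℝ (FM F)) := by
  have hn0 : 0 < n := by omega
  have hne : Nonempty (Fin n ⊕ Fin n) := ⟨.inl ⟨0, hn0⟩⟩
  have hεε : F.ε * F.ε = 1 := F.ε_mul_self
  refine with_setup hf (wtI_wl F) (Module.finBasis ℝ D₁) ?_ ?_ ?_
  · intro U r hU hr K _ _ R S hS ν φ hφ hν a χ hχ hne'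
    have h := FlatK.count hU hr F hS hφ hν hn0 (neg_ne_zero.2 F.ε_ne_zero) (jc_swap F) a χ hχ hne'
    rw [Fintype.card_sum, Fintype.card_fin] at h
    omega
  · intro U r hU hr K _ _ R S hS ν φ hφ hν T hT
    exact FlatK.exists_frame rfl hU hr hS hφ hν hn0 (by rw [neg_mul_neg]; exact hεε)
      (jc_swap F) T hT
  · intro U r hU hr K _ _ R S hS Good g hb T W V hW hV
    obtain ⟨hg, c1, c2⟩ := hb.mem hr
    have hcl := clG_GGs (Good := Good) (g := g) hr
    have hdiag : ∀ x ∈ GGs U r Good g, ∀ q, V g x q q ≠ 0 := fun x hx q =>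
      vdata_diag_ne hV hg hx fun p hp => wl_separate fun v => by rw [hp]
    rcases alg_out hn hr R.hv S F T _ V hV (modG_GGs hr) g hg c1 c2 with
      ⟨i, j, k, hij, hjk, p, κ, -, h1, h2, h3⟩ |
      ⟨hn3, i, j, k, l, hij, hjk, hkl, p, q, κ, -, h0, h0', h1, h2, h3⟩
    · left
      refine fin_root R hr F S hS (Module.finBasis ℝ D₁) hb hcl W V hW hij hjk p p.swap
        (fun x hx => hdiag x hx _) κ F.ε hεε F.L (fun z => F.mem_L z) (fun _ => 1)
        (Mod.const hr 1) (by rw [toK_one R, R.hv.one]) ?_ h2 h3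
      intro u hu
      have h4 := hu (⟨(i, k), hij.trans hjk⟩, none)
      have h5 : (fun l => word1 ((⟨(i, k), hij.trans hjk⟩ : Pr n), none) (u l)) =
          rts (hij.trans hjk) u := by
        funext l
        simp [word1, rts]
      rw [h5] at h4
      rw [toK_one R, mul_one]
      exact h1 u h4
    · right
      refine ⟨hn3, ?_⟩
      -- the constant
      obtain ⟨y, hy⟩ : ∃ y : ℕ → ANSL n D₁, y = g * rts (hjk.trans hkl) (fun _ => 1) := ⟨_, rfl⟩
      have hx1 : y ∈ GGs U r Good g := hy ▸ c1 j l (hjk.trans hkl)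
      obtain ⟨m1, e1⟩ := hW g hg _ hx1 p q.swap
      obtain ⟨m2, e2⟩ := hW g hg _ hx1 q.swap q.swap
      have hq2 := hdiag _ hx1 q.swap
      rw [e2] at hq2
      obtain ⟨m3, e3⟩ := R.inv hr m2 hq2
      have he : R.toK (fun t => F.σ (W t (g t) (y t) p q.swap *
          (W t (g t) (y t) q.swap q.swap)⁻¹)) =
          S.σ (psiV V g (hjk.trans hkl) p q.swap (fun _ => 1)) := by
        rw [← hS _ (m1.mul m3), R.mul _ _ m1 m3, e3, psiV, ← hy, e1, e2]
      refine fin_root R hr F S hS (Module.finBasis ℝ D₁) hb hcl W V hW hij hjk p q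
        (fun x hx => hdiag x hx _) κ (-F.ε) (by rw [neg_mul_neg]; exact hεε) (FM F)
        (fun z => by rw [mem_FM, neg_smul]) _ ((m1.mul m3).map F)
        (by rw [he, S.norm_σ]; exact h0') ?_ h2 h3
      intro u hu
      have h4 := hu (⟨(i, k), hij.trans hjk⟩, none)
      have h5 : (fun l => word1 ((⟨(i, k), hij.trans hjk⟩ : Pr n), none) (u l)) =
          rts (hij.trans hjk) u := by
        funext l
        simp [word1, rts]
      rw [h5] at h4
      have h6 := hu (⟨(i, k), hij.trans hjk⟩, some ⟨(j, l), hjk.trans hkl⟩)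
      have h7 : g * (fun t => word1 ((⟨(i, k), hij.trans hjk⟩ : Pr n),
          some ⟨(j, l), hjk.trans hkl⟩) (u t)) =
          g * rts (hij.trans hjk) u * rts (hjk.trans hkl) (fun _ => 1) := by
        funext t
        simp [word1, rts, mul_assoc]
      rw [h7] at h6
      rw [he, neg_smul]
      exact h1 u h4 h6

end

end Pool.Agent.ANQ
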