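import Pool.Agent.ANQ.FinCore

/-!
# The finite level: functions with values in a division ring with involution
-/

namespace Pool.Agent.ANQ

open Filter Topology Pool.Agent.ANM51

set_option linter.unusedSectionVars false

section

variable {U : Ultrafilter ℕ} {r : ℕ → ℝ} {D K : Type} [NormedDivisionRing D] [NormedAlgebra ℝ D]
  [DivisionRing K] [Algebra ℝ K] (R : RobData U r D K)

theorem RobData.congr (hr : Tendsto r (U : Filter ℕ) atTop) {a a' : ℕ → D} (ha : Mod U r a)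
    (ha' : Mod U r a') (h : ∀ᶠ i in (U : Filter ℕ), a i = a' i) : R.toK a = R.toK a' := by
  rw [R.eq_iff hr ha ha']
  exact Neg.of_eventually_zero (h.mono fun i hi => sub_eq_zero.2 hi)

theorem RobData.one' (hr : Tendsto r (U : Filter ℕ) atTop) : R.toK (fun _ => 1) = 1 := by
  have h := R.alg 1
  simpa using h

/-- inverses of classes -/
theorem RobData.inv (hr : Tendsto r (U : Filter ℕ) atTop) {a : ℕ → D} (ha : Mod U r a)
    (h0 : R.toK a ≠ 0) :
    Mod U r (fun i => (a i)⁻¹) ∧ R.toK (fun i => (a i)⁻¹) = (R.toK a)⁻¹ := by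
  have h1 : ¬ Neg U r a := fun h => h0 ((R.zero_iff a ha).2 h)
  obtain ⟨h2, h3⟩ := Mod.inv h1
  refine ⟨h2, ?_⟩
  apply eq_inv_of_mul_eq_one_left
  rw [← R.mul _ _ h2 ha, ← R.one' hr]
  refine R.congr hr (h2.mul ha) (Mod.const hr 1) (h3.mono fun i hi => inv_mul_cancel₀ hi)

theorem fc_half (F : FormData D) {s : ℝ} (hs : s * s = 1) {L : Submodule ℝ D}
    (hL : ∀ z, z ∈ L ↔ F.σ z = s • z) (z : D) :
    (1 / 2 : ℝ) • (z + s • F.σ z) ∈ L := by
  rw [hL, map_smul, map_add, map_smul, F.invol, smul_comm s, smul_add s, smul_smul, hs, one_smul,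
    add_comm]

/-- **The finite level** for functions with values in `L = {z : σ z = s z}`. -/
theorem fin_core2 {m : ℕ} {E : Type} [NormedAddCommGroup E] [NormedSpace ℝ E]
    [FiniteDimensional ℝ E] [FiniteDimensional ℝ D]
    (hr : Tendsto r (U : Filter ℕ) atTop) (F : FormData D) (S : FormK R.v)
    (hS : ∀ a, Mod U r a → S.σ (R.toK a) = R.toK (fun i => F.σ (a i)))
    (b : Module.Basis (Fin m) ℝ E) (s : ℝ) (hs : s * s = 1) (L : Submodule ℝ D)
    (hL : ∀ z, z ∈ L ↔ F.σ z = s • z) (ψ : ℕ → E → D) (P : ℕ → E → E → Prop) (B : ℕ → E → Prop)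
    (hP : ∀ δ : ℝ, 0 < δ → ∀ᶠ i in (U : Filter ℕ),
      (Set.ncard {q : (Fin m → ℤ) × (Fin m → ℤ) |
        q ∈ box m (4 * ⌊Real.exp (r i)⌋₊) ×ˢ box m (4 * ⌊Real.exp (r i)⌋₊) ∧
          P i (lat b q.1) (lat b q.2)} : ℝ) ≤
        δ * ((box m (4 * ⌊Real.exp (r i)⌋₊)).card : ℝ) ^ 2)
    (hB : ∀ δ : ℝ, 0 < δ → ∀ᶠ i in (U : Filter ℕ),
      (Set.ncard {u | u ∈ box m (4 * ⌊Real.exp (r i)⌋₊) ∧ B i (lat b u)} : ℝ) ≤
        δ * ((box m (4 * ⌊Real.exp (r i)⌋₊)).card : ℝ))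
    (m1 : ∀ u : ℕ → E, Mod U r u → (∀ᶠ i in (U : Filter ℕ), ¬ B i (u i)) →
      Mod U r (fun i => ψ i (u i)) ∧
        S.σ (R.toK fun i => ψ i (u i)) = s • R.toK fun i => ψ i (u i))
    (m2 : ∀ u w : ℕ → E, Mod U r u → Mod U r w →
      (∀ᶠ i in (U : Filter ℕ), ¬ P i (u i) (w i)) →
      Neg U r (fun i => ψ i (u i + w i) - ψ i (u i) - ψ i (w i)))
    (m3 : ∀ u w : ℕ → E, Mod U r u → Mod U r w → (∀ᶠ i in (U : Filter ℕ), ¬ B i (u i)) →
      (∀ᶠ i in (U : Filter ℕ), ¬ B i (w i)) →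
      (ExpGe U r (w - u) 0 →
        1 ≤ R.v ((R.toK fun i => ψ i (w i)) - R.toK fun i => ψ i (u i))) ∧
      (ExpLe U r (w - u) 0 →
        R.v ((R.toK fun i => ψ i (w i)) - R.toK fun i => ψ i (u i)) ≤ 1)) :
    m ≤ Module.finrank ℝ L := by
  have hsa : |s| = 1 := by
    have h1 : |s| * |s| = 1 := by rw [← abs_mul, hs, abs_one]
    nlinarith [abs_nonneg s]
  letI π : D → D := fun z => (1 / 2 : ℝ) • (z + s • F.σ z)
  have hπL : ∀ z, π z ∈ L := fc_half F hs hL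
  have hπsub : ∀ x y, π (x - y) = π x - π y := by
    intro x y
    simp only [π, map_sub, smul_sub, smul_add]
    abel
  have hπn : ∀ z, ‖π z‖ ≤ ‖z‖ := by
    intro z
    calc ‖π z‖ = (1 / 2) * ‖z + s • F.σ z‖ := by
          simp only [π]
          rw [norm_smul, Real.norm_eq_abs, abs_of_pos (by norm_num)]
      _ ≤ (1 / 2) * (‖z‖ + ‖s • F.σ z‖) :=
          mul_le_mul_of_nonneg_left (norm_add_le _ _) (by norm_num)
      _ = ‖z‖ := by rw [norm_smul, F.norm_σ, Real.norm_eq_abs, hsa]; ring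
  -- the class of `π z`
  have hπK : ∀ z : ℕ → D, Mod U r z → S.σ (R.toK z) = s • R.toK z →
      Mod U r (fun i => π (z i)) ∧ R.toK (fun i => π (z i)) = R.toK z := by
    intro z hz hσ
    have h1 : Mod U r (fun i => π (z i)) := by
      obtain ⟨C, hC⟩ := hz
      exact ⟨C, hC.mono fun i hi => (hπn _).trans hi⟩
    refine ⟨h1, ?_⟩
    have hm1 := hz.map F
    have hm2 : Mod U r (fun i => s • F.σ (z i)) := by
      obtain ⟨C, hC⟩ := hm1
      exact ⟨C, hC.mono fun i hi => by rw [norm_smul, Real.norm_eq_abs, hsa, one_mul]; exact hi⟩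
    have h2 : R.toK (fun i => π (z i)) =
        (1 / 2 : ℝ) • (R.toK z + s • R.toK fun i => F.σ (z i)) := by
      rw [← R.smul hr s hm1, ← R.add _ _ hz hm2, ← R.smul hr (1 / 2) (hz.add hr hm2)]
    rw [h2, ← hS z hz, hσ, smul_smul, hs, one_smul, ← two_smul ℝ, smul_smul]
    norm_num
  let θ : ℕ → E → L := fun i u => ⟨π (ψ i u), hπL _⟩
  have hθ : ∀ i (u w : E), ‖θ i w - θ i u‖ = ‖π (ψ i w - ψ i u)‖ := by
    intro i u w
    rw [hπsub]
    rfl
  refine fin_core U r hr b θ P B hP hB ?_ ?_ ?_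
  · intro u w hu hw huw C
    filter_upwards [m2 u w hu hw huw C] with i hi
    have h1 : ‖θ i (u i + w i) - θ i (u i) - θ i (w i)‖ =
        ‖π (ψ i (u i + w i) - ψ i (u i) - ψ i (w i))‖ := by
      rw [hπsub, hπsub]
      rfl
    rw [h1]
    exact (hπn _).trans hi
  · intro u w hu hw hBu hBw hge η hη
    obtain ⟨hmu, hσu⟩ := m1 u hu hBu
    obtain ⟨hmw, hσw⟩ := m1 w hw hBw
    have h1 := (m3 u w hu hw hBu hBw).1 hge
    rw [← R.sub hr hmw hmu] at h1
    obtain ⟨h2, h3⟩ := hπK (fun i => ψ i (w i) - ψ i (u i)) (hmw.sub hr hmu) (by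
      rw [R.sub hr hmw hmu, map_sub, hσu, hσw, smul_sub])
    rw [← h3, ← Real.exp_zero, le_v_iff R hr h2] at h1
    filter_upwards [h1 η hη] with i hi
    rw [hθ]
    refine le_trans (le_of_eq ?_) hi
    congr 1
    ring
  · intro u w hu hw hBu hBw hle η hη
    obtain ⟨hmu, hσu⟩ := m1 u hu hBu
    obtain ⟨hmw, hσw⟩ := m1 w hw hBw
    have h1 := (m3 u w hu hw hBu hBw).2 hle
    rw [← R.sub hr hmw hmu] at h1
    obtain ⟨h2, h3⟩ := hπK (fun i => ψ i (w i) - ψ i (u i)) (hmw.sub hr hmu) (by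
      rw [R.sub hr hmw hmu, map_sub, hσu, hσw, smul_sub])
    rw [← h3, ← Real.exp_zero, v_le_iff R hr h2] at h1
    filter_upwards [h1 η hη] with i hi
    rw [hθ]
    refine hi.trans (le_of_eq ?_)
    congr 1
    ring

end

end Pool.Agent.ANQ
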