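import Pool.Agent.ANQ.FinWord
import Pool.Agent.ANM65.VGen

/-!
# The finite level: one root and the dimension bound
-/

namespace Pool.Agent.ANQ

open Matrix Filter Topology Pool.Agent.ANM51

set_option linter.unusedSectionVars false

section

variable {n : ℕ} {D₁ : Type} [NormedDivisionRing D₁] [NormedAlgebra ℝ D₁]
  [FiniteDimensional ℝ D₁]

/-- The base sequence `g` has few bad translates. -/
structure BaseOK {m : ℕ} (U : Ultrafilter ℕ) (r : ℕ → ℝ) (Good : ℕ → Set (ANSL n D₁))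
    (b : Module.Basis (Fin m) ℝ D₁) (g : ℕ → ANSL n D₁) : Prop where
  c0 : ∀ k, ∀ᶠ i in (U : Filter ℕ), g i * word0 D₁ k ∈ Good i
  c1 : ∀ δ : ℝ, 0 < δ → ∀ᶠ i in (U : Filter ℕ),
      (Set.ncard {u | u ∈ box m (4 * ⌊Real.exp (r i)⌋₊) ∧
        ∃ k, g i * word1 k (lat b u) ∉ Good i} : ℝ) ≤
        δ * ((box m (4 * ⌊Real.exp (r i)⌋₊)).card : ℝ)
  c2 : ∀ δ : ℝ, 0 < δ → ∀ᶠ i in (U : Filter ℕ),
      (Set.ncard {q : (Fin m → ℤ) × (Fin m → ℤ) |
        q ∈ box m (4 * ⌊Real.exp (r i)⌋₊) ×ˢ box m (4 * ⌊Real.exp (r i)⌋₊) ∧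
          ∃ k, g i * word2 k (lat b q.1) (lat b q.2) ∉ Good i} : ℝ) ≤
        δ * ((box m (4 * ⌊Real.exp (r i)⌋₊)).card : ℝ) ^ 2

theorem le_card_box (m N : ℕ) : (N : ℝ) ^ m ≤ ((box m (4 * N)).card : ℝ) := by
  rw [card_box]
  push_cast
  refine pow_le_pow_left₀ (Nat.cast_nonneg _) ?_ _
  have : (0 : ℝ) ≤ N := Nat.cast_nonneg _
  linarith

theorem exists_baseOK {m : ℕ} (M : RMean (ANSL n D₁)) (U : Ultrafilter ℕ)
    (hU : (U : Filter ℕ) ≤ atTop) (r : ℕ → ℝ) (hr : Tendsto r atTop atTop)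
    (Good : ℕ → Set (ANSL n D₁))
    (hG : ∀ i, M.m (fun x => Set.indicator (Good i)ᶜ (fun _ => (1 : ℝ)) x) ≤ 1 / ((i : ℝ) + 1))
    (b : Module.Basis (Fin m) ℝ D₁) : ∃ g, BaseOK U r Good b g := by
  have hN : ∀ᶠ i in atTop, 1 ≤ ⌊Real.exp (r i)⌋₊ := by
    filter_upwards [hr.eventually_ge_atTop 0] with i hi
    rw [Nat.one_le_floor_iff]
    exact Real.one_le_exp hi
  obtain ⟨g, h0, h2, h1⟩ := choose_base M Good hG (m := m) (fun i => ⌊Real.exp (r i)⌋₊) hN
    (fun _ (t : Trip n × Bool × Fin 7) u w => word2 t (lat b u) (lat b w))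
    (fun _ (t : Pr n × Option (Pr n)) u => word1 t (lat b u)) (fun _ => word0 D₁)
  refine ⟨g, fun k => ?_, fun δ hδ => ?_, fun δ hδ => ?_⟩
  · filter_upwards [h0.filter_mono hU] with i hi using hi k
  · filter_upwards [(h1 δ hδ).filter_mono hU] with i hi
    refine le_trans (le_trans (le_of_eq ?_) hi)
      (mul_le_mul_of_nonneg_left (le_card_box m _) hδ.le)
    congr 2
    ext u
    simp only [Set.mem_inter_iff, Set.mem_setOf_eq, Finset.mem_coe]
    tauto
  · filter_upwards [(h2 δ hδ).filter_mono hU] with i hi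
    refine le_trans (le_trans (le_of_eq ?_) hi)
      (mul_le_mul_of_nonneg_left (pow_le_pow_left₀ (by positivity) (le_card_box m _) 2) hδ.le)
    congr 2
    ext q
    simp only [Set.mem_inter_iff, Set.mem_setOf_eq, Set.mem_prod, Finset.mem_coe,
      Finset.mem_product]
    tauto

variable {U : Ultrafilter ℕ} {r : ℕ → ℝ} {D₂ K : Type} [NormedDivisionRing D₂]
  [NormedAlgebra ℝ D₂] [FiniteDimensional ℝ D₂] [DivisionRing K] [Algebra ℝ K]
  (R : RobData U r D₂ K) {I : Type} [Fintype I] [DecidableEq I]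

/-- **One root.** -/
theorem fin_root {m : ℕ} (hr : Tendsto r (U : Filter ℕ) atTop) (F : FormData D₂)
    (S : FormK R.v) (hS : ∀ a, Mod U r a → S.σ (R.toK a) = R.toK (fun i => F.σ (a i)))
    {Good : ℕ → Set (ANSL n D₁)} {g : ℕ → ANSL n D₁} {GG : Set (ℕ → ANSL n D₁)}
    (b : Module.Basis (Fin m) ℝ D₁) (hb : BaseOK U r Good b g) (hGG : ClG U r Good g GG)
    (VV : ℕ → ANSL n D₁ → ANSL n D₁ → Matrix I I D₂)
    (V : (ℕ → ANSL n D₁) → (ℕ → ANSL n D₁) → Matrix I I K)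
    (hVV : ∀ x ∈ GG, ∀ y ∈ GG, ∀ p q, Mod U r (fun i => VV i (x i) (y i) p q) ∧
      V x y p q = R.toK (fun i => VV i (x i) (y i) p q))
    {i j k : Fin (n + 1)} (hij : i < j) (hjk : j < k) (p q : I)
    (hq : ∀ x ∈ GG, V g x q q ≠ 0) (κ s : ℝ) (hs : s * s = 1) (L : Submodule ℝ D₂)
    (hL : ∀ z, z ∈ L ↔ F.σ z = s • z) (e : ℕ → D₂) (he : Mod U r e) (hve : R.v (R.toK e) = 1)
    (H1 : ∀ u : ℕ → D₁, (∀ t : Pr n × Option (Pr n), g * (fun l => word1 t (u l)) ∈ GG) →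
      S.σ (psiV V g (hij.trans hjk) p q u * R.toK e) =
        s • (psiV V g (hij.trans hjk) p q u * R.toK e))
    (H2 : ∀ u w, Cfg GG g hij hjk u w → psiV V g (hij.trans hjk) p q (u + w) =
        psiV V g (hij.trans hjk) p q u + psiV V g (hij.trans hjk) p q w)
    (H3 : ∀ (a b : ℕ → D₁) (τ : ℝ), g * rts (hij.trans hjk) a ∈ GG →
      g * rts (hij.trans hjk) b ∈ GG →
        (ExpGe U r (b - a) τ → Real.exp (κ * τ) ≤
          R.v (psiV V g (hij.trans hjk) p q b - psiV V g (hij.trans hjk) p q a)) ∧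
        (ExpLe U r (b - a) τ →
          R.v (psiV V g (hij.trans hjk) p q b - psiV V g (hij.trans hjk) p q a) ≤
            Real.exp (κ * τ))) :
    m ≤ Module.finrank ℝ L := by
  -- `g` itself
  have hg : g ∈ GG := by
    have h := hGG 1 (UMod.one hr) (by
      filter_upwards [hb.c0 (.inl ())] with l hl using hl)
    rwa [mul_one] at h
  -- the function at the finite level
  let ψ : ℕ → D₁ → D₂ := fun l u =>
    VV l (g l) (g l * rt (hij.trans hjk) u) p q *
      (VV l (g l) (g l * rt (hij.trans hjk) u) q q)⁻¹ * e l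
  have hψ : ∀ u : ℕ → D₁, g * rts (hij.trans hjk) u ∈ GG →
      Mod U r (fun l => ψ l (u l)) ∧
        R.toK (fun l => ψ l (u l)) = psiV V g (hij.trans hjk) p q u * R.toK e := by
    intro u hu
    obtain ⟨h1, h1'⟩ := hVV g hg _ hu p q
    obtain ⟨h2, h2'⟩ := hVV g hg _ hu q q
    have h3 := hq _ hu
    rw [h2'] at h3
    obtain ⟨h4, h4'⟩ := R.inv hr h2 h3
    refine ⟨(h1.mul h4).mul he, ?_⟩
    rw [psiV, h1', h2', ← h4', ← R.mul _ _ h1 h4, ← R.mul _ _ (h1.mul h4) he]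
    rfl
  have hcfg : ∀ u w : ℕ → D₁, Cfg GG g hij hjk u w → g * rts (hij.trans hjk) u ∈ GG ∧
      g * rts (hij.trans hjk) w ∈ GG ∧ g * rts (hij.trans hjk) (u + w) ∈ GG := by
    intro u w h
    have h1 := h g (Set.mem_insert _ _)
    have h2 := h (g * rts (hij.trans hjk) u) (Set.mem_insert_of_mem _ (Set.mem_singleton _))
    refine ⟨h2.1, h1.2.2.2.2.2.1, ?_⟩
    have h3 := h2.2.2.2.2.2.1
    have h4 : g * rts (hij.trans hjk) u * rts (hij.trans hjk) w =
        g * rts (hij.trans hjk) (u + w) := by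
      funext l
      simp only [Pi.mul_apply, rts, Pi.add_apply, rt_add, mul_assoc]
    rwa [h4] at h3
  refine fin_core2 R hr F S hS b s hs L hL ψ
    (fun l u w => ∃ t, g l * word2 t u w ∉ Good l) (fun l u => ∃ t, g l * word1 t u ∉ Good l)
    hb.c2 hb.c1 ?_ ?_ ?_
  · intro u hu hB
    have h1 : ∀ t : Pr n × Option (Pr n), g * (fun l => word1 t (u l)) ∈ GG := by
      intro t
      refine hGG _ (umod_word1 hr t hu) ?_
      filter_upwards [hB] with l hl
      by_contra hc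
      exact hl ⟨t, hc⟩
    have h2 : g * rts (hij.trans hjk) u ∈ GG := by
      have h3 := h1 (⟨(i, k), hij.trans hjk⟩, none)
      have h4 : (fun l => word1 ((⟨(i, k), hij.trans hjk⟩ : Pr n), none) (u l)) =
          rts (hij.trans hjk) u := by
        funext l
        simp [word1, rts]
      rwa [h4] at h3
    obtain ⟨h5, h6⟩ := hψ u h2
    refine ⟨h5, ?_⟩
    rw [h6]
    exact H1 u h1
  · intro u w hu hw hP
    have h1 : Cfg GG g hij hjk u w := by
      refine cfg_of hr hGG hij hjk hu hw fun t => ?_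
      filter_upwards [hP] with l hl
      by_contra hc
      exact hl ⟨t, hc⟩
    obtain ⟨h2, h3, h4⟩ := hcfg u w h1
    obtain ⟨m2, e2⟩ := hψ u h2
    obtain ⟨m3, e3⟩ := hψ w h3
    obtain ⟨m4, e4⟩ := hψ (u + w) h4
    have h5 := R.zero_iff _ ((m4.sub hr m2).sub hr m3)
    refine h5.1 ?_
    rw [R.sub hr (m4.sub hr m2) m3, R.sub hr m4 m2, e4, e2, e3, H2 u w h1, add_mul]
    abel
  · intro u w hu hw hBu hBw
    have hmem : ∀ u : ℕ → D₁, Mod U r u →
        (∀ᶠ l in (U : Filter ℕ), ¬ ∃ t, g l * word1 t (u l) ∉ Good l) →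
        g * rts (hij.trans hjk) u ∈ GG := by
      intro u hu hB
      have h3 : g * (fun l => word1 ((⟨(i, k), hij.trans hjk⟩ : Pr n), none) (u l)) ∈ GG := by
        refine hGG _ (umod_word1 hr _ hu) ?_
        filter_upwards [hB] with l hl
        by_contra hc
        exact hl ⟨_, hc⟩
      have h4 : (fun l => word1 ((⟨(i, k), hij.trans hjk⟩ : Pr n), none) (u l)) =
          rts (hij.trans hjk) u := by
        funext l
        simp [word1, rts]
      rwa [h4] at h3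
    have h1 := hmem u hu hBu
    have h2 := hmem w hw hBw
    obtain ⟨-, e1⟩ := hψ u h1
    obtain ⟨-, e2⟩ := hψ w h2
    have h3 := H3 u w 0 h1 h2
    rw [mul_zero, Real.exp_zero] at h3
    rw [e1, e2, ← sub_mul, R.hv.mul, hve, mul_one]
    exact h3

end

end Pool.Agent.ANQ
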