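import Pool.Agent.ANQ.FinRob
import Pool.Agent.ANQ.Fin
import Pool.Agent.ANM51.Fam

/-!
# The finite level: words and base points
-/

namespace Pool.Agent.ANQ

open Matrix Filter Topology Pool.Agent.ANM51

set_option linter.unusedSectionVars false

section

variable {n : ℕ} {D₁ : Type} [NormedDivisionRing D₁] [NormedAlgebra ℝ D₁]

/-- unipotent moderate sequences -/
structure UMod (U : Ultrafilter ℕ) (r : ℕ → ℝ) (c : ℕ → ANSL n D₁) : Prop where
  diag : ∀ i p, (c i).1.val p p = 1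
  mod : ∀ p q, Mod U r (fun i => (c i).1.val p q)
  modi : ∀ p q, Mod U r (fun i => (c i)⁻¹.1.val p q)

variable {U : Ultrafilter ℕ} {r : ℕ → ℝ}

theorem UMod.one (hr : Tendsto r (U : Filter ℕ) atTop) :
    UMod U r (1 : ℕ → ANSL n D₁) := by
  refine ⟨fun i p => ?_, fun p q => ?_, fun p q => ?_⟩
  · exact Matrix.one_apply_eq p
  · exact Mod.const hr ((1 : Matrix (Fin (n + 1)) (Fin (n + 1)) D₁) p q)
  · have h : ∀ i : ℕ, ((1 : ℕ → ANSL n D₁) i)⁻¹ = 1 := fun i => inv_one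
    simp only [h]
    exact Mod.const hr ((1 : Matrix (Fin (n + 1)) (Fin (n + 1)) D₁) p q)

theorem UMod.mul (hr : Tendsto r (U : Filter ℕ) atTop) {c c' : ℕ → ANSL n D₁}
    (h : UMod U r c) (h' : UMod U r c') : UMod U r (c * c') := by
  refine ⟨fun i p => ?_, fun p q => ?_, fun p q => ?_⟩
  · change ((c i).1.val * (c' i).1.val) p p = 1
    rw [IsTri.mul_diag Fin.val_injective (c i).2.1.1 (c' i).2.1.1, h.diag, h'.diag, mul_one]
  · change Mod U r (fun i => ((c i).1.val * (c' i).1.val) p q)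
    simp only [Matrix.mul_apply]
    exact Mod.sum hr _ _ fun j => (h.mod p j).mul (h'.mod j q)
  · have h1 : ∀ i, ((c * c') i)⁻¹ = (c' i)⁻¹ * (c i)⁻¹ := fun i => mul_inv_rev _ _
    simp only [h1]
    change Mod U r (fun i => (((c' i)⁻¹).1.val * ((c i)⁻¹).1.val) p q)
    simp only [Matrix.mul_apply]
    exact Mod.sum hr _ _ fun j => (h'.modi p j).mul (h.modi j q)

theorem mod_rtM (hr : Tendsto r (U : Filter ℕ) atTop) (i j p q : Fin (n + 1)) {y : ℕ → D₁}
    (hy : Mod U r y) : Mod U r (fun k => rtM i j (y k) p q) := by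
  simp only [rtM, Matrix.add_apply]
  refine (Mod.const hr _).add hr ?_
  by_cases h : i = p ∧ j = q
  · obtain ⟨rfl, rfl⟩ := h
    simpa using hy
  · simp only [Matrix.single_apply_of_ne _ _ _ _ _ h]
    exact Mod.const hr 0

theorem UMod.rts (hr : Tendsto r (U : Filter ℕ) atTop) {i j : Fin (n + 1)} (hij : i < j)
    {y : ℕ → D₁} (hy : Mod U r y) : UMod U r (rts hij y) := by
  refine ⟨fun k p => rtM_diag hij (y k) p, fun p q => mod_rtM hr i j p q hy, fun p q => ?_⟩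
  exact mod_rtM hr i j p q hy.neg

/-- pairs `i < j` -/
abbrev Pr (n : ℕ) : Type := {t : Fin (n + 1) × Fin (n + 1) // t.1 < t.2}

/-- triples `i < j < k` -/
abbrev Trip (n : ℕ) : Type :=
  {t : Fin (n + 1) × Fin (n + 1) × Fin (n + 1) // t.1 < t.2.1 ∧ t.2.1 < t.2.2}

/-- the words of the configuration -/
noncomputable def cw {i j k : Fin (n + 1)} (hij : i < j) (hjk : j < k) (w : D₁) :
    Fin 7 → ANSL n D₁ :=
  ![1, rt hij w, rt hjk 1, rt hij w * rt hjk 1, rt hjk 1 * rt hij w, rt (hij.trans hjk) w,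
    rt hjk 1 * rt (hij.trans hjk) w]

/-- the words with two parameters -/
noncomputable def word2 (t : Trip n × Bool × Fin 7) (u w : D₁) : ANSL n D₁ :=
  (if t.2.1 then rt (t.1.2.1.trans t.1.2.2) u else 1) * cw t.1.2.1 t.1.2.2 w t.2.2

/-- the words with one parameter -/
noncomputable def word1 (t : Pr n × Option (Pr n)) (u : D₁) : ANSL n D₁ :=
  rt t.1.2 u * (match t.2 with
    | none => 1
    | some s => rt s.2 1)

/-- the words without parameters -/
noncomputable def word0 (D₁ : Type) [NormedDivisionRing D₁] [NormedAlgebra ℝ D₁] :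
    Unit ⊕ (Pr n ⊕ (Trip n × Bool × Fin 7)) → ANSL n D₁
  | .inl _ => 1
  | .inr (.inl t) => rt t.2 1
  | .inr (.inr t) => word2 t 0 1

theorem umod_cw (hr : Tendsto r (U : Filter ℕ) atTop) {i j k : Fin (n + 1)} (hij : i < j)
    (hjk : j < k) {w : ℕ → D₁} (hw : Mod U r w) (a : Fin 7) :
    UMod U r (fun l => cw hij hjk (w l) a) := by
  have h1 : Mod U r (fun _ => (1 : D₁)) := Mod.const hr 1
  fin_cases a
  · exact UMod.one hr
  · exact UMod.rts hr hij hw
  · exact UMod.rts hr hjk h1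
  · exact (UMod.rts hr hij hw).mul hr (UMod.rts hr hjk h1)
  · exact (UMod.rts hr hjk h1).mul hr (UMod.rts hr hij hw)
  · exact UMod.rts hr (hij.trans hjk) hw
  · exact (UMod.rts hr hjk h1).mul hr (UMod.rts hr (hij.trans hjk) hw)

theorem umod_word2 (hr : Tendsto r (U : Filter ℕ) atTop) (t : Trip n × Bool × Fin 7)
    {u w : ℕ → D₁} (hu : Mod U r u) (hw : Mod U r w) :
    UMod U r (fun l => word2 t (u l) (w l)) := by
  obtain ⟨t, b, a⟩ := t
  have h1 := umod_cw hr t.2.1 t.2.2 hw a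
  cases b with
  | false => exact (UMod.one hr).mul hr h1
  | true => exact (UMod.rts hr (t.2.1.trans t.2.2) hu).mul hr h1

theorem umod_word1 (hr : Tendsto r (U : Filter ℕ) atTop) (t : Pr n × Option (Pr n))
    {u : ℕ → D₁} (hu : Mod U r u) : UMod U r (fun l => word1 t (u l)) := by
  obtain ⟨t, s⟩ := t
  have h1 := UMod.rts hr t.2 hu
  cases s with
  | none => exact h1.mul hr (UMod.one hr)
  | some s => exact h1.mul hr (UMod.rts hr s.2 (Mod.const hr 1))

/-- A set of sequences which contains all the eventually good sequences `g c`, `c` unipotent and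
moderate. -/
def ClG (U : Ultrafilter ℕ) (r : ℕ → ℝ) (Good : ℕ → Set (ANSL n D₁)) (g : ℕ → ANSL n D₁)
    (GG : Set (ℕ → ANSL n D₁)) : Prop :=
  ∀ c : ℕ → ANSL n D₁, UMod U r c → (∀ᶠ i in (U : Filter ℕ), g i * c i ∈ Good i) → g * c ∈ GG

variable {Good : ℕ → Set (ANSL n D₁)} {g : ℕ → ANSL n D₁} {GG : Set (ℕ → ANSL n D₁)}

theorem cfg_of (hr : Tendsto r (U : Filter ℕ) atTop) (hGG : ClG U r Good g GG)
    {i j k : Fin (n + 1)} (hij : i < j) (hjk : j < k) {u w : ℕ → D₁} (hu : Mod U r u)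
    (hw : Mod U r w) (h : ∀ t : Trip n × Bool × Fin 7,
      ∀ᶠ l in (U : Filter ℕ), g l * word2 t (u l) (w l) ∈ Good l) :
    Cfg GG g hij hjk u w := by
  have h1 : ∀ b a, g * (fun l => word2 (⟨⟨i, j, k⟩, hij, hjk⟩, b, a) (u l) (w l)) ∈ GG :=
    fun b a => hGG _ (umod_word2 hr _ hu hw) (h _)
  have h2 : ∀ x ∈ GG, ∀ y, x = y → y ∈ GG := fun x hx y hxy => hxy ▸ hx
  intro z hz
  rcases hz with rfl | hz
  · refine ⟨h2 _ (h1 false 0) _ ?_, h2 _ (h1 false 1) _ ?_, h2 _ (h1 false 2) _ ?_,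
      h2 _ (h1 false 3) _ ?_, h2 _ (h1 false 4) _ ?_, h2 _ (h1 false 5) _ ?_,
      h2 _ (h1 false 6) _ ?_⟩ <;> funext l <;> simp [word2, cw, rts, mul_assoc]
  · rw [Set.mem_singleton_iff] at hz
    subst hz
    refine ⟨h2 _ (h1 true 0) _ ?_, h2 _ (h1 true 1) _ ?_, h2 _ (h1 true 2) _ ?_,
      h2 _ (h1 true 3) _ ?_, h2 _ (h1 true 4) _ ?_, h2 _ (h1 true 5) _ ?_,
      h2 _ (h1 true 6) _ ?_⟩ <;> funext l <;> simp [word2, cw, rts, mul_assoc]

end

end Pool.Agent.ANQ
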