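import Pool.Agent.ANQ.Pair
import Pool.Agent.ANM51.Flat

/-!
# Frames of a flat
-/

namespace Pool.Agent.ANQ

open Matrix Filter Topology Pool.Agent.ANM51 Pool.Agent.ANM65

set_option linter.unusedSectionVars false

section herm

variable {K : Type} [DivisionRing K] [Algebra ℝ K] {v : K → ℝ} {I : Type} [Fintype I]
  [DecidableEq I]

theorem pr_eq (S : FormK v) (B : IForm I) (u' u : I → K) :
    pr S B u' u = ∑ p, B.jc p • (S.σ (u' p) * u (B.bar p)) := by
  rw [pr]
  refine Finset.sum_congr rfl fun p _ => ?_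
  rw [JI_mulVec, ← Algebra.smul_def, mul_smul_comm]

theorem pr_symm (S : FormK v) (B : IForm I) {e : ℝ} (hB : ∀ p, B.jc (B.bar p) = e * B.jc p)
    (u' u : I → K) : pr S B u u' = e • S.σ (pr S B u' u) := by
  rw [pr_eq, pr_eq, map_sum, Finset.smul_sum]
  have hinv : Function.Involutive B.bar := B.bar_bar
  rw [← Equiv.sum_comp hinv.toPerm]
  refine Finset.sum_congr rfl fun p _ => ?_
  rw [Function.Involutive.coe_toPerm, B.bar_bar, hB, map_smul, S.anti, S.invol, smul_smul]

/-- the matrix with given columns -/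
def colM {A : Type} (h : A → I → K) : Matrix I A K := fun i a => h a i

theorem ct_mul_JI_mul (S : FormK v) (B : IForm I) {A : Type} (h : A → I → K) (p q : A) :
    (ct S.σ (colM h) * JI B K * colM h : Matrix A A K) p q = pr S B (h p) (h q) := by
  rw [Matrix.mul_assoc, Matrix.mul_apply, pr]
  refine Finset.sum_congr rfl fun i _ => ?_
  rw [ct_apply, JI_mul_apply, JI_mulVec]
  rfl

/-- hyperbolic families have at most `card I` elements -/
theorem hyp_count (S : FormK v) (B : IForm I) {a : ℕ} (h : Fin a ⊕ Fin a → I → K)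
    (h0 : ∀ p q, q ≠ p.swap → pr S B (h p) (h q) = 0)
    (h1 : ∀ p, pr S B (h p) (h p.swap) ≠ 0) : 2 * a ≤ Fintype.card I := by
  let W : Fin a ⊕ Fin a → I → K := fun p i => S.σ (h p (B.bar i)) * algebraMap ℝ K (B.jc (B.bar i))
  have hW : ∀ p q, ∑ i, W p i * h q i = pr S B (h p) (h q) := by
    intro p q
    rw [pr_eq]
    have hinv : Function.Involutive B.bar := B.bar_bar
    rw [← Equiv.sum_comp hinv.toPerm]
    refine Finset.sum_congr rfl fun i _ => ?_
    simp only [W, Function.Involutive.coe_toPerm, B.bar_bar]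
    rw [mul_assoc, ← Algebra.smul_def, mul_smul_comm]
  let L : (Fin a ⊕ Fin a → K) →ₗ[K] (I → K) :=
    { toFun := fun c i => ∑ p, c p * W p i
      map_add' := fun c d => by
        funext q
        simp only [Pi.add_apply, add_mul, Finset.sum_add_distrib]
      map_smul' := fun a c => by
        funext q
        simp only [Pi.smul_apply, smul_eq_mul, mul_assoc, ← Finset.mul_sum, RingHom.id_apply] }
  have hL : Function.Injective L := by
    refine (injective_iff_map_eq_zero _).2 fun c hc => ?_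
    funext p
    have h2 : ∑ i, (L c) i * h p.swap i = 0 := by
      rw [hc]; simp
    have h3 : ∑ i, (L c) i * h p.swap i = ∑ q, c q * pr S B (h q) (h p.swap) := by
      simp only [← hW, Finset.mul_sum]
      rw [Finset.sum_comm]
      refine Finset.sum_congr rfl fun i _ => ?_
      change (∑ q, c q * W q i) * h p.swap i = _
      rw [Finset.sum_mul]
      refine Finset.sum_congr rfl fun q _ => ?_
      rw [mul_assoc]
    rw [h3, Finset.sum_eq_single p] at h2
    · exact (mul_eq_zero.1 h2).resolve_right (h1 p)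
    · intro q _ hq
      rw [h0 q p.swap, mul_zero]
      intro h4
      apply hq
      have := congrArg Sum.swap h4
      rw [Sum.swap_swap, Sum.swap_swap] at this
      exact this.symm
    · intro h; exact absurd (Finset.mem_univ _) h
  have h5 := LinearMap.finrank_le_finrank_of_injective hL
  rw [Module.finrank_fintype_fun_eq_card, Module.finrank_fintype_fun_eq_card,
    Fintype.card_sum, Fintype.card_fin] at h5
  omega

end herm

section frame

variable {n : ℕ} {K : Type} [DivisionRing K] [Algebra ℝ K] {v : K → ℝ} {I : Type} [Fintype I]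
  [DecidableEq I] {S : FormK v} {B : IForm I} {ν : (Fin n → ℝ) → ℝ}
  {φ : (Fin n → ℝ) → (Fin n → ℝ) → Matrix I I K}

/-- vectors with linear exponents whose sum is not zero are orthogonal -/
theorem FlatK.pr_eq_zero (hφ : FlatK S B ν φ) (hv : UNorm v)
    (hva : ∀ c : ℝ, c ≠ 0 → v (algebraMap ℝ K c) = 1) {u u' : I → K}
    {χ χ' : (Fin n → ℝ) →ₗ[ℝ] ℝ} (hu : ∀ w, vs v (φ w 0 *ᵥ u) = Real.exp (χ w))
    (hu' : ∀ w, vs v (φ w 0 *ᵥ u') = Real.exp (χ' w)) (hne : χ + χ' ≠ 0) :
    pr S B u u' = 0 := by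
  obtain ⟨w₁, hw₁⟩ : ∃ w, (χ + χ') w ≠ 0 := by
    by_contra hcon
    push Not at hcon
    exact hne (LinearMap.ext hcon)
  refine hv.eq_zero_of_bound (W := ℝ) (fun t => (χ + χ') (t • w₁)) (fun C => ?_) (fun t => ?_)
  · refine ⟨-C / (χ + χ') w₁, ?_⟩
    rw [map_smul, smul_eq_mul, div_mul_cancel₀ _ hw₁]
  · have h1 := pr_mulVec S B (hφ.form (t • w₁) 0) u u'
    rw [← h1]
    refine (v_pr_le hv hva S B _ _).trans ?_
    rw [hu, hu', ← Real.exp_add]
    rfl

/-- a frame adapted to a flat -/
structure FrameK (S : FormK v) (B : IForm I) (wI : I → (Fin n → ℝ) →ₗ[ℝ] ℝ)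
    (T : (Fin n → ℝ) ≃ₗ[ℝ] (Fin n → ℝ)) (φ : (Fin n → ℝ) → (Fin n → ℝ) → Matrix I I K)
    (H : Matrix I I K) : Prop where
  form : ct S.σ H * JI B K * H = JI B K
  bd : ∀ w p q, v ((φ w 0 * H) p q) ≤ Real.exp (-(wI q (T w)))

end frame

section exact

variable {n : ℕ} {U : Ultrafilter ℕ} {r : ℕ → ℝ} {D K : Type} [NormedDivisionRing D]
  [NormedAlgebra ℝ D] [DivisionRing K] [Algebra ℝ K] {R : RobData U r D K} {I : Type} [Fintype I]
  [DecidableEq I] {S : FormK R.v} {B : IForm I} {ν : (Fin n → ℝ) → ℝ}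
  {φ : (Fin n → ℝ) → (Fin n → ℝ) → Matrix I I K}

theorem deriv_ne_zero (hν : Nrm ν) {χ : (Fin n → ℝ) →L[ℝ] ℝ} {v₀ : Fin n → ℝ} (hn : 0 < n)
    (hχ : HasFDerivAt ν χ v₀) : χ ≠ 0 := by
  rintro rfl
  obtain ⟨k, hk, hlo⟩ := hν.lo
  -- choose `w` with the differential not zero
  have key : ∀ w, Tendsto (fun R : ℝ => ν (R • v₀ + w) - R * ν v₀) atTop (𝓝 0) := fun w =>
    hν.tendsto_deriv hχ w
  rcases eq_or_ne v₀ 0 with h0 | h0
  · let w : Fin n → ℝ := fun _ => 1
    have h1 := key w
    rw [h0] at h1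
    simp only [smul_zero, zero_add, hν.zero, mul_zero, sub_zero] at h1
    have h2 := tendsto_nhds_unique h1 tendsto_const_nhds
    have h3 := hlo w
    rw [← h2] at h3
    have h4 : (1 : ℝ) ≤ ‖w‖ := by
      have := norm_le_pi_norm w ⟨0, hn⟩
      simpa [w] using this
    nlinarith
  · have h1 := key v₀
    have h2 : (fun R : ℝ => ν (R • v₀ + v₀) - R * ν v₀) =ᶠ[atTop] fun _ => ν v₀ := by
      filter_upwards [eventually_ge_atTop 0] with R hR
      have : R • v₀ + v₀ = (R + 1) • v₀ := by rw [add_smul, one_smul]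
      rw [this, hν.hom, abs_of_nonneg (by linarith)]
      ring
    have h3 := tendsto_nhds_unique (h1.congr' h2) tendsto_const_nhds
    have h4 := hlo v₀
    have h5 : 0 < ‖v₀‖ := norm_pos_iff.2 h0
    rw [← h3] at h4
    nlinarith

/-- the number of derivatives up to sign -/
theorem FlatK.count [Nonempty I] (hU : (U : Filter ℕ) ≤ atTop) (hr : Tendsto r (U : Filter ℕ) atTop)
    (F : FormData D) (hS : ∀ a, Mod U r a → S.σ (R.toK a) = R.toK (fun i => F.σ (a i)))
    (hφ : FlatK S B ν φ) (hν : Nrm ν) (hn : 0 < n) {e : ℝ} (he : e ≠ 0)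
    (hB : ∀ p, B.jc (B.bar p) = e * B.jc p) (a : ℕ) (χ : Fin a → ((Fin n → ℝ) →L[ℝ] ℝ))
    (hχ : ∀ i, ∃ w, HasFDerivAt ν (χ i) w) (hne : ∀ i j, i ≠ j → χ i ≠ χ j ∧ χ i ≠ -χ j) :
    2 * a ≤ Fintype.card I := by
  choose w hw using hχ
  choose u u' h1 h2 using fun i => hφ.exact_pair hU hr F hS hν (hw i)
  have hv := R.hv
  let h : Fin a ⊕ Fin a → I → K := Sum.elim u u'
  let ψ : Fin a ⊕ Fin a → (Fin n → ℝ) →ₗ[ℝ] ℝ :=
    Sum.elim (fun i => -(χ i).toLinearMap) (fun i => (χ i).toLinearMap)
  have hψ : ∀ p w, vs R.v (φ w 0 *ᵥ h p) = Real.exp (ψ p w) := by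
    rintro (i | i) w
    · exact (h2 i w).1
    · exact (h2 i w).2
  have hlin : ∀ i j, ((χ i).toLinearMap = (χ j).toLinearMap) → χ i = χ j := fun i j hij => by
    ext1 x; exact congrArg (fun f => f x) hij
  have hχ0 : ∀ i, χ i ≠ 0 := fun i => deriv_ne_zero hν hn (hw i)
  have hψne : ∀ p q, q ≠ p.swap → ψ p + ψ q ≠ 0 := by
    rintro (i | i) (j | j) hq h0
    · -- `- χ i - χ j = 0`
      have h3 : χ i = -χ j := by
        ext1 x
        have := congrArg (fun f => f x) h0
        simp only [ψ, Sum.elim_inl, LinearMap.add_apply, LinearMap.neg_apply,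
          ContinuousLinearMap.coe_coe, LinearMap.zero_apply] at this
        simp only [_root_.neg_apply]
        linarith
      by_cases hij : i = j
      · subst hij
        apply hχ0 i
        ext1 x
        have := congrArg (fun f => f x) h3
        simp only [_root_.neg_apply] at this
        simp only [_root_.zero_apply]
        linarith
      · exact (hne i j hij).2 h3
    · have hij : i ≠ j := by
        rintro rfl; exact hq rfl
      apply (hne i j hij).1
      ext1 x
      have := congrArg (fun f => f x) h0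
      simp only [ψ, Sum.elim_inl, Sum.elim_inr, LinearMap.add_apply, LinearMap.neg_apply,
        ContinuousLinearMap.coe_coe, LinearMap.zero_apply] at this
      linarith
    · have hij : i ≠ j := by
        rintro rfl; exact hq rfl
      apply (hne i j hij).1
      ext1 x
      have := congrArg (fun f => f x) h0
      simp only [ψ, Sum.elim_inl, Sum.elim_inr, LinearMap.add_apply, LinearMap.neg_apply,
        ContinuousLinearMap.coe_coe, LinearMap.zero_apply] at this
      linarith
    · have h3 : χ i = -χ j := by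
        ext1 x
        have := congrArg (fun f => f x) h0
        simp only [ψ, Sum.elim_inr, LinearMap.add_apply,
          ContinuousLinearMap.coe_coe, LinearMap.zero_apply] at this
        simp only [_root_.neg_apply]
        linarith
      by_cases hij : i = j
      · subst hij
        apply hχ0 i
        ext1 x
        have := congrArg (fun f => f x) h3
        simp only [_root_.neg_apply] at this
        simp only [_root_.zero_apply]
        linarith
      · exact (hne i j hij).2 h3
  refine hyp_count S B h (fun p q hq => ?_) (fun p => ?_)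
  · exact hφ.pr_eq_zero hv (v_alg R hr) (hψ p) (hψ q) (hψne p q hq)
  · have h3 : ∀ i, pr S B (u' i) (u i) ≠ 0 := by
      intro i h0
      have := h1 i
      rw [h0, hv.zero] at this
      exact zero_ne_one this
    rcases p with i | i
    · change pr S B (u i) (u' i) ≠ 0
      rw [pr_symm S B hB]
      intro h0
      have h4 := (smul_eq_zero.1 h0).resolve_left he
      apply h3 i
      have h5 := congrArg S.σ h4
      rwa [S.invol, map_zero] at h5
    · exact h3 i

/-- **Frames.** (`k = 0`) -/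
theorem FlatK.exists_frame {F : FormData D} {B : IForm (Fin n ⊕ Fin n)} (hBbar : B.bar = Sum.swap)
    {S : FormK R.v} {φ : (Fin n → ℝ) → (Fin n → ℝ) → Matrix (Fin n ⊕ Fin n) (Fin n ⊕ Fin n) K}
    (hU : (U : Filter ℕ) ≤ atTop) (hr : Tendsto r (U : Filter ℕ) atTop)
    (hS : ∀ a, Mod U r a → S.σ (R.toK a) = R.toK (fun i => F.σ (a i)))
    (hφ : FlatK S B ν φ) (hν : Nrm ν) (hn : 0 < n) {e : ℝ} (he : e * e = 1)
    (hB : ∀ p, B.jc (B.bar p) = e * B.jc p)
    (T : (Fin n → ℝ) ≃ₗ[ℝ] (Fin n → ℝ)) (hT : ∀ k : Fin n, ∃ w, ∃ χ : (Fin n → ℝ) →L[ℝ] ℝ,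
      HasFDerivAt ν χ w ∧ ∀ p, χ p = T p k) :
    ∃ H, FrameK S B wl T φ H := by
  have : Nonempty (Fin n ⊕ Fin n) := ⟨.inl ⟨0, hn⟩⟩
  have hv := R.hv
  have he0 : e ≠ 0 := by rintro rfl; norm_num at he
  choose w χ hw hχ using hT
  choose u u' h1 h2 using fun k => hφ.exact_pair hU hr F hS hν (hw k)
  -- the Gram entries
  have hx0 : ∀ k, R.v (pr S B (u k) (u' k)) = 1 := by
    intro k
    rw [pr_symm S B hB, Algebra.smul_def, hv.mul, v_alg R hr e he0, one_mul, S.norm_σ, h1]
  have hxne : ∀ k, pr S B (u k) (u' k) ≠ 0 := by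
    intro k h0
    have := hx0 k
    rw [h0, hv.zero] at this
    exact zero_ne_one this
  let c : Fin n → K := fun k => (pr S B (u k) (u' k))⁻¹ * algebraMap ℝ K (B.jc (.inl k))
  have hc : ∀ k, R.v (c k) = 1 := by
    intro k
    simp only [c]
    rw [hv.mul, hv.inv, hx0, v_jc (v_alg R hr), _root_.inv_one, one_mul]
  let h : Fin n ⊕ Fin n → Fin n ⊕ Fin n → K :=
    Sum.elim u (fun k p => u' k p * c k)
  let ψ : Fin n ⊕ Fin n → (Fin n → ℝ) →ₗ[ℝ] ℝ := fun p => -(wl p ∘ₗ T.toLinearMap)
  have hψ : ∀ p w, vs R.v (φ w 0 *ᵥ h p) = Real.exp (ψ p w) := by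
    rintro (k | k) w
    · change vs R.v (φ w 0 *ᵥ u k) = _
      rw [(h2 k w).1, hχ]
      simp [ψ, wl]
    · change vs R.v (φ w 0 *ᵥ fun p => u' k p * c k) = _
      rw [UNorm.mulVec_mul_right, hv.vs_mul_right, hc, mul_one, (h2 k w).2, hχ]
      simp [ψ, wl]
  refine ⟨colM h, ?_, ?_⟩
  · ext p q
    rw [ct_mul_JI_mul S B h p q]
    by_cases hq : q = p.swap
    · rw [JI, hBbar, if_pos hq, hq]
      have k1 : ∀ k, pr S B (u k) (fun p => u' k p * c k) = algebraMap ℝ K (B.jc (.inl k)) := by
        intro k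
        have h3 := pr_mul_right S B (u k) (u' k) 1 (c k)
        simp only [mul_one] at h3
        rw [h3, S.σ_one, one_mul]
        simp only [c]
        rw [mul_inv_cancel_left₀ (hxne k)]
      rcases p with k | k
      · exact k1 k
      · change pr S B (fun p => u' k p * c k) (u k) = _
        rw [pr_symm S B hB, k1, S.σ_alg, Algebra.smul_def, ← map_mul]
        congr 1
        rw [← hB, hBbar]
        rfl
    · rw [JI, hBbar, if_neg hq]
      refine hφ.pr_eq_zero hv (v_alg R hr) (hψ p) (hψ q) fun h0 => hq ?_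
      -- `wl p + wl q = 0` forces `q = p.swap`
      apply wl_separate
      intro x
      obtain ⟨y, rfl⟩ := T.surjective x
      have h3 := congrArg (fun f => f y) h0
      simp only [ψ, LinearMap.add_apply, LinearMap.neg_apply, LinearMap.comp_apply,
        LinearMap.zero_apply, LinearEquiv.coe_coe] at h3
      rw [wl_swap]
      linarith
  · intro w p q
    have h3 : (φ w 0 * colM h) p q = (φ w 0 *ᵥ h q) p := by
      rw [Matrix.mul_apply]; rfl
    rw [h3]
    refine (UNorm.le_vs _ p).trans (le_of_eq ?_)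
    rw [hψ]
    rfl

end exact

end Pool.Agent.ANQ
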