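import Pool.Agent.ANQ.FinSo
import Pool.Agent.ANQ.Bridge
import Pool.Agent.ANQ.SoEx

/-!
# Glue: metrics, quasi-isometric embeddings and the two families of targets
-/

namespace Pool.Agent.ANQ

open Matrix Filter Topology Pool.Agent.ANM51 Pool.Agent.ANM65

set_option linter.unusedSectionVars false

/-- `f` is a `(K, C)`-quasi-isometric embedding for some `K ≥ 1`, `C ≥ 0`, for the distances
`d₁`, `d₂`. -/
def IsQI {X Y : Type} (d₁ : X → X → ℝ) (d₂ : Y → Y → ℝ) (f : X → Y) : Prop :=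
  ∃ K C : ℝ, 1 ≤ K ∧ 0 ≤ C ∧ ∀ x y : X,
    d₁ x y / K - C ≤ d₂ (f x) (f y) ∧ d₂ (f x) (f y) ≤ K * d₁ x y + C

/-- composition of quasi-isometric embeddings -/
theorem IsQI.comp {X Y Z : Type} {d₁ : X → X → ℝ} {d₂ : Y → Y → ℝ} {d₃ : Z → Z → ℝ}
    {g : Y → Z} {f : X → Y} (hg : IsQI d₂ d₃ g) (hf : IsQI d₁ d₂ f) :
    IsQI d₁ d₃ (g ∘ f) := by
  obtain ⟨K, C, hK, hC, h⟩ := hf
  obtain ⟨K', C', hK', hC', h'⟩ := hg
  have hK0 : 0 < K := by linarith
  have hK0' : 0 < K' := by linarith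
  refine ⟨K' * K, K' * C + C' + C / K', by nlinarith, by positivity, fun x y => ?_⟩
  obtain ⟨a1, a2⟩ := h x y
  obtain ⟨b1, b2⟩ := h' (f x) (f y)
  have hd : 0 ≤ C / K' := by positivity
  have hm : 0 ≤ K' * C := by positivity
  constructor
  · have h1 : (d₁ x y / K - C) / K' ≤ d₂ (f x) (f y) / K' := by gcongr
    have h2 : d₁ x y / (K' * K) = d₁ x y / K / K' := by
      rw [div_div, mul_comm K K']
    have h3 : (d₁ x y / K - C) / K' = d₁ x y / K / K' - C / K' := sub_div _ _ _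
    simp only [Function.comp]
    linarith
  · have h1 : K' * d₂ (f x) (f y) ≤ K' * (K * d₁ x y + C) := by gcongr
    simp only [Function.comp]
    nlinarith

/-- the matrices of `ANSO k` preserve the form -/
theorem so_mem {k : ℕ} (F : FormData ℝ) (g : ANSO k) :
    ct F.σ (g.1 : Matrix (ISO k) (ISO k) ℝ) * JI (iformSO 2 k) ℝ *
      (g.1 : Matrix (ISO k) (ISO k) ℝ) = JI (iformSO 2 k) ℝ := by
  have h1 : JI (iformSO 2 k) ℝ = JSO k := by
    funext p q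
    rcases p with p | p <;> rfl
  have h2 : ct F.σ (g.1 : Matrix (ISO k) (ISO k) ℝ) = (g.1 : Matrix (ISO k) (ISO k) ℝ)ᵀ := by
    funext p q
    exact real_σ F _
  rw [h1, h2]
  exact g.2.2.1

section

variable {D₁ : Type} [NormedDivisionRing D₁] [NormedAlgebra ℝ D₁] [FiniteDimensional ℝ D₁]

/-- quasi-isometric embeddings into the symmetric space of `SO₀(2, 2 + k)` -/
theorem so_of_metric {k : ℕ}
    {d₁ : (Matrix (Fin (2 + 1)) (Fin (2 + 1)) D₁)ˣ → (Matrix (Fin (2 + 1)) (Fin (2 + 1)) D₁)ˣ → ℝ}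
    {d₂ : (Matrix (ISO k) (ISO k) ℝ)ˣ → (Matrix (ISO k) (ISO k) ℝ)ˣ → ℝ}
    (h₁ : LinComp d₁) (h₂ : LinComp d₂) (F : FormData ℝ) {f : ANSL 2 D₁ → ANSO k}
    (hf : IsQI (fun x y : ANSL 2 D₁ => d₁ x.1 y.1) (fun x y : ANSO k => d₂ x.1 y.1) f) :
    Module.finrank ℝ D₁ ≤ 1 := by
  obtain ⟨K, C, hK, -, h⟩ := hf
  have : Nonempty (ISO k) := ⟨.inl (.inl 0)⟩
  obtain ⟨L, C', h'⟩ := qie_of_metric (B := iformSO 2 k) (F := F) (f := fun x => (f x).1) h₁ h₂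
    (fun x => so_mem F (f x)) hK h
  exact main_so k F _ h'

end

end Pool.Agent.ANQ
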