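import Pool.Agent.ANQ.Defs

/-!
# Right-invariant means on solvable groups
-/

namespace Pool.Agent.ANQ

open Filter Topology
open scoped commutatorElement

set_option linter.unusedSectionVars false

/-! ## Limits along ultrafilters -/

theorem exists_ulim {ι : Type} (U : Ultrafilter ι) {f : ι → ℝ} {C : ℝ} (h : ∀ i, |f i| ≤ C) :
    ∃ a, Tendsto f (U : Filter ι) (𝓝 a) := by
  have h1 : (U.map f : Filter ℝ) ≤ 𝓟 (Set.Icc (-C) C) := by
    rw [le_principal_iff]
    exact Filter.mem_map.2 (Filter.univ_mem' fun i => Set.mem_Icc.2 (abs_le.1 (h i)))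
  obtain ⟨a, -, ha⟩ := isCompact_Icc.ultrafilter_le_nhds (U.map f) h1
  exact ⟨a, ha⟩

open Classical in
/-- the limit along an ultrafilter (zero if it does not exist) -/
noncomputable def ulim {ι : Type} (U : Ultrafilter ι) (f : ι → ℝ) : ℝ :=
  if h : ∃ a, Tendsto f (U : Filter ι) (𝓝 a) then h.choose else 0

theorem ulim_spec {ι : Type} (U : Ultrafilter ι) {f : ι → ℝ} {C : ℝ} (h : ∀ i, |f i| ≤ C) :
    Tendsto f (U : Filter ι) (𝓝 (ulim U f)) := by
  have h1 := exists_ulim U h
  rw [ulim, dif_pos h1]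
  exact h1.choose_spec

theorem ulim_eq {ι : Type} (U : Ultrafilter ι) {f : ι → ℝ} {a : ℝ}
    (h : Tendsto f (U : Filter ι) (𝓝 a)) : ulim U f = a := by
  have h1 : ∃ a, Tendsto f (U : Filter ι) (𝓝 a) := ⟨a, h⟩
  rw [ulim, dif_pos h1]
  exact tendsto_nhds_unique h1.choose_spec h

/-! ## Extensions -/

section bdf

variable {G : Type}

theorem Bdf.add {φ ψ : G → ℝ} (h : Bdf φ) (h' : Bdf ψ) : Bdf fun x => φ x + ψ x := by
  obtain ⟨C, hC⟩ := h
  obtain ⟨C', hC'⟩ := h'
  exact ⟨C + C', fun x => (abs_add_le _ _).trans (add_le_add (hC x) (hC' x))⟩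

theorem Bdf.smul {φ : G → ℝ} (h : Bdf φ) (c : ℝ) : Bdf fun x => c * φ x := by
  obtain ⟨C, hC⟩ := h
  exact ⟨|c| * C, fun x => by rw [abs_mul]; exact mul_le_mul_of_nonneg_left (hC x) (abs_nonneg c)⟩

theorem Bdf.comp {G' : Type} {φ : G → ℝ} (h : Bdf φ) (f : G' → G) : Bdf fun x => φ (f x) := by
  obtain ⟨C, hC⟩ := h
  exact ⟨C, fun x => hC _⟩

theorem bdf_const (c : ℝ) : Bdf fun _ : G => c := ⟨|c|, fun _ => le_rfl⟩

end bdf

section mean

variable {G : Type} [Group G]

theorem RMean.const (M : RMean G) (c : ℝ) : M.m (fun _ => c) = c := by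
  have h := M.smul c (fun _ => 1) (bdf_const 1)
  rw [M.one] at h
  simpa using h

theorem RMean.le_of_le (M : RMean G) {φ : G → ℝ} {C : ℝ} (h : ∀ x, |φ x| ≤ C) : |M.m φ| ≤ C := by
  have hb : Bdf φ := ⟨C, h⟩
  rw [abs_le]
  constructor
  · have := M.mono (fun _ => -C) φ (bdf_const _) hb fun x => (abs_le.1 (h x)).1
    rwa [M.const] at this
  · have := M.mono φ (fun _ => C) hb (bdf_const _) fun x => (abs_le.1 (h x)).2
    rwa [M.const] at this

end mean

section ext

variable {G : Type} [Group G] (N : Subgroup G) [N.Normal] (MN : RMean N)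

/-- the average over the cosets of a normal subgroup -/
noncomputable def cav (φ : G → ℝ) (x : G) : ℝ := MN.m fun n : N => φ (n * x)

theorem cav_mul (φ : G → ℝ) (hφ : Bdf φ) (n' : N) (x : G) :
    cav N MN φ (n' * x) = cav N MN φ x := by
  have h := MN.inv (fun n : N => φ (n * x)) n' (hφ.comp _)
  unfold cav
  rw [← h]
  congr 1
  funext n
  rw [Subgroup.coe_mul, mul_assoc]

/-- the average as a function of the quotient group -/
noncomputable def cavQ (φ : G → ℝ) (X : G ⧸ N) : ℝ := cav N MN φ X.out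

theorem cavQ_mk (φ : G → ℝ) (hφ : Bdf φ) (x : G) : cavQ N MN φ (x : G ⧸ N) = cav N MN φ x := by
  unfold cavQ
  obtain ⟨h, hh⟩ := QuotientGroup.mk_out_eq_mul N x
  rw [hh]
  have h1 : x * (h : G) = (⟨x * h * x⁻¹, Subgroup.Normal.conj_mem inferInstance _ h.2 x⟩ : N) * x := by
    simp
  rw [h1, cav_mul N MN φ hφ]

theorem cavQ_bdf {φ : G → ℝ} (hφ : Bdf φ) : Bdf (cavQ N MN φ) := by
  obtain ⟨C, hC⟩ := hφ
  exact ⟨C, fun X => MN.le_of_le fun n => hC _⟩

/-- means on a normal subgroup and the quotient give a mean -/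
noncomputable def rmean_ext (MQ : RMean (G ⧸ N)) : RMean G where
  m φ := MQ.m (cavQ N MN φ)
  add φ ψ hφ hψ := by
    rw [← MQ.add _ _ (cavQ_bdf N MN hφ) (cavQ_bdf N MN hψ)]
    congr 1
    funext X
    exact MN.add _ _ (hφ.comp _) (hψ.comp _)
  smul c φ hφ := by
    rw [← MQ.smul _ _ (cavQ_bdf N MN hφ)]
    congr 1
    funext X
    exact MN.smul _ _ (hφ.comp _)
  mono φ ψ hφ hψ h := by
    refine MQ.mono _ _ (cavQ_bdf N MN hφ) (cavQ_bdf N MN hψ) fun X => ?_
    exact MN.mono _ _ (hφ.comp _) (hψ.comp _) fun n => h _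
  one := by
    have h1 : cavQ N MN (fun _ => 1) = fun _ => 1 := by
      funext X
      exact MN.one
    rw [h1, MQ.one]
  inv φ c hφ := by
    rw [← MQ.inv (cavQ N MN φ) (c : G ⧸ N) (cavQ_bdf N MN hφ)]
    congr 1
    funext X
    induction X using QuotientGroup.induction_on with
    | H x =>
      rw [cavQ_mk N MN _ (hφ.comp _), ← QuotientGroup.mk_mul, cavQ_mk N MN _ hφ]
      unfold cav
      congr 1
      funext n
      change φ (n * x * c) = φ (n * (x * c))
      rw [mul_assoc]

end ext

/-! ## Commutative groups -/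

section comm

variable {G : Type} [Group G]

/-- the average over the powers of an element -/
noncomputable def pav (s : G) (n : ℕ) (φ : G → ℝ) (x : G) : ℝ :=
  (∑ k ∈ Finset.range (n + 1), φ (x * s ^ k)) / ((n : ℝ) + 1)

/-- the iterated averages -/
noncomputable def lav (n : ℕ) : List G → (G → ℝ) → G → ℝ
  | [], φ => φ
  | s :: l, φ => pav s n (lav n l φ)

theorem pav_add (s : G) (n : ℕ) (φ ψ : G → ℝ) (x : G) :
    pav s n (fun y => φ y + ψ y) x = pav s n φ x + pav s n ψ x := by
  unfold pav
  rw [Finset.sum_add_distrib, add_div]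

theorem pav_smul (s : G) (n : ℕ) (c : ℝ) (φ : G → ℝ) (x : G) :
    pav s n (fun y => c * φ y) x = c * pav s n φ x := by
  unfold pav
  rw [← Finset.mul_sum, mul_div_assoc]

theorem pav_mono (s : G) (n : ℕ) {φ ψ : G → ℝ} (h : ∀ x, φ x ≤ ψ x) (x : G) :
    pav s n φ x ≤ pav s n ψ x := by
  unfold pav
  have : (0 : ℝ) < (n : ℝ) + 1 := by positivity
  gcongr
  exact h _

theorem pav_const (s : G) (n : ℕ) (c : ℝ) (x : G) : pav s n (fun _ => c) x = c := by
  unfold pav
  have : ((n : ℝ) + 1) ≠ 0 := by positivity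
  rw [Finset.sum_const, Finset.card_range, nsmul_eq_mul]
  push_cast
  field_simp

theorem lav_add (n : ℕ) (l : List G) (φ ψ : G → ℝ) (x : G) :
    lav n l (fun y => φ y + ψ y) x = lav n l φ x + lav n l ψ x := by
  induction l generalizing x with
  | nil => rfl
  | cons s l ih =>
    change pav s n (lav n l fun y => φ y + ψ y) x = _
    rw [show (lav n l fun y => φ y + ψ y) = fun y => lav n l φ y + lav n l ψ y from funext ih,
      pav_add]
    rfl

theorem lav_smul (n : ℕ) (l : List G) (c : ℝ) (φ : G → ℝ) (x : G) :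
    lav n l (fun y => c * φ y) x = c * lav n l φ x := by
  induction l generalizing x with
  | nil => rfl
  | cons s l ih =>
    change pav s n (lav n l fun y => c * φ y) x = _
    rw [show (lav n l fun y => c * φ y) = fun y => c * lav n l φ y from funext ih, pav_smul]
    rfl

theorem lav_mono (n : ℕ) (l : List G) {φ ψ : G → ℝ} (h : ∀ x, φ x ≤ ψ x) (x : G) :
    lav n l φ x ≤ lav n l ψ x := by
  induction l generalizing x with
  | nil => exact h x
  | cons s l ih => exact pav_mono s n ih x

theorem lav_const (n : ℕ) (l : List G) (c : ℝ) (x : G) : lav n l (fun _ => c) x = c := by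
  induction l generalizing x with
  | nil => rfl
  | cons s l ih =>
    change pav s n (lav n l fun _ => c) x = _
    rw [show (lav n l fun _ => c) = fun _ => c from funext ih, pav_const]

theorem lav_bound (n : ℕ) (l : List G) {φ : G → ℝ} {C : ℝ} (h : ∀ x, |φ x| ≤ C) (x : G) :
    |lav n l φ x| ≤ C := by
  rw [abs_le]
  constructor
  · have := lav_mono n l (φ := fun _ => -C) (ψ := φ) (fun x => (abs_le.1 (h x)).1) x
    rwa [lav_const] at this
  · have := lav_mono n l (φ := φ) (ψ := fun _ => C) (fun x => (abs_le.1 (h x)).2) x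
    rwa [lav_const] at this

theorem lav_trans (hc : ∀ a b : G, a * b = b * a) (n : ℕ) (l : List G) (φ : G → ℝ) (c x : G) :
    lav n l (fun y => φ (y * c)) x = lav n l φ (x * c) := by
  induction l generalizing x with
  | nil => rfl
  | cons s l ih =>
    change pav s n (lav n l fun y => φ (y * c)) x = pav s n (lav n l φ) (x * c)
    unfold pav
    congr 1
    refine Finset.sum_congr rfl fun k _ => ?_
    rw [ih, mul_assoc, hc (s ^ k) c, ← mul_assoc]

theorem pav_telescope (s : G) (n : ℕ) (φ : G → ℝ) (x : G) :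
    pav s n (fun y => φ (y * s) - φ y) x = (φ (x * s ^ (n + 1)) - φ x) / ((n : ℝ) + 1) := by
  unfold pav
  congr 1
  have h : ∀ k : ℕ, φ (x * s ^ k * s) = φ (x * s ^ (k + 1)) := fun k => by
    rw [pow_succ, mul_assoc]
  simp only [h]
  rw [Finset.sum_range_sub fun k => φ (x * s ^ k)]
  simp

theorem lav_small (hc : ∀ a b : G, a * b = b * a) (n : ℕ) (l : List G) {φ : G → ℝ} {C : ℝ}
    (h : ∀ x, |φ x| ≤ C) (c : G) (hcl : c ∈ l) (x : G) :
    |lav n l (fun y => φ (y * c) - φ y) x| ≤ 2 * C / ((n : ℝ) + 1) := by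
  have hn : (0 : ℝ) < (n : ℝ) + 1 := by positivity
  induction l generalizing x with
  | nil => exact absurd hcl (List.not_mem_nil)
  | cons s l ih =>
    change |pav s n (lav n l fun y => φ (y * c) - φ y) x| ≤ _
    rcases List.mem_cons.1 hcl with rfl | h1
    · have h2 : (lav n l fun y => φ (y * c) - φ y) =
          fun y => lav n l φ (y * c) - lav n l φ y := by
        funext y
        have h3 := lav_add n l (fun y => φ (y * c)) (fun y => -1 * φ y) y
        rw [lav_smul, lav_trans hc] at h3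
        have h4 : (fun y => φ (y * c) - φ y) = fun y => φ (y * c) + -1 * φ y := by
          funext z
          ring
        rw [h4, h3]
        ring
      rw [h2, pav_telescope, abs_div, abs_of_pos hn]
      gcongr
      have h5 := lav_bound n l h (x * c ^ (n + 1))
      have h6 := lav_bound n l h x
      calc |lav n l φ (x * c ^ (n + 1)) - lav n l φ x|
          ≤ |lav n l φ (x * c ^ (n + 1))| + |lav n l φ x| := abs_sub _ _
        _ ≤ 2 * C := by linarith
    · rw [abs_le]
      have h2 := fun y => abs_le.1 (ih h1 y)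
      constructor
      · have := pav_mono s n (φ := fun _ => -(2 * C / ((n : ℝ) + 1))) (fun y => (h2 y).1) x
        rwa [pav_const] at this
      · have := pav_mono s n (ψ := fun _ => 2 * C / ((n : ℝ) + 1)) (fun y => (h2 y).2) x
        rwa [pav_const] at this

open Classical in
/-- means on commutative groups -/
theorem exists_rmean_comm (hc : ∀ a b : G, a * b = b * a) : Nonempty (RMean G) := by
  let U : Ultrafilter (Finset G × ℕ) := Ultrafilter.of atTop
  have hU : (U : Filter (Finset G × ℕ)) ≤ atTop := Ultrafilter.of_le _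
  let A : (G → ℝ) → Finset G × ℕ → ℝ := fun φ p => lav p.2 p.1.toList φ 1
  have hA : ∀ φ, Bdf φ → Tendsto (A φ) (U : Filter _) (𝓝 (ulim U (A φ))) := by
    rintro φ ⟨C, hC⟩
    exact ulim_spec U fun p => lav_bound p.2 p.1.toList hC 1
  refine ⟨⟨fun φ => ulim U (A φ), ?_, ?_, ?_, ?_, ?_⟩⟩
  · intro φ ψ hφ hψ
    apply ulim_eq
    refine ((hA φ hφ).add (hA ψ hψ)).congr fun p => ?_
    exact (lav_add p.2 _ φ ψ 1).symm
  · intro c φ hφ
    apply ulim_eq
    refine ((hA φ hφ).const_mul c).congr fun p => ?_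
    exact (lav_smul p.2 _ c φ 1).symm
  · intro φ ψ hφ hψ h
    exact le_of_tendsto_of_tendsto' (hA φ hφ) (hA ψ hψ) fun p => lav_mono p.2 _ h 1
  · apply ulim_eq
    refine tendsto_const_nhds.congr fun p => ?_
    exact (lav_const p.2 _ 1 1).symm
  · intro φ c hφ
    obtain ⟨C, hC⟩ := id hφ
    apply ulim_eq
    have h0 : Tendsto (fun p : Finset G × ℕ => 2 * C / ((p.2 : ℝ) + 1)) (U : Filter _) (𝓝 0) := by
      have h1 : Tendsto (fun p : Finset G × ℕ => p.2) atTop atTop :=
        tendsto_snd.mono_left (by rw [prod_atTop_atTop_eq])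
      have h2 : Tendsto (fun n : ℕ => 2 * C / ((n : ℝ) + 1)) atTop (𝓝 0) :=
        tendsto_const_nhds.div_atTop (tendsto_atTop_add_const_right _ _ tendsto_natCast_atTop_atTop)
      exact (h2.comp h1).mono_left hU
    have h3 : Tendsto (fun p => A (fun x => φ (x * c) - φ x) p) (U : Filter _) (𝓝 0) := by
      apply squeeze_zero_norm' _ h0
      have h4 : ∀ᶠ p : Finset G × ℕ in atTop, c ∈ p.1 := by
        filter_upwards [eventually_ge_atTop (({c} : Finset G), 0)] with p hp
        exact hp.1 (Finset.mem_singleton_self c)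
      filter_upwards [hU h4] with p hp
      rw [Real.norm_eq_abs]
      exact lav_small hc p.2 _ hC c (Finset.mem_toList.2 hp) 1
    have h5 := h3.add (hA φ hφ)
    rw [zero_add] at h5
    refine h5.congr fun p => ?_
    change lav p.2 p.1.toList (fun x => φ (x * c) - φ x) 1 + lav p.2 p.1.toList φ 1 = _
    rw [← lav_add]
    congr 1
    funext x
    ring

end comm

/-! ## Solvable groups -/

theorem exists_rmean_aux (k : ℕ) : ∀ (G : Type) [Group G], derivedSeries G k = ⊥ →
    Nonempty (RMean G) := by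
  induction k with
  | zero =>
    intro G _ h
    have h1 : ∀ x : G, x = 1 := fun x => by
      have : x ∈ derivedSeries G 0 := by
        rw [derivedSeries_zero]
        exact Subgroup.mem_top x
      rw [h] at this
      exact Subgroup.mem_bot.1 this
    refine ⟨⟨fun φ => φ 1, fun _ _ _ _ => rfl, fun _ _ _ => rfl, fun _ _ _ _ h => h 1, rfl, ?_⟩⟩
    intro φ c _
    rw [h1 c]
    simp
  | succ k ih =>
    intro G _ h
    let N := derivedSeries G k
    have hN : ∀ a b : N, a * b = b * a := by
      intro a b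
      have h1 : ⁅(a : G), (b : G)⁆ ∈ derivedSeries G (k + 1) := by
        rw [derivedSeries_succ]
        exact Subgroup.commutator_mem_commutator a.2 b.2
      rw [h, Subgroup.mem_bot, commutatorElement_eq_one_iff_mul_comm] at h1
      exact Subtype.ext h1
    obtain ⟨MN⟩ := exists_rmean_comm hN
    have hQ : derivedSeries (G ⧸ N) k = ⊥ := by
      rw [← map_derivedSeries_eq (QuotientGroup.mk'_surjective N) k]
      rw [Subgroup.map_eq_bot_iff, QuotientGroup.ker_mk']
    obtain ⟨MQ⟩ := ih (G ⧸ N) hQ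
    exact ⟨rmean_ext N MN MQ⟩

/-- **solvable groups have right-invariant means** -/
theorem exists_rmean (G : Type) [Group G] [Group.IsSolvable G] : Nonempty (RMean G) := by
  obtain ⟨k, hk⟩ := (inferInstance : Group.IsSolvable G).solvable
  exact exists_rmean_aux k G hk

end Pool.Agent.ANQ
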