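import Pool.Agent.ANQ.UN
import Pool.Agent.ANQ.Rob

/-!
# Weight vectors of a flat
-/

namespace Pool.Agent.ANQ

open Matrix Filter Topology Pool.Agent.ANM51

set_option linter.unusedSectionVars false

/-- norms on `Fin n → ℝ` -/
structure Nrm {n : ℕ} (ν : (Fin n → ℝ) → ℝ) : Prop where
  sub : ∀ p q, ν (p + q) ≤ ν p + ν q
  hom : ∀ (c : ℝ) p, ν (c • p) = |c| * ν p
  lo : ∃ k : ℝ, 0 < k ∧ ∀ p, k * ‖p‖ ≤ ν p
  up : ∃ K : ℝ, ∀ p, ν p ≤ K * ‖p‖

namespace Nrm

variable {n : ℕ} {ν : (Fin n → ℝ) → ℝ} (hν : Nrm ν)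

include hν

theorem neg (p : Fin n → ℝ) : ν (-p) = ν p := by
  have h := hν.hom (-1) p
  rw [neg_one_smul, abs_neg, abs_one, one_mul] at h
  exact h

theorem symm (p q : Fin n → ℝ) : ν (p - q) = ν (q - p) := by
  rw [← neg_sub, hν.neg]

theorem zero : ν 0 = 0 := by
  have h := hν.hom 0 0
  rw [zero_smul, abs_zero, zero_mul] at h
  exact h

theorem nonneg (p : Fin n → ℝ) : 0 ≤ ν p := by
  have h := hν.sub p (-p)
  rw [add_neg_cancel, hν.zero, hν.neg] at h
  linarith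

theorem tendsto_deriv {χ : (Fin n → ℝ) →L[ℝ] ℝ} {v₀ : Fin n → ℝ} (h : HasFDerivAt ν χ v₀)
    (w : Fin n → ℝ) : Tendsto (fun R : ℝ => ν (R • v₀ + w) - R * ν v₀) atTop (𝓝 (χ w)) := by
  have h1 := h.lim_real w
  refine h1.congr' ?_
  filter_upwards [eventually_gt_atTop 0] with R hR
  have h2 : R • v₀ + w = R • (v₀ + R⁻¹ • w) := by
    rw [smul_add, smul_smul, mul_inv_cancel₀ hR.ne', one_smul]
  rw [h2, hν.hom, abs_of_pos hR, smul_eq_mul, mul_sub]

theorem continuous : Continuous ν := by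
  obtain ⟨K, hK⟩ := hν.up
  have hK0 : ∀ p, ν p ≤ |K| * ‖p‖ := fun p =>
    (hK p).trans (mul_le_mul_of_nonneg_right (le_abs_self K) (norm_nonneg p))
  have hL : LipschitzWith (Real.toNNReal |K|) ν := by
    refine LipschitzWith.of_dist_le_mul fun p q => ?_
    rw [Real.coe_toNNReal _ (abs_nonneg K), Real.dist_eq, dist_eq_norm]
    rw [abs_le]
    constructor
    · have h1 := hν.sub p (q - p)
      rw [add_sub_cancel] at h1
      have h2 := hK0 (q - p)
      rw [norm_sub_rev] at h2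
      linarith
    · have h1 := hν.sub q (p - q)
      rw [add_sub_cancel] at h1
      have h2 := hK0 (p - q)
      linarith
  exact hL.continuous

end Nrm

section flat

variable {n : ℕ} {K : Type} [DivisionRing K] [Algebra ℝ K] {v : K → ℝ} {I : Type} [Fintype I]
  [DecidableEq I]

/-- a flat in the building of the isometry group of the form -/
structure FlatK (S : FormK v) (B : IForm I) (ν : (Fin n → ℝ) → ℝ)
    (φ : (Fin n → ℝ) → (Fin n → ℝ) → Matrix I I K) : Prop where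
  one : ∀ p, φ p p = 1
  mul : ∀ p q s, φ p q * φ q s = φ p s
  form : ∀ p q, ct S.σ (φ p q) * JI B K * φ p q = JI B K
  norm : ∀ p q, vm v (φ p q) = Real.exp (ν (q - p))

/-- the sesquilinear form -/
noncomputable def pr (S : FormK v) (B : IForm I) (u' u : I → K) : K :=
  ∑ p, S.σ (u' p) * (JI B K *ᵥ u) p

theorem pr_mulVec (S : FormK v) (B : IForm I) {M : Matrix I I K}
    (hM : ct S.σ M * JI B K * M = JI B K) (u' u : I → K) :
    pr S B (M *ᵥ u') (M *ᵥ u) = pr S B u' u := by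
  have h1 : (fun p => S.σ ((M *ᵥ u') p)) = (fun p => S.σ (u' p)) ᵥ* ct S.σ M := by
    funext p
    simp only [Matrix.mulVec, Matrix.vecMul, dotProduct, map_sum, S.anti, ct_apply]
  have h2 : pr S B (M *ᵥ u') (M *ᵥ u) =
      (fun p => S.σ ((M *ᵥ u') p)) ⬝ᵥ (JI B K *ᵥ (M *ᵥ u)) := rfl
  have h3 : pr S B u' u = (fun p => S.σ (u' p)) ⬝ᵥ (JI B K *ᵥ u) := rfl
  rw [h2, h3, h1, ← Matrix.dotProduct_mulVec, Matrix.mulVec_mulVec, Matrix.mulVec_mulVec, hM]

theorem pr_mul_right (S : FormK v) (B : IForm I) (u' u : I → K) (c' c : K) :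
    pr S B (fun p => u' p * c') (fun p => u p * c) = S.σ c' * pr S B u' u * c := by
  rw [pr, pr, UNorm.mulVec_mul_right, Finset.mul_sum, Finset.sum_mul]
  refine Finset.sum_congr rfl fun p _ => ?_
  rw [S.anti]
  simp only [mul_assoc]

theorem v_jc (hva : ∀ c : ℝ, c ≠ 0 → v (algebraMap ℝ K c) = 1) (B : IForm I) (p : I) :
    v (algebraMap ℝ K (B.jc p)) = 1 := by
  apply hva
  intro h
  have := B.jc_sq p
  rw [h] at this
  norm_num at this

theorem v_pr_le (hv : UNorm v) (hva : ∀ c : ℝ, c ≠ 0 → v (algebraMap ℝ K c) = 1) (S : FormK v)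
    (B : IForm I) (u' u : I → K) : v (pr S B u' u) ≤ vs v u' * vs v u := by
  refine hv.sum_le _ _ (mul_nonneg (hv.vs_nonneg _) (hv.vs_nonneg _)) fun p _ => ?_
  rw [hv.mul, S.norm_σ, JI_mulVec, hv.mul, v_jc hva, one_mul]
  exact mul_le_mul (UNorm.le_vs u' p) (UNorm.le_vs u _) (hv.nonneg _) (hv.vs_nonneg _)

theorem mulVec_single_col (M : Matrix I I K) (q : I) : M *ᵥ Pi.single q 1 = fun p => M p q := by
  funext p
  rw [Matrix.mulVec_single_one]; rfl

variable {S : FormK v} {B : IForm I} {ν : (Fin n → ℝ) → ℝ}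
  {φ : (Fin n → ℝ) → (Fin n → ℝ) → Matrix I I K}

namespace FlatK

variable (hφ : FlatK S B ν φ)

include hφ

theorem vs_le (hv : UNorm v) (w w' : Fin n → ℝ) (u : I → K) :
    vs v (φ w 0 *ᵥ u) ≤ Real.exp (ν (w' - w)) * vs v (φ w' 0 *ᵥ u) := by
  have h1 : φ w 0 *ᵥ u = φ w w' *ᵥ (φ w' 0 *ᵥ u) := by
    rw [Matrix.mulVec_mulVec, hφ.mul]
  rw [h1]
  refine (hv.vs_mulVec_le _ _).trans ?_
  rw [hφ.norm]

/-- Weight vectors of maximal ratio between `- R v₀` and `R v₀`. -/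
theorem weight_pair [Nonempty I] (hv : UNorm v) (hva : ∀ c : ℝ, c ≠ 0 → v (algebraMap ℝ K c) = 1)
    (hν : Nrm ν) (tt : ℝ → K) (htt : ∀ s, v (tt s) = Real.exp s) (v₀ : Fin n → ℝ) {R : ℝ}
    (hR : 0 ≤ R) : ∃ u u' : I → K, v (pr S B u' u) = 1 ∧ ∀ w,
      Real.exp (-(ν (R • v₀ + w) - R * ν v₀)) ≤ vs v (φ w 0 *ᵥ u) ∧
      vs v (φ w 0 *ᵥ u) ≤ Real.exp (ν (R • v₀ - w) - R * ν v₀) ∧
      Real.exp (-(ν (R • v₀ - w) - R * ν v₀)) ≤ vs v (φ w 0 *ᵥ u') ∧
      vs v (φ w 0 *ᵥ u') ≤ Real.exp (ν (R • v₀ + w) - R * ν v₀) := by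
  set M := φ (-(R • v₀)) (R • v₀) with hM
  obtain ⟨p, q, hpq⟩ := UNorm.exists_vm (v := v) M
  rw [hM, hφ.norm, sub_neg_eq_add, ← two_smul ℝ, hν.hom, hν.hom, abs_of_nonneg hR,
    abs_of_pos (by norm_num : (0 : ℝ) < 2), ← hM] at hpq
  -- the inverse of `M`
  set M' := φ (R • v₀) (-(R • v₀)) with hM'
  have hMM' : M * M' = 1 := by rw [hM, hM', hφ.mul, hφ.one]
  have hadj : M' = adj B S M := by
    have h1 : adj B S M * M = 1 := adj_mul_self B S (hφ.form _ _)
    calc M' = adj B S M * M * M' := by rw [h1, one_mul]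
      _ = adj B S M := by rw [mul_assoc, hMM', mul_one]
  have hpq' : v (M' (B.bar q) (B.bar p)) = Real.exp (2 * (R * ν v₀)) := by
    rw [hadj, v_adj B S hv hva, B.bar_bar, B.bar_bar, hpq]
  let c : K := tt (-(R * ν v₀))
  have hc : v c = Real.exp (-(R * ν v₀)) := htt _
  let u₀ : I → K := φ 0 (R • v₀) *ᵥ Pi.single q 1
  let u₀' : I → K := φ 0 (-(R • v₀)) *ᵥ Pi.single (B.bar p) 1
  have e1 : ∀ w, φ w 0 *ᵥ u₀ = fun a => φ w (R • v₀) a q := by
    intro w
    simp only [u₀]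
    rw [Matrix.mulVec_mulVec, hφ.mul, mulVec_single_col]
  have e2 : ∀ w, φ w 0 *ᵥ u₀' = fun a => φ w (-(R • v₀)) a (B.bar p) := by
    intro w
    simp only [u₀']
    rw [Matrix.mulVec_mulVec, hφ.mul, mulVec_single_col]
  have k1 : ∀ w, vs v (φ w 0 *ᵥ u₀) ≤ Real.exp (ν (R • v₀ - w)) := by
    intro w
    rw [e1, ← hφ.norm]
    exact hv.vs_le (hv.vm_nonneg _) fun a => hv.le_vm _ a q
  have k2 : ∀ w, vs v (φ w 0 *ᵥ u₀') ≤ Real.exp (ν (R • v₀ + w)) := by
    intro w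
    have h1 : ν (R • v₀ + w) = ν (-(R • v₀) - w) := by
      rw [← hν.neg]; congr 1; abel
    rw [e2, h1, ← hφ.norm]
    exact hv.vs_le (hv.vm_nonneg _) fun a => hv.le_vm _ a _
  have k3 : ∀ w, Real.exp (2 * (R * ν v₀) - ν (R • v₀ + w)) ≤ vs v (φ w 0 *ᵥ u₀) := by
    intro w
    have h1 := hφ.vs_le hv (-(R • v₀)) w u₀
    have h2 : Real.exp (2 * (R * ν v₀)) ≤ vs v (φ (-(R • v₀)) 0 *ᵥ u₀) := by
      rw [e1, ← hpq]
      exact UNorm.le_vs (fun a => φ (-(R • v₀)) (R • v₀) a q) p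
    have h3 : w - -(R • v₀) = R • v₀ + w := by abel
    rw [h3] at h1
    rw [Real.exp_sub, div_le_iff₀ (Real.exp_pos _)]
    refine (h2.trans h1).trans (le_of_eq (mul_comm _ _))
  have k4 : ∀ w, Real.exp (2 * (R * ν v₀) - ν (R • v₀ - w)) ≤ vs v (φ w 0 *ᵥ u₀') := by
    intro w
    have h1 := hφ.vs_le hv (R • v₀) w u₀'
    have h2 : Real.exp (2 * (R * ν v₀)) ≤ vs v (φ (R • v₀) 0 *ᵥ u₀') := by
      rw [e2, ← hpq']
      exact UNorm.le_vs (fun a => φ (R • v₀) (-(R • v₀)) a (B.bar p)) (B.bar q)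
    rw [hν.symm] at h1
    rw [Real.exp_sub, div_le_iff₀ (Real.exp_pos _)]
    refine (h2.trans h1).trans (le_of_eq (mul_comm _ _))
  refine ⟨fun a => u₀ a * c, fun a => u₀' a * c, ?_, fun w => ?_⟩
  · rw [pr_mul_right, hv.mul, hv.mul, S.norm_σ, hc]
    have h1 : pr S B u₀' u₀ = algebraMap ℝ K (B.jc (B.bar p)) * M p q := by
      have h2 : u₀ = φ 0 (-(R • v₀)) *ᵥ (M *ᵥ Pi.single q 1) := by
        simp only [u₀]
        rw [hM, Matrix.mulVec_mulVec, hφ.mul]
      rw [h2]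
      simp only [u₀']
      rw [pr_mulVec S B (hφ.form _ _), pr, Finset.sum_eq_single (B.bar p)]
      · rw [Pi.single_eq_same, S.σ_one, one_mul, JI_mulVec, B.bar_bar, mulVec_single_col]
      · intro b _ hb
        rw [Pi.single_eq_of_ne hb, map_zero, zero_mul]
      · intro h; exact absurd (Finset.mem_univ _) h
    rw [h1, hv.mul, v_jc hva, one_mul, hpq, ← Real.exp_add, ← Real.exp_add, ← Real.exp_zero]
    congr 1
    ring
  · rw [UNorm.mulVec_mul_right, hv.vs_mul_right, UNorm.mulVec_mul_right, hv.vs_mul_right, hc]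
    have hpos := Real.exp_pos (-(R * ν v₀))
    refine ⟨?_, ?_, ?_, ?_⟩
    · refine le_trans (le_of_eq ?_) (mul_le_mul_of_nonneg_right (k3 w) hpos.le)
      rw [← Real.exp_add]; congr 1; ring
    · refine (mul_le_mul_of_nonneg_right (k1 w) hpos.le).trans (le_of_eq ?_)
      rw [← Real.exp_add]; congr 1
    · refine le_trans (le_of_eq ?_) (mul_le_mul_of_nonneg_right (k4 w) hpos.le)
      rw [← Real.exp_add]; congr 1; ring
    · refine (mul_le_mul_of_nonneg_right (k2 w) hpos.le).trans (le_of_eq ?_)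
      rw [← Real.exp_add]; congr 1

end FlatK

end flat

section exact

variable {n : ℕ} {U : Ultrafilter ℕ} {r : ℕ → ℝ} {D K : Type} [NormedDivisionRing D]
  [NormedAlgebra ℝ D] [DivisionRing K] [Algebra ℝ K] {R : RobData U r D K} {I : Type} [Fintype I]
  [DecidableEq I] [Nonempty I] {S : FormK R.v} {B : IForm I} {ν : (Fin n → ℝ) → ℝ}
  {φ : (Fin n → ℝ) → (Fin n → ℝ) → Matrix I I K}

/-- **Exact weight vectors** for the derivatives of `ν`. -/
theorem FlatK.exact_pair (hU : (U : Filter ℕ) ≤ atTop) (hr : Tendsto r (U : Filter ℕ) atTop)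
    (F : FormData D) (hS : ∀ a, Mod U r a → S.σ (R.toK a) = R.toK (fun i => F.σ (a i)))
    (hφ : FlatK S B ν φ) (hν : Nrm ν) {χ : (Fin n → ℝ) →L[ℝ] ℝ} {v₀ : Fin n → ℝ}
    (hχ : HasFDerivAt ν χ v₀) : ∃ u u' : I → K, R.v (pr S B u' u) = 1 ∧ ∀ w,
      vs R.v (φ w 0 *ᵥ u) = Real.exp (-χ w) ∧ vs R.v (φ w 0 *ᵥ u') = Real.exp (χ w) := by
  classical
  have hv := R.hv
  -- a dense sequence of points starting with `0`
  let ws : ℕ → (Fin n → ℝ) := fun l => Nat.casesOn l 0 (fun l => TopologicalSpace.denseSeq _ l)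
  have hws0 : ws 0 = 0 := rfl
  have hdense : ∀ (w : Fin n → ℝ) (δ : ℝ), 0 < δ → ∃ l, dist w (ws l) < δ := by
    intro w δ hδ
    have h1 := (TopologicalSpace.denseRange_denseSeq (Fin n → ℝ)).exists_dist_lt w hδ
    obtain ⟨l, hl⟩ := h1
    exact ⟨l + 1, hl⟩
  obtain ⟨u, u', h1, h2⟩ := rob_sat R hU hr F S hS (fun l => φ (ws l) 0)
    (by rw [hws0]; exact hφ.one 0) (JI B K) (fun l => χ (ws l)) (fun m => by
      have hm : (0 : ℝ) < 1 / ((m : ℝ) + 1) := by positivity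
      have hev : ∀ᶠ R' : ℝ in atTop, 0 ≤ R' ∧ ∀ l ∈ Finset.range (m + 1),
          |ν (R' • v₀ + ws l) - R' * ν v₀ - χ (ws l)| ≤ 1 / ((m : ℝ) + 1) ∧
          |ν (R' • v₀ - ws l) - R' * ν v₀ + χ (ws l)| ≤ 1 / ((m : ℝ) + 1) := by
        refine (eventually_ge_atTop 0).and ?_
        rw [Filter.eventually_all_finset]
        intro l _
        have t1 := hν.tendsto_deriv hχ (ws l)
        have t2 := hν.tendsto_deriv hχ (-ws l)
        rw [Metric.tendsto_nhds] at t1 t2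
        filter_upwards [t1 _ hm, t2 _ hm] with R' h3 h4
        rw [Real.dist_eq] at h3 h4
        rw [map_neg, sub_neg_eq_add, ← sub_eq_add_neg] at h4
        exact ⟨h3.le, h4.le⟩
      obtain ⟨R', hR', hl⟩ := hev.exists
      obtain ⟨u, u', hp, hw⟩ := hφ.weight_pair hv (v_alg R hr) hν (R.tt) (v_tt R hr) v₀ hR'
      refine ⟨u, u', fun l hlm => ?_, hp⟩
      obtain ⟨a1, a2⟩ := hl l (Finset.mem_range.2 (by omega))
      rw [abs_le] at a1 a2
      obtain ⟨b1, b2, b3, b4⟩ := hw (ws l)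
      refine ⟨le_trans (Real.exp_le_exp.2 ?_) b1, b2.trans (Real.exp_le_exp.2 ?_),
        le_trans (Real.exp_le_exp.2 ?_) b3, b4.trans (Real.exp_le_exp.2 ?_)⟩
      · linarith
      · linarith
      · linarith
      · linarith)
  refine ⟨u, u', h2, fun w => ?_⟩
  -- continuity
  have key : ∀ (u : I → K) (c : (Fin n → ℝ) →L[ℝ] ℝ),
      (∀ l, vs R.v (φ (ws l) 0 *ᵥ u) = Real.exp (c (ws l))) →
      vs R.v (φ w 0 *ᵥ u) = Real.exp (c w) := by
    intro u c hc
    have hcont1 : Continuous fun w' : Fin n → ℝ => ν (w' - w) + c w' :=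
      (hν.continuous.comp (continuous_id.sub continuous_const)).add c.continuous
    have hcont2 : Continuous fun w' : Fin n → ℝ => c w' - ν (w - w') :=
      c.continuous.sub (hν.continuous.comp (continuous_const.sub continuous_id))
    have hup : ∀ ε : ℝ, 0 < ε → vs R.v (φ w 0 *ᵥ u) ≤ Real.exp (c w + ε) := by
      intro ε hε
      obtain ⟨δ, hδ, hd⟩ := Metric.continuousAt_iff.1 hcont1.continuousAt ε hε
      obtain ⟨l, hl⟩ := hdense w δ hδ
      have h3 := hd (by rw [dist_comm]; exact hl)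
      rw [Real.dist_eq, sub_self, hν.zero, zero_add] at h3
      have h4 := hφ.vs_le hv w (ws l) u
      rw [hc, ← Real.exp_add] at h4
      refine h4.trans (Real.exp_le_exp.2 ?_)
      have := (abs_lt.1 h3).2
      linarith
    have hlo : ∀ ε : ℝ, 0 < ε → Real.exp (c w - ε) ≤ vs R.v (φ w 0 *ᵥ u) := by
      intro ε hε
      obtain ⟨δ, hδ, hd⟩ := Metric.continuousAt_iff.1 hcont2.continuousAt ε hε
      obtain ⟨l, hl⟩ := hdense w δ hδ
      have h3 := hd (by rw [dist_comm]; exact hl)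
      rw [Real.dist_eq, sub_self, hν.zero, sub_zero] at h3
      have h4 := hφ.vs_le hv (ws l) w u
      rw [hc] at h4
      have h5 : Real.exp (c (ws l) - ν (w - ws l)) ≤ vs R.v (φ w 0 *ᵥ u) := by
        rw [Real.exp_sub, div_le_iff₀ (Real.exp_pos _)]
        exact h4.trans (le_of_eq (mul_comm _ _))
      refine le_trans (Real.exp_le_exp.2 ?_) h5
      have := (abs_lt.1 h3).1
      linarith
    have hpos : 0 < vs R.v (φ w 0 *ᵥ u) := (Real.exp_pos _).trans_le (hlo 1 one_pos)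
    rw [← Real.exp_log hpos]
    congr 1
    apply le_antisymm
    · refine le_of_forall_pos_le_add fun ε hε => ?_
      rw [Real.log_le_iff_le_exp hpos]
      exact hup ε hε
    · refine le_of_forall_pos_le_add fun ε hε => ?_
      have h3 : c w - ε ≤ Real.log (vs R.v (φ w 0 *ᵥ u)) := by
        rw [Real.le_log_iff_exp_le hpos]
        exact hlo ε hε
      linarith
  exact ⟨key u (-χ) fun l => (h1 l).1, key u' χ fun l => (h1 l).2⟩

end exact

end Pool.Agent.ANQ
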