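import Mathlib

/-!
# Norms with few derivatives
-/

namespace Pool.Agent.ANQ

open Filter Topology MeasureTheory

/-- Euler's relation for norms. -/
theorem euler_norm {E : Type} [NormedAddCommGroup E] [NormedSpace ℝ E] {ν : E → ℝ}
    (hhom : ∀ (c : ℝ) p, ν (c • p) = |c| * ν p) {χ : E →L[ℝ] ℝ} {w : E}
    (h : HasFDerivAt ν χ w) : χ w = ν w := by
  have h1 : HasDerivAt (fun t : ℝ => t • w) w 1 := by
    simpa using (hasDerivAt_id (1 : ℝ)).smul_const w
  have h2 : HasDerivAt (fun t : ℝ => ν (t • w)) (χ w) 1 := by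
    have h3 : HasFDerivAt ν χ ((1 : ℝ) • w) := by rwa [one_smul]
    exact h3.comp_hasDerivAt (1 : ℝ) h1
  have h4 : HasDerivAt (fun t : ℝ => ν (t • w)) (ν w) 1 := by
    have h5 : HasDerivAt (fun t : ℝ => t * ν w) (ν w) 1 := by
      simpa using (hasDerivAt_id (1 : ℝ)).mul_const (ν w)
    refine h5.congr_of_eventuallyEq ?_
    filter_upwards [lt_mem_nhds (zero_lt_one : (0 : ℝ) < 1)] with t ht
    rw [hhom, abs_of_pos ht]
  exact h2.unique h4

/-- A norm on `ℝⁿ` which has, up to sign, at most `n` different derivatives, has `n` derivatives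
which are a system of linear coordinates. -/
theorem poly {n : ℕ} (ν : (Fin n → ℝ) → ℝ) (hsub : ∀ p q, ν (p + q) ≤ ν p + ν q)
    (hhom : ∀ (c : ℝ) p, ν (c • p) = |c| * ν p) {k K : ℝ} (hk : 0 < k)
    (hlo : ∀ p, k * ‖p‖ ≤ ν p) (hup : ∀ p, ν p ≤ K * ‖p‖)
    (hcount : ∀ (a : ℕ) (χ : Fin a → ((Fin n → ℝ) →L[ℝ] ℝ)),
      (∀ i, ∃ w, HasFDerivAt ν (χ i) w) → (∀ i j, i ≠ j → χ i ≠ χ j ∧ χ i ≠ -χ j) → a ≤ n) :
    ∃ T : (Fin n → ℝ) ≃ₗ[ℝ] (Fin n → ℝ), ∀ k : Fin n, ∃ w, ∃ χ : (Fin n → ℝ) →L[ℝ] ℝ,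
      HasFDerivAt ν χ w ∧ ∀ p, χ p = T p k := by
  classical
  -- the Lipschitz estimate
  have hneg : ∀ p, ν (-p) = ν p := by
    intro p
    have := hhom (-1) p
    simpa using this
  have hlip1 : ∀ p q, ν p - ν q ≤ K * ‖p - q‖ := by
    intro p q
    have h1 := hsub (p - q) q
    rw [sub_add_cancel] at h1
    linarith [hup (p - q)]
  have hlip2 : ∀ p q, |ν p - ν q| ≤ |K| * ‖p - q‖ := by
    intro p q
    have h1 := hlip1 p q
    have h2 := hlip1 q p
    rw [norm_sub_rev] at h2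
    have h3 : K * ‖p - q‖ ≤ |K| * ‖p - q‖ :=
      mul_le_mul_of_nonneg_right (le_abs_self K) (norm_nonneg _)
    rw [abs_le]
    constructor <;> linarith
  have hlip : LipschitzWith (Real.nnabs K) ν := by
    refine LipschitzWith.of_dist_le_mul fun p q => ?_
    rw [Real.dist_eq, dist_eq_norm, Real.coe_nnabs]
    exact hlip2 p q
  have hcont : Continuous ν := hlip.continuous
  have hdense : Dense {w | DifferentiableAt ℝ ν w} :=
    Measure.dense_of_ae (μ := (volume : Measure (Fin n → ℝ)))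
      (hlip.ae_differentiableAt (μ := (volume : Measure (Fin n → ℝ))))
  -- a maximal family
  let Q : ℕ → Prop := fun a => ∃ χ : Fin a → ((Fin n → ℝ) →L[ℝ] ℝ),
    (∀ i, ∃ w, HasFDerivAt ν (χ i) w) ∧ (∀ i j, i ≠ j → χ i ≠ χ j ∧ χ i ≠ -χ j)
  have hQ0 : Q 0 := ⟨fun i => i.elim0, fun i => i.elim0, fun i => i.elim0⟩
  have hQn : ∀ a, Q a → a ≤ n := by
    rintro a ⟨χ, h1, h2⟩
    exact hcount a χ h1 h2
  obtain ⟨a, hQa, hmax⟩ : ∃ a, Q a ∧ ¬ Q (a + 1) := by
    by_contra hcon
    push Not at hcon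
    have hall : ∀ a, Q a := by
      intro a
      induction a with
      | zero => exact hQ0
      | succ a ih => exact hcon a ih
    have := hQn _ (hall (n + 1))
    omega
  obtain ⟨χ, hχ1, hχ2⟩ := hQa
  have hex : ∀ (w : Fin n → ℝ) (ψ : (Fin n → ℝ) →L[ℝ] ℝ), HasFDerivAt ν ψ w →
      ∃ i, ψ = χ i ∨ ψ = -χ i := by
    intro w ψ hψ
    by_contra hcon
    push Not at hcon
    apply hmax
    refine ⟨Fin.cons ψ χ, ?_, ?_⟩
    · intro i
      refine Fin.cases ?_ (fun i => ?_) i
      · exact ⟨w, by simpa using hψ⟩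
      · simpa using hχ1 i
    · intro i j
      refine Fin.cases ?_ (fun i => ?_) i <;> refine Fin.cases ?_ (fun j => ?_) j
      · intro h; exact absurd rfl h
      · intro _
        simpa using hcon j
      · intro _
        have h1 := hcon i
        simp only [Fin.cons_succ, Fin.cons_zero]
        refine ⟨fun h => h1.1 h.symm, fun h => h1.2 ?_⟩
        rw [h, neg_neg]
      · intro h
        have h1 : i ≠ j := fun e => h (by rw [e])
        simpa using hχ2 i j h1
  -- the common kernel is trivial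
  have hbound : ∀ p, ν p ≤ ∑ i, |χ i p| := by
    have hc2 : Continuous fun p : Fin n → ℝ => ∑ i, |χ i p| :=
      continuous_finsetSum _ fun i _ => (χ i).continuous.abs
    have hcl : IsClosed {p : Fin n → ℝ | ν p ≤ ∑ i, |χ i p|} := isClosed_le hcont hc2
    intro p
    have hp : p ∈ closure {w | DifferentiableAt ℝ ν w} := hdense p
    refine hcl.closure_subset_iff.2 ?_ hp
    intro w hw
    have h1 := DifferentiableAt.hasFDerivAt hw
    obtain ⟨i, hi⟩ := hex w _ h1
    have h2 := euler_norm hhom h1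
    have h3 : |χ i w| ≤ ∑ i, |χ i w| :=
      Finset.single_le_sum (f := fun i => |χ i w|) (fun _ _ => abs_nonneg _) (Finset.mem_univ i)
    refine le_trans ?_ h3
    rw [← h2]
    rcases hi with hi | hi
    · rw [hi]; exact le_abs_self _
    · rw [hi]
      simp only [neg_apply]
      exact neg_le_abs _
  let L : (Fin n → ℝ) →ₗ[ℝ] (Fin a → ℝ) := LinearMap.pi fun i => (χ i).toLinearMap
  have hLinj : Function.Injective L := by
    rw [← LinearMap.ker_eq_bot, LinearMap.ker_eq_bot']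
    intro p hp
    have h1 : ∀ i, χ i p = 0 := fun i => congrFun hp i
    have h2 := hbound p
    simp only [h1, abs_zero, Finset.sum_const_zero] at h2
    have h3 := hlo p
    have h4 : k * ‖p‖ ≤ 0 := h3.trans h2
    have h5 : ‖p‖ ≤ 0 := by
      by_contra h
      push Not at h
      have := mul_pos hk h
      linarith
    exact norm_le_zero_iff.1 h5
  have hfr := LinearMap.finrank_le_finrank_of_injective hLinj
  rw [Module.finrank_fintype_fun_eq_card, Module.finrank_fintype_fun_eq_card, Fintype.card_fin,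
    Fintype.card_fin] at hfr
  have han : a = n := le_antisymm (hQn a ⟨χ, hχ1, hχ2⟩) hfr
  subst han
  refine ⟨LinearEquiv.ofInjectiveEndo L hLinj, fun i => ?_⟩
  obtain ⟨w, hw⟩ := hχ1 i
  exact ⟨w, χ i, hw, fun p => rfl⟩

end Pool.Agent.ANQ
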