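import Pool.Agent.ANQ.Setup

/-!
# One pointwise choice of frames
-/

namespace Pool.Agent.ANQ

open Matrix Filter Topology Pool.Agent.ANM51 Pool.Agent.ANM65

set_option linter.unusedSectionVars false

section

variable {n : ℕ} {D₁ : Type} [NormedDivisionRing D₁] [NormedAlgebra ℝ D₁]

theorem ext_zero_h29 : ext (0 : Fin n → ℝ) = 0 := by
  funext i
  refine Fin.lastCases ?_ (fun i => ?_) i <;> simp [ext]

theorem av_zero_h29 : av D₁ (0 : Fin n → ℝ) = 1 := by
  rw [av, ext_zero_h29]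
  apply Subtype.ext
  apply Units.ext
  exact torM_zero

theorem sh_zero_h29 (r : ℕ → ℝ) (x : ℕ → ANSL n D₁) (i : ℕ) : sh r x 0 i = x i := by
  rw [sh, smul_zero, av_zero_h29, mul_one]

end

section sel

variable {n : ℕ} {D₁ D₂ : Type} [NormedDivisionRing D₁] [NormedAlgebra ℝ D₁]
  [NormedDivisionRing D₂] [NormedAlgebra ℝ D₂] {I : Type} [Fintype I] [DecidableEq I] [Nonempty I]
  {U : Ultrafilter ℕ} {r : ℕ → ℝ} {K : Type} [DivisionRing K] [Algebra ℝ K]
  (R : RobData U r D₂ K)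

/-- a property of frames which holds on a dense set of parameters holds everywhere -/
theorem bd_of_dense {S : FormK R.v} {B : IForm I} {ν : (Fin n → ℝ) → ℝ} (hν : Nrm ν)
    {φ : (Fin n → ℝ) → (Fin n → ℝ) → Matrix I I K} (hφ : FlatK S B ν φ)
    (wI : I → (Fin n → ℝ) →ₗ[ℝ] ℝ) (T : (Fin n → ℝ) ≃ₗ[ℝ] (Fin n → ℝ)) {H : Matrix I I K}
    {W : Set (Fin n → ℝ)} (hW : Dense W)
    (h : ∀ w ∈ W, ∀ p q, R.v ((φ w 0 * H) p q) ≤ Real.exp (-(wI q (T w)))) (w : Fin n → ℝ)
    (p q : I) : R.v ((φ w 0 * H) p q) ≤ Real.exp (-(wI q (T w))) := by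
  have hv := R.hv
  have hG : Continuous fun y : Fin n → ℝ => Real.exp (ν (y - w) + -(wI q (T y))) := by
    refine Real.continuous_exp.comp ?_
    refine (hν.continuous.comp (continuous_id.sub continuous_const)).add ?_
    have h1 : Continuous (wI q ∘ₗ T.toLinearMap) := LinearMap.continuous_of_finiteDimensional _
    exact h1.neg
  have hcl : IsClosed {y : Fin n → ℝ | R.v ((φ w 0 * H) p q) ≤
      Real.exp (ν (y - w) + -(wI q (T y)))} := isClosed_le continuous_const hG
  have hmem : w ∈ {y : Fin n → ℝ | R.v ((φ w 0 * H) p q) ≤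
      Real.exp (ν (y - w) + -(wI q (T y)))} := by
    refine hcl.closure_subset_iff.2 ?_ (hW w)
    intro y hy
    change R.v ((φ w 0 * H) p q) ≤ _
    have h1 : φ w 0 * H = φ w y * (φ y 0 * H) := by
      rw [← Matrix.mul_assoc, hφ.mul]
    rw [h1, Matrix.mul_apply]
    refine hv.sum_le _ _ (Real.exp_pos _).le fun a _ => ?_
    rw [hv.mul, Real.exp_add]
    refine mul_le_mul ?_ (h y hy a q) (hv.nonneg _) (Real.exp_pos _).le
    rw [← hφ.norm]
    exact hv.le_vm _ _ _
  have h2 : R.v ((φ w 0 * H) p q) ≤ Real.exp (ν (w - w) + -(wI q (T w))) := hmem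
  rwa [sub_self, hν.zero, zero_add] at h2

/-- **One pointwise choice of frames.** -/
theorem exists_HH (hU : (U : Filter ℕ) ≤ atTop) (hr : Tendsto r (U : Filter ℕ) atTop)
    (F : FormData D₂) (S : FormK R.v)
    (hS : ∀ a, Mod U r a → S.σ (R.toK a) = R.toK (fun i => F.σ (a i))) (B : IForm I)
    (wI : I → (Fin n → ℝ) →ₗ[ℝ] ℝ) (T : (Fin n → ℝ) ≃ₗ[ℝ] (Fin n → ℝ))
    (f : ANSL n D₁ → (Matrix I I D₂)ˣ) :
    ∃ HH : ℕ → ANSL n D₁ → Matrix I I D₂, ∀ (x : ℕ → ANSL n D₁) (ν : (Fin n → ℝ) → ℝ), Nrm ν →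
      FlatK S B ν (phiS (r := r) R f x) →
      (∀ w w', ModM U r fun i => ((f (sh r x w i))⁻¹ * f (sh r x w' i)).val) →
      (∃ H, FrameK S B wI T (phiS (r := r) R f x) H) →
      ModM U r (fun i => ((f (x i))⁻¹).val * HH i (x i)) ∧
      FrameK S B wI T (phiS (r := r) R f x) (cl R fun i => ((f (x i))⁻¹).val * HH i (x i)) := by
  classical
  -- a dense sequence of points starting with `0`
  let ws : ℕ → (Fin n → ℝ) := fun l => Nat.casesOn l 0 (fun l => TopologicalSpace.denseSeq _ l)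
  have hws0 : ws 0 = 0 := rfl
  have hdense : Dense (Set.range ws) := by
    refine (TopologicalSpace.denseRange_denseSeq (Fin n → ℝ)).mono ?_
    rintro _ ⟨l, rfl⟩
    exact ⟨l + 1, rfl⟩
  let Φ : ℕ → ANSL n D₁ → (Fin n → ℝ) → Matrix I I D₂ := fun i x w =>
    ((f (x * av D₁ (r i • w)))⁻¹ * f x).val
  let P : ℕ → ℕ → ANSL n D₁ → Matrix I I D₂ → Prop := fun m i x h => 0 ≤ r i →
    ((∀ l ≤ m, ∀ p q, ‖(Φ i x (ws l) * h) p q‖ ≤
      Real.exp ((-(wI q (T (ws l))) + 1 / ((m : ℝ) + 1)) * r i)) ∧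
    ∀ p q, ‖(ct F.σ h * JI B D₂ * h - JI B D₂) p q‖ ≤ Real.exp (-((m : ℝ) * r i)))
  have hP : ∀ m i x h, P (m + 1) i x h → P m i x h := by
    intro m i x h hh h0
    obtain ⟨h1, h2⟩ := hh h0
    refine ⟨fun l hl p q => (h1 l (by omega) p q).trans ?_, fun p q => (h2 p q).trans ?_⟩
    · apply Real.exp_le_exp.2
      refine mul_le_mul_of_nonneg_right ?_ h0
      have h3 : 1 / (((m + 1 : ℕ) : ℝ) + 1) ≤ 1 / ((m : ℝ) + 1) := by
        apply one_div_le_one_div_of_le (by positivity)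
        push_cast
        linarith
      linarith
    · apply Real.exp_le_exp.2
      push_cast
      nlinarith
  obtain ⟨hh, hsel⟩ := seq_select U hU P hP
  refine ⟨fun i x => (f x).val * hh i x, fun x ν hν hφ hmod hex => ?_⟩
  obtain ⟨H, hH⟩ := hex
  have hv := R.hv
  have hr0 : ∀ᶠ i in (U : Filter ℕ), 0 ≤ r i := hr.eventually_ge_atTop 0
  -- the classes of `Φ`
  have hΦm : ∀ w, ModM U r (fun i => Φ i (x i) w) := by
    intro w
    have h1 := hmod w 0
    have h2 : (fun i => ((f (sh r x w i))⁻¹ * f (sh r x 0 i)).val) = fun i => Φ i (x i) w := by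
      funext i
      rw [sh_zero_h29]
      rfl
    rwa [h2] at h1
  have hΦc : ∀ w, phiS (r := r) R f x w 0 = cl R fun i => Φ i (x i) w := by
    intro w
    rw [phiS, cc]
    congr 1
    funext i
    rw [sh_zero_h29]
    rfl
  -- representatives of `H`
  choose a ha haH using fun p q => R.surj (H p q)
  let h : ℕ → Matrix I I D₂ := fun i p q => a p q i
  have hhm : ModM U r h := fun p q => ha p q
  have hhc : cl R h = H := by
    ext p q
    exact haH p q
  have hJ : ModM U r (fun _ => JI B D₂) := ModM.const hr _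
  -- the class of the Gram matrix
  have gramM : ∀ {k : ℕ → Matrix I I D₂}, ModM U r k →
      ModM U r (fun i => ct F.σ (k i) * JI B D₂ * k i) := fun hk =>
    ((ModM.ct (F := F) hk).mul hr hJ).mul hr hk
  have gramC : ∀ {k : ℕ → Matrix I I D₂}, ModM U r k →
      cl R (fun i => ct F.σ (k i) * JI B D₂ * k i) = ct S.σ (cl R k) * JI B K * cl R k := by
    intro k hk
    rw [← cl_ct R F S hS hk, ← cl_JI R B, ← cl_mul R hr (ModM.ct (F := F) hk) hJ,
      ← cl_mul R hr ((ModM.ct (F := F) hk).mul hr hJ) hk]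
  have hpre : ∀ m, ∃ k : ℕ → Matrix I I D₂, ∀ᶠ i in (U : Filter ℕ), P m i (x i) (k i) := by
    intro m
    refine ⟨h, ?_⟩
    have e1 : ∀ᶠ i in (U : Filter ℕ), ∀ l ∈ Finset.range (m + 1), ∀ p q,
        ‖(Φ i (x i) (ws l) * h i) p q‖ ≤
          Real.exp ((-(wI q (T (ws l))) + 1 / ((m : ℝ) + 1)) * r i) := by
      rw [Filter.eventually_all_finset]
      intro l _
      rw [Filter.eventually_all]
      intro p
      rw [Filter.eventually_all]
      intro q
      have h1 := hH.bd (ws l) p q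
      rw [hΦc, ← hhc, ← cl_mul R hr (hΦm (ws l)) hhm] at h1
      exact (v_le_iff R hr (((hΦm (ws l)).mul hr hhm) p q) _).1 h1 _ (by positivity)
    have e2 : ∀ᶠ i in (U : Filter ℕ), ∀ p q,
        ‖(ct F.σ (h i) * JI B D₂ * h i - JI B D₂) p q‖ ≤ Real.exp (-((m : ℝ) * r i)) := by
      rw [Filter.eventually_all]
      intro p
      rw [Filter.eventually_all]
      intro q
      have h1 : R.toK (fun i => (ct F.σ (h i) * JI B D₂ * h i) p q) = R.toK (fun _ => JI B D₂ p q) := by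
        have h2 := gramC hhm
        rw [hhc, hH.form, ← cl_JI R B] at h2
        exact congrFun (congrFun h2 p) q
      exact (R.eq_iff hr (gramM hhm p q) (hJ p q)).1 h1 m
    filter_upwards [e1, e2] with i k1 k2 _
    exact ⟨fun l hl p q => k1 l (Finset.mem_range.2 (by omega)) p q, k2⟩
  have hpost := hsel x hpre
  -- the chosen matrices
  have hfin : ∀ i, ((f (x i))⁻¹).val * ((f (x i)).val * hh i (x i)) = hh i (x i) := by
    intro i
    rw [← Matrix.mul_assoc, Units.inv_mul, Matrix.one_mul]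
  simp only [hfin]
  have hm : ModM U r (fun i => hh i (x i)) := by
    intro p q
    refine ⟨1, ?_⟩
    filter_upwards [hpost 0, hr0] with i h1 h2
    have h3 := (h1 h2).1 0 le_rfl p q
    have h4 : Φ i (x i) (ws 0) = 1 := by
      simp only [Φ, hws0]
      rw [smul_zero, av_zero_h29, mul_one, inv_mul_cancel]
      rfl
    rw [h4, Matrix.one_mul, hws0, map_zero, map_zero] at h3
    refine h3.trans (Real.exp_le_exp.2 ?_)
    simp
  refine ⟨hm, ?_, ?_⟩
  · rw [← gramC hm]
    ext p q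
    have h1 : JI B K p q = R.toK (fun _ => JI B D₂ p q) := by
      rw [← cl_JI R B]
      rfl
    rw [h1]
    refine toK_congr R hr (gramM hm p q) (hJ p q) ?_
    intro C
    obtain ⟨m, hmC⟩ := exists_nat_ge C
    filter_upwards [hpost m, hr0] with i h1 h2
    refine ((h1 h2).2 p q).trans (Real.exp_le_exp.2 ?_)
    nlinarith
  · refine bd_of_dense R hν hφ wI T hdense ?_
    rintro _ ⟨l, rfl⟩ p q
    rw [hΦc, ← cl_mul R hr (hΦm (ws l)) hm]
    refine (v_le_iff R hr (((hΦm (ws l)).mul hr hm) p q) _).2 ?_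
    intro η hη
    obtain ⟨m₀, hm₀⟩ := exists_nat_one_div_lt hη
    filter_upwards [hpost (max l m₀), hr0] with i h1 h2
    refine ((h1 h2).1 l (le_max_left _ _) p q).trans (Real.exp_le_exp.2 ?_)
    refine mul_le_mul_of_nonneg_right ?_ h2
    have h3 : 1 / (((max l m₀ : ℕ) : ℝ) + 1) ≤ 1 / ((m₀ : ℝ) + 1) := by
      apply one_div_le_one_div_of_le (by positivity)
      have : (m₀ : ℝ) ≤ ((max l m₀ : ℕ) : ℝ) := by exact_mod_cast le_max_right _ _
      linarith
    linarith

end sel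

end Pool.Agent.ANQ
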