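import Pool.Agent.ANQ.Cls
import Pool.Agent.ANQ.Frame

/-!
# Quasi-isometric embeddings along sequences: definitions
-/

namespace Pool.Agent.ANQ

open Matrix Filter Topology Pool.Agent.ANM51 Pool.Agent.ANM65

set_option linter.unusedSectionVars false

section setup

variable {n : ℕ} {D₁ D₂ : Type} [NormedDivisionRing D₁] [NormedAlgebra ℝ D₁]
  [NormedDivisionRing D₂] [NormedAlgebra ℝ D₂] {I : Type} [Fintype I] [DecidableEq I]

/-- `f : A₁N₁ → G₂` is a quasi-isometric embedding for the length functions `len`, with values in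
the isometry group of the form. -/
structure QIE (B : IForm I) (F : FormData D₂) (f : ANSL n D₁ → (Matrix I I D₂)ˣ) (L C : ℝ) :
    Prop where
  pos : 0 < L
  mem : ∀ x, ct F.σ (f x).val * JI B D₂ * (f x).val = JI B D₂
  up : ∀ x y : ANSL n D₁, len ((f x)⁻¹ * f y) ≤ L * len (x⁻¹ * y).1 + C
  lo : ∀ x y : ANSL n D₁, len (x⁻¹ * y).1 / L - C ≤ len ((f x)⁻¹ * f y)

/-- the sequence `x_i a(r_i p)` -/
noncomputable def sh (r : ℕ → ℝ) (x : ℕ → ANSL n D₁) (p : Fin n → ℝ) : ℕ → ANSL n D₁ :=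
  fun i => x i * av D₁ (r i • p)

/-- sequences at distance `O(r)` -/
def NearS (U : Ultrafilter ℕ) (r : ℕ → ℝ) (x y : ℕ → ANSL n D₁) : Prop :=
  ∃ C : ℝ, ∀ᶠ i in (U : Filter ℕ), len ((x i)⁻¹ * y i).1 ≤ C * r i

variable {U : Ultrafilter ℕ} {r : ℕ → ℝ} {K : Type} [DivisionRing K] [Algebra ℝ K]
  (R : RobData U r D₂ K)

/-- the class of `f(x_i)⁻¹ f(y_i)` -/
def cc (f : ANSL n D₁ → (Matrix I I D₂)ˣ) (x y : ℕ → ANSL n D₁) : Matrix I I K :=
  cl R fun i => ((f (x i))⁻¹ * f (y i)).val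

/-- the flat through the sequence `x` -/
noncomputable def phiS (f : ANSL n D₁ → (Matrix I I D₂)ˣ) (x : ℕ → ANSL n D₁)
    (p q : Fin n → ℝ) : Matrix I I K := cc R f (sh r x p) (sh r x q)

/-- good sequences at distance `O(r)` of `g` which differ from `g` by a unipotent element -/
def GGs (U : Ultrafilter ℕ) (r : ℕ → ℝ) (Good : ℕ → Set (ANSL n D₁)) (g : ℕ → ANSL n D₁) :
    Set (ℕ → ANSL n D₁) :=
  {x | (∀ᶠ i in (U : Filter ℕ), x i ∈ Good i) ∧
    (∀ i p, (((g i)⁻¹ * x i).1.val : Matrix (Fin (n + 1)) (Fin (n + 1)) D₁) p p = 1) ∧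
    NearS U r g x}

/-- The conclusion of `energy` for the good sets, along the ultrafilter `U`. -/
def EnergyProp (U : Ultrafilter ℕ) (r : ℕ → ℝ) (f : ANSL n D₁ → (Matrix I I D₂)ˣ)
    (Good : ℕ → Set (ANSL n D₁)) : Prop :=
  ∀ x : ℕ → ANSL n D₁, (∀ᶠ i in (U : Filter ℕ), x i ∈ Good i) →
    ∃ ν : (Fin n → ℝ) → ℝ, Nrm ν ∧ ∀ p q, Tendsto
      (fun i => len ((f (sh r x p i))⁻¹ * f (sh r x q i)) / r i) (U : Filter ℕ) (𝓝 (ν (q - p)))

end setup

end Pool.Agent.ANQ
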