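import Pool.Agent.ANQ.VDef

/-!
# Linear algebra over an ultranormed division ring
-/

namespace Pool.Agent.ANQ

open Matrix Filter Topology Pool.Agent.ANM51

set_option linter.unusedSectionVars false

section un

variable {K : Type} [DivisionRing K] {v : K → ℝ}

namespace UNorm

variable (hv : UNorm v)

include hv

theorem zero : v 0 = 0 := (hv.eq_zero 0).2 rfl

theorem ne_zero {a : K} (ha : a ≠ 0) : v a ≠ 0 := fun h => ha ((hv.eq_zero a).1 h)

theorem pos {a : K} (ha : a ≠ 0) : 0 < v a := lt_of_le_of_ne (hv.nonneg a) (hv.ne_zero ha).symm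

theorem one : v 1 = 1 := by
  have h := hv.mul 1 1
  rw [one_mul] at h
  have h1 := hv.ne_zero (one_ne_zero (α := K))
  have h2 : v 1 * (v 1 - 1) = 0 := by linarith
  rcases mul_eq_zero.1 h2 with h3 | h3
  · exact absurd h3 h1
  · linarith

theorem neg_one : v (-1) = 1 := by
  have h := hv.mul (-1) (-1)
  rw [neg_mul_neg, one_mul, hv.one] at h
  have h1 := hv.nonneg (-1)
  nlinarith

theorem neg (a : K) : v (-a) = v a := by
  rw [← neg_one_mul, hv.mul, hv.neg_one, one_mul]

theorem inv (a : K) : v a⁻¹ = (v a)⁻¹ := by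
  rcases eq_or_ne a 0 with rfl | ha
  · rw [_root_.inv_zero, hv.zero, _root_.inv_zero]
  · apply eq_inv_of_mul_eq_one_left
    rw [← hv.mul, inv_mul_cancel₀ ha, hv.one]

theorem sub (a b : K) : v (a - b) ≤ max (v a) (v b) := by
  rw [sub_eq_add_neg]
  exact (hv.add a (-b)).trans (by rw [hv.neg])

theorem sum_le {ι : Type*} (s : Finset ι) (f : ι → K) {C : ℝ} (hC : 0 ≤ C)
    (h : ∀ i ∈ s, v (f i) ≤ C) : v (∑ i ∈ s, f i) ≤ C := by
  classical
  induction s using Finset.induction_on with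
  | empty => rw [Finset.sum_empty, hv.zero]; exact hC
  | insert a s ha ih =>
    rw [Finset.sum_insert ha]
    exact (hv.add _ _).trans (max_le (h a (Finset.mem_insert_self a s))
      (ih fun i hi => h i (Finset.mem_insert_of_mem hi)))

theorem eq_zero_of_forall_le {a : K} (h : ∀ C : ℝ, v a ≤ Real.exp (-C)) : a = 0 := by
  by_contra ha
  have h1 := hv.pos ha
  have h2 := h (-Real.log (v a) + 1)
  rw [neg_add, neg_neg, Real.exp_add, Real.exp_log h1] at h2
  have h3 : Real.exp (-1 : ℝ) < 1 := by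
    rw [Real.exp_lt_one_iff]; norm_num
  nlinarith

/-- exponential bounds along a sequence of exponents tending to `-∞` -/
theorem eq_zero_of_bound {a : K} {W : Type*} (ℓ : W → ℝ) (hℓ : ∀ C : ℝ, ∃ w, ℓ w ≤ -C)
    (h : ∀ w, v a ≤ Real.exp (ℓ w)) : a = 0 := by
  refine hv.eq_zero_of_forall_le fun C => ?_
  obtain ⟨w, hw⟩ := hℓ C
  exact (h w).trans (Real.exp_le_exp.2 hw)

section vec

variable {I J L : Type} [Fintype I] [Fintype J] [Fintype L]

omit hv in
theorem le_vs (u : I → K) (p : I) : v (u p) ≤ vs v u :=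
  le_ciSup (f := fun p => v (u p)) (Finite.bddAbove_range _) p

theorem vs_le {u : I → K} {C : ℝ} (hC : 0 ≤ C) (h : ∀ p, v (u p) ≤ C) : vs v u ≤ C := by
  rcases isEmpty_or_nonempty I with hI | hI
  · rw [vs, Real.iSup_of_isEmpty]; exact hC
  · exact ciSup_le h

theorem vs_nonneg (u : I → K) : 0 ≤ vs v u := Real.iSup_nonneg fun p => hv.nonneg _

omit hv in
theorem exists_vs [Nonempty I] (u : I → K) : ∃ p, v (u p) = vs v u :=
  exists_eq_ciSup_of_finite (f := fun p => v (u p))

theorem vs_eq_zero {u : I → K} (h : vs v u = 0) : u = 0 := by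
  funext p
  have h1 := le_vs (v := v) u p
  rw [h] at h1
  exact (hv.eq_zero _).1 (le_antisymm h1 (hv.nonneg _))

theorem le_vm (M : Matrix I J K) (p : I) (q : J) : v (M p q) ≤ vm v M :=
  (le_ciSup (f := fun q => v (M p q)) (Finite.bddAbove_range _) q).trans
    (le_ciSup (f := fun p => ⨆ q, v (M p q)) (Finite.bddAbove_range _) p)

theorem vm_le {M : Matrix I J K} {C : ℝ} (hC : 0 ≤ C) (h : ∀ p q, v (M p q) ≤ C) : vm v M ≤ C := by
  rcases isEmpty_or_nonempty I with hI | hI
  · rw [vm, Real.iSup_of_isEmpty]; exact hC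
  · refine ciSup_le fun p => ?_
    rcases isEmpty_or_nonempty J with hJ | hJ
    · rw [Real.iSup_of_isEmpty]; exact hC
    · exact ciSup_le (h p)

theorem vm_nonneg (M : Matrix I J K) : 0 ≤ vm v M :=
  Real.iSup_nonneg fun _ => Real.iSup_nonneg fun _ => hv.nonneg _

omit hv in
theorem exists_vm [Nonempty I] [Nonempty J] (M : Matrix I J K) : ∃ p q, v (M p q) = vm v M := by
  obtain ⟨p, hp⟩ := exists_eq_ciSup_of_finite (f := fun p => ⨆ q, v (M p q))
  obtain ⟨q, hq⟩ := exists_eq_ciSup_of_finite (f := fun q => v (M p q))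
  exact ⟨p, q, hq.trans hp⟩

theorem vs_mulVec_le (M : Matrix I J K) (u : J → K) : vs v (M *ᵥ u) ≤ vm v M * vs v u := by
  refine hv.vs_le (mul_nonneg (hv.vm_nonneg M) (hv.vs_nonneg u)) fun p => ?_
  rw [Matrix.mulVec, dotProduct]
  refine hv.sum_le _ _ (mul_nonneg (hv.vm_nonneg M) (hv.vs_nonneg u)) fun q _ => ?_
  rw [hv.mul]
  exact mul_le_mul (hv.le_vm M p q) (le_vs u q) (hv.nonneg _) (hv.vm_nonneg M)

theorem vm_mul_le (M : Matrix I J K) (N : Matrix J L K) : vm v (M * N) ≤ vm v M * vm v N := by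
  refine hv.vm_le (mul_nonneg (hv.vm_nonneg M) (hv.vm_nonneg N)) fun p q => ?_
  rw [Matrix.mul_apply]
  refine hv.sum_le _ _ (mul_nonneg (hv.vm_nonneg M) (hv.vm_nonneg N)) fun q' _ => ?_
  rw [hv.mul]
  exact mul_le_mul (hv.le_vm M p q') (hv.le_vm N q' q) (hv.nonneg _) (hv.vm_nonneg M)

theorem mul_entry_le {M : Matrix I J K} {N : Matrix J L K} {a b : ℝ} (ha : 0 ≤ a)
    (hM : ∀ p q, v (M p q) ≤ a) (hb : 0 ≤ b) (hN : ∀ p q, v (N p q) ≤ b) (p : I) (q : L) :
    v ((M * N) p q) ≤ a * b := by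
  rw [Matrix.mul_apply]
  refine hv.sum_le _ _ (mul_nonneg ha hb) fun q' _ => ?_
  rw [hv.mul]
  exact mul_le_mul (hM p q') (hN q' q) (hv.nonneg _) ha

/-- right multiplication of a vector by a scalar -/
theorem vs_mul_right (u : I → K) (c : K) : vs v (fun p => u p * c) = vs v u * v c := by
  rcases isEmpty_or_nonempty I with hI | hI
  · rw [vs, vs, Real.iSup_of_isEmpty, Real.iSup_of_isEmpty, zero_mul]
  · apply le_antisymm
    · refine hv.vs_le (mul_nonneg (hv.vs_nonneg u) (hv.nonneg c)) fun p => ?_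
      rw [hv.mul]
      exact mul_le_mul_of_nonneg_right (le_vs u p) (hv.nonneg c)
    · obtain ⟨p, hp⟩ := exists_vs (v := v) u
      rw [← hp, ← hv.mul]
      exact le_vs (fun p => u p * c) p

omit hv in
theorem mulVec_mul_right (M : Matrix I J K) (u : J → K) (c : K) :
    M *ᵥ (fun q => u q * c) = fun p => (M *ᵥ u) p * c := by
  funext p
  simp only [Matrix.mulVec, dotProduct, Finset.sum_mul, mul_assoc]

end vec

end UNorm

end un

/-! ## The form over `K` -/

section form

variable {K : Type} [DivisionRing K] [Algebra ℝ K] {v : K → ℝ} {I : Type} [Fintype I]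
  [DecidableEq I] (B : IForm I) (S : FormK v)

theorem ct_apply {A C : Type} (σ : K → K) (g : Matrix A C K) (i : C) (j : A) :
    ct σ g i j = σ (g j i) := rfl

theorem ct_mul {A C E : Type} [Fintype C] (a : Matrix A C K) (b : Matrix C E K) :
    ct S.σ (a * b) = ct S.σ b * ct S.σ a := by
  ext i j
  simp only [ct, Matrix.mul_apply, map_sum, S.anti]

theorem FormK.σ_one : S.σ 1 = 1 := by
  have h := S.anti 1 (S.σ 1)
  rw [one_mul, S.invol] at h
  rw [one_mul] at h
  exact h.symm

theorem FormK.σ_alg (c : ℝ) : S.σ (algebraMap ℝ K c) = algebraMap ℝ K c := by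
  rw [Algebra.algebraMap_eq_smul_one, map_smul, S.σ_one]

theorem ct_one {A : Type} [DecidableEq A] : ct S.σ (1 : Matrix A A K) = 1 := by
  ext i j
  by_cases h : i = j
  · subst h; simp [ct, S.σ_one]
  · simp [ct, Matrix.one_apply_ne h, Matrix.one_apply_ne (Ne.symm h)]

theorem ct_ct {A C : Type} (g : Matrix A C K) : ct S.σ (ct S.σ g) = g := by
  ext i j; simp only [ct, S.invol]

theorem JI_mul_apply {C : Type} (M : Matrix I C K) (p : I) (q : C) :
    (JI B K * M) p q = algebraMap ℝ K (B.jc p) * M (B.bar p) q := by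
  rw [Matrix.mul_apply, Finset.sum_eq_single (B.bar p)]
  · rw [JI, if_pos rfl]
  · intro b _ hb; rw [JI, if_neg hb, zero_mul]
  · intro h; exact absurd (Finset.mem_univ _) h

theorem mul_JI_apply {C : Type} (M : Matrix C I K) (p : C) (q : I) :
    (M * JI B K) p q = M p (B.bar q) * algebraMap ℝ K (B.jc (B.bar q)) := by
  rw [Matrix.mul_apply, Finset.sum_eq_single (B.bar q)]
  · rw [JI, if_pos (B.bar_bar q).symm]
  · intro b _ hb
    rw [JI, if_neg, mul_zero]
    rintro rfl
    exact hb (B.bar_bar b).symm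
  · intro h; exact absurd (Finset.mem_univ _) h

theorem JI_mulVec (u : I → K) (p : I) :
    (JI B K *ᵥ u) p = algebraMap ℝ K (B.jc p) * u (B.bar p) := by
  rw [Matrix.mulVec, dotProduct, Finset.sum_eq_single (B.bar p)]
  · rw [JI, if_pos rfl]
  · intro b _ hb; rw [JI, if_neg hb, zero_mul]
  · intro h; exact absurd (Finset.mem_univ _) h

/-- the inverse of the matrix of the form -/
noncomputable def JInv (B : IForm I) (K : Type) [Ring K] [Algebra ℝ K] : Matrix I I K :=
  fun p q => if q = B.bar p then algebraMap ℝ K (B.jc (B.bar p)) else 0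

theorem JInv_mul_JI : JInv B K * JI B K = 1 := by
  ext p q
  rw [mul_JI_apply, JInv]
  by_cases h : p = q
  · subst h
    rw [if_pos rfl, Matrix.one_apply_eq, ← map_mul, B.jc_sq, map_one]
  · rw [if_neg, Matrix.one_apply_ne h, zero_mul]
    intro h1
    apply h
    rw [← B.bar_bar p, ← h1, B.bar_bar]

theorem JI_mul_JInv : JI B K * JInv B K = 1 := by
  ext p q
  rw [JI_mul_apply, JInv, B.bar_bar]
  by_cases h : p = q
  · subst h
    rw [if_pos rfl, Matrix.one_apply_eq, ← map_mul, B.jc_sq, map_one]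
  · rw [if_neg (Ne.symm h), Matrix.one_apply_ne h, mul_zero]

/-- the adjoint `J⁻¹ M^* J`; the inverse of an element of the isometry group -/
noncomputable def adj (M : Matrix I I K) : Matrix I I K := JInv B K * ct S.σ M * JI B K

theorem adj_apply (M : Matrix I I K) (p q : I) :
    adj B S M p q = algebraMap ℝ K (B.jc (B.bar p)) * S.σ (M (B.bar q) (B.bar p)) *
      algebraMap ℝ K (B.jc (B.bar q)) := by
  rw [adj, mul_JI_apply, Matrix.mul_apply, Finset.sum_eq_single (B.bar p)]
  · rw [JInv, if_pos rfl, ct_apply]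
  · intro b _ hb; rw [JInv, if_neg hb, zero_mul]
  · intro h; exact absurd (Finset.mem_univ _) h

theorem v_adj (hv : UNorm v) (hva : ∀ c : ℝ, c ≠ 0 → v (algebraMap ℝ K c) = 1)
    (M : Matrix I I K) (p q : I) : v (adj B S M p q) = v (M (B.bar q) (B.bar p)) := by
  have h : ∀ p, v (algebraMap ℝ K (B.jc p)) = 1 := by
    intro p
    apply hva
    intro h
    have := B.jc_sq p
    rw [h] at this
    norm_num at this
  rw [adj_apply, hv.mul, hv.mul, h, h, S.norm_σ, one_mul, mul_one]

theorem adj_mul_self {M : Matrix I I K} (hM : ct S.σ M * JI B K * M = JI B K) :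
    adj B S M * M = 1 := by
  rw [adj, mul_assoc, mul_assoc, ← mul_assoc (ct S.σ M), hM, JInv_mul_JI]

end form

end Pool.Agent.ANQ
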