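import Pool.Agent.ANQ.Near
import Pool.Agent.ANQ.Comp
import Pool.Agent.ANQ.Sel
import Pool.Agent.ANQ.Poly

/-!
# The difference elements of the frames
-/

namespace Pool.Agent.ANQ

open Matrix Filter Topology Pool.Agent.ANM51 Pool.Agent.ANM65

set_option linter.unusedSectionVars false

/-- `h⁻¹ h'` for isometries -/
noncomputable def VV {D I : Type} [NormedDivisionRing D] [NormedAlgebra ℝ D] [Fintype I]
    [DecidableEq I] (B : IForm I) (F : FormData D) (h h' : Matrix I I D) : Matrix I I D :=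
  JInv B D * ct F.σ h * JI B D * h'

section alg

variable {n : ℕ} {K : Type} [DivisionRing K] [Algebra ℝ K] {v : K → ℝ} {I : Type} [Fintype I]
  [DecidableEq I] {B : IForm I} {S : FormK v}

theorem mul_adj_self {M : Matrix I I K} (hM : ct S.σ M * JI B K * M = JI B K) :
    M * adj B S M = 1 := mul_eq_one_comm.1 (adj_mul_self B S hM)

theorem form_adj {M : Matrix I I K} (hM : ct S.σ M * JI B K * M = JI B K) :
    ct S.σ (adj B S M) * JI B K * adj B S M = JI B K := by
  have h1 := mul_adj_self hM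
  calc ct S.σ (adj B S M) * JI B K * adj B S M
      = ct S.σ (adj B S M) * (ct S.σ M * JI B K * M) * adj B S M := by rw [hM]
    _ = (ct S.σ (adj B S M) * ct S.σ M) * JI B K * (M * adj B S M) := by simp only [mul_assoc]
    _ = JI B K := by rw [← ct_mul, h1, ct_one, one_mul, mul_one]

theorem form_mulK {M N : Matrix I I K} (hM : ct S.σ M * JI B K * M = JI B K)
    (hN : ct S.σ N * JI B K * N = JI B K) : ct S.σ (M * N) * JI B K * (M * N) = JI B K := by
  calc ct S.σ (M * N) * JI B K * (M * N) = ct S.σ N * (ct S.σ M * JI B K * M) * N := by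
        rw [ct_mul]; simp only [mul_assoc]
    _ = JI B K := by rw [hM, hN]

theorem adj_mul (M N : Matrix I I K) : adj B S (M * N) = adj B S N * adj B S M := by
  have h1 : JI B K * JInv B K = 1 := JI_mul_JInv B
  calc adj B S (M * N) = JInv B K * ct S.σ N * (JI B K * JInv B K) * ct S.σ M * JI B K := by
        rw [h1, mul_one, adj, ct_mul]; simp only [mul_assoc]
    _ = _ := by rw [adj, adj]; simp only [mul_assoc]

theorem adj_eq_of_mul {M N : Matrix I I K} (hM : ct S.σ M * JI B K * M = JI B K)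
    (h : M * N = 1) : adj B S M = N := by
  calc adj B S M = adj B S M * (M * N) := by rw [h, mul_one]
    _ = N := by rw [← mul_assoc, adj_mul_self B S hM, one_mul]

end alg

section deriv

theorem hasFDerivAt_neg_of_even {n : ℕ} {ν : (Fin n → ℝ) → ℝ} (hν : Nrm ν)
    {χ : (Fin n → ℝ) →L[ℝ] ℝ} {w : Fin n → ℝ} (h : HasFDerivAt ν χ w) :
    HasFDerivAt ν (-χ) (-w) := by
  have h1 : HasFDerivAt (fun x : Fin n → ℝ => -x) (-(ContinuousLinearMap.id ℝ (Fin n → ℝ))) (-w) :=
    (hasFDerivAt_id (-w)).neg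
  have h2 : HasFDerivAt ν χ (-(-w)) := by rwa [neg_neg]
  have h3 := h2.comp (-w) h1
  have h4 : ν ∘ (fun x : Fin n → ℝ => -x) = ν := by
    funext x; exact hν.neg x
  rw [h4] at h3
  have h5 : χ.comp (-(ContinuousLinearMap.id ℝ (Fin n → ℝ))) = -χ := by
    apply ContinuousLinearMap.ext
    intro x
    change χ (-x) = -χ x
    rw [map_neg]
  rwa [h5] at h3

end deriv

section vd

variable {n : ℕ} {D₁ D₂ : Type} [NormedDivisionRing D₁] [NormedAlgebra ℝ D₁]
  [NormedDivisionRing D₂] [NormedAlgebra ℝ D₂] {I : Type} [Fintype I] [DecidableEq I] [Nonempty I]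
  {B : IForm I} {F : FormData D₂} {f : ANSL n D₁ → (Matrix I I D₂)ˣ} {L C : ℝ}
  {U : Ultrafilter ℕ} {r : ℕ → ℝ} {K : Type} [DivisionRing K] [Algebra ℝ K]
  (R : RobData U r D₂ K)

theorem VV_eq (hf : QIE B F f L C) (x y : ANSL n D₁) (h h' : Matrix I I D₂) :
    VV B F h h' = JInv B D₂ * ct F.σ ((f x)⁻¹.val * h) * JI B D₂ * ((f x)⁻¹ * f y).val *
      ((f y)⁻¹.val * h') := by
  have h1 : ct F.σ (f x)⁻¹.val * JI B D₂ = JI B D₂ * (f x).val := by
    have h2 := fg_inv (hf.mem x)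
    calc ct F.σ (f x)⁻¹.val * JI B D₂ = ct F.σ (f x)⁻¹.val * JI B D₂ *
          ((f x)⁻¹.val * (f x).val) := by rw [Units.inv_mul, mul_one]
      _ = JI B D₂ * (f x).val := by rw [← mul_assoc, h2]
  have h3 : ct F.σ ((f x)⁻¹.val * h) = ct F.σ h * ct F.σ (f x)⁻¹.val :=
    ct_mul (FormData.toFormK F) _ _
  rw [h3, Units.val_mul, VV]
  calc JInv B D₂ * ct F.σ h * JI B D₂ * h'
      = JInv B D₂ * ct F.σ h * JI B D₂ * ((f x).val * (f x)⁻¹.val) *
          ((f y).val * (f y)⁻¹.val) * h' := by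
        rw [Units.mul_inv, Units.mul_inv, mul_one, mul_one]
    _ = JInv B D₂ * ct F.σ h * (JI B D₂ * (f x).val) * (f x)⁻¹.val *
          ((f y).val * (f y)⁻¹.val) * h' := by simp only [mul_assoc]
    _ = _ := by rw [← h1]; simp only [mul_assoc]

theorem VV_mod (hf : QIE B F f L C) (hr : Tendsto r (U : Filter ℕ) atTop)
    {x y : ℕ → ANSL n D₁} (hxy : NearS U r x y) {h h' : ℕ → Matrix I I D₂}
    (hh : ModM U r fun i => (f (x i))⁻¹.val * h i) (hh' : ModM U r fun i => (f (y i))⁻¹.val * h' i) :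
    ModM U r fun i => VV B F (h i) (h' i) := by
  have h1 : (fun i => VV B F (h i) (h' i)) = fun i =>
      JInv B D₂ * ct F.σ ((f (x i))⁻¹.val * h i) * JI B D₂ * ((f (x i))⁻¹ * f (y i)).val *
      ((f (y i))⁻¹.val * h' i) := by
    funext i; exact VV_eq hf _ _ _ _
  rw [h1]
  exact ((((ModM.const hr _).mul hr (ModM.ct (F := F) hh)).mul hr (ModM.const hr _)).mul hr
    (hf.modM hr hxy)).mul hr hh'

theorem VV_cl (hf : QIE B F f L C) (hr : Tendsto r (U : Filter ℕ) atTop) (S : FormK R.v)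
    (hS : ∀ a, Mod U r a → S.σ (R.toK a) = R.toK (fun i => F.σ (a i)))
    {x y : ℕ → ANSL n D₁} (hxy : NearS U r x y) {h h' : ℕ → Matrix I I D₂}
    (hh : ModM U r fun i => (f (x i))⁻¹.val * h i) (hh' : ModM U r fun i => (f (y i))⁻¹.val * h' i) :
    cl R (fun i => VV B F (h i) (h' i)) = adj B S (cl R fun i => (f (x i))⁻¹.val * h i) *
      cc R f x y * cl R (fun i => (f (y i))⁻¹.val * h' i) := by
  have h1 : (fun i => VV B F (h i) (h' i)) = fun i =>
      JInv B D₂ * ct F.σ ((f (x i))⁻¹.val * h i) * JI B D₂ * ((f (x i))⁻¹ * f (y i)).val *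
      ((f (y i))⁻¹.val * h' i) := by
    funext i; exact VV_eq hf _ _ _ _
  have m1 : ModM U r fun _ : ℕ => JInv B D₂ := ModM.const hr _
  have m2 : ModM U r fun i => ct F.σ ((f (x i))⁻¹.val * h i) := ModM.ct (F := F) hh
  have m3 : ModM U r fun _ : ℕ => JI B D₂ := ModM.const hr _
  have m4 := hf.modM hr hxy
  rw [h1, cl_mul R hr (((m1.mul hr m2).mul hr m3).mul hr m4) hh',
    cl_mul R hr ((m1.mul hr m2).mul hr m3) m4, cl_mul R hr (m1.mul hr m2) m3,
    cl_mul R hr m1 m2, cl_JInv, cl_JI, cl_ct R F S hS hh]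
  rfl

theorem sh_near (hr : Tendsto r (U : Filter ℕ) atTop) {x y : ℕ → ANSL n D₁}
    (hxy : NearS U r x y) (w : Fin n → ℝ) : NearS U r (sh r x w) (sh r y w) := by
  have h1 := nearS_sh hr x w 0
  have h2 := nearS_sh hr y 0 w
  rw [sh_zero] at h1 h2
  exact (h1.trans hxy).trans h2

/-- the difference element in terms of the frames moved to the points `w` -/
theorem V_formula (hf : QIE B F f L C) (hr : Tendsto r (U : Filter ℕ) atTop) (S : FormK R.v)
    (hS : ∀ a, Mod U r a → S.σ (R.toK a) = R.toK (fun i => F.σ (a i)))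
    {x y : ℕ → ANSL n D₁} (hxy : NearS U r x y) {Hx Hy : Matrix I I K} (w : Fin n → ℝ) :
    adj B S Hx * cc R f x y * Hy = adj B S (phiS (r := r) R f x w 0 * Hx) *
      cc R f (sh r x w) (sh r y w) * (phiS (r := r) R f y w 0 * Hy) := by
  have h1 : adj B S (phiS (r := r) R f x w 0) = phiS (r := r) R f x 0 w := by
    refine adj_eq_of_mul (cc_form R hf hr S hS (nearS_sh hr x w 0)) ?_
    rw [phiS, phiS, cc_mul R hf hr (nearS_sh hr x w 0) (nearS_sh hr x 0 w), cc_self]
  rw [adj_mul, h1]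
  have h2 : phiS (r := r) R f x 0 w * cc R f (sh r x w) (sh r y w) * phiS (r := r) R f y w 0 =
      cc R f x y := by
    rw [phiS, phiS, cc_mul R hf hr (nearS_sh hr x 0 w) (sh_near hr hxy w),
      cc_mul R hf hr ((nearS_sh hr x 0 w).trans (sh_near hr hxy w)) (nearS_sh hr y w 0),
      sh_zero, sh_zero]
  rw [← h2]
  simp only [mul_assoc]

theorem exists_vdata (hf : QIE B F f L C) (hU : (U : Filter ℕ) ≤ atTop)
    (hr : Tendsto r (U : Filter ℕ) atTop) (S : FormK R.v)
    (hS : ∀ a, Mod U r a → S.σ (R.toK a) = R.toK (fun i => F.σ (a i)))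
    {wI : I → (Fin n → ℝ) →ₗ[ℝ] ℝ} (hwI : WtI B wI)
    {Good : ℕ → Set (ANSL n D₁)} (hE : EnergyProp U r f Good)
    (hct : ∀ (ν : (Fin n → ℝ) → ℝ) (φ : (Fin n → ℝ) → (Fin n → ℝ) → Matrix I I K),
      FlatK S B ν φ → Nrm ν → ∀ (a : ℕ) (χ : Fin a → ((Fin n → ℝ) →L[ℝ] ℝ)),
        (∀ i, ∃ w, HasFDerivAt ν (χ i) w) → (∀ i j, i ≠ j → χ i ≠ χ j ∧ χ i ≠ -χ j) → a ≤ n)
    (hfr : ∀ (ν : (Fin n → ℝ) → ℝ) (φ : (Fin n → ℝ) → (Fin n → ℝ) → Matrix I I K),
      FlatK S B ν φ → Nrm ν → ∀ T : (Fin n → ℝ) ≃ₗ[ℝ] (Fin n → ℝ),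
        (∀ k : Fin n, ∃ w, ∃ χ : (Fin n → ℝ) →L[ℝ] ℝ, HasFDerivAt ν χ w ∧ ∀ p, χ p = T p k) →
        ∃ H, FrameK S B wI T φ H)
    {g : ℕ → ANSL n D₁} (hg : ∀ᶠ i in (U : Filter ℕ), g i ∈ Good i) :
    ∃ (T : (Fin n → ℝ) ≃ₗ[ℝ] (Fin n → ℝ)) (HH : ℕ → ANSL n D₁ → Matrix I I D₂),
      VData U r R.v S B wI T (GGs U r Good g)
        (fun x y => cl R fun i => VV B F (HH i (x i)) (HH i (y i))) ∧
      ∀ x ∈ GGs U r Good g, ∀ y ∈ GGs U r Good g,
        ModM U r fun i => VV B F (HH i (x i)) (HH i (y i)) := by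
  have hv := R.hv
  have hva := v_alg R hr
  -- the norm and the linear map at a good point
  have hT : ∀ x : ℕ → ANSL n D₁, (∀ᶠ i in (U : Filter ℕ), x i ∈ Good i) →
      ∃ ν, Nrm ν ∧ FlatK S B ν (phiS (r := r) R f x) ∧ ∃ T : (Fin n → ℝ) ≃ₗ[ℝ] (Fin n → ℝ),
        ∀ k : Fin n, ∃ w, ∃ χ : (Fin n → ℝ) →L[ℝ] ℝ, HasFDerivAt ν χ w ∧ ∀ p, χ p = T p k := by
    intro x hx
    obtain ⟨ν, hν, hφ⟩ := flatK_phiS R hf hr S hS hE hx
    obtain ⟨k, hk, hlo⟩ := hν.lo
    obtain ⟨K', hK'⟩ := hν.up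
    exact ⟨ν, hν, hφ, poly ν hν.sub hν.hom hk hlo hK' (hct ν _ hφ hν)⟩
  obtain ⟨νg, hνg, hφg, T, hTg⟩ := hT g hg
  obtain ⟨Hg, hHg⟩ := hfr νg _ hφg hνg T hTg
  obtain ⟨HH, hHH⟩ := exists_HH R hU hr F S hS B wI T f
  -- frames at all the points of `GG`
  have hfrm : ∀ x ∈ GGs U r Good g,
      ModM U r (fun i => ((f (x i))⁻¹).val * HH i (x i)) ∧
      FrameK S B wI T (phiS (r := r) R f x) (cl R fun i => ((f (x i))⁻¹).val * HH i (x i)) := by
    intro x hx
    obtain ⟨νx, hνx, hφx, T', hTx⟩ := hT x hx.1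
    obtain ⟨Hx, hHx⟩ := hfr νx _ hφx hνx T' hTx
    obtain ⟨c, hc⟩ := vm_cc_cone R hf hr hx
    have hcomp := frame_compare hv hva S B hwI hφg.mul hφg.one hφg.form hφx.mul hφx.one
      hφx.form hHg hHx (fun w => cc R f (sh r g w) (sh r x w)) (fun w => by
        rw [phiS, phiS, cc_mul R hf hr (nearS_sh hr g w 0) (sh_near hr hx.2.2 0),
          cc_mul R hf hr (sh_near hr hx.2.2 w) (nearS_sh hr x w 0)])
      (cc_form R hf hr S hS (sh_near hr hx.2.2 0)) hc
    refine hHH x νx hνx hφx (fun w w' => hf.modM hr (nearS_sh hr x w w')) ?_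
    refine hfr νx _ hφx hνx T fun k => ?_
    obtain ⟨l, hl⟩ := hcomp k
    obtain ⟨w, χ, hw, hχ⟩ := hTx l
    rcases hl with hl | hl
    · exact ⟨w, χ, hw, fun p => by rw [hχ, hl]⟩
    · refine ⟨-w, -χ, hasFDerivAt_neg_of_even hνx hw, fun p => ?_⟩
      rw [hl, ← hχ]; rfl
  have hnear : ∀ x ∈ GGs U r Good g, ∀ y ∈ GGs U r Good g, NearS U r x y := fun x hx y hy =>
    hx.2.2.symm.trans hy.2.2
  set V : (ℕ → ANSL n D₁) → (ℕ → ANSL n D₁) → Matrix I I K :=
    fun x y => cl R fun i => VV B F (HH i (x i)) (HH i (y i)) with hV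
  set HK : (ℕ → ANSL n D₁) → Matrix I I K := fun x => cl R fun i => ((f (x i))⁻¹).val * HH i (x i)
    with hHK
  have hVeq : ∀ x ∈ GGs U r Good g, ∀ y ∈ GGs U r Good g,
      V x y = adj B S (HK x) * cc R f x y * HK y := fun x hx y hy =>
    VV_cl R hf hr S hS (hnear x hx y hy) (hfrm x hx).1 (hfrm y hy).1
  have hHKf : ∀ x ∈ GGs U r Good g, ct S.σ (HK x) * JI B K * HK x = JI B K := fun x hx =>
    (hfrm x hx).2.form
  -- entries of the moved frames
  have hM : ∀ x ∈ GGs U r Good g, ∀ w p q,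
      R.v ((phiS (r := r) R f x w 0 * HK x) p q) ≤ Real.exp (-(wI q (T w))) := fun x hx =>
    (hfrm x hx).2.bd
  have hM' : ∀ x ∈ GGs U r Good g, ∀ w p q,
      R.v (adj B S (phiS (r := r) R f x w 0 * HK x) p q) ≤ Real.exp (wI p (T w)) := by
    intro x hx w p q
    rw [v_adj B S hv hva]
    refine (hM x hx w _ _).trans (le_of_eq ?_)
    rw [hwI.bar, neg_neg]
  have hMf : ∀ x ∈ GGs U r Good g, ∀ w, ct S.σ (phiS (r := r) R f x w 0 * HK x) * JI B K *
      (phiS (r := r) R f x w 0 * HK x) = JI B K := fun x hx w =>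
    form_mulK (cc_form R hf hr S hS (nearS_sh hr x w 0)) (hHKf x hx)
  -- the upper estimate
  have hup : ∀ x ∈ GGs U r Good g, ∀ y ∈ GGs U r Good g, ∀ w p q,
      R.v (V x y p q) ≤ Real.exp (wI p (T w) - wI q (T w)) *
        vm R.v (cc R f (sh r x w) (sh r y w)) := by
    intro x hx y hy w p q
    rw [hVeq x hx y hy, V_formula R hf hr S hS (hnear x hx y hy) w, Matrix.mul_apply]
    have h0 : 0 ≤ Real.exp (wI p (T w) - wI q (T w)) *
        vm R.v (cc R f (sh r x w) (sh r y w)) := mul_nonneg (Real.exp_pos _).le (hv.vm_nonneg _)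
    refine hv.sum_le _ _ h0 fun b _ => ?_
    rw [hv.mul]
    have h1 : R.v ((adj B S (phiS (r := r) R f x w 0 * HK x) *
        cc R f (sh r x w) (sh r y w)) p b) ≤ Real.exp (wI p (T w)) *
        vm R.v (cc R f (sh r x w) (sh r y w)) := by
      rw [Matrix.mul_apply]
      refine hv.sum_le _ _ (mul_nonneg (Real.exp_pos _).le (hv.vm_nonneg _)) fun a _ => ?_
      rw [hv.mul]
      exact mul_le_mul (hM' x hx w p a) (hv.le_vm _ a b) (hv.nonneg _) (Real.exp_pos _).le
    refine (mul_le_mul h1 (hM y hy w b q) (hv.nonneg _)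
      (mul_nonneg (Real.exp_pos _).le (hv.vm_nonneg _))).trans (le_of_eq ?_)
    rw [sub_eq_add_neg, Real.exp_add]
    ring
  refine ⟨T, HH, ⟨?_, ?_, ?_, ?_, ?_, ?_⟩, fun x hx y hy =>
    VV_mod hf hr (hnear x hx y hy) (hfrm x hx).1 (hfrm y hy).1⟩
  · intro x hx
    change V x x = 1
    rw [hVeq x hx x hx, cc_self, mul_one, adj_mul_self B S (hHKf x hx)]
  · intro x hx y hy z hz
    change V x y * V y z = V x z
    rw [hVeq x hx y hy, hVeq y hy z hz, hVeq x hx z hz,
      ← cc_mul R hf hr (hnear x hx y hy) (hnear y hy z hz)]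
    calc adj B S (HK x) * cc R f x y * HK y * (adj B S (HK y) * cc R f y z * HK z)
        = adj B S (HK x) * cc R f x y * (HK y * adj B S (HK y)) * cc R f y z * HK z := by
          simp only [mul_assoc]
      _ = _ := by rw [mul_adj_self (hHKf y hy), mul_one]; simp only [mul_assoc]
  · intro x hx y hy
    change ct S.σ (V x y) * JI B K * V x y = JI B K
    rw [hVeq x hx y hy]
    exact form_mulK (form_mulK (form_adj (hHKf x hx)) (cc_form R hf hr S hS (hnear x hx y hy)))
      (hHKf y hy)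
  · intro x hx y hy p q hne w hw
    change V x y p q ≠ 0 at hne
    by_contra hcon
    push Not at hcon
    obtain ⟨cx, hcx⟩ := vm_cc_cone R hf hr hx
    obtain ⟨cy, hcy⟩ := vm_cc_cone R hf hr hy
    -- the norm on the cone is bounded
    have hb : ∀ w : Fin n → ℝ, Antitone (ext w) →
        vm R.v (cc R f (sh r x w) (sh r y w)) ≤ cx * cy := by
      intro w hw
      have h1 : cc R f (sh r x w) (sh r y w) =
          cc R f (sh r x w) (sh r g w) * cc R f (sh r g w) (sh r y w) :=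
        (cc_mul R hf hr (sh_near hr hx.2.2.symm w) (sh_near hr hy.2.2 w)).symm
      have h2 : vm R.v (cc R f (sh r x w) (sh r g w)) ≤ cx := by
        have h3 : cc R f (sh r x w) (sh r g w) = adj B S (cc R f (sh r g w) (sh r x w)) := by
          symm
          refine adj_eq_of_mul (cc_form R hf hr S hS (sh_near hr hx.2.2 w)) ?_
          rw [cc_mul R hf hr (sh_near hr hx.2.2 w) (sh_near hr hx.2.2.symm w), cc_self]
        rw [h3]
        refine hv.vm_le ((hv.vm_nonneg _).trans (hcx w hw)) fun a b => ?_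
        rw [v_adj B S hv hva]
        exact (hv.le_vm _ _ _).trans (hcx w hw)
      rw [h1]
      exact (hv.vm_mul_le _ _).trans (mul_le_mul h2 (hcy w hw) (hv.vm_nonneg _)
        ((hv.vm_nonneg _).trans h2))
    have hcc : 0 ≤ cx * cy := by
      refine (hv.vm_nonneg _).trans (hb 0 ?_)
      have h0 : ext (0 : Fin n → ℝ) = 0 := by
        have := ext_smul (0 : ℝ) (0 : Fin n → ℝ)
        rwa [zero_smul, zero_smul] at this
      rw [h0]
      intro a b _; exact le_refl _
    apply hne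
    refine hv.eq_zero_of_forall_le fun C' => ?_
    set δ : ℝ := -(wI p (T w) - wI q (T w)) with hδ
    have hδpos : 0 < δ := by rw [hδ]; linarith
    -- choose `t` large
    obtain ⟨t, ht0, ht⟩ : ∃ t : ℝ, 0 ≤ t ∧ Real.exp (-(t * δ)) * (cx * cy) ≤ Real.exp (-C') := by
      refine ⟨max 0 ((C' + (cx * cy)) / δ), le_max_left _ _, ?_⟩
      have h1 : C' + cx * cy ≤ max 0 ((C' + (cx * cy)) / δ) * δ := by
        rw [← div_le_iff₀ hδpos]; exact le_max_right _ _
      have h2 : cx * cy ≤ Real.exp (cx * cy) := by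
        have := Real.add_one_le_exp (cx * cy); linarith
      calc _ ≤ Real.exp (-(C' + cx * cy)) * Real.exp (cx * cy) :=
            mul_le_mul (Real.exp_le_exp.2 (by linarith)) h2 hcc (Real.exp_pos _).le
        _ = _ := by rw [← Real.exp_add]; congr 1; ring
    have hw' : Antitone (ext (t • w)) := by
      rw [ext_smul]
      intro a b hab
      exact mul_le_mul_of_nonneg_left (hw hab) ht0
    refine (hup x hx y hy (t • w) p q).trans ?_
    refine le_trans ?_ ht
    have h3 : wI p (T (t • w)) - wI q (T (t • w)) = -(t * δ) := by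
      rw [map_smul, map_smul, map_smul, hδ, smul_eq_mul, smul_eq_mul]; ring
    rw [h3]
    exact mul_le_mul_of_nonneg_left (hb _ hw') (Real.exp_pos _).le
  · intro x hx i j hij y hy τ w hle hw p q
    change R.v (V x (x * rts hij y) p q) ≤ _
    refine (hup x hx _ hy w p q).trans ?_
    have h1 := vm_cc_root_le R hf hr (x := x) hij hle hw
    have h2 := Real.exp_pos (wI p (T w) - wI q (T w))
    nlinarith
  · intro x hx i j hij y hy τ w hge hw
    change ∃ p q, Real.exp (wI p (T w) - wI q (T w)) < R.v (V x (x * rts hij y) p q)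
    have h1 := lt_vm_cc_root R hf hr (x := x) hij (hnear x hx _ hy) hge hw
    by_contra hcon
    push Not at hcon
    set z := x * rts hij y with hz
    -- `c(w) = M V adj M'`
    have h2 : cc R f (sh r x w) (sh r z w) = (phiS (r := r) R f x w 0 * HK x) * V x z *
        adj B S (phiS (r := r) R f z w 0 * HK z) := by
      rw [hVeq x hx z hy, V_formula R hf hr S hS (hnear x hx z hy) w]
      calc cc R f (sh r x w) (sh r z w)
          = ((phiS (r := r) R f x w 0 * HK x) * adj B S (phiS (r := r) R f x w 0 * HK x)) *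
            cc R f (sh r x w) (sh r z w) *
            ((phiS (r := r) R f z w 0 * HK z) * adj B S (phiS (r := r) R f z w 0 * HK z)) := by
            rw [mul_adj_self (hMf x hx w), mul_adj_self (hMf z hy w), one_mul, mul_one]
        _ = _ := by simp only [mul_assoc]
    have h3 : vm R.v (cc R f (sh r x w) (sh r z w)) ≤ 1 := by
      refine hv.vm_le zero_le_one fun a b => ?_
      rw [h2, Matrix.mul_apply]
      refine hv.sum_le _ _ zero_le_one fun q _ => ?_
      rw [hv.mul]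
      have h4 : R.v (((phiS (r := r) R f x w 0 * HK x) * V x z) a q) ≤
          Real.exp (-(wI q (T w))) := by
        rw [Matrix.mul_apply]
        refine hv.sum_le _ _ (Real.exp_pos _).le fun p _ => ?_
        rw [hv.mul]
        refine (mul_le_mul (hM x hx w a p) (hcon p q) (hv.nonneg _) (Real.exp_pos _).le).trans
          (le_of_eq ?_)
        rw [← Real.exp_add]; congr 1; ring
      refine (mul_le_mul h4 (hM' z hy w q b) (hv.nonneg _) (Real.exp_pos _).le).trans
        (le_of_eq ?_)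
      rw [← Real.exp_add, neg_add_cancel, Real.exp_zero]
    linarith

end vd

end Pool.Agent.ANQ
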